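import Pool.Agent.MP_12a176_ag.HC.St

set_option autoImplicit false

namespace Pool.Agent.MP_12a176_ag.HC

open Complex Matrix MvPolynomial
open scoped ComplexOrder ComplexConjugate

section ring

variable {R : Type} [Ring R] [Algebra ℂ R]

theorem leib_Ad (d : Module.End ℂ R) (hd : ∀ x y, d (x * y) = d x * y + x * d y) {x : R}
    (hx : d (d x) = 0) (y : R) (k : ℕ) :
    (d ^ (k + 1)) (x * y) = x * (d ^ (k + 1)) y + ((k : ℂ) + 1) • (d x * (d ^ k) y) := by
  induction k with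
  | zero => simp [hd, add_comm]
  | succ k ih =>
    have e : ∀ (j : ℕ) (z : R), (d ^ (j + 1)) z = d ((d ^ j) z) := fun j z => by
      rw [pow_succ']; rfl
    rw [e (k + 1), ih, map_add, map_smul, hd, hd, hx, zero_mul, zero_add, ← e k, ← e (k + 1)]
    push_cast
    module

theorem pow_Ad (d : Module.End ℂ R) (hd : ∀ x y, d (x * y) = d x * y + x * d y) {x : R}
    (hx : d (d x) = 0) (m : ℕ) :
    (d ^ m) (x ^ m) = (m.factorial : ℂ) • d x ^ m ∧ (d ^ (m + 1)) (x ^ m) = 0 := by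
  induction m with
  | zero =>
    have h := hd 1 1
    rw [mul_one, mul_one, one_mul] at h
    exact ⟨by simp, by simpa using h⟩
  | succ m ih =>
    have e : (d ^ (m + 1 + 1)) (x ^ m) = 0 := by
      rw [pow_succ' d, Module.End.mul_apply, ih.2, map_zero]
    constructor
    · rw [pow_succ' x, leib_Ad d hd hx, ih.1, ih.2, mul_zero, zero_add, mul_smul_comm, smul_smul,
        ← pow_succ', Nat.factorial_succ]
      push_cast
      rfl
    · rw [pow_succ' x, leib_Ad d hd hx, e, ih.2, mul_zero, mul_zero, smul_zero, add_zero]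

end ring

variable {σ : Type}

/-- The commutator as a linear map. -/
noncomputable def dL_Ad (Q : MvPolynomial σ ℂ) : Module.End ℂ (Module.End ℂ (MvPolynomial σ ℂ)) :=
  LinearMap.mulRight ℂ (Mul Q) - LinearMap.mulLeft ℂ (Mul Q)

theorem dL_apply_Ad (Q : MvPolynomial σ ℂ) (S : Module.End ℂ (MvPolynomial σ ℂ)) :
    dL_Ad Q S = S * Mul Q - Mul Q * S := rfl

theorem it_Ad (Q : MvPolynomial σ ℂ) (m : ℕ) (S : Module.End ℂ (MvPolynomial σ ℂ)) :
    (adM Q)^[m] S = (dL_Ad Q ^ m) S := by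
  rw [Module.End.pow_apply]; rfl

theorem dL_mul_Ad (Q : MvPolynomial σ ℂ) (S T : Module.End ℂ (MvPolynomial σ ℂ)) :
    dL_Ad Q (S * T) = dL_Ad Q S * T + S * dL_Ad Q T := by
  simp only [dL_apply_Ad, sub_mul, mul_sub, mul_assoc]
  abel

theorem Mul_eq_Ad (p : MvPolynomial σ ℂ) : Mul p = Algebra.lmul ℂ (MvPolynomial σ ℂ) p := rfl

theorem dL_Mul_Ad (Q p : MvPolynomial σ ℂ) : dL_Ad Q (Mul p) = 0 := by
  rw [dL_apply_Ad, Mul_eq_Ad, Mul_eq_Ad, ← map_mul, ← map_mul, mul_comm, sub_self]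

theorem dL_X_Ad (Q : MvPolynomial σ ℂ) (a : σ) : dL_Ad Q (Dop (X a)) = Mul (pderiv a Q) := by
  refine LinearMap.ext fun q => ?_
  show Dop (X a) (Q * q) - Q * Dop (X a) q = pderiv a Q * q
  rw [Dop_X, Dop_X, Derivation.leibniz, smul_eq_mul, smul_eq_mul]
  ring

theorem pd_Q_Ad [Fintype σ] {s : σ → σ} (hs : Function.Involutive s) (a : σ) :
    pderiv a (∑ b, X b * X (s b) : MvPolynomial σ ℂ) = (2 : ℂ) • X (s a) := by
  classical
  have e : ∀ b, (s b = a) ↔ (b = s a) := fun b =>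
    ⟨fun h => by rw [← h, hs b], fun h => by rw [h, hs a]⟩
  simp only [map_sum, Derivation.leibniz, smul_eq_mul, pderiv_X, Pi.single_apply, e, mul_ite,
    mul_one, mul_zero, Finset.sum_add_distrib, Finset.sum_ite_eq', Finset.mem_univ, if_true]
  rw [two_smul]

theorem dL_lin_Ad [Fintype σ] {s : σ → σ} (hs : Function.Involutive s) (g : σ → ℝ) :
    dL_Ad (∑ b, X b * X (s b)) (Dop (lin g)) = (2 : ℂ) • Mul (rename s (lin g)) := by
  simp only [lin, map_sum (Dop (σ := σ)), map_sum (rename s), map_sum (dL_Ad _), map_smul,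
    dL_X_Ad, pd_Q_Ad hs, rename_X, Mul_eq_Ad, map_sum (Algebra.lmul ℂ (MvPolynomial σ ℂ)),
    Finset.smul_sum]
  exact Finset.sum_congr rfl fun a _ => smul_comm _ _ _

theorem s_ad : SAd := by
  intro σ _ s hs m p hp
  classical
  rw [it_Ad]
  refine Submodule.span_induction (p := fun p _ => (dL_Ad (∑ b, X b * X (s b)) ^ m) (Dop p) =
    (2 ^ m * m.factorial : ℂ) • Mul (rename s p)) ?_ ?_ (fun _ _ _ _ h h' => ?_)
    (fun c _ _ h => ?_) (mem_span_lin hp)
  · rintro _ ⟨g, rfl⟩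
    have h1 := dL_lin_Ad hs g
    have h2 := (pow_Ad _ (dL_mul_Ad (∑ b, X b * X (s b))) (x := Dop (lin g))
      (by rw [h1, map_smul, dL_Mul_Ad, smul_zero]) m).1
    rw [map_pow, h2, h1, smul_pow, smul_smul, map_pow, Mul_eq_Ad, Mul_eq_Ad, map_pow, mul_comm]
  · simp [Mul_eq_Ad]
  · simp only [map_add, h, h', Mul_eq_Ad, smul_add]
  · simp only [map_smul, h, Mul_eq_Ad]
    exact smul_comm _ _ _

end Pool.Agent.MP_12a176_ag.HC
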