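import Pool.Agent.MP_12a176_ag.HC.St

set_option autoImplicit false

namespace Pool.Agent.MP_12a176_ag.HC

open Complex Matrix MvPolynomial
open scoped ComplexOrder ComplexConjugate

section

variable {σ : Type} [Fintype σ]

theorem der_sum_Adm (D : Derivation ℂ (MvPolynomial σ ℂ) (MvPolynomial σ ℂ))
    (P : MvPolynomial σ ℂ) : D P = ∑ a, D (X a) * pderiv a P := by
  classical
  induction P using MvPolynomial.induction_on with
  | C a => simp
  | add p q h h' => simp only [map_add, h, h', mul_add, Finset.sum_add_distrib]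
  | mul_X p k h =>
    simp only [Derivation.leibniz, smul_eq_mul, pderiv_X, Pi.single_apply, mul_add,
      Finset.sum_add_distrib, mul_ite, mul_one, mul_zero, Finset.sum_ite_eq, Finset.mem_univ,
      if_true]
    rw [h, Finset.mul_sum, mul_comm p]
    exact congrArg _ (Finset.sum_congr rfl fun a _ => by ring)

theorem lin_Adm (w : σ → ℂ) (p P : MvPolynomial σ ℂ) :
    Dop p ((∑ c, w c • X c) * P) =
      (∑ c, w c • X c) * Dop p P + Dop (∑ c, w c • pderiv c p) P := by
  simp only [Finset.sum_mul, smul_mul_assoc, map_sum, map_smul, Dop_mul_X, smul_add,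
    Finset.sum_add_distrib, LinearMap.sum_apply, LinearMap.smul_apply]

theorem comm_Adm (w : σ → σ → ℂ) (L L' : Derivation ℂ (MvPolynomial σ ℂ) (MvPolynomial σ ℂ))
    (h : ∀ a, L (X a) = ∑ c, w a c • X c) (h' : ∀ c, L' (X c) = ∑ a, w a c • X a)
    (p P : MvPolynomial σ ℂ) : Dop p (L P) = L (Dop p P) + Dop (L' p) P := by
  have e : ∀ (a : σ) (q : MvPolynomial σ ℂ), Dop q (pderiv a P) = Dop (X a * q) P := fun a q => by
    rw [mul_comm, Dop_mul, Dop_X]
  rw [der_sum_Adm L P, der_sum_Adm L (Dop p P), der_sum_Adm L' p]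
  simp only [h, h', map_sum, lin_Adm, Finset.sum_add_distrib, e]
  congr 1
  · simp only [Dop_mul, Dop_X]
  · simp only [Finset.sum_mul, smul_mul_assoc, map_sum, map_smul, LinearMap.sum_apply,
      LinearMap.smul_apply, e]
    exact Finset.sum_comm

end

section

variable {n : ℕ} (D : Derivation ℂ (A n) (A n))

theorem map_mul_Adm (M N : Matrix (K n) (K n) (A n)) :
    (M * N).map D = M.map D * N + M * N.map D := by
  ext1 a b
  simp only [Matrix.map_apply, Matrix.mul_apply, Matrix.add_apply, map_sum, Derivation.leibniz,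
    smul_eq_mul, ← Finset.sum_add_distrib]
  exact Finset.sum_congr rfl fun c _ => by ring

theorem map_trace_Adm (M : Matrix (K n) (K n) (A n)) : D M.trace = (M.map D).trace := by
  simp only [Matrix.trace, Matrix.diag, map_sum, Matrix.map_apply]

theorem JJ_Adm : JJ n (A n) = (JJ n ℂ).map C := (Matrix.map_J (Fin n) C).symm

theorem map_J_Adm : (JJ n (A n)).map D = 0 := by
  rw [JJ_Adm]
  ext1 a b
  simp only [Matrix.map_apply, derivation_C, Matrix.zero_apply]

theorem map_pr_Adm (M : Matrix (K n) (K n) (A n)) : (pr M).map D = pr (M.map D) := by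
  have h1 : ∀ M N : Matrix (K n) (K n) (A n), ((1 / 2 : ℂ) • (M + N)).map D =
      (1 / 2 : ℂ) • (M.map D + N.map D) := fun M N => by
    ext1 a b
    simp only [Matrix.map_apply, Matrix.smul_apply, Matrix.add_apply, Derivation.map_smul,
      map_add]
  rw [pr, pr, h1, map_mul_Adm, map_mul_Adm, map_J_Adm, Matrix.zero_mul, Matrix.mul_zero, zero_add,
    add_zero, Matrix.transpose_map]

theorem tr_pow_Adm {M W : Matrix (K n) (K n) (A n)} (h : M.map D = W * M - M * W) (k : ℕ) :
    D (M ^ k).trace = 0 := by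
  have h1 : (M ^ k).map D = W * M ^ k - M ^ k * W := by
    induction k with
    | zero =>
      ext1 a b
      simp only [pow_zero, Matrix.map_apply, Matrix.one_apply, mul_one, one_mul, sub_self,
        Matrix.zero_apply]
      split_ifs <;> simp
    | succ k ih =>
      rw [pow_succ, map_mul_Adm, ih, h]
      noncomm_ring
  rw [map_trace_Adm, h1, Matrix.trace_sub, Matrix.trace_mul_comm, sub_self]

theorem map_LZ_Adm (Z : Matrix (K n) (K n) ℂ) :
    (XX n).map (LZ Z) = Z.map C * XX n - XX n * Z.map C := by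
  ext1 a b
  exact mkDerivation_X ℂ _ (a, b)

theorem sp_left_Adm {R : Type} [CommRing R] {W : Matrix (K n) (K n) R} (h : IsSp W) :
    Wᵀ * JJ n R = -(JJ n R * W) := by
  have h1 := congrArg (fun Y => JJ n R * Y * JJ n R) h
  simp only [Matrix.mul_add, Matrix.add_mul, Matrix.mul_zero, Matrix.zero_mul,
    ← Matrix.mul_assoc, Matrix.J_squared] at h1
  rw [Matrix.mul_assoc _ (JJ n R), Matrix.J_squared] at h1
  simp only [Matrix.mul_neg, Matrix.neg_mul, Matrix.mul_one, Matrix.one_mul] at h1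
  rw [← neg_add, neg_eq_zero] at h1
  exact eq_neg_of_add_eq_zero_right h1

theorem sp_tr_Adm {W : Matrix (K n) (K n) ℂ} (h : IsSp W) : IsSp Wᵀ := by
  rw [IsSp, sp_left_Adm h, Matrix.transpose_transpose, neg_add_cancel]

theorem pr_comm_Adm {R : Type} [CommRing R] [Algebra ℂ R] {W : Matrix (K n) (K n) R} (h : IsSp W)
    (Y : Matrix (K n) (K n) R) : pr (W * Y - Y * W) = W * pr Y - pr Y * W := by
  have h1 := sp_left_Adm h
  have h2 : JJ n R * Wᵀ = -(W * JJ n R) := eq_neg_of_add_eq_zero_right h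
  have h3 : JJ n R * (W * Y - Y * W)ᵀ * JJ n R =
      JJ n R * Yᵀ * (Wᵀ * JJ n R) - JJ n R * Wᵀ * Yᵀ * JJ n R := by
    simp only [Matrix.transpose_sub, Matrix.transpose_mul, Matrix.mul_sub, Matrix.sub_mul,
      Matrix.mul_assoc]
  rw [pr, pr, Matrix.mul_smul, Matrix.smul_mul, ← smul_sub, h3, h1, h2]
  refine congrArg _ ?_
  noncomm_ring

theorem LZ_pw_Adm {W : Matrix (K n) (K n) ℂ} (h : IsSp W) (m : ℕ) : LZ W (pw n m) = 0 := by
  have h0 : IsSp (W.map C : Matrix (K n) (K n) (A n)) := by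
    have := congrArg (fun Y : Matrix (K n) (K n) ℂ => Y.map (C : ℂ →+* A n)) h
    simp only [Matrix.map_add _ (map_add _), Matrix.map_mul, Matrix.map_zero _ (map_zero _),
      Matrix.transpose_map] at this
    rwa [IsSp, JJ_Adm]
  refine tr_pow_Adm _ (W := W.map C) ?_ _
  rw [map_pr_Adm, map_LZ_Adm, pr_comm_Adm h0]

theorem LZ_QQ_Adm (Z : Matrix (K n) (K n) ℂ) : LZ Z (QQ n) = 0 := by
  have h : QQ n = (XX n ^ 2).trace := by
    simp only [QQ, sq, Matrix.trace, Matrix.diag, Matrix.mul_apply, Fintype.sum_prod_type]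
    rfl
  exact h ▸ tr_pow_Adm _ (map_LZ_Adm Z) 2

theorem LZ_X_Adm (Z : Matrix (K n) (K n) ℂ) (a : K n × K n) : LZ Z (X a) = ∑ c : K n × K n,
    ((if a.2 = c.2 then Z a.1 c.1 else 0) - if a.1 = c.1 then Z c.2 a.2 else 0) • X c := by
  rw [LZ, mkDerivation_X]
  simp only [Matrix.sub_apply, Matrix.mul_apply, Matrix.map_apply, mvPolynomialX_apply, sub_smul,
    Finset.sum_sub_distrib, Fintype.sum_prod_type, ite_smul, zero_smul, Finset.sum_ite_eq,
    Finset.mem_univ, if_true, Finset.sum_ite_irrel, Finset.sum_const_zero, smul_eq_C_mul,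
    mul_comm (X _)]

theorem supp_pw_Adm (a b : K n) (m : ℕ) : ∃ w : K n × K n → ℂ,
    (XX n * JJ n (A n) + JJ n (A n) * (XX n)ᵀ) a b = ∑ c, w c • X c ∧
      ∑ c, w c • pderiv c (pw n m) = 0 := by
  let W : Matrix (K n) (K n) ℂ := (single a b 1)ᵀ * JJ n ℂ - single a b 1 * JJ n ℂ
  have hJ : ∀ c d, JJ n ℂ c d = -JJ n ℂ d c := fun c d =>
    congrFun (congrFun (Matrix.J_transpose (Fin n) ℂ) d) c
  refine ⟨fun c => W c.1 c.2, ?_, ?_⟩
  · simp only [W, JJ_Adm, Matrix.add_apply, Matrix.sub_apply, Matrix.mul_apply, Matrix.map_apply,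
      Matrix.transpose_apply, mvPolynomialX_apply, Fintype.sum_prod_type, Matrix.single_apply,
      ite_and, ite_mul, one_mul, zero_mul, Finset.sum_ite_eq, Finset.mem_univ, if_true,
      Finset.sum_ite_irrel, Finset.sum_const_zero, sub_smul, Finset.sum_sub_distrib, ite_smul,
      zero_smul, smul_eq_C_mul, hJ b, map_neg, neg_mul, Finset.sum_neg_distrib, mul_comm (X _)]
    ring
  · have h1 := der_sum_Adm (mkDerivation ℂ fun c : K n × K n => (C (W c.1 c.2) : A n)) (pw n m)
    simp only [mkDerivation_X, ← smul_eq_C_mul] at h1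
    rw [← h1]
    refine tr_pow_Adm _ (W := 0) ?_ _
    have h2 : (XX n).map (mkDerivation ℂ fun c : K n × K n => (C (W c.1 c.2) : A n)) = W.map C := by
      ext1 c d
      exact mkDerivation_X ℂ _ (c, d)
    have h3 : W + JJ n ℂ * Wᵀ * JJ n ℂ = 0 := by
      simp only [W, Matrix.transpose_sub, Matrix.transpose_mul, Matrix.transpose_transpose,
        Matrix.J_transpose, Matrix.mul_sub, Matrix.sub_mul, Matrix.neg_mul, Matrix.mul_neg,
        ← Matrix.mul_assoc, Matrix.J_squared, Matrix.one_mul, neg_neg]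
      abel
    have h4 := congrArg (fun Y : Matrix (K n) (K n) ℂ => Y.map (C : ℂ →+* A n)) h3
    simp only [Matrix.map_add _ (map_add _), Matrix.map_mul, Matrix.map_zero _ (map_zero _),
      Matrix.transpose_map] at h4
    rw [map_pr_Adm, h2, pr, JJ_Adm, h4, smul_zero, Matrix.zero_mul, Matrix.mul_zero, sub_zero]

end

theorem s_adm (n : ℕ) : SAdm n := by
  intro ν h
  refine ⟨⟨fun a b P => ?_, fun Z hZ P => ?_⟩, fun m => ⟨fun a b P => ?_, fun Z hZ P => ?_⟩⟩
  · change ν (QQ n * (_ * P)) = 0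
    rw [mul_left_comm]
    exact h.supp a b _
  · have h1 := h.inv Z hZ (QQ n * P)
    rwa [Derivation.leibniz, LZ_QQ_Adm, smul_zero, add_zero] at h1
  · obtain ⟨w, h1, h2⟩ := supp_pw_Adm a b m
    change ν (Dop _ _) = 0
    rw [h1, lin_Adm, h2, ← h1, map_zero, LinearMap.zero_apply, add_zero]
    exact h.supp a b _
  · change ν (Dop _ _) = 0
    rw [comm_Adm _ (LZ Z) (LZ Zᵀ) (LZ_X_Adm Z) (fun c => by
      simp only [LZ_X_Adm, Matrix.transpose_apply, eq_comm]), LZ_pw_Adm (sp_tr_Adm hZ), map_zero,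
      LinearMap.zero_apply, add_zero]
    exact h.inv Z hZ _

end Pool.Agent.MP_12a176_ag.HC
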