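import Pool.Agent.MP_12a176_ag.HC.St

set_option autoImplicit false

namespace Pool.Agent.MP_12a176_ag.HC

open Complex Matrix MvPolynomial
open scoped ComplexOrder ComplexConjugate

variable {n : ℕ}

/-- Left multiplication in the Weyl group. -/
def lm_Alt (s : Equiv.Perm (Fin n)) (ε : Fin n → ℤˣ) (w : Equiv.Perm (Fin n) × (Fin n → ℤˣ)) :
    Equiv.Perm (Fin n) × (Fin n → ℤˣ) := (s * w.1, fun k => w.2 k * ε (w.1 k))

theorem lm_bij_Alt (s : Equiv.Perm (Fin n)) (ε : Fin n → ℤˣ) :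
    Function.Bijective (lm_Alt s ε) := by
  refine Finite.injective_iff_bijective.1 ?_
  rintro ⟨a, b⟩ ⟨c, d⟩ h
  obtain ⟨h1, h2⟩ := Prod.mk.inj h
  obtain rfl : a = c := mul_left_cancel h1
  exact Prod.ext rfl (funext fun k => mul_right_cancel (congrFun h2 k))

theorem wa_wa_Alt (s : Equiv.Perm (Fin n)) (ε : Fin n → ℤˣ)
    (w : Equiv.Perm (Fin n) × (Fin n → ℤˣ)) (q : B n) :
    wa s ε (wa w.1 w.2 q) = wa (lm_Alt s ε w).1 (lm_Alt s ε w).2 q := by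
  have : (wa s ε).comp (wa w.1 w.2) = wa (lm_Alt s ε w).1 (lm_Alt s ε w).2 := by
    refine algHom_ext fun k => ?_
    simp [wa, lm_Alt, smul_smul]
  rw [← this]
  rfl

theorem sg_lm_Alt (s : Equiv.Perm (Fin n)) (ε : Fin n → ℤˣ)
    (w : Equiv.Perm (Fin n) × (Fin n → ℤˣ)) :
    sg (lm_Alt s ε w).1 (lm_Alt s ε w).2 = sg s ε * sg w.1 w.2 := by
  unfold sg lm_Alt
  rw [← Units.val_mul, Finset.prod_mul_distrib, Equiv.prod_comp w.1 ε, map_mul]
  congr 1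
  exact (by ac_rfl)

theorem sg_sq_Alt (s : Equiv.Perm (Fin n)) (ε : Fin n → ℤˣ) : sg s ε * sg s ε = 1 := by
  unfold sg
  rw [← Units.val_mul, Int.units_mul_self, Units.val_one]

theorem s_alt (n : ℕ) : SAlt n := by
  rintro z Λ h ⟨c, hc⟩
  have hW : (Fintype.card (Equiv.Perm (Fin n) × (Fin n → ℤˣ)) : ℂ) ≠ 0 :=
    Nat.cast_ne_zero.2 Fintype.card_ne_zero
  refine ⟨(∑ w, c w * (sg w.1 w.2 : ℂ)) / Fintype.card (Equiv.Perm (Fin n) × (Fin n → ℤˣ)),
    fun q => ?_⟩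
  rw [div_mul_eq_mul_div, eq_div_iff hW, ← Fintype.sum_prod_type'
    (fun s ε => (sg s ε : ℂ) * eval z (wa s ε q))]
  have sq : ∀ s ε, (sg (n := n) s ε : ℂ) * (sg s ε : ℂ) = 1 := fun s ε => by
    exact_mod_cast sg_sq_Alt s ε
  calc Λ q * Fintype.card (Equiv.Perm (Fin n) × (Fin n → ℤˣ))
      = ∑ w : Equiv.Perm (Fin n) × (Fin n → ℤˣ), (sg w.1 w.2 : ℂ) * Λ (wa w.1 w.2 q) := by
        simp only [h, ← mul_assoc, sq, one_mul, Finset.sum_const, Finset.card_univ, nsmul_eq_mul]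
        ring
    _ = ∑ u : Equiv.Perm (Fin n) × (Fin n → ℤˣ), ∑ w : Equiv.Perm (Fin n) × (Fin n → ℤˣ),
          c u * (sg u.1 u.2 : ℂ) * ((sg (lm_Alt u.1 u.2 w).1 (lm_Alt u.1 u.2 w).2 : ℂ)
            * eval z (wa (lm_Alt u.1 u.2 w).1 (lm_Alt u.1 u.2 w).2 q)) := by
        rw [Finset.sum_comm]
        refine Finset.sum_congr rfl fun w _ => ?_
        rw [hc, Finset.mul_sum]
        refine Finset.sum_congr rfl fun u _ => ?_
        rw [wa_wa_Alt, sg_lm_Alt]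
        push_cast
        linear_combination (-(c u * (sg w.1 w.2 : ℂ)
          * eval z (wa (lm_Alt u.1 u.2 w).1 (lm_Alt u.1 u.2 w).2 q))) * sq u.1 u.2
    _ = _ := by
        rw [Finset.sum_mul]
        refine Finset.sum_congr rfl fun u _ => ?_
        rw [← Finset.mul_sum]
        congr 1
        exact (lm_bij_Alt u.1 u.2).sum_comp fun w => (sg w.1 w.2 : ℂ) * eval z (wa w.1 w.2 q)

theorem fix_Alt {ξ : Fin n → ℝ} (h : del ξ = 0) : ∃ (s : Equiv.Perm (Fin n)) (ε : Fin n → ℤˣ),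
    sg s ε = -1 ∧ ∀ k, ((ε k : ℤ) : ℝ) * ξ (s k) = ξ k := by
  classical
  have e : del ξ = (∏ i, ξ i) * (vandermonde fun i => ξ i ^ 2).det := by
    rw [← det_mul_column, del]
    congr 1
    ext i j
    simp only [of_apply, vandermonde_apply]
    ring
  rw [e, mul_eq_zero, Finset.prod_eq_zero_iff, det_vandermonde_eq_zero_iff] at h
  rcases h with ⟨i, _, hi⟩ | ⟨i, j, hij, hne⟩
  · refine ⟨1, Function.update 1 i (-1), ?_, fun k => ?_⟩
    · simp [sg, Finset.prod_update_of_mem]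
    · by_cases hk : k = i
      · simp [hk, hi]
      · simp [hk]
  · rcases sq_eq_sq_iff_eq_or_eq_neg.1 hij with h | h
    · refine ⟨Equiv.swap i j, 1, by simp [sg, hne], fun k => ?_⟩
      rcases eq_or_ne k i with rfl | h1
      · simp [h]
      · rcases eq_or_ne k j with rfl | h2
        · simp [h]
        · simp [Equiv.swap_apply_of_ne_of_ne h1 h2]
    · refine ⟨Equiv.swap i j, Function.update (1 : Fin n → ℤˣ) i (-1)
        * Function.update (1 : Fin n → ℤˣ) j (-1), ?_, fun k => ?_⟩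
      · simp [sg, hne, Finset.prod_mul_distrib, Finset.prod_update_of_mem]
      · rcases eq_or_ne k i with rfl | h1
        · simp [h, hne]
        · rcases eq_or_ne k j with rfl | h2
          · simp [h, h1]
          · simp [Equiv.swap_apply_of_ne_of_ne h1 h2, h1, h2]

theorem s_sing (n : ℕ) : SSing n := by
  intro ξ y h
  obtain ⟨s, ε, h1, h2⟩ := fix_Alt h
  have e : alt ξ y = ∑ w : Equiv.Perm (Fin n) × (Fin n → ℤˣ),
      (sg w.1 w.2 : ℝ) * (∑ k, ((w.2 k : ℤ) : ℝ) * ξ (w.1 k) * y k) ^ (n ^ 2 + 2 * n) := by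
    rw [alt, Fintype.sum_prod_type]
  have e2 := (lm_bij_Alt s ε).sum_comp fun w =>
    (sg w.1 w.2 : ℝ) * (∑ k, ((w.2 k : ℤ) : ℝ) * ξ (w.1 k) * y k) ^ (n ^ 2 + 2 * n)
  have e3 : ∀ w : Equiv.Perm (Fin n) × (Fin n → ℤˣ),
      (sg (lm_Alt s ε w).1 (lm_Alt s ε w).2 : ℝ) * (∑ k, (((lm_Alt s ε w).2 k : ℤ) : ℝ)
        * ξ ((lm_Alt s ε w).1 k) * y k) ^ (n ^ 2 + 2 * n)
      = -((sg w.1 w.2 : ℝ) * (∑ k, ((w.2 k : ℤ) : ℝ) * ξ (w.1 k) * y k) ^ (n ^ 2 + 2 * n)) := by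
    intro w
    have : ∀ k, (((lm_Alt s ε w).2 k : ℤ) : ℝ) * ξ ((lm_Alt s ε w).1 k)
        = ((w.2 k : ℤ) : ℝ) * ξ (w.1 k) := fun k => by
      rw [← h2 (w.1 k)]
      simp [lm_Alt, mul_assoc]
    rw [sg_lm_Alt, h1]
    simp only [this]
    push_cast
    ring
  simp only [e3, Finset.sum_neg_distrib] at e2
  rw [e]
  linarith

end Pool.Agent.MP_12a176_ag.HC
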