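import Pool.Agent.MP_12a176_ag.HC.St

/- Chern polynomials on the Cartan subalgebra. -/

set_option autoImplicit false

namespace Pool.Agent.MP_12a176_ag.HC

open Complex Matrix MvPolynomial
open scoped ComplexOrder ComplexConjugate

theorem det_Chern {n : ℕ} (y : Fin n → ℝ) (s : Fin n → ℂ) (hs : ∀ j, s j = y j / (2 * Real.pi)) :
    det (1 + (Polynomial.X : Polynomial ℂ) •
      ((I / (2 * Real.pi)) • (dg y).submatrix (eK n).symm (eK n).symm).map Polynomial.C) =
    ∏ j, (1 + Polynomial.C (-s j ^ 2) * Polynomial.X ^ 2) := by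
  have h1 : ∀ j, I / (2 * Real.pi) * (I * y j) = -s j := fun j => by
    rw [hs]
    linear_combination (y j / (2 * Real.pi) : ℂ) * I_mul_I
  have h2 : (1 + (Polynomial.X : Polynomial ℂ) •
      ((I / (2 * Real.pi)) • (dg y).submatrix (eK n).symm (eK n).symm).map Polynomial.C) =
      (diagonal (Sum.elim (fun j => 1 - Polynomial.X * Polynomial.C (s j))
        fun j => 1 + Polynomial.X * Polynomial.C (s j))).submatrix (eK n).symm (eK n).symm := by
    refine Matrix.ext fun a b => ?_
    obtain ⟨a, rfl⟩ := (eK n).surjective a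
    obtain ⟨b, rfl⟩ := (eK n).surjective b
    simp only [Matrix.add_apply, Matrix.smul_apply, Matrix.map_apply, submatrix_apply,
      Equiv.symm_apply_apply, dg, smul_eq_mul, one_apply, diagonal_apply,
      EmbeddingLike.apply_eq_iff_eq]
    split_ifs
    · rcases a with j | j
      · rw [Sum.elim_inl, Sum.elim_inl, h1, map_neg, mul_neg, sub_eq_add_neg]
      · rw [Sum.elim_inr, Sum.elim_inr, mul_neg, h1, neg_neg]
    · rw [mul_zero, map_zero, mul_zero, add_zero]
  rw [h2, det_submatrix_equiv_self, det_diagonal, Fintype.prod_sum_type, ← Finset.prod_mul_distrib]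
  refine Finset.prod_congr rfl fun j _ => ?_
  simp only [Sum.elim_inl, Sum.elim_inr, map_neg, map_pow]
  ring

theorem coeff_Chern {n : ℕ} (u : Fin n → ℂ) (k : ℕ) :
    (∏ j, (1 + Polynomial.C (u j) * Polynomial.X ^ 2)).coeff (2 * k) =
      ∑ t ∈ Finset.univ.powersetCard k, ∏ j ∈ t, u j := by
  rw [Finset.prod_one_add, Polynomial.finsetSum_coeff, Finset.powersetCard_eq_filter,
    Finset.sum_filter]
  refine Finset.sum_congr rfl fun t _ => ?_
  rw [Finset.prod_mul_distrib, Finset.prod_const, ← pow_mul, ← map_prod,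
    Polynomial.coeff_C_mul_X_pow]
  exact if_congr (by omega) rfl rfl

theorem one_Chern {n : ℕ} (U : Matrix (K n) (K n) ℂ) (y : Fin n → ℝ) (hU : Uᴴ * U = 1) (k : ℕ) :
    (-(2 * Real.pi) ^ 2 : ℂ) ^ k *
      ev ((U * dg y * Uᴴ).submatrix (eK n).symm (eK n).symm) (chernPoly (2 * n) (2 * k)) =
      ((Finset.univ.val.map fun i => y i ^ 2).esymm k : ℝ) := by
  have hg : Uᴴ.submatrix (eK n).symm (eK n).symm * U.submatrix (eK n).symm (eK n).symm = 1 := by
    rw [submatrix_mul_equiv, hU, submatrix_one_equiv]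
  have hπ : (Real.pi : ℂ) ≠ 0 := by exact_mod_cast Real.pi_ne_zero
  rw [← submatrix_mul_equiv _ _ _ (eK n).symm, ← submatrix_mul_equiv _ _ _ (eK n).symm,
    chern_inv _ _ _ _ hg, ev_chern, det_Chern y _ fun _ => rfl, coeff_Chern, Finset.esymm_map_val,
    Finset.mul_sum]
  push_cast
  refine Finset.sum_congr rfl fun t ht => ?_
  rw [← (Finset.mem_powersetCard.1 ht).2, ← Finset.prod_const, ← Finset.prod_mul_distrib]
  refine Finset.prod_congr rfl fun j _ => ?_
  field_simp

theorem s_chern (n : ℕ) : SChern n := by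
  intro U y μ hU
  have key : ∀ s : Multiset ℕ, (-(2 * Real.pi) ^ 2 : ℂ) ^ s.sum *
      ev ((U * dg y * Uᴴ).submatrix (eK n).symm (eK n).symm)
        (s.map fun k => chernPoly (2 * n) (2 * k)).prod =
      ((s.map fun k => (Finset.univ.val.map fun i => y i ^ 2).esymm k).prod : ℝ) := by
    intro s
    induction s using Multiset.induction with
    | empty => simp
    | cons k s ih =>
      rw [Multiset.sum_cons, Multiset.map_cons, Multiset.prod_cons, Multiset.map_cons,
        Multiset.prod_cons, map_mul, ofReal_mul, ← ih, ← one_Chern U y hU k, pow_add]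
      ring
  have := key μ.parts
  rw [μ.parts_sum] at this
  exact this

end Pool.Agent.MP_12a176_ag.HC
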