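import Pool.Agent.MP_12a176_ag.HC.St

/- Continuous coefficients of the orbital moments. -/

set_option autoImplicit false

namespace Pool.Agent.MP_12a176_ag.HC

open Complex Matrix MvPolynomial
open scoped ComplexOrder ComplexConjugate

/-- The linear form. -/
noncomputable def l_Coef {n : ℕ} (z : Fin n → ℂ) : B n := ∑ k, z k • ((-2 : ℂ) • X k)

/-- The moment polynomial. -/
noncomputable def g_Coef {n : ℕ} (E : A n →ₗ[ℂ] ℂ) : B n :=
  ∑ j : Fin (2 * n) → Fin n, E (io (∏ i, (-2 : ℂ) • X (j i))) • ∏ i, X (j i)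

theorem ell_Coef {n : ℕ} (y : Fin n → ℝ) : ell (dg y) = io (l_Coef fun k => (y k : ℂ)) := by
  have e : ell (dg y) = ∑ a : K n,
      (Sum.elim (fun k => I * y k) (fun k => -(I * y k)) a : ℂ) • (X (a, a) : A n) := by
    rw [ell, Fintype.sum_prod_type]
    refine Finset.sum_congr rfl fun a _ => ?_
    rw [Finset.sum_eq_single a]
    · rw [dg, diagonal_apply_eq]
    · intro b _ hb
      rw [dg, diagonal_apply_ne _ hb, zero_smul]
    · simp
  rw [e, Fintype.sum_sum_type, ← Finset.sum_add_distrib, l_Coef, map_sum]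
  refine Finset.sum_congr rfl fun k _ => ?_
  rw [map_smul, map_smul, io, aeval_X, Sum.elim_inl, Sum.elim_inr]
  module

theorem eval_Coef {n : ℕ} (E : A n →ₗ[ℂ] ℂ) (z : Fin n → ℂ) :
    eval z (g_Coef E) = E (io (l_Coef z ^ (2 * n))) := by
  rw [l_Coef, Fintype.sum_pow, g_Coef, map_sum, map_sum, map_sum]
  refine Finset.sum_congr rfl fun j _ => ?_
  rw [Finset.prod_smul _ (fun i => z (j i)), map_smul io, map_smul E, smul_eval,
    map_prod (eval z), smul_eq_mul, mul_comm]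
  simp only [eval_X]

theorem hom_Coef {n : ℕ} (E : A n →ₗ[ℂ] ℂ) : (g_Coef E).IsHomogeneous (2 * n) := by
  refine IsHomogeneous.sum _ _ _ fun j _ => ?_
  have := IsHomogeneous.prod Finset.univ (fun i => (X (j i) : B n)) (fun _ => 1)
    fun i _ => isHomogeneous_X ℂ (j i)
  rw [Finset.sum_const, Finset.card_univ, Fintype.card_fin, smul_eq_mul, mul_one] at this
  exact (homogeneousSubmodule _ _ _).smul_mem _ this

theorem wa_Coef {n : ℕ} (s : Equiv.Perm (Fin n)) (ε : Fin n → ℤˣ) (z : Fin n → ℂ) (p : B n) :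
    eval z (wa s ε p) = eval (fun k => ((ε k : ℤ) : ℂ) * z (s k)) p := by
  induction p using MvPolynomial.induction_on with
  | C a => simp [wa]
  | add p q hp hq => simp only [map_add, hp, hq]
  | mul_X p k hp =>
    rw [map_mul, map_mul, map_mul, hp]
    simp [wa]

theorem wl_Coef {n : ℕ} (s : Equiv.Perm (Fin n)) (ε : Fin n → ℤˣ) (z : Fin n → ℂ) :
    l_Coef (fun k => ((ε k : ℤ) : ℂ) * z (s k)) = wa s⁻¹ (fun k => ε (s⁻¹ k)) (l_Coef z) := by
  rw [l_Coef, l_Coef, map_sum]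
  refine Eq.trans ?_ (Equiv.sum_comp s _)
  refine Finset.sum_congr rfl fun k _ => ?_
  rw [map_smul, map_smul, wa, aeval_X]
  simp only [Equiv.Perm.coe_inv, Equiv.symm_apply_apply]
  module

theorem em_Coef {n : ℕ} {R S : Type} [CommRing R] [CommRing S] (φ : R →+* S) (μ : n.Partition)
    (y : Fin n → R) : φ (em μ y) = em μ fun k => φ (y k) := by
  simp only [em, map_multiset_prod, Multiset.map_map, Function.comp_def, Finset.esymm_map_val,
    map_sum, map_prod, map_pow]

theorem real_Coef {n : ℕ} {P Q : Matrix (K n) (K n) ℂ} (hA : Pᴴ = -P) (hB : Qᴴ = -Q) :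
    (P * Q).trace = (((P * Q).trace.re : ℝ) : ℂ) := by
  refine (Complex.conj_eq_iff_re.1 ?_).symm
  rw [← Complex.star_def, ← trace_conjTranspose, conjTranspose_mul, hA, hB, Matrix.neg_mul,
    Matrix.mul_neg, neg_neg, trace_mul_comm]

theorem dg_Coef {n : ℕ} (y : Fin n → ℝ) : (dg y)ᴴ = -dg y := by
  rw [dg, diagonal_conjTranspose, diagonal_neg]
  congr 1
  funext a
  rcases a with k | k <;> simp

theorem s_coef {n : ℕ} (h1 : SSpan n) (h2 : SWeyl n) : SCoef n := by
  intro E hP hG hC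
  obtain ⟨L, hL⟩ := h1
  refine ⟨fun μ ξ => (L μ (g_Coef (E ξ))).re, fun μ => continuous_re.comp ?_, fun ξ y => ?_⟩
  · simp only [g_Coef, map_sum, map_smul, smul_eq_mul]
    exact continuous_finsetSum _ fun j _ => (hC _).mul continuous_const
  have hw : ∀ s ε, wa s ε (g_Coef (E ξ)) = g_Coef (E ξ) := fun s ε =>
    MvPolynomial.funext fun z => by
      rw [wa_Coef, eval_Coef, eval_Coef, wl_Coef, ← map_pow (wa _ _), (h2 _ (hG ξ) _ _ _).1]
  have e1 : E ξ (ell (dg y) ^ (2 * n)) = ∑ μ, L μ (g_Coef (E ξ)) * (em μ y : ℝ) := by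
    rw [ell_Coef, ← map_pow io, ← eval_Coef]
    conv_lhs => rw [hL _ (hom_Coef (E ξ)) hw]
    rw [map_sum]
    refine Finset.sum_congr rfl fun μ _ => ?_
    rw [smul_eval, em_Coef, ← ofRealHom_eq_coe, em_Coef]
    simp only [eval_X, ofRealHom_eq_coe]
  have e2 : 0 ≤ E ξ (ell (dg y) ^ (2 * n)) := hP ξ _ fun U _ => by
    have a : (U * dg ξ * Uᴴ)ᴴ = -(U * dg ξ * Uᴴ) := by
      rw [conjTranspose_mul, conjTranspose_mul, conjTranspose_conjTranspose, dg_Coef,
        Matrix.neg_mul, Matrix.mul_neg, Matrix.mul_assoc]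
    rw [map_pow, av_ell, real_Coef a (dg_Coef y), ← ofReal_pow, zero_le_real]
    exact (even_two_mul n).pow_nonneg _
  rw [← re_add_im (E ξ _), ← (le_def.1 e2).2, e1, re_sum]
  simp

end Pool.Agent.MP_12a176_ag.HC
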