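import Pool.Agent.MP_12a176_ag.HC.St

set_option autoImplicit false

namespace Pool.Agent.MP_12a176_ag.HC

open Complex Matrix MvPolynomial
open scoped ComplexOrder ComplexConjugate

theorem del_eq_Cof {n : ℕ} {R : Type} [CommRing R] (y : Fin n → R) :
    del y = (∏ i, y i) * ∏ i, ∏ j ∈ Finset.Ioi i, (y j ^ 2 - y i ^ 2) := by
  rw [← det_vandermonde fun i => y i ^ 2, ← det_mul_column, del]
  congr 1
  ext i j
  rw [of_apply, of_apply, vandermonde_apply, ← pow_mul, pow_succ']

theorem dvd_Cof {n : ℕ} (a b : K n) (h : a ≠ b) : lam a - lam b ∣ (del X : B n) := by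
  have h0 : ∀ i j : Fin n, i < j → (X j ^ 2 - X i ^ 2 : B n) ∣ del X := fun i j h =>
    del_eq_Cof (X : Fin n → B n) ▸ Dvd.dvd.mul_left
      ((Finset.dvd_prod_of_mem (fun j => (X j ^ 2 - X i ^ 2 : B n)) (Finset.mem_Ioi.2 h)).trans
        (Finset.dvd_prod_of_mem (fun i => ∏ j ∈ Finset.Ioi i, (X j ^ 2 - X i ^ 2 : B n))
          (Finset.mem_univ i))) _
  have h1 : ∀ i j : Fin n, i ≠ j → (X i ^ 2 - X j ^ 2 : B n) ∣ del X := fun i j h =>
    h.lt_or_gt.elim (fun e => dvd_sub_comm.1 dvd_rfl |>.trans (h0 i j e)) fun e => h0 j i e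
  have h2 : ∀ i j : Fin n, i ≠ j → (X i - X j : B n) ∣ del X := fun i j h =>
    (sub_dvd_pow_sub_pow _ _ 2).trans (h1 i j h)
  have h3 : ∀ i j : Fin n, (X i + X j : B n) ∣ del X := fun i j => by
    rcases eq_or_ne i j with rfl | h
    · refine Dvd.dvd.trans ⟨C (1 / 2), ?_⟩ (del_eq_Cof (X : Fin n → B n) ▸
        (Finset.dvd_prod_of_mem X (Finset.mem_univ i)).mul_right _)
      rw [← two_mul, mul_right_comm, ← map_ofNat C 2, ← map_mul]
      simp
    · exact Dvd.dvd.trans ⟨X i - X j, by ring⟩ (h1 i j h)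
  rcases a with i | i <;> rcases b with j | j <;> simp only [lam, Sum.elim_inl, Sum.elim_inr]
  · exact h2 i j fun e => h (by rw [e])
  · rw [sub_neg_eq_add]; exact h3 i j
  · rw [← neg_add', neg_dvd]; exact h3 i j
  · rw [neg_sub_neg]; exact h2 j i fun e => h (by rw [e])

theorem ne_Cof {n : ℕ} : (del X : B n) ≠ 0 := by
  rw [del_eq_Cof]
  refine mul_ne_zero (Finset.prod_ne_zero_iff.2 fun i _ => X_ne_zero i)
    (Finset.prod_ne_zero_iff.2 fun i _ => Finset.prod_ne_zero_iff.2 fun j h => ?_)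
  rw [sq_sub_sq]
  refine mul_ne_zero (fun e => ?_) (sub_ne_zero.2 (X_injective.ne (Finset.mem_Ioi.1 h).ne'))
  have := congrArg (eval fun _ => (1 : ℂ)) e
  norm_num at this

theorem log_Cof {R F ι : Type} [CommRing R] [Algebra ℂ R] [Field F] (f : R →+* F)
    (D : Derivation ℂ R R) (s : Finset ι) (g : ι → R) (h : f (∏ i ∈ s, g i) ≠ 0) :
    f (D (∏ i ∈ s, g i)) / f (∏ i ∈ s, g i) = ∑ i ∈ s, f (D (g i)) / f (g i) := by
  classical
  induction s using Finset.induction_on with
  | empty => simp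
  | insert a s ha ih =>
    rw [Finset.prod_insert ha, map_mul, mul_ne_zero_iff] at h
    rw [Finset.prod_insert ha, Finset.sum_insert ha, ← ih h.2]
    simp only [Derivation.leibniz, smul_eq_mul, map_add, map_mul]
    have := h.1
    have := h.2
    field_simp
    ring

theorem sum_Cof {n : ℕ} {F : Type} [Field F] [CharZero F] (x d : Fin n → F) (h0 : ∀ i, x i ≠ 0)
    (h1 : ∀ i j, i ≠ j → x i - x j ≠ 0) (h2 : ∀ i j, x i + x j ≠ 0) :
    ∑ a : K n, ∑ b ∈ Finset.univ.erase a, (if b = a.swap then 2 else 1) *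
      ((Sum.elim d (fun k => -d k) a - Sum.elim d (fun k => -d k) b) /
        (Sum.elim x (fun k => -x k) a - Sum.elim x (fun k => -x k) b)) =
    4 * (∑ i, d i / x i + ∑ i, ∑ j ∈ Finset.Ioi i,
      (2 * x j * d j - 2 * x i * d i) / (x j ^ 2 - x i ^ 2)) := by
  obtain ⟨r, hr⟩ : ∃ r : Fin n → Fin n → F,
    r = fun i j => (d i - d j) / (x i - x j) + (d i + d j) / (x i + x j) := ⟨_, rfl⟩
  have e1 : ∀ i, ∑ j, (if j = i then 0 else (d i - d j) / (x i - x j)) +
      ∑ j, (if j = i then 2 else 1) * ((d i + d j) / (x i + x j)) =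
      2 * (d i / x i) + ∑ j ∈ ({i}ᶜ : Finset (Fin n)), r j i := fun i => by
    rw [← Finset.sum_add_distrib, Fintype.sum_eq_add_sum_compl i]
    congr 1
    · have := h0 i
      rw [if_pos rfl, if_pos rfl, ← two_mul, ← two_mul]
      field_simp
      ring
    · refine Finset.sum_congr rfl fun j hj => ?_
      have hj : j ≠ i := by simpa using hj
      rw [if_neg hj, if_neg hj, hr, one_mul, ← neg_div_neg_eq, neg_sub, neg_sub, add_comm (d i),
        add_comm (x i)]
  have e2 : ∑ i, ∑ j ∈ ({i}ᶜ : Finset (Fin n)), r j i = 2 * ∑ i, ∑ j ∈ Finset.Ioi i,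
      (2 * x j * d j - 2 * x i * d i) / (x j ^ 2 - x i ^ 2) := by
    rw [← Finset.sum_sum_Ioi_add_eq_sum_sum_off_diag, Finset.mul_sum]
    refine Finset.sum_congr rfl fun i _ => ?_
    rw [Finset.mul_sum]
    refine Finset.sum_congr rfl fun j hj => ?_
    have hj := (Finset.mem_Ioi.1 hj).ne
    have a1 := h1 i j hj
    have a2 := h1 j i hj.symm
    have a3 := h2 i j
    have a4 := h2 j i
    rw [hr, sq_sub_sq]
    field_simp
    ring
  simp only [← Finset.filter_ne', Finset.sum_filter, Fintype.sum_sum_type, Sum.elim_inl,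
    Sum.elim_inr, Sum.swap_inl, Sum.swap_inr, ne_eq, Sum.inl.injEq, Sum.inr.injEq, reduceCtorEq,
    if_false, ite_not, one_mul, sub_neg_eq_add, ← neg_add', neg_div_neg_eq]
  have e3 : ∀ i j, (-d i + d j) / (-x i + x j) = (d i - d j) / (x i - x j) := fun i j => by
    rw [← neg_div_neg_eq, neg_add, neg_add, neg_neg, neg_neg, sub_eq_add_neg, sub_eq_add_neg]
  conv_lhs => enter [2, 2, i]; rw [add_comm]; enter [1, 2, j]; rw [e3]
  simp only [e1, Finset.sum_add_distrib, e2, ← Finset.mul_sum]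
  ring

theorem s_cof (n : ℕ) : SCof n := by
  classical
  choose! γ hγ using fun a b : K n => dvd_Cof a b
  refine ⟨γ, fun a b h => (hγ a b h).symm, fun k => ?_⟩
  obtain ⟨f, hf⟩ : ∃ f : B n →+* FractionRing (B n), Function.Injective f :=
    ⟨algebraMap _ _, IsFractionRing.injective _ _⟩
  have h0 : f (del X) ≠ 0 := (map_ne_zero_iff f hf).2 ne_Cof
  have h1 : ∀ a b : K n, a ≠ b → f (lam a - lam b) ≠ 0 := fun a b h e =>
    h0 (by rw [hγ a b h, map_mul, e, zero_mul])
  have hl : ∀ (g : B n →+ FractionRing (B n)) a,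
      g (lam a) = Sum.elim (fun i => g (X i)) (fun i => -g (X i)) a := by
    rintro g (i | i) <;> simp [lam]
  have hs := sum_Cof (fun i => f (X i)) (fun i => f (pderiv k (X i)))
    (fun i => (map_ne_zero_iff f hf).2 (X_ne_zero i))
    (fun i j h => by simpa [lam] using h1 (.inl i) (.inl j) (by simpa using h))
    (fun i j => by simpa [lam] using h1 (.inl i) (.inr j) (by simp))
  have hd : f (pderiv k (del X)) / f (del X) = ∑ i, f (pderiv k (X i)) / f (X i) +
      ∑ i, ∑ j ∈ Finset.Ioi i, (2 * f (X j) * f (pderiv k (X j)) -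
        2 * f (X i) * f (pderiv k (X i))) / (f (X j) ^ 2 - f (X i) ^ 2) := by
    rw [del_eq_Cof] at h0 ⊢
    have h2 := h0
    rw [map_mul, mul_ne_zero_iff] at h2
    rw [← log_Cof f _ _ _ h2.1, Finset.sum_congr rfl fun i _ => ?_, ← log_Cof f _ _ _ h2.2]
    · simp only [Derivation.leibniz, smul_eq_mul, map_add, map_mul]
      have := h2.1
      have := h2.2
      field_simp
      ring
    · have h3 := h2.2
      rw [map_prod, Finset.prod_ne_zero_iff] at h3
      rw [log_Cof f _ _ _ (h3 i (Finset.mem_univ i))]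
      refine Finset.sum_congr rfl fun j _ => ?_
      simp only [map_sub, sq, Derivation.leibniz, smul_eq_mul, map_add, map_mul]
      ring
  apply hf
  rw [← hd] at hs
  rw [show (4 : ℂ) • pderiv k (del X : B n) = 4 * pderiv k (del X) by
    rw [Algebra.smul_def, map_ofNat], map_mul, map_ofNat, ← div_mul_cancel₀ (f (pderiv k _)) h0,
    ← mul_assoc, ← hs, map_sum, Finset.sum_mul]
  refine Finset.sum_congr rfl fun a _ => ?_
  rw [map_sum, Finset.sum_mul]
  refine Finset.sum_congr rfl fun b hb => ?_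
  have hb := (Finset.ne_of_mem_erase hb).symm
  have e1 := hl f.toAddMonoidHom
  have e2 := hl (f.toAddMonoidHom.comp (pderiv k).toLinearMap.toAddMonoidHom)
  simp only [RingHom.toAddMonoidHom_eq_coe, AddMonoidHom.coe_coe, AddMonoidHom.comp_apply,
    LinearMap.toAddMonoidHom_coe, Derivation.coeFn_coe] at e1 e2
  rw [← e1, ← e1, ← e2, ← e2, ← map_sub, ← map_sub, ← map_sub, hγ a b hb, map_mul f (lam a - lam b),
    mul_assoc, ← mul_assoc (_ / _), div_mul_cancel₀ _ (h1 a b hb), ← map_mul, mu]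
  split_ifs
  · rw [two_smul, two_mul, map_add]
  · rw [one_smul, one_mul]

end Pool.Agent.MP_12a176_ag.HC
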