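import Pool.Agent.MP_12a176_ag.HC.St

/- Conjugation to the Cartan subalgebra and a unitary symplectic frame. -/

set_option autoImplicit false

namespace Pool.Agent.MP_12a176_ag.HC

open Complex Matrix MvPolynomial
open scoped ComplexOrder ComplexConjugate

theorem cj_DF {n : ℕ} (A : Matrix (K n) (K n) ℂ) : A.map conj = Aᴴᵀ := by
  ext i j
  simp

theorem Jc_DF {n : ℕ} : (JJ n ℂ).map conj = JJ n ℂ := by
  ext i j
  rcases i with i | i <;> rcases j with j | j <;> simp [Matrix.J, Matrix.one_apply, apply_ite]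

theorem JH_DF {n : ℕ} : (JJ n ℂ)ᴴ = -JJ n ℂ := by
  rw [← Matrix.transpose_transpose (JJ n ℂ)ᴴ, ← cj_DF, Jc_DF, Matrix.J_transpose]

theorem s_diag {n : ℕ} (h : SSpec n) : SDiag n := by
  intro Y hY hS
  have hT : ((-I) • Y)ᴴ = (-I) • Y := by
    rw [conjTranspose_smul, hY]
    simp
  have hS' : Y * JJ n ℂ = -(JJ n ℂ * Yᵀ) := eq_neg_of_add_eq_zero_left hS
  obtain ⟨U, d, μ, hd, h1, h2, h3⟩ := h (K n) (by simp [two_mul]) (JJ n ℂ) ((-I) • Y) (-1)
    (Matrix.J_transpose _ _) (Matrix.isUnit_det_J _ _).ne_zero hT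
    (by
      rw [cj_DF, hT, transpose_smul, Matrix.smul_mul, Matrix.mul_smul, hS']
      simp)
    (fun v _ _ => ⟨-1, by rw [Jc_DF, Matrix.J_squared, Matrix.neg_mulVec, one_mulVec]; simp⟩)
  have h1' : U * Uᴴ = 1 := mul_eq_one_comm.1 h1
  have h4 : Uᴴᵀ * Uᵀ = 1 := by rw [← transpose_mul, h1', transpose_one]
  have h5 : Uᵀ * Uᴴᵀ = 1 := by rw [← transpose_mul, h1, transpose_one]
  rw [cj_DF] at h3
  set M : Matrix (K n) (K n) ℂ :=
    fromBlocks 0 (-diagonal fun i => (d i : ℂ)) (diagonal fun i => (d i : ℂ)) 0 with hM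
  have hMM : Mᴴ * M = 1 := by
    have e1 : (U * M)ᴴ * (U * M) = Mᴴ * M := by
      rw [conjTranspose_mul, Matrix.mul_assoc, ← Matrix.mul_assoc Uᴴ, h1, Matrix.one_mul]
    have e2 : (Uᴴᵀ)ᴴ = Uᵀ := by
      ext i j
      simp
    rw [← e1, ← h3, conjTranspose_mul, e2, JH_DF, Matrix.mul_assoc, ← Matrix.mul_assoc (-JJ n ℂ),
      Matrix.neg_mul, Matrix.J_squared, neg_neg, Matrix.one_mul, h5]
  have hd1 : ∀ i, d i = 1 := by
    intro i
    have e := congrFun (congrFun hMM (Sum.inl i)) (Sum.inl i)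
    rw [hM, fromBlocks_conjTranspose, fromBlocks_multiply] at e
    simp [diagonal_conjTranspose] at e
    have e' : d i * d i = 1 := by exact_mod_cast e
    have := hd i
    nlinarith
  have hMJ : M = JJ n ℂ := by
    rw [hM]
    simp [hd1, Matrix.J]
  refine ⟨U, μ, ⟨h1, ?_⟩, ?_⟩
  · rw [← hMJ, ← h3, Matrix.mul_assoc, h4, Matrix.mul_one, hMJ]
  · have e : Y * U = U * dg μ := by
      have e1 : Y * U = I • (((-I) • Y) * U) := by
        rw [Matrix.smul_mul, smul_smul]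
        simp
      rw [e1, h2, ← Matrix.mul_smul, dg, ← diagonal_smul]
      congr 2
      ext i
      rcases i with i | i <;> simp
    rw [← e, Matrix.mul_assoc, h1', Matrix.mul_one]

theorem core_DF {n : ℕ} (A : Matrix (K n) (K n) ℂ) (d : Fin n → ℝ) (hd : ∀ i, 0 < d i) (M : Matrix (K n) (K n) ℂ)
    (hM : M = fromBlocks 0 (-diagonal fun i => (d i : ℂ)) (diagonal fun i => (d i : ℂ)) 0)
    (h1 : A * M + M * Aᵀ = 0) (h2 : Aᴴ * M + M * Aᴴᵀ = 0) : IsSp A := by
  obtain ⟨D, hD⟩ : ∃ D : K n → ℝ, D = Sum.elim d d := ⟨_, rfl⟩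
  have hpos : ∀ a, 0 < D a := by
    rintro (a | a) <;> simp [hD, hd]
  have hdiag : (diagonal fun a => (D a : ℂ)) =
      fromBlocks (diagonal fun i => (d i : ℂ)) 0 0 (diagonal fun i => (d i : ℂ)) := by
    rw [fromBlocks_diagonal, hD]
    congr 1
    funext a
    rcases a with a | a <;> rfl
  have e1 : M = (diagonal fun a => (D a : ℂ)) * JJ n ℂ := by
    rw [hdiag, hM, JJ, Matrix.J, fromBlocks_multiply]
    simp
  have e2 : Mᴴ = -M := by
    rw [hM]
    simp [fromBlocks_conjTranspose, fromBlocks_neg, diagonal_conjTranspose, Pi.star_def]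
  have e3 : M * M = -diagonal fun a => (D a : ℂ) * D a := by
    rw [← diagonal_mul_diagonal, hdiag, hM]
    simp [fromBlocks_multiply]
  have h3 : M * A + Aᵀ * M = 0 := by
    have := congrArg conjTranspose h2
    rw [conjTranspose_add, conjTranspose_mul, conjTranspose_mul, e2, conjTranspose_conjTranspose,
      conjTranspose_zero, show Aᴴᵀᴴ = Aᵀ from by ext; simp, Matrix.neg_mul, Matrix.mul_neg,
      ← neg_add, neg_eq_zero] at this
    exact this
  have h4 : A * (M * M) = M * M * A := by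
    rw [← Matrix.mul_assoc, eq_neg_of_add_eq_zero_left h1, Matrix.mul_assoc M M,
      eq_neg_of_add_eq_zero_left h3, Matrix.neg_mul, Matrix.mul_neg, Matrix.mul_assoc]
  have h5 : A * (diagonal fun a => (D a : ℂ)) = (diagonal fun a => (D a : ℂ)) * A := by
    rw [e3, Matrix.mul_neg, Matrix.neg_mul, neg_inj] at h4
    ext a b
    have h6 := congrFun (congrFun h4 a) b
    rw [mul_diagonal, diagonal_mul] at h6 ⊢
    have h7 : (D a : ℂ) + D b ≠ 0 := by
      exact_mod_cast (add_pos (hpos a) (hpos b)).ne'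
    refine mul_left_cancel₀ h7 ?_
    linear_combination h6
  have h8 : (diagonal fun a => (D a : ℂ)) * (A * JJ n ℂ + JJ n ℂ * Aᵀ) = 0 := by
    rw [Matrix.mul_add, ← Matrix.mul_assoc, ← h5, Matrix.mul_assoc, ← Matrix.mul_assoc _ (JJ n ℂ),
      ← e1, h1]
  ext a b
  have h9 := congrFun (congrFun h8 a) b
  rw [diagonal_mul] at h9
  exact (mul_eq_zero.1 h9).resolve_left (by exact_mod_cast (hpos a).ne')

open scoped MatrixOrder in
theorem s_frame {n : ℕ} (h : SSpec n) : SFrame n := by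
  intro H S Θ hc hS
  obtain ⟨g, hg⟩ := CStarAlgebra.nonneg_iff_eq_mul_star_self.mp hc.pos.posSemidef.nonneg
  have hu : IsUnit g.det := by
    have := hc.pos.det_pos.ne'
    rw [hg, det_mul] at this
    exact (left_ne_zero_of_mul this).isUnit
  have e1 : ∀ k l, g⁻¹ * Θ k l * g = g⁻¹ * (Θ k l * H) * g⁻¹ᴴ := fun k l => by
    rw [hg, star_eq_conjTranspose, Matrix.mul_assoc _ (_ * _), Matrix.mul_assoc (Θ k l),
      Matrix.mul_assoc g, ← conjTranspose_mul, nonsing_inv_mul _ hu, conjTranspose_one,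
      Matrix.mul_one, Matrix.mul_assoc]
  have e2 : ∀ k l, (g⁻¹ * Θ k l * g)ᴴ = g⁻¹ * Θ l k * g := fun k l => by
    rw [e1, e1, conjTranspose_mul, conjTranspose_mul, conjTranspose_conjTranspose, hc.herm,
      Matrix.mul_assoc g⁻¹]
  obtain ⟨S0, hS0⟩ : ∃ S0, S0 = g⁻¹ * S * g⁻¹ᵀ := ⟨_, rfl⟩
  have s1 : S0ᵀ = -S0 := by
    rw [hS0, transpose_mul, transpose_mul, transpose_transpose, hS, Matrix.neg_mul, Matrix.mul_neg,
      Matrix.mul_assoc]
  have s2 : S0.det ≠ 0 := by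
    have := (isUnit_nonsing_inv_det g hu).ne_zero
    rw [hS0, det_mul, det_mul, det_transpose]
    exact mul_ne_zero (mul_ne_zero this hc.det) this
  have s3 : S0ᴴ = -S0.map conj := by
    ext a b
    have := congrFun (congrFun s1 a) b
    simp only [transpose_apply, Matrix.neg_apply] at this
    simp [this]
  have s4 : (S0.map conj).map conj = S0 := by
    ext a b
    simp
  have s5 : ∀ k l, g⁻¹ * Θ k l * g * S0 + S0 * (g⁻¹ * Θ k l * g)ᵀ = 0 := fun k l => by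
    have a1 : g⁻¹ᵀ * gᵀ = 1 := by rw [← transpose_mul, mul_nonsing_inv _ hu, transpose_one]
    have a2 : g⁻¹ * (Θ k l * S + S * (Θ k l)ᵀ) * g⁻¹ᵀ = 0 := by
      rw [hc.sp, Matrix.mul_zero, Matrix.zero_mul]
    rw [← a2, hS0, transpose_mul, transpose_mul]
    simp only [Matrix.mul_add, Matrix.add_mul, Matrix.mul_assoc,
      mul_nonsing_inv_cancel_left _ _ hu]
    rw [← Matrix.mul_assoc g⁻¹ᵀ gᵀ, a1, Matrix.one_mul]
  obtain ⟨U, d, μ, hd, hU, -, hSU⟩ := h (Fin (2 * n)) (by simp) S0 (S0 * S0ᴴ) 1 s1 s2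
    (by rw [conjTranspose_mul, conjTranspose_conjTranspose])
    (by
      rw [s3, Matrix.mul_neg, Matrix.map_neg _ (map_neg _), Matrix.map_mul, s4, ofReal_one,
        one_smul, Matrix.neg_mul, Matrix.mul_neg, Matrix.mul_assoc])
    (fun v m hv => ⟨-m, by
      rw [s3, Matrix.mul_neg, neg_mulVec] at hv
      rw [neg_smul, ← hv, neg_neg]⟩)
  have u1 : U * Uᴴ = 1 := (Matrix.mul_eq_one_comm_of_equiv (eK n)).1 hU
  have u2 : U.map conj = Uᴴᵀ := by
    ext a b
    simp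
  have u3 : Uᴴᵀ * Uᵀ = 1 := by rw [← transpose_mul, u1, transpose_one]
  have u4 : U.submatrix id (eK n).symm * (U.submatrix id (eK n).symm)ᴴ = 1 := by
    rw [conjTranspose_submatrix, submatrix_mul_equiv, u1, submatrix_id_id]
  have u5 : (U.submatrix id (eK n).symm)ᴴ * U.submatrix id (eK n).symm = 1 := mul_eq_one_comm.1 u4
  have m1 : Uᴴ * S0 * Uᴴᵀ =
      fromBlocks 0 (-diagonal fun i => (d i : ℂ)) (diagonal fun i => (d i : ℂ)) 0 := by
    rw [Matrix.mul_assoc, ← u2, hSU, ← Matrix.mul_assoc, hU, Matrix.one_mul]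
  have m2 : ∀ k l, Uᴴ * (g⁻¹ * Θ k l * g) * U * (Uᴴ * S0 * Uᴴᵀ) +
      Uᴴ * S0 * Uᴴᵀ * (Uᴴ * (g⁻¹ * Θ k l * g) * U)ᵀ = 0 := fun k l => by
    have a2 : Uᴴ * (g⁻¹ * Θ k l * g * S0 + S0 * (g⁻¹ * Θ k l * g)ᵀ) * Uᴴᵀ = 0 := by
      rw [s5, Matrix.mul_zero, Matrix.zero_mul]
    generalize g⁻¹ * Θ k l * g = B at a2 ⊢
    rw [← a2, transpose_mul, transpose_mul]
    simp only [Matrix.mul_add, Matrix.add_mul, Matrix.mul_assoc]
    rw [← Matrix.mul_assoc U Uᴴ, u1, ← Matrix.mul_assoc Uᴴᵀ Uᵀ, u3, Matrix.one_mul, Matrix.one_mul]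
  refine ⟨g * U.submatrix id (eK n).symm, ?_, fun k l => ?_⟩
  · rw [conjTranspose_mul, Matrix.mul_assoc, ← Matrix.mul_assoc (U.submatrix _ _), u4,
      Matrix.one_mul, hg, star_eq_conjTranspose]
  · have i1 : (g * U.submatrix id (eK n).symm)⁻¹ = (U.submatrix id (eK n).symm)ᴴ * g⁻¹ :=
      inv_eq_left_inv (by
        rw [Matrix.mul_assoc, nonsing_inv_mul_cancel_left _ _ hu, u5])
    have i2 : ((g * U.submatrix id (eK n).symm)⁻¹ * Θ k l * (g * U.submatrix id (eK n).symm)).submatrix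
        (eK n) (eK n) = Uᴴ * (g⁻¹ * Θ k l * g) * U := by
      have : (U.submatrix id (eK n).symm)ᴴ * g⁻¹ * Θ k l * (g * U.submatrix id (eK n).symm) =
          (U.submatrix id (eK n).symm)ᴴ * (g⁻¹ * Θ k l * g) * U.submatrix id (eK n).symm := by
        simp only [Matrix.mul_assoc]
      rw [i1, this]
      generalize g⁻¹ * Θ k l * g = B
      ext a b
      simp [Matrix.mul_apply]
    rw [i2]
    refine core_DF _ d hd _ m1 (m2 k l) ?_
    have := m2 l k
    rwa [← e2, show Uᴴ * (g⁻¹ * Θ k l * g)ᴴ * U = (Uᴴ * (g⁻¹ * Θ k l * g) * U)ᴴ from by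
      simp only [conjTranspose_mul, conjTranspose_conjTranspose, Matrix.mul_assoc]] at this

end Pool.Agent.MP_12a176_ag.HC
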