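import Pool.Agent.MP_12a176_ag.HC.St

set_option autoImplicit false

namespace Pool.Agent.MP_12a176_ag.HC

open Complex Matrix MvPolynomial
open scoped ComplexOrder ComplexConjugate

section
variable {n : ℕ}

/-- Monomials. -/
noncomputable def mon_Del (b : Fin n → ℕ) : B n := ∏ i, X i ^ b i

/-- Alternants. -/
noncomputable def al_Del (e : Fin n → ℕ) : B n := (Matrix.of fun i j : Fin n => (X i : B n) ^ e j).det

theorem al_eq_Del (e : Fin n → ℕ) :
    al_Del e = ∑ σ : Equiv.Perm (Fin n), ((Equiv.Perm.sign σ : ℤ) : ℂ) • mon_Del (e ∘ σ) := by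
  rw [al_Del, ← det_transpose, det_apply']
  refine Finset.sum_congr rfl fun σ _ => ?_
  rw [Int.cast_smul_eq_zsmul, zsmul_eq_mul]
  rfl

theorem mon_split_Del (b : Fin n → ℕ) (k : Fin n) (v : ℕ) : mon_Del (Function.update b k v) =
    X k ^ v * ∏ i ∈ Finset.univ.erase k, X i ^ b i := by
  rw [mon_Del, ← Finset.mul_prod_erase _ _ (Finset.mem_univ k), Function.update_self]
  congr 1
  exact Finset.prod_congr rfl fun i hi => by
    rw [Function.update_of_ne (Finset.ne_of_mem_erase hi)]

theorem pd_mon_Del (b : Fin n → ℕ) (k : Fin n) :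
    pderiv k (mon_Del b) = (b k : ℂ) • mon_Del (Function.update b k (b k - 1)) := by
  have h0 : pderiv k (∏ i ∈ Finset.univ.erase k, (X i : B n) ^ b i) = 0 := by
    refine Finset.prod_induction _ (fun p => pderiv k p = 0) (fun p q hp hq => ?_) ?_ fun i hi => ?_
    · rw [Derivation.leibniz, hp, hq, smul_zero, smul_zero, add_zero]
    · exact Derivation.map_one_eq_zero _
    · rw [Derivation.leibniz_pow, pderiv_X_of_ne (Finset.ne_of_mem_erase hi), smul_zero, smul_zero]
  have h1 := mon_split_Del b k (b k)
  rw [Function.update_eq_self] at h1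
  rw [h1, mon_split_Del, Derivation.leibniz, h0, smul_zero, zero_add, Derivation.leibniz_pow,
    pderiv_X_self, Nat.cast_smul_eq_nsmul]
  simp only [smul_eq_mul, nsmul_eq_mul]
  ring

theorem Dop_pow_Del (k : Fin n) (m : ℕ) (b : Fin n → ℕ) : Dop (X k ^ m) (mon_Del b) =
    ((b k).descFactorial m : ℂ) • mon_Del (Function.update b k (b k - m)) := by
  induction m with
  | zero => simp
  | succ m ih =>
    rw [pow_succ', Dop_mul, ih, map_smul, Dop_X, pd_mon_Del, Function.update_idem,
      Function.update_self, smul_smul, Nat.descFactorial_succ, Nat.cast_mul, mul_comm, Nat.sub_sub]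

theorem Dop_prod_Del (a b : Fin n → ℕ) (s : Finset (Fin n)) :
    Dop (∏ i ∈ s, X i ^ a i) (mon_Del b) = (∏ i ∈ s, ((b i).descFactorial (a i) : ℂ)) •
      mon_Del (fun i => if i ∈ s then b i - a i else b i) := by
  induction s using Finset.induction_on with
  | empty => simp
  | insert k s hk ih =>
    rw [Finset.prod_insert hk, Finset.prod_insert hk, Dop_mul, ih, map_smul, Dop_pow_Del,
      smul_smul, if_neg hk, mul_comm]
    congr 2
    funext i
    by_cases e : i = k
    · subst e
      simp
    · simp [e]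

theorem Dop_mon_Del (a b : Fin n → ℕ) : Dop (mon_Del a) (mon_Del b) =
    (∏ i, ((b i).descFactorial (a i) : ℂ)) • mon_Del (fun i => b i - a i) := by
  simpa [mon_Del] using Dop_prod_Del a b Finset.univ

theorem lap_Del (e : Fin n → ℕ) : ∑ k, pderiv k (pderiv k (al_Del e)) =
    ∑ j, ((e j : ℂ) * (e j - 1 : ℕ)) • al_Del (Function.update e j (e j - 1 - 1)) := by
  simp only [al_eq_Del, map_sum, Derivation.map_smul, pd_mon_Del, Function.update_idem,
    Function.update_self, Finset.smul_sum]
  refine Finset.sum_comm.trans (Eq.trans ?_ Finset.sum_comm)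
  refine Finset.sum_congr rfl fun σ _ => ?_
  refine Eq.trans ?_ (Equiv.sum_comp σ _)
  refine Finset.sum_congr rfl fun k _ => ?_
  rw [Function.update_comp_eq_of_injective _ σ.injective, smul_smul, smul_smul, smul_smul]
  congr 1
  simp only [Function.comp_apply]
  ring

theorem odd_sum_Del (n : ℕ) : ∑ j : Fin n, (2 * j.1 + 1) = n ^ 2 := by
  rw [Fin.sum_univ_eq_sum_range (fun j => 2 * j + 1)]
  induction n with
  | zero => rfl
  | succ n ih => rw [Finset.sum_range_succ, ih]; ring

end

theorem s_del (n : ℕ) : SDel n := by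
  have e0 : (del X : B n) = al_Del fun j => 2 * j.1 + 1 := rfl
  refine ⟨?_, ?_, fun s ε => ?_, ?_⟩
  · rw [e0, lap_Del]
    refine Finset.sum_eq_zero fun j _ => ?_
    rcases Nat.eq_zero_or_pos j.1 with h | h
    · simp [h]
    · have hj : (⟨j.1 - 1, by omega⟩ : Fin n) ≠ j := fun k => by
        have := congrArg Fin.val k
        simp only at this
        omega
      rw [al_Del, det_zero_of_column_eq hj, smul_zero]
      intro i
      rw [of_apply, of_apply, Function.update_of_ne hj, Function.update_self]
      congr 1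
      simp only
      omega
  · rw [e0, al_eq_Del]
    refine IsHomogeneous.sum _ _ _ fun σ _ => ?_
    rw [smul_eq_C_mul]
    refine IsHomogeneous.C_mul ?_ _
    have := IsHomogeneous.prod Finset.univ (fun i => (X i : B n) ^ (2 * (σ i).1 + 1))
      (fun i => 2 * (σ i).1 + 1) fun i _ => isHomogeneous_X_pow i _
    rwa [Equiv.sum_comp σ (fun j => 2 * j.1 + 1), odd_sum_Del] at this
  · have h1 : (wa s ε).mapMatrix (Matrix.of fun i j : Fin n => (X i : B n) ^ (2 * j.1 + 1)) =
        Matrix.of fun i j => (((ε i : ℤ) : B n)) *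
          (Matrix.of fun i j : Fin n => (X i : B n) ^ (2 * j.1 + 1)).submatrix s id i j := by
      ext1 i j
      simp only [AlgHom.mapMatrix_apply, map_apply, of_apply, submatrix_apply, id, map_pow, wa,
        aeval_X]
      rcases Int.units_eq_one_or (ε i) with h | h
      · simp [h]
      · simp [h, (odd_two_mul_add_one j.1).neg_pow]
    rw [del, AlgHom.map_det, h1, det_mul_column, det_permute, sg, Int.cast_smul_eq_zsmul,
      zsmul_eq_mul, ← mul_assoc]
    congr 1
    push_cast
    ring
  · refine ⟨∑ σ : Equiv.Perm (Fin n), ∏ i, ((2 * (σ i).1 + 1).factorial : ℝ),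
      Finset.sum_pos (fun σ _ => by positivity) Finset.univ_nonempty, ?_⟩
    rw [e0, al_eq_Del, map_sum Dop, LinearMap.sum_apply, ofReal_sum, map_sum C]
    refine Finset.sum_congr rfl fun σ _ => ?_
    rw [map_smul, LinearMap.smul_apply, map_sum, Finset.sum_eq_single σ]
    · rw [map_smul, smul_smul, ← Int.cast_mul, ← Units.val_mul, Int.units_mul_self, Units.val_one,
        Int.cast_one, one_smul, Dop_mon_Del]
      simp only [Nat.descFactorial_self]
      simp [mon_Del, smul_eq_C_mul]
    · intro τ _ hτ
      rw [map_smul, Dop_mon_Del]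
      obtain ⟨i, hi⟩ : ∃ i, τ i < σ i := by
        by_contra hn
        push Not at hn
        have h2 := (Finset.sum_eq_sum_iff_of_le (s := Finset.univ) (f := fun i => (σ i).1)
          (g := fun i => (τ i).1) fun i _ => hn i).1
          ((Equiv.sum_comp σ fun j => j.1).trans (Equiv.sum_comp τ fun j => j.1).symm)
        exact hτ (Equiv.ext fun i => (Fin.ext (h2 i (Finset.mem_univ i))).symm)
      rw [Finset.prod_eq_zero (Finset.mem_univ i), zero_smul, smul_zero]
      rw [Nat.cast_eq_zero, Nat.descFactorial_eq_zero_iff_lt]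
      have : (τ i).1 < (σ i).1 := hi
      simp only [Function.comp_apply]
      omega
    · exact fun h => absurd (Finset.mem_univ σ) h

end Pool.Agent.MP_12a176_ag.HC
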