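import Pool.Agent.MP_12a176_ag.HC.St

set_option autoImplicit false

namespace Pool.Agent.MP_12a176_ag.HC

open Complex Matrix MvPolynomial
open scoped ComplexOrder ComplexConjugate

variable {n : ℕ}

theorem orb_Eig (ξ : Fin n → ℝ) {U : Matrix (K n) (K n) ℂ} (h : Grp U) :
    IsSp (U * dg ξ * Uᴴ) := by
  have h1 : dg ξ * JJ n ℂ + JJ n ℂ * (dg ξ)ᵀ = 0 := by
    rw [dg, diagonal_transpose]
    ext (i | i) (j | j) <;> by_cases hij : i = j <;>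
      simp [Matrix.J, Matrix.diagonal_mul, Matrix.mul_diagonal, hij]
  have h2 : Uᵀ * Uᴴᵀ = 1 := by rw [← transpose_mul, h.1, transpose_one]
  have h3 : Uᴴ * JJ n ℂ = JJ n ℂ * Uᵀ := by
    calc Uᴴ * JJ n ℂ = Uᴴ * (U * JJ n ℂ * Uᵀ) := by rw [h.2]
      _ = (Uᴴ * U) * JJ n ℂ * Uᵀ := by simp only [Matrix.mul_assoc]
      _ = _ := by rw [h.1, Matrix.one_mul]
  have h4 : JJ n ℂ * Uᴴᵀ = U * JJ n ℂ := by
    calc JJ n ℂ * Uᴴᵀ = (U * JJ n ℂ * Uᵀ) * Uᴴᵀ := by rw [h.2]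
      _ = U * JJ n ℂ * (Uᵀ * Uᴴᵀ) := by simp only [Matrix.mul_assoc]
      _ = _ := by rw [h2, Matrix.mul_one]
  calc U * dg ξ * Uᴴ * JJ n ℂ + JJ n ℂ * (U * dg ξ * Uᴴ)ᵀ
      = U * dg ξ * (Uᴴ * JJ n ℂ) + (JJ n ℂ * Uᴴᵀ) * (dg ξ)ᵀ * Uᵀ := by
        simp only [transpose_mul, Matrix.mul_assoc]
    _ = U * (dg ξ * JJ n ℂ + JJ n ℂ * (dg ξ)ᵀ) * Uᵀ := by
        rw [h3, h4]
        simp only [Matrix.mul_add, Matrix.add_mul, Matrix.mul_assoc]
    _ = 0 := by rw [h1, Matrix.mul_zero, Matrix.zero_mul]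

theorem XX_Eig (Z : Matrix (K n) (K n) ℂ) : (XX n).map (av Z) = Z := by
  ext a b
  exact av_X Z (a, b)

theorem pr_map_Eig (Z : Matrix (K n) (K n) ℂ) : (pr (XX n)).map (av Z) = pr Z := by
  rw [pr, pr, Matrix.map_smul _ _ (map_smul _ _), Matrix.map_add _ (map_add _),
    Matrix.map_mul, Matrix.map_mul, transpose_map, map_J, XX_Eig]

theorem pr_tr_Eig {Z : Matrix (K n) (K n) ℂ} (hZ : IsSp Z) : pr Zᵀ = Zᵀ := by
  rw [pr, transpose_transpose, Matrix.mul_assoc, eq_neg_of_add_eq_zero_left hZ, Matrix.mul_neg,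
    ← Matrix.mul_assoc, J_squared, Matrix.neg_mul, Matrix.one_mul, neg_neg, ← two_smul ℂ, smul_smul]
  norm_num

theorem tr_conj_Eig {U : Matrix (K n) (K n) ℂ} (h : Uᴴ * U = 1) (Y : Matrix (K n) (K n) ℂ)
    (k : ℕ) : ((U * Y * Uᴴ) ^ k).trace = (Y ^ k).trace := by
  have : (U * Y * Uᴴ) ^ k = U * Y ^ k * Uᴴ := by
    induction k with
    | zero => simp [mul_eq_one_comm.1 h]
    | succ k ih =>
      rw [pow_succ, ih, pow_succ Y k]
      simp only [Matrix.mul_assoc]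
      rw [← Matrix.mul_assoc Uᴴ, h, Matrix.one_mul]
  rw [this, trace_mul_comm, ← Matrix.mul_assoc, h, Matrix.one_mul]

theorem tr_dg_Eig (y : Fin n → ℝ) (k : ℕ) :
    (dg y ^ (2 * k)).trace = 2 * (-1) ^ k * ∑ i, (y i : ℂ) ^ (2 * k) := by
  rw [dg, diagonal_pow, trace_diagonal, Fintype.sum_sum_type]
  simp only [Pi.pow_apply, Sum.elim_inl, Sum.elim_inr, pow_mul, neg_sq, mul_pow, I_sq,
    ← Finset.mul_sum]
  ring

theorem av_pw_Eig (ξ : Fin n → ℝ) {U : Matrix (K n) (K n) ℂ} (h : Grp U) (m : ℕ) :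
    av (U * dg ξ * Uᴴ) (rename Prod.swap (pw n m)) = 2 * (-1) ^ m * ∑ i, (ξ i : ℂ) ^ (2 * m) := by
  have e1 : av (U * dg ξ * Uᴴ) (rename Prod.swap (pw n m)) = av (U * dg ξ * Uᴴ)ᵀ (pw n m) :=
    aeval_rename _ _ _
  have e2 : ∀ Z : Matrix (K n) (K n) ℂ, av Z (pw n m) = (pr Z ^ (2 * m)).trace := fun Z => by
    rw [pw, AddMonoidHom.map_trace (av Z), ← pr_map_Eig Z]
    congr 1
    exact map_pow (av Z).mapMatrix _ _
  rw [e1, e2, pr_tr_Eig (orb_Eig ξ h), ← transpose_pow, trace_transpose, tr_conj_Eig h.1,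
    tr_dg_Eig]

theorem s_eig {n : ℕ} (h1 : SInf n) (h2 : SInt n) : SEig n := by
  intro ξ E hp hg m q
  have hA : Adm E := by
    refine ⟨fun a b P => hp.eq_zero fun U hU => ?_, h1 E hg⟩
    have e : av (U * dg ξ * Uᴴ) ((XX n * JJ n (A n) + JJ n (A n) * (XX n)ᵀ) a b) =
        ((XX n * JJ n (A n) + JJ n (A n) * (XX n)ᵀ).map (av (U * dg ξ * Uᴴ))) a b := rfl
    rw [map_mul, e, Matrix.map_add _ (map_add _), Matrix.map_mul, Matrix.map_mul, transpose_map,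
      map_J, XX_Eig, orb_Eig ξ hU, Matrix.zero_apply, zero_mul]
  have e1 : ∀ P, E (rename Prod.swap (pw n m) * P) =
      (2 * (-1) ^ m * ∑ i, (ξ i : ℂ) ^ (2 * m)) * E P := fun P => by
    rw [← smul_eq_mul _ (E P), ← map_smul, ← sub_eq_zero, ← map_sub]
    refine hp.eq_zero fun U hU => ?_
    rw [map_sub, map_mul, map_smul, av_pw_Eig ξ hU, smul_eq_mul, sub_self]
  have e2 := h2 E hA m q
  have e3 : RR (E ∘ₗ Mul (rename Prod.swap (pw n m))) q =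
      E (rename Prod.swap (pw n m) * io (Dop (del X) q)) := rfl
  have e4 : E (io (Dop (del X) q)) = RR E q := rfl
  rw [e3, e1, e4, mul_assoc] at e2
  exact (mul_left_cancel₀ (mul_ne_zero two_ne_zero (pow_ne_zero _ (by norm_num))) e2).symm

end Pool.Agent.MP_12a176_ag.HC
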