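import Pool.Agent.MP_12a176_ag.HC.St

/- Assembly of the Harish-Chandra inequalities. -/

set_option autoImplicit false

namespace Pool.Agent.MP_12a176_ag.HC

open Complex Matrix MvPolynomial
open scoped ComplexOrder ComplexConjugate Manifold ContDiff

variable {n : ℕ}

theorem av_ell_conj {U : Matrix (K n) (K n) ℂ} (h : Uᴴ * U = 1) (Y : Matrix (K n) (K n) ℂ) :
    av (U.map C * XX n * Uᴴ.map C) (ell (U * Y * Uᴴ)) = ell Y := by
  have e : ∀ (Z : Matrix (K n) (K n) (A n)) (Y : Matrix (K n) (K n) ℂ),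
      av Z (ell Y) = (Z * Y.map C).trace := fun Z Y => by
    simp only [ell, map_sum, map_smul, av_X]
    simp only [smul_eq_C_mul, trace, Matrix.diag, Matrix.mul_apply, Fintype.sum_prod_type, mul_comm,
      map_apply]
  have e1 : Uᴴ.map C * U.map (C : ℂ →+* A n) = 1 := by
    rw [← Matrix.map_mul, h, Matrix.map_one _ (map_zero _) (map_one _)]
  have e2 : av (XX n) (ell Y) = ell Y := by
    simp only [ell, map_sum, map_smul, av_X, mvPolynomialX_apply]
  rw [← e2, e, e, Matrix.map_mul, Matrix.map_mul, Matrix.mul_assoc _ (Uᴴ.map C),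
    ← Matrix.mul_assoc (Uᴴ.map C), ← Matrix.mul_assoc (Uᴴ.map C), e1, Matrix.one_mul,
    ← Matrix.mul_assoc, trace_mul_comm, ← Matrix.mul_assoc, ← Matrix.mul_assoc, e1, Matrix.one_mul]

theorem cm_inv (μ : n.Partition) : Inv (cm μ) := fun g g' Θ hg => by
  simp only [cm, map_multiset_prod, Multiset.map_map, Function.comp, chern_inv _ g g' Θ hg]

theorem s_fin.{u} (h1 : SHaar n) (h2 : SCoef n) (h3 : SHC n) (h4 : SChern n) (h5 : SDiag n)
    (h6 : SRing n) (h7 : SPoint n) (h8 : SGlob.{u} n) :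
    ∃ a : n.Partition → (Fin n → ℝ) → ℝ, (∀ μ, Continuous (a μ)) ∧
      (∀ ξ y : Fin n → ℝ, del ξ * del y * ∑ μ, a μ ξ * em μ y = alt ξ y) ∧
      ∀ (M : Type u) [TopologicalSpace M] [T2Space M] [CompactSpace M]
        [ChartedSpace (Fin (2 * n) → ℂ) M] [IsManifold 𝓘(ℂ, Fin (2 * n) → ℂ) ω M]
        (h σ : M → Matrix (Fin (2 * n)) (Fin (2 * n)) ℂ), IsHKMetric h σ →
        ∀ ρ : PartitionOfUnity M M Set.univ,
          ρ.IsSubordinate (fun p => (chartAt (Fin (2 * n) → ℂ) p).source) →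
          ∀ ξ, 0 ≤ ∑ μ, a μ ξ * charNumber h ρ (cm μ) := by
  obtain ⟨E, a1, a2, a3, a4⟩ := h1
  obtain ⟨a, b1, b2⟩ := h2 E a1 a2 a4
  obtain ⟨κ, k0, hk⟩ := h3
  refine ⟨fun μ ξ => κ * a μ ξ, fun μ => continuous_const.mul (b1 μ), fun ξ y => ?_,
    fun M _ _ _ _ _ h σ g ρ hρ ξ => ?_⟩
  · have := hk ξ _ (a1 ξ) (a2 ξ) (a3 ξ) y
    rw [b2, ← ofReal_mul, ofReal_inj] at this
    simp only [mul_assoc κ, ← Finset.mul_sum]
    linear_combination this
  · have key := h8 (fun μ => ((2 * Real.pi) ^ 2) ^ n * a μ ξ) (h7 _ (fun g g' Θ hg => by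
      simp only [map_sum, map_smul, cm_inv _ g g' Θ hg]) (h6 ξ _ _ (a1 ξ) fun Y s t => ?_))
      M h σ g ρ hρ
    · simp only [mul_assoc _ (a _ ξ), ← Finset.mul_sum] at key ⊢
      exact mul_nonneg k0.le (nonneg_of_mul_nonneg_right key (by have := Real.pi_pos; positivity))
    · obtain ⟨U, y, hU, rfl⟩ := h5 Y s t
      rw [← a2 ξ U hU, map_pow, av_ell_conj hU.1, b2, map_sum, Finset.mul_sum, ofReal_sum]
      refine Finset.sum_congr rfl fun μ _ => ?_
      rw [ofReal_mul, ← h4 U y μ hU.1, map_smul, neg_pow, smul_eq_mul]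
      push_cast
      ring

end Pool.Agent.MP_12a176_ag.HC
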