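import Pool.Agent.MP_12a176_ag.HC.St

set_option autoImplicit false

namespace Pool.Agent.MP_12a176_ag.HC

open Complex Matrix MvPolynomial
open scoped ComplexOrder ComplexConjugate

variable {n : ℕ}

theorem mul_Haar {U V : Matrix (K n) (K n) ℂ} (hU : U * JJ n ℂ * Uᵀ = JJ n ℂ)
    (hV : V * JJ n ℂ * Vᵀ = JJ n ℂ) : U * V * JJ n ℂ * (U * V)ᵀ = JJ n ℂ := by
  calc U * V * JJ n ℂ * (U * V)ᵀ = U * (V * JJ n ℂ * Vᵀ) * Uᵀ := by
        simp only [transpose_mul, Matrix.mul_assoc]
    _ = JJ n ℂ := by rw [hV, hU]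

theorem inv_Haar {U : Matrix (K n) (K n) ℂ} (h : Grp U) : Uᴴ * JJ n ℂ * Uᴴᵀ = JJ n ℂ := by
  have h1 : Uᵀ * Uᴴᵀ = 1 := by rw [← transpose_mul, h.1, transpose_one]
  calc Uᴴ * JJ n ℂ * Uᴴᵀ = Uᴴ * (U * JJ n ℂ * Uᵀ) * Uᴴᵀ := by rw [h.2]
    _ = (Uᴴ * U) * JJ n ℂ * (Uᵀ * Uᴴᵀ) := by simp only [Matrix.mul_assoc]
    _ = JJ n ℂ := by rw [h.1, h1, Matrix.one_mul, Matrix.mul_one]

/-- The compact symplectic group as a subgroup of the unitary group. -/
def G_Haar (n : ℕ) : Subgroup (Matrix.unitaryGroup (K n) ℂ) where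
  carrier := {u | u.1 * JJ n ℂ * u.1ᵀ = JJ n ℂ}
  mul_mem' := fun ha hb => mul_Haar ha hb
  one_mem' := by simp
  inv_mem' := fun {u} hu => inv_Haar ⟨u.2.1, hu⟩

theorem grp_Haar (g : G_Haar n) : Grp g.1.1 := ⟨g.1.2.1, g.2⟩

theorem compact_Haar (n : ℕ) : CompactSpace (G_Haar n) := by
  have h1 : CompactSpace (Matrix.unitaryGroup (K n) ℂ) := by
    refine isCompact_iff_compactSpace.1 (IsCompact.of_isClosed_subset
      (s := Set.pi Set.univ fun _ : K n => Set.pi Set.univ fun _ : K n =>
        Metric.closedBall (0 : ℂ) 1)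
      (isCompact_univ_pi fun _ => isCompact_univ_pi fun _ => isCompact_closedBall _ _)
      (isClosed_unitary (R := Matrix (K n) (K n) ℂ)) fun U hU i _ j _ => ?_)
    exact mem_closedBall_zero_iff.2 (entry_norm_bound_of_unitary hU i j)
  refine isCompact_iff_compactSpace.1 (IsClosed.isCompact (isClosed_eq ?_ continuous_const))
  exact (continuous_subtype_val.matrix_mul continuous_const).matrix_mul
    continuous_subtype_val.matrix_transpose

theorem dg_cont_Haar (n : ℕ) : Continuous (dg (n := n)) := by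
  refine Continuous.matrix_diagonal (continuous_pi ?_)
  rintro (k | k)
  · exact continuous_const.mul (continuous_ofReal.comp (continuous_apply k))
  · exact (continuous_const.mul (continuous_ofReal.comp (continuous_apply k))).neg

theorem av_av_Haar (M U V : Matrix (K n) (K n) ℂ) (P : A n) :
    av M (av (U.map C * XX n * V.map C) P) = av (U * M * V) P := by
  have e : ∀ Z : Matrix (K n) (K n) (A n), av M (av Z P) = av (Z.map (av M)) P := fun Z => by
    rw [av, av, ← AlgHom.comp_apply, comp_aeval]; rfl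
  have eC : ∀ W : Matrix (K n) (K n) ℂ, (W.map C : Matrix (K n) (K n) (A n)).map (av M) = W :=
    fun W => by
      ext a b
      simp [av]
  have eX : (XX n).map (av M) = M := by
    ext a b
    exact av_X M (a, b)
  rw [e, Matrix.map_mul, Matrix.map_mul, eC, eC, eX]

theorem s_haar (n : ℕ) : SHaar n := by
  have := compact_Haar n
  borelize ↥(G_Haar n)
  let μ : MeasureTheory.Measure (G_Haar n) := MeasureTheory.Measure.haarMeasure ⊤
  have hμ : μ Set.univ = 1 := by
    rw [← TopologicalSpace.PositiveCompacts.coe_top]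
    exact MeasureTheory.Measure.haarMeasure_self
  let Y : (Fin n → ℝ) × G_Haar n → Matrix (K n) (K n) ℂ := fun p => p.2.1.1 * dg p.1 * p.2.1.1ᴴ
  have hY : Continuous Y := by
    have h : Continuous fun p : (Fin n → ℝ) × G_Haar n => p.2.1.1 :=
      continuous_subtype_val.comp (continuous_subtype_val.comp continuous_snd)
    exact (h.matrix_mul ((dg_cont_Haar n).comp continuous_fst)).matrix_mul h.matrix_conjTranspose
  have hF : ∀ P, Continuous fun p => av (Y p) P := fun P => by
    induction P using MvPolynomial.induction_on with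
    | C a => simpa [av] using continuous_const
    | add p q hp hq => simpa only [map_add] using hp.fun_add hq
    | mul_X p a hp => simpa only [map_mul, av_X] using hp.fun_mul (hY.matrix_elem a.1 a.2)
  have hI : ∀ ξ P, MeasureTheory.Integrable (fun g => av (Y (ξ, g)) P) μ := fun ξ P =>
    ((hF P).comp (Continuous.prodMk_right ξ)).integrable_of_hasCompactSupport
      (HasCompactSupport.of_compactSpace _)
  refine ⟨fun ξ => ⟨⟨fun P => ∫ g, av (Y (ξ, g)) P ∂μ, fun P Q => ?_⟩, fun c P => ?_⟩,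
    fun ξ P hP => ?_, fun ξ U hU P => ?_, fun ξ => ?_, fun P => ?_⟩
  · rw [← MeasureTheory.integral_add (hI ξ P) (hI ξ Q)]
    simp only [map_add]
  · simp only [map_smul, RingHom.id_apply, MeasureTheory.integral_smul]
  · exact MeasureTheory.integral_nonneg fun g => hP _ (grp_Haar g)
  · let u : G_Haar n := ⟨⟨U, hU.1, mul_eq_one_comm.1 hU.1⟩, hU.2⟩
    show ∫ g, av (Y (ξ, g)) _ ∂μ = ∫ g, av (Y (ξ, g)) P ∂μ
    rw [← MeasureTheory.integral_mul_left_eq_self (fun g => av (Y (ξ, g)) P) u]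
    refine congrArg _ (funext fun g => ?_)
    have e : Y (ξ, u * g) = U * Y (ξ, g) * Uᴴ := by
      show U * g.1.1 * _ * (U * g.1.1)ᴴ = U * (g.1.1 * _ * g.1.1ᴴ) * Uᴴ
      simp only [conjTranspose_mul, Matrix.mul_assoc]
    rw [av_av_Haar, e]
  · show ∫ g, av (Y (ξ, g)) 1 ∂μ = 1
    simp [MeasureTheory.Measure.real, hμ]
  · show Continuous fun ξ => ∫ g, av (Y (ξ, g)) P ∂μ
    have := continuous_parametric_integral_of_continuous (μ := μ)
      (f := fun ξ g => av (Y (ξ, g)) P) (hF P) isCompact_univ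
    simpa only [MeasureTheory.Measure.restrict_univ] using this

end Pool.Agent.MP_12a176_ag.HC
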