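import Pool.Agent.MP_12a176_ag.HC.St

set_option autoImplicit false

namespace Pool.Agent.MP_12a176_ag.HC

open Complex Matrix MvPolynomial
open scoped ComplexOrder ComplexConjugate

variable {n : ℕ}

theorem sp_add_Inf {Y Z : Matrix (K n) (K n) ℂ} (hY : IsSp Y) (hZ : IsSp Z) : IsSp (Y + Z) := by
  rw [IsSp] at *
  rw [transpose_add, Matrix.add_mul, Matrix.mul_add, add_add_add_comm, hY, hZ, add_zero]

theorem sp_smul_Inf (c : ℂ) {Y : Matrix (K n) (K n) ℂ} (hY : IsSp Y) : IsSp (c • Y) := by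
  rw [IsSp] at *
  rw [transpose_smul, Matrix.smul_mul, Matrix.mul_smul, ← smul_add, hY, smul_zero]

theorem sp_star_Inf {W : Matrix (K n) (K n) ℂ} (hW : IsSp W) : IsSp Wᴴ := by
  have hJ : (JJ n ℂ)ᴴ = -JJ n ℂ := by
    rw [← J_transpose]
    exact congrArg transpose (map_J (Fin n) (starRingEnd ℂ))
  have h := congrArg conjTranspose hW
  rw [conjTranspose_add, conjTranspose_mul, conjTranspose_mul, hJ, conjTranspose_zero] at h
  have e : Wᵀᴴ = Wᴴᵀ := rfl
  have h2 := congrArg (fun M => JJ n ℂ * M * JJ n ℂ) h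
  simp only [e, Matrix.mul_add, Matrix.add_mul, Matrix.mul_neg, Matrix.neg_mul, Matrix.mul_zero,
    Matrix.zero_mul] at h2
  rw [← Matrix.mul_assoc, J_squared, Matrix.mul_assoc (JJ n ℂ), Matrix.mul_assoc Wᴴᵀ,
    J_squared] at h2
  simpa [IsSp] using h2

theorem mul_Inf {U V : Matrix (K n) (K n) ℂ} (hU : Grp U) (hV : Grp V) : Grp (U * V) := by
  constructor
  · rw [conjTranspose_mul, Matrix.mul_assoc, ← Matrix.mul_assoc Uᴴ, hU.1, Matrix.one_mul, hV.1]
  · calc U * V * JJ n ℂ * (U * V)ᵀ = U * (V * JJ n ℂ * Vᵀ) * Uᵀ := by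
          simp only [transpose_mul, Matrix.mul_assoc]
      _ = JJ n ℂ := by rw [hV.2, hU.2]

theorem inv_Inf {U : Matrix (K n) (K n) ℂ} (h : Grp U) : Grp Uᴴ := by
  refine ⟨by rw [conjTranspose_conjTranspose, mul_eq_one_comm, h.1], ?_⟩
  have h1 : Uᵀ * Uᴴᵀ = 1 := by rw [← transpose_mul, h.1, transpose_one]
  calc Uᴴ * JJ n ℂ * Uᴴᵀ = Uᴴ * (U * JJ n ℂ * Uᵀ) * Uᴴᵀ := by rw [h.2]
    _ = (Uᴴ * U) * JJ n ℂ * (Uᵀ * Uᴴᵀ) := by simp only [Matrix.mul_assoc]
    _ = JJ n ℂ := by rw [h.1, h1, Matrix.one_mul, Matrix.mul_one]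

theorem LZ_X_Inf (Z : Matrix (K n) (K n) ℂ) (a b : K n) :
    LZ Z (X (a, b)) = ∑ c, Z a c • (X (c, b) : A n) - ∑ d, Z d b • (X (a, d) : A n) := by
  simp only [LZ, mkDerivation_X, Matrix.sub_apply, Matrix.mul_apply, Matrix.map_apply,
    mvPolynomialX_apply, smul_eq_C_mul, mul_comm]

theorem LZ_lin_Inf (Y V : Matrix (K n) (K n) ℂ) (c : ℂ) : LZ (Y + c • V) = LZ Y + c • LZ V := by
  refine derivation_ext fun ⟨a, b⟩ => ?_
  simp only [Derivation.add_apply, Derivation.smul_apply, LZ_X_Inf, Matrix.add_apply,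
    Matrix.smul_apply, smul_eq_mul, add_smul, Finset.sum_add_distrib, smul_sub, Finset.smul_sum,
    smul_smul]
  abel

theorem der_Inf {w v : ℝ → Matrix (K n) (K n) ℂ} {Z : Matrix (K n) (K n) ℂ} (w0 : w 0 = 1)
    (v0 : v 0 = 1) (hw : ∀ a b, HasDerivAt (fun t => w t a b) (Z a b) 0)
    (hv : ∀ a b, HasDerivAt (fun t => v t a b) (-Z a b) 0) (P : A n) : ∀ F : A n →ₗ[ℂ] ℂ,
    HasDerivAt (fun t : ℝ => F (av ((w t).map C * XX n * (v t).map C) P)) (F (LZ Z P)) 0 := by
  induction P using MvPolynomial.induction_on with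
  | C a =>
    intro F
    simp only [av, aeval_C, derivation_C, map_zero]
    exact hasDerivAt_const _ _
  | add p q h h' =>
    intro F
    simp only [map_add]
    exact (h F).add (h' F)
  | mul_X p i h =>
    intro F
    obtain ⟨a, b⟩ := i
    have e : ∀ t, F (av ((w t).map C * XX n * (v t).map C) (p * X (a, b))) =
        ∑ d, ∑ c, w t a c * v t d b * (F ∘ₗ LinearMap.mulRight ℂ (X (c, d)))
          (av ((w t).map C * XX n * (v t).map C) p) := fun t => by
      rw [map_mul, av_X]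
      generalize av ((w t).map C * XX n * (v t).map C) p = q
      simp only [Matrix.mul_apply, Matrix.map_apply, mvPolynomialX_apply, Finset.sum_mul,
        Finset.mul_sum, map_sum, LinearMap.comp_apply, LinearMap.mulRight_apply]
      refine Finset.sum_congr rfl fun d _ => Finset.sum_congr rfl fun c _ => ?_
      rw [← smul_eq_mul (w t a c * v t d b), ← map_smul, smul_eq_C_mul, C_mul]
      congr 1
      ring
    have e0 : av ((w 0).map C * XX n * (v 0).map C) p = p := by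
      rw [w0, v0, Matrix.map_one _ (map_zero _) (map_one _), Matrix.one_mul, Matrix.mul_one]
      exact aeval_X_left_apply p
    simp only [e]
    refine (HasDerivAt.fun_sum fun d _ => HasDerivAt.fun_sum fun c _ => ((hw a c).fun_mul
      (hv d b)).fun_mul (h (F ∘ₗ LinearMap.mulRight ℂ (X (c, d))))).congr_deriv ?_
    rw [e0, w0, v0]
    simp only [Derivation.leibniz, LZ_X_Inf, smul_eq_mul, mul_sub, Finset.mul_sum, mul_smul_comm,
      map_add, map_sub, map_sum, map_smul, LinearMap.comp_apply, LinearMap.mulRight_apply,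
      Matrix.one_apply, add_mul, Finset.sum_add_distrib, mul_ite, ite_mul, mul_one, mul_zero,
      one_mul, zero_mul, Finset.sum_ite_eq, Finset.sum_ite_eq', Finset.mem_univ, if_true,
      Finset.sum_ite_irrel, Finset.sum_const_zero, neg_mul, Finset.sum_neg_distrib,
      mul_comm (X (a, b))]
    ring

theorem skew_Inf (h : SDiag n) {E : A n →ₗ[ℂ] ℂ} (hE : GInv E) {Z : Matrix (K n) (K n) ℂ}
    (h1 : Zᴴ = -Z) (h2 : IsSp Z) (P : A n) : E (LZ Z P) = 0 := by
  obtain ⟨U, y, hU, rfl⟩ := h Z h1 h2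
  let l : K n → ℂ := Sum.elim (fun k => I * y k) fun k => -(I * y k)
  let u : ℝ → Matrix (K n) (K n) ℂ := fun t => U * diagonal (fun c => exp (l c * t)) * Uᴴ
  have hl : ∀ (t : ℝ) c, conj (exp (l c * t)) = exp (-(l c * t)) := fun t c => by
    rw [← exp_conj]
    rcases c with c | c <;> simp [l]
  have hg : ∀ t, Grp (u t) := fun t => by
    refine mul_Inf (mul_Inf hU ⟨?_, ?_⟩) (inv_Inf hU)
    · rw [diagonal_conjTranspose, diagonal_mul_diagonal, ← diagonal_one]
      congr 1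
      funext c
      rw [Pi.star_apply, star_def, hl, ← exp_add, neg_add_cancel, exp_zero]
    · ext a b
      rw [diagonal_transpose, mul_diagonal, diagonal_mul]
      rcases a with a | a <;> rcases b with b | b <;> by_cases e : a = b <;>
        simp [J, l, e, ← exp_add]
  have u0 : u 0 = 1 := by
    simp only [u, ofReal_zero, mul_zero, exp_zero, diagonal_one, Matrix.mul_one]
    rw [mul_eq_one_comm, hU.1]
  have hu : ∀ a b, HasDerivAt (fun t => u t a b) ((U * dg y * Uᴴ) a b) 0 := fun a b => by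
    simp only [u, dg, Matrix.mul_apply (N := Uᴴ), mul_diagonal]
    refine HasDerivAt.fun_sum fun c _ => HasDerivAt.mul_const (HasDerivAt.const_mul _ ?_) _
    simpa using ((hasDerivAt_id ((0 : ℝ) : ℂ)).const_mul (l c)).cexp.comp_ofReal
  have hv : ∀ a b, HasDerivAt (fun t => (u t)ᴴ a b) (-(U * dg y * Uᴴ) a b) 0 := fun a b => by
    rw [← Matrix.neg_apply, ← h1]
    exact (hu b a).star
  have := der_Inf u0 (by rw [u0, conjTranspose_one]) hu hv P E
  simp only [hE _ (hg _)] at this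
  exact this.unique (hasDerivAt_const _ _)

theorem s_inf {n : ℕ} (h : SDiag n) : SInf n := by
  intro E hE W hW P
  obtain ⟨Y, hY⟩ : ∃ Y, Y = (1 / 2 : ℂ) • (W + (-1 : ℂ) • Wᴴ) := ⟨_, rfl⟩
  obtain ⟨V, hV⟩ : ∃ V, V = (-I / 2 : ℂ) • (W + Wᴴ) := ⟨_, rfl⟩
  have h1 : IsSp Y := hY ▸ sp_smul_Inf _ (sp_add_Inf hW (sp_smul_Inf _ (sp_star_Inf hW)))
  have h2 : IsSp V := hV ▸ sp_smul_Inf _ (sp_add_Inf hW (sp_star_Inf hW))
  have h3 : Yᴴ = -Y := by
    ext a b
    simp [hY]
  have h4 : Vᴴ = -V := by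
    ext a b
    simp [hV]
    ring
  have h5 : W = Y + I • V := by
    ext a b
    simp only [hY, hV, Matrix.add_apply, Matrix.smul_apply, smul_eq_mul]
    linear_combination (W a b + Wᴴ a b) / 2 * I_mul_I
  rw [h5, LZ_lin_Inf, Derivation.add_apply, Derivation.smul_apply, map_add, map_smul,
    skew_Inf h hE h3 h1, skew_Inf h hE h4 h2, smul_zero, add_zero]

end Pool.Agent.MP_12a176_ag.HC
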