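import Pool.Agent.MP_12a176_ag.HC.St

/- Radial parts of invariant operators and the formula of Harish-Chandra. -/

set_option autoImplicit false

namespace Pool.Agent.MP_12a176_ag.HC

open Complex Matrix MvPolynomial
open scoped ComplexOrder ComplexConjugate

variable {n : ℕ}

theorem homog_mul {ι σ : Type} [Fintype ι] {M N : Matrix ι ι (MvPolynomial σ ℂ)} {i j : ℕ}
    (h : ∀ a b, (M a b).IsHomogeneous i) (h' : ∀ a b, (N a b).IsHomogeneous j) (a b : ι) :
    ((M * N) a b).IsHomogeneous (i + j) :=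
  IsHomogeneous.sum _ _ _ fun c _ => (h a c).mul (h' c b)

theorem pw_homog (m : ℕ) : (pw n m).IsHomogeneous (2 * m) := by
  have hJ : ∀ a b, (JJ n (A n) a b).IsHomogeneous 0 := by
    rintro (a | a) (b | b) <;> simp only [Matrix.J, fromBlocks_apply₁₁, fromBlocks_apply₁₂,
      fromBlocks_apply₂₁, fromBlocks_apply₂₂, Matrix.zero_apply, Matrix.neg_apply, one_apply]
    · exact isHomogeneous_zero _ _ _
    · split_ifs
      exacts [(isHomogeneous_one _ _).neg, (isHomogeneous_zero _ _ _).neg]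
    · split_ifs
      exacts [isHomogeneous_one _ _, isHomogeneous_zero _ _ _]
    · exact isHomogeneous_zero _ _ _
  have h1 : ∀ a b, (pr (XX n) a b).IsHomogeneous 1 := fun a b => by
    rw [pr, Matrix.smul_apply, ← C_mul']
    exact ((isHomogeneous_X _ _).add (homog_mul (i := 1) (homog_mul (N := (XX n)ᵀ) hJ
      fun a b => isHomogeneous_X _ _) hJ a b)).C_mul _
  have h2 : ∀ k a b, ((pr (XX n) ^ k) a b).IsHomogeneous k := fun k => by
    induction k with
    | zero =>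
      intro a b
      rw [pow_zero, one_apply]
      split_ifs
      exacts [isHomogeneous_one _ _, isHomogeneous_zero _ _ _]
    | succ k ih => rw [pow_succ]; exact homog_mul ih h1
  exact IsHomogeneous.sum _ _ _ fun a _ => h2 _ a a

theorem s_int (h1 : SAd) (h2 : SAdm n) (h3 : SIo n) (h4 : SRad n) : SInt n := by
  intro ν hν m q
  have key : ∀ (j : ℕ) (ν : A n →ₗ[ℂ] ℂ), Adm ν → Adm (ν ∘ₗ (adM (QQ n))^[j] (Dop (pw n m))) ∧
      ∀ q, RR (ν ∘ₗ (adM (QQ n))^[j] (Dop (pw n m))) q =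
        (-2) ^ j * (2 * (-1 / 4) ^ m) * RR ν ((adM (ps n 1))^[j] (Dop (ps n m)) q) := by
    intro j
    induction j with
    | zero =>
      refine fun ν hν => ⟨(h2 ν hν).2 m, fun q => ?_⟩
      change ν (Dop (pw n m) (io (Dop (del X) q))) = _ * ν (io (Dop (del X) (Dop (ps n m) q)))
      rw [h3, map_smul, ← Dop_mul, mul_comm (ps n m), Dop_mul, pow_zero, one_mul, smul_eq_mul]
    | succ j ih =>
      intro ν hν
      obtain ⟨a1, a2⟩ := ih ν hν
      obtain ⟨b1, b2⟩ := ih _ (h2 ν hν).1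
      have c1 := (h2 _ a1).1
      simp only [Function.iterate_succ_apply']
      generalize (adM (QQ n))^[j] (Dop (pw n m)) = S at *
      generalize (adM (ps n 1))^[j] (Dop (ps n m)) = T at *
      refine ⟨⟨fun a b P => sub_eq_zero.2 ?_ |> (map_sub ν _ _).trans,
        fun Z hZ P => sub_eq_zero.2 ?_ |> (map_sub ν _ _).trans⟩, fun q => ?_⟩
      · exact (c1.supp a b P).trans (b1.supp a b P).symm
      · exact (c1.inv Z hZ P).trans (b1.inv Z hZ P).symm
      · have e1 := DFunLike.congr_fun (h4 _ a1) q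
        have e2 := DFunLike.congr_fun (h4 _ hν) (T q)
        have e3 := a2 (Mul (ps n 1) q)
        have e4 := b2 q
        have e5 : RR (ν ∘ₗ adM (QQ n) S) q =
            RR ((ν ∘ₗ S) ∘ₗ Mul (QQ n)) q - RR ((ν ∘ₗ Mul (QQ n)) ∘ₗ S) q := map_sub ν _ _
        have e6 : RR ν (adM (ps n 1) T q) =
            RR ν (T (Mul (ps n 1) q)) - RR ν (Mul (ps n 1) (T q)) := map_sub (RR ν) _ _
        simp only [LinearMap.smul_apply, LinearMap.comp_apply (RR _), smul_eq_mul] at e1 e2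
        rw [e5, e6, e1, e3, e4, e2]
        ring
  have e := (key (2 * m) ν hν).2 q
  have e1 : QQ n = ∑ a, X a * X (Prod.swap a) := rfl
  have e2 : ps n 1 = ∑ a, X a * X (id a) := by simp only [ps, mul_one, sq, id]
  rw [e1, e2, h1 _ _ Prod.swap_swap _ _ (pw_homog m), h1 _ _ (fun _ => rfl) _ (ps n m)
    (IsHomogeneous.sum _ _ _ fun a _ => isHomogeneous_X_pow _ _), rename_id] at e
  have e3 : (2 ^ (2 * m) * (2 * m).factorial : ℂ) ≠ 0 :=
    mul_ne_zero (pow_ne_zero _ two_ne_zero) (by exact_mod_cast Nat.factorial_ne_zero _)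
  refine mul_left_cancel₀ e3 (Eq.trans (map_smul ν _ _).symm (e.trans ?_))
  have e4 : (-2 : ℂ) ^ (2 * m) * (-1 / 4) ^ m = (-1) ^ m := by
    rw [pow_mul, ← mul_pow]; norm_num
  rw [LinearMap.smul_apply, map_smul, smul_eq_mul, ← e4]
  change _ * (_ * RR ν (ps n m * q)) = _
  ring

theorem ell_dg (y : Fin n → ℝ) : ell (dg y) = (-2 : ℂ) • io (∑ k, (y k : ℂ) • X k) := by
  simp only [ell, dg, Fintype.sum_prod_type, diagonal_apply, ite_smul, zero_smul,
    Finset.sum_ite_eq', Finset.mem_univ, if_true, Fintype.sum_sum_type, Sum.elim_inl, Sum.elim_inr,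
    map_sum, map_smul, io, aeval_X, Finset.smul_sum, ← Finset.sum_add_distrib]
  refine Finset.sum_congr rfl fun k _ => ?_
  module

theorem s_hc (h1 : SEig n) (h2 : SWeyl n) (h3 : SSupp n) (h4 : SAlt n) (h5 : SLin n)
    (h6 : SDel n) (h7 : SSing n) : SHC n := by
  obtain ⟨-, d1, d2, r, hr, d3⟩ := h6
  have w0 : 0 < Fintype.card (Equiv.Perm (Fin n)) * Fintype.card (Fin n → ℤˣ) :=
    Nat.mul_pos Fintype.card_pos Fintype.card_pos
  have f0 : 0 < (n ^ 2 + 2 * n).descFactorial (n ^ 2) :=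
    Nat.descFactorial_pos.2 (Nat.le_add_right _ _)
  refine ⟨(n ^ 2 + 2 * n).descFactorial (n ^ 2) *
    (Fintype.card (Equiv.Perm (Fin n)) * Fintype.card (Fin n → ℤˣ) : ℕ) / (4 ^ n * r),
    by positivity, fun ξ E a1 a2 a3 y => ?_⟩
  by_cases h0 : del ξ = 0
  · simp [h0, h7 ξ y h0]
  obtain ⟨c, hc⟩ := h4 _ (RR E) (fun s ε q => (h2 E a2 s ε q).2) (h3 ξ _ h0 (h1 ξ E a1 a2))
  have ed : ∀ z : Fin n → ℝ, eval (fun k => (z k : ℂ)) (del X) = (del z : ℝ) := fun z => by
    rw [del, del, RingHom.map_det, ← ofRealHom_eq_coe, RingHom.map_det]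
    congr 1
    ext i j
    simp
  have e1 := hc (del X)
  have e2 := hc ((∑ k, (y k : ℂ) • X k) ^ (n ^ 2 + 2 * n))
  have s1 : ∀ s ε, (sg (n := n) s ε : ℂ) * (sg s ε : ℂ) = 1 := fun s ε => by
    rw [sg, ← Int.cast_mul, ← Units.val_mul, Int.units_mul_self, Units.val_one, Int.cast_one]
  change E (io (Dop (del X) (del X))) = _ at e1
  change E (io (Dop (del X) _)) = _ at e2
  simp only [d2, smul_eval, ← mul_assoc, s1, one_mul, ed, Finset.sum_const, Finset.card_univ,
    nsmul_eq_mul, d3] at e1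
  rw [← algebraMap_eq, AlgHom.commutes, Algebra.algebraMap_eq_smul_one, map_smul, a3, smul_eq_mul,
    mul_one] at e1
  have e3 : (alt ξ y : ℂ) = ∑ s, ∑ ε, (sg s ε : ℂ) * eval (fun k => (ξ k : ℂ))
      (wa s ε ((∑ k, (y k : ℂ) • X k) ^ (n ^ 2 + 2 * n))) := by
    simp only [alt, ofReal_sum, ofReal_mul, ofReal_pow, ofReal_intCast, map_pow, map_sum, map_smul,
      wa, aeval_X, smul_eval, eval_X, mul_comm (y _ : ℂ)]
  rw [h5 _ _ _ _ d1, map_smul, map_smul, ed, ← e3, smul_eq_mul] at e2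
  have r0 : (r : ℂ) ≠ 0 := by exact_mod_cast hr.ne'
  rw [ell_dg, smul_pow, map_smul, ← map_pow, smul_eq_mul, pow_mul (-2 : ℂ)]
  push_cast
  norm_num only
  field_simp
  linear_combination (Fintype.card (Equiv.Perm (Fin n)) * Fintype.card (Fin n → ℤˣ) * del ξ : ℂ) *
    e2 - (alt ξ y : ℂ) * e1

end Pool.Agent.MP_12a176_ag.HC
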