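import Pool.Agent.MP_12a176_ag.HC.St

set_option autoImplicit false

namespace Pool.Agent.MP_12a176_ag.HC

open Complex Matrix MvPolynomial
open scoped ComplexOrder ComplexConjugate

noncomputable section

variable {n : ℕ}

/-- The diagonal matrix of the weights. -/
def dd_Io (n : ℕ) : Matrix (K n) (K n) (B n) := diagonal fun a => (-I / 2) • lam a

theorem chain_Io (D : Derivation ℂ (A n) (A n)) (D' : Derivation ℂ (B n) (B n))
    (h : ∀ k, D (io (X k)) = io (D' (X k))) (q : B n) : D (io q) = io (D' q) := by
  induction q using MvPolynomial.induction_on with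
  | C a => rw [← algebraMap_eq, AlgHom.commutes, D.map_algebraMap, D'.map_algebraMap, map_zero]
  | add p q hp hq => simp only [map_add, hp, hq]
  | mul_X p k hp => simp only [map_mul, Derivation.leibniz, smul_eq_mul, map_add, hp, h]

theorem base_Io (a : K n × K n) (q : B n) :
    pderiv a (io q) = io (Dop (av (dd_Io n) (X a)) q) := by
  obtain ⟨a, b⟩ := a
  rw [av_X, dd_Io]
  by_cases e : a = b
  · subst e
    rw [diagonal_apply_eq]
    rcases a with k | k
    · rw [chain_Io _ ((-I / 2) • pderiv k), map_smul, LinearMap.smul_apply, lam, Sum.elim_inl,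
        Dop_X, Derivation.smul_apply]
      intro j
      by_cases e : j = k
      · subst e
        simp [io, smul_eq_C_mul]
      · simp [io, pderiv_X, e]
    · rw [chain_Io _ ((I / 2) • pderiv k), map_smul, LinearMap.smul_apply, lam, Sum.elim_inr,
        map_neg, LinearMap.neg_apply, Dop_X, Derivation.smul_apply, neg_div, neg_smul, smul_neg,
        neg_neg]
      intro j
      by_cases e : j = k
      · subst e
        simp [io, smul_eq_C_mul, neg_div]
      · simp [io, pderiv_X, e]
  · rw [diagonal_apply_ne _ e, chain_Io _ 0, map_zero]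
    · rfl
    · intro j
      have h : ∀ c : K n, (c, c) ≠ (a, b) := fun c hc =>
        e ((congrArg Prod.fst hc).symm.trans (congrArg Prod.snd hc))
      simp [io, pderiv_X, h]

theorem dop_Io (p : A n) (q : B n) : Dop p (io q) = io (Dop (av (dd_Io n) p) q) := by
  induction p using MvPolynomial.induction_on generalizing q with
  | C a => rw [← algebraMap_eq, AlgHom.commutes (av _), algebraMap_eq, algebraMap_eq, Dop_C, Dop_C,
      map_smul]
  | add p p' h h' => simp only [map_add, LinearMap.add_apply, h, h']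
  | mul_X p a h => rw [Dop_mul, Dop_X, base_Io, h, map_mul (av _), Dop_mul]

theorem sp_Io : IsSp (dd_Io n) := by
  rw [IsSp, dd_Io, diagonal_transpose]
  ext1 a b
  rw [Matrix.add_apply, diagonal_mul, mul_diagonal]
  rcases a with k | k <;> rcases b with j | j <;> by_cases e : k = j <;>
    simp [Matrix.J, lam, e]

theorem pw_Io (m : ℕ) : av (dd_Io n) (pw n m) = (2 * (-1 / 4) ^ m : ℂ) • ps n m := by
  have h : (XX n).map (av (dd_Io n)) = dd_Io n := by
    ext1 a b
    exact av_X _ (a, b)
  have h1 : (pr (XX n)).map (av (dd_Io n)) = dd_Io n := by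
    rw [pr, Matrix.map_smul _ _ (map_smul _ _), Matrix.map_add _ (map_add _),
      Matrix.map_mul, Matrix.map_mul, transpose_map, map_J, h,
      eq_neg_of_add_eq_zero_right sp_Io, Matrix.neg_mul, Matrix.mul_assoc, J_squared,
      Matrix.mul_neg, Matrix.mul_one, neg_neg, ← two_smul ℂ, smul_smul]
    norm_num
  have h2 : (-I / 2) ^ 2 = -1 / 4 := by
    rw [div_pow, neg_sq, I_sq]
    norm_num
  rw [pw, AddMonoidHom.map_trace, ← AlgHom.mapMatrix_apply, map_pow, AlgHom.mapMatrix_apply, h1,
    dd_Io, diagonal_pow, trace_diagonal, Fintype.sum_sum_type, ps, mul_smul, two_smul,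
    Finset.smul_sum]
  simp only [Pi.pow_apply, lam, Sum.elim_inl, Sum.elim_inr, smul_pow, (even_two_mul m).neg_pow,
    pow_mul (-I / 2), h2]

theorem s_io (n : ℕ) : SIo n := fun m q => by
  rw [dop_Io, pw_Io, map_smul, LinearMap.smul_apply, map_smul]

theorem pd_Io (y : Fin n → ℂ) (k : Fin n) (j : ℕ) :
    pderiv k ((∑ i, y i • X i : B n) ^ (j + 1)) = ((j + 1 : ℂ) * y k) • (∑ i, y i • X i) ^ j := by
  have h : pderiv k (∑ i, y i • X i : B n) = y k • 1 := by
    simp [pderiv_X, Pi.single_apply]
  rw [Derivation.leibniz_pow, h, Nat.add_sub_cancel, smul_eq_mul, mul_smul_comm, mul_one,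
    ← Nat.cast_smul_eq_nsmul ℂ, smul_smul, Nat.cast_succ]

theorem s_lin (n : ℕ) : SLin n := by
  intro d
  induction d with
  | zero =>
    intro M p y hp
    rw [← totalDegree_zero_iff_isHomogeneous, totalDegree_eq_zero_iff_eq_C] at hp
    rw [hp, Dop_C, eval_C, zero_add, Nat.descFactorial_zero, Nat.cast_one, one_mul]
  | succ d ih =>
    intro M p y hp
    have hd : ((d + 1 : ℕ) : ℂ) ≠ 0 := Nat.cast_ne_zero.2 d.succ_ne_zero
    have e := hp.sum_X_mul_pderiv
    rw [← Nat.cast_smul_eq_nsmul ℂ] at e
    refine smul_right_injective _ hd ?_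
    have e1 : ((d + 1 : ℕ) : ℂ) * eval y p = ∑ k, y k * eval y (pderiv k p) := by
      rw [← smul_eval, ← e, map_sum]
      simp only [map_mul, eval_X]
    dsimp only
    rw [← LinearMap.smul_apply, ← map_smul, ← e, smul_smul, mul_left_comm, e1, Finset.mul_sum,
      Finset.sum_smul, map_sum, LinearMap.sum_apply, Nat.add_right_comm]
    refine Finset.sum_congr rfl fun k _ => ?_
    rw [mul_comm (X k), Dop_mul, Dop_X, pd_Io, map_smul, ih M _ y hp.pderiv, smul_smul,
      Nat.succ_descFactorial_succ]
    congr 1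
    push_cast
    ring

end

end Pool.Agent.MP_12a176_ag.HC
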