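import Pool.Agent.MP_12a176_ag.HC.St

section
set_option autoImplicit false

namespace Pool.Agent.MP_12a176_ag.HC

open Complex Matrix MvPolynomial
open scoped ComplexOrder ComplexConjugate

section
variable {α : Type} [Fintype α] [DecidableEq α]

/-- a normalised pair -/
structure Q_SpecB (S T : Matrix α α ℂ) (ε : ℝ) (v w : α → ℂ) (d μ : ℝ) : Prop where
  pos : 0 < d
  tv : T *ᵥ v = (μ : ℂ) • v
  tw : T *ᵥ w = ((ε : ℂ) * μ) • w
  jv : S *ᵥ star v = (d : ℂ) • w
  jw : S *ᵥ star w = (-(d : ℂ)) • v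
  vv : star v ⬝ᵥ v = 1
  ww : star w ⬝ᵥ w = 1
  vw : star v ⬝ᵥ w = 0

omit [DecidableEq α] in
theorem sym_SpecB {a b : α → ℂ} (h : star a ⬝ᵥ b = 0) : star b ⬝ᵥ a = 0 := by
  rw [star_dotProduct, h, star_zero]

omit [DecidableEq α] in
theorem skew_SpecB {S : Matrix α α ℂ} (hS : Sᵀ = -S) (a b : α → ℂ) :
    a ⬝ᵥ S *ᵥ b = -(b ⬝ᵥ S *ᵥ a) := by
  rw [dotProduct_mulVec, ← mulVec_transpose, hS, neg_mulVec, neg_dotProduct, dotProduct_comm]

omit [DecidableEq α] in
theorem herm_SpecB {T : Matrix α α ℂ} (hT : Tᴴ = T) (a b : α → ℂ) :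
    star a ⬝ᵥ T *ᵥ b = star (T *ᵥ a) ⬝ᵥ b := by
  rw [dotProduct_mulVec, star_mulVec, hT]

omit [DecidableEq α] in
theorem cj_SpecB (T : Matrix α α ℂ) (a : α → ℂ) : star (T *ᵥ a) = T.map conj *ᵥ star a := by
  ext x
  simp [mulVec, dotProduct]

omit [DecidableEq α] in
theorem nrm_SpecB {x : α → ℂ} (hx : x ≠ 0) : ∃ r : ℝ, 0 < r ∧ star x ⬝ᵥ x = (r : ℂ) ^ 2 := by
  have h0 : 0 ≤ star x ⬝ᵥ x := dotProduct_star_self_nonneg x
  have h1 : star x ⬝ᵥ x ≠ 0 := fun h => hx (dotProduct_star_self_eq_zero.1 h)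
  obtain ⟨hre, him⟩ := Complex.nonneg_iff.1 h0
  have e : star x ⬝ᵥ x = ((star x ⬝ᵥ x).re : ℂ) := Complex.ext rfl (by simp [← him])
  have h2 : 0 < (star x ⬝ᵥ x).re := lt_of_le_of_ne hre fun h => h1 (by rw [e, ← h]; simp)
  refine ⟨Real.sqrt (star x ⬝ᵥ x).re, Real.sqrt_pos.2 h2, ?_⟩
  rw [← Complex.ofReal_pow, Real.sq_sqrt hre]
  exact e

theorem step_SpecB {ι : Type} [Fintype ι] (hc : Fintype.card ι < Fintype.card α) {S T : Matrix α α ℂ} {ε : ℝ} (hS : Sᵀ = -S)
    (hd : S.det ≠ 0) (hT : Tᴴ = T) (hTS : T * S = (ε : ℂ) • (S * T.map conj))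
    (hν : ∀ (v : α → ℂ) (μ : ℂ), T *ᵥ v = μ • v → ∃ ν : ℂ, (S * S.map conj) *ᵥ v = ν • v)
    (f : ι → α → ℂ) (h1 : ∀ a, ∃ c : ℂ, T *ᵥ f a = c • f a)
    (h2 : ∀ a, ∃ (e : ℂ) (b : ι), S *ᵥ star (f a) = e • f b) :
    ∃ v w d μ, Q_SpecB S T ε v w d μ ∧ ∀ a, star (f a) ⬝ᵥ v = 0 ∧ star (f a) ⬝ᵥ w = 0 := by
  let L : (α → ℂ) →ₗ[ℂ] (ι → ℂ) := Matrix.mulVecLin (Matrix.of fun a => star (f a))
  have hL : ∀ x, x ∈ LinearMap.ker L ↔ ∀ a, star (f a) ⬝ᵥ x = 0 := fun x => by
    rw [LinearMap.mem_ker, funext_iff]; rfl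
  have hne : LinearMap.ker L ≠ ⊥ := LinearMap.ker_ne_bot_of_finrank_lt (by simpa using hc)
  have hst : ∀ x ∈ LinearMap.ker L, Matrix.mulVecLin T x ∈ LinearMap.ker L := fun x hx => by
    rw [hL] at hx ⊢
    intro a
    obtain ⟨c, hc⟩ := h1 a
    rw [mulVecLin_apply, herm_SpecB hT, hc, star_smul, smul_dotProduct, hx a, smul_zero]
  have : Nontrivial (LinearMap.ker L) := Submodule.nontrivial_iff_ne_bot.2 hne
  obtain ⟨m, hm⟩ := Module.End.exists_eigenvalue ((Matrix.mulVecLin T).restrict hst)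
  obtain ⟨x, hx⟩ := hm.exists_hasEigenvector
  have hx0 : (x : α → ℂ) ≠ 0 := fun h => hx.2 (Subtype.ext h)
  have hx1 : T *ᵥ (x : α → ℂ) = m • (x : α → ℂ) := congrArg Subtype.val hx.apply_eq_smul
  obtain ⟨r, hr, hxr⟩ := nrm_SpecB hx0
  have hr0 : (r : ℂ) ≠ 0 := by exact_mod_cast hr.ne'
  obtain ⟨v, hv⟩ : ∃ v, v = (r : ℂ)⁻¹ • (x : α → ℂ) := ⟨_, rfl⟩
  have hvv : star v ⬝ᵥ v = 1 := by
    rw [hv, star_smul, smul_dotProduct, dotProduct_smul, hxr]
    simp only [star_inv₀, RCLike.star_def, conj_ofReal, smul_eq_mul]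
    field_simp
  have hv1 : T *ᵥ v = m • v := by rw [hv, mulVec_smul, hx1, smul_comm]
  have hvf : ∀ a, star (f a) ⬝ᵥ v = 0 := fun a => by
    rw [hv, dotProduct_smul, (hL _).1 x.2 a, smul_zero]
  have hm : m = (m.re : ℂ) := by
    have := herm_SpecB hT v v
    rw [hv1, star_smul, smul_dotProduct, dotProduct_smul, hvv, smul_eq_mul, smul_eq_mul, mul_one,
      mul_one] at this
    exact (Complex.conj_eq_iff_re.1 this.symm).symm
  have hv0 : v ≠ 0 := fun h => by rw [h, dotProduct_zero] at hvv; exact zero_ne_one hvv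
  have hj0 : S *ᵥ star v ≠ 0 := fun h =>
    hv0 (star_eq_zero.1 (Matrix.eq_zero_of_mulVec_eq_zero hd h))
  obtain ⟨d, hd0, hdd⟩ := nrm_SpecB hj0
  have hd1 : (d : ℂ) ≠ 0 := by exact_mod_cast hd0.ne'
  obtain ⟨ν, hν⟩ := hν v m hv1
  have hjj : S *ᵥ star (S *ᵥ star v) = ν • v := by rw [cj_SpecB, star_star, mulVec_mulVec, hν]
  have hν2 : ν = -(d : ℂ) ^ 2 := by
    rw [skew_SpecB hS, hjj, dotProduct_smul, hvv, smul_eq_mul, mul_one] at hdd
    rw [← hdd, neg_neg]
  have hsd : star (d : ℂ)⁻¹ = (d : ℂ)⁻¹ := by simp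
  refine ⟨v, (d : ℂ)⁻¹ • S *ᵥ star v, d, m.re, ⟨hd0, by rw [← hm, hv1], ?_, ?_, ?_, hvv, ?_, ?_⟩,
    fun a => ⟨hvf a, ?_⟩⟩
  · rw [mulVec_smul, mulVec_mulVec, hTS, smul_mulVec, ← mulVec_mulVec, ← cj_SpecB, hv1, hm,
      star_smul, mulVec_smul, smul_smul, smul_smul, smul_smul]
    congr 1
    simp only [RCLike.star_def, conj_ofReal, ofReal_re]
    ring
  · rw [smul_smul, mul_inv_cancel₀ hd1, one_smul]
  · rw [star_smul, mulVec_smul, hjj, hsd, smul_smul, hν2]
    congr 1
    field_simp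
  · rw [star_smul, smul_dotProduct, dotProduct_smul, hdd, hsd, smul_eq_mul, smul_eq_mul]
    field_simp
  · have := skew_SpecB hS (star v) (star v)
    rw [dotProduct_smul, self_eq_neg.1 this, smul_zero]
  · obtain ⟨e, b, he⟩ := h2 a
    rw [dotProduct_smul, skew_SpecB hS, he, dotProduct_smul, sym_SpecB (hvf b), smul_zero, neg_zero,
      smul_zero]

end

theorem s_spec (n : ℕ) : SSpec n := by
  intro α _ _ hc S T ε hS hd hT hTS hν
  have key : ∀ k, k ≤ n → ∃ (v w : Fin k → α → ℂ) (d m : Fin k → ℝ),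
      (∀ i, Q_SpecB S T ε (v i) (w i) (d i) (m i)) ∧ ∀ i j, i < j →
        (star (v i) ⬝ᵥ v j = 0 ∧ star (v i) ⬝ᵥ w j = 0) ∧
          star (w i) ⬝ᵥ v j = 0 ∧ star (w i) ⬝ᵥ w j = 0 := by
    intro k
    induction k with
    | zero => exact fun _ => ⟨0, 0, 0, 0, fun i => i.elim0, fun i => i.elim0⟩
    | succ k ih =>
      intro hk
      obtain ⟨v, w, d, m, q, o⟩ := ih (by omega)
      obtain ⟨v1, w1, d1, m1, q1, o1⟩ := step_SpecB (ι := Fin k ⊕ Fin k) (by simp [hc]; omega)
        hS hd hT hTS hν (Sum.elim v w) (by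
          rintro (a | a)
          exacts [⟨_, (q a).tv⟩, ⟨_, (q a).tw⟩]) (by
          rintro (a | a)
          exacts [⟨_, .inr a, (q a).jv⟩, ⟨_, .inl a, (q a).jw⟩])
      refine ⟨Fin.snoc v v1, Fin.snoc w w1, Fin.snoc d d1, Fin.snoc m m1, fun i => ?_,
        fun i j h => ?_⟩
      · induction i using Fin.lastCases with
        | last => simpa using q1
        | cast i => simpa using q i
      · induction i using Fin.lastCases with
        | last => exact absurd h (Fin.le_last j).not_gt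
        | cast i =>
          induction j using Fin.lastCases with
          | last => simpa using And.intro (o1 (.inl i)) (o1 (.inr i))
          | cast j => simpa using o i j (by simpa using h)
  obtain ⟨v, w, d, m, q, o⟩ := key n le_rfl
  refine ⟨Matrix.of fun x a => Sum.elim v w a x, d, m, fun i => (q i).pos, ?_, ?_, ?_⟩
  · ext a b
    change star (Sum.elim v w a) ⬝ᵥ Sum.elim v w b = _
    rcases a with i | i <;> rcases b with j | j <;> rcases lt_trichotomy i j with h | rfl | h <;>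
      simp only [Sum.elim_inl, Sum.elim_inr]
    · rw [(o i j h).1.1, one_apply_ne (by simpa using h.ne)]
    · rw [(q i).vv, one_apply_eq]
    · rw [sym_SpecB (o j i h).1.1, one_apply_ne (by simpa using h.ne')]
    · rw [(o i j h).1.2, one_apply_ne (by simp)]
    · rw [(q i).vw, one_apply_ne (by simp)]
    · rw [sym_SpecB (o j i h).2.1, one_apply_ne (by simp)]
    · rw [(o i j h).2.1, one_apply_ne (by simp)]
    · rw [sym_SpecB (q i).vw, one_apply_ne (by simp)]
    · rw [sym_SpecB (o j i h).1.2, one_apply_ne (by simp)]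
    · rw [(o i j h).2.2, one_apply_ne (by simpa using h.ne)]
    · rw [(q i).ww, one_apply_eq]
    · rw [sym_SpecB (o j i h).2.2, one_apply_ne (by simpa using h.ne')]
  · ext x a
    rw [mul_diagonal]
    change (T *ᵥ Sum.elim v w a) x = _
    rcases a with i | i
    · simp [(q i).tv, mul_comm]
    · simp [(q i).tw, mul_comm]
  · ext x a
    change (S *ᵥ star (Sum.elim v w a)) x = _
    rw [mul_apply, Fintype.sum_sum_type]
    rcases a with i | i
    · simp [(q i).jv, diagonal_apply, mul_comm]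
    · simp [(q i).jw, diagonal_apply, mul_comm]

end Pool.Agent.MP_12a176_ag.HC

end

section
/- Conjugation to the Cartan subalgebra and a unitary symplectic frame. -/

set_option autoImplicit false

namespace Pool.Agent.MP_12a176_ag.HC

open Complex Matrix MvPolynomial
open scoped ComplexOrder ComplexConjugate

theorem cj_DF {n : ℕ} (A : Matrix (K n) (K n) ℂ) : A.map conj = Aᴴᵀ := by
  ext i j
  simp

theorem Jc_DF {n : ℕ} : (JJ n ℂ).map conj = JJ n ℂ := by
  ext i j
  rcases i with i | i <;> rcases j with j | j <;> simp [Matrix.J, Matrix.one_apply, apply_ite]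

theorem JH_DF {n : ℕ} : (JJ n ℂ)ᴴ = -JJ n ℂ := by
  rw [← Matrix.transpose_transpose (JJ n ℂ)ᴴ, ← cj_DF, Jc_DF, Matrix.J_transpose]

theorem s_diag {n : ℕ} (h : SSpec n) : SDiag n := by
  intro Y hY hS
  have hT : ((-I) • Y)ᴴ = (-I) • Y := by
    rw [conjTranspose_smul, hY]
    simp
  have hS' : Y * JJ n ℂ = -(JJ n ℂ * Yᵀ) := eq_neg_of_add_eq_zero_left hS
  obtain ⟨U, d, μ, hd, h1, h2, h3⟩ := h (K n) (by simp [two_mul]) (JJ n ℂ) ((-I) • Y) (-1)
    (Matrix.J_transpose _ _) (Matrix.isUnit_det_J _ _).ne_zero hT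
    (by
      rw [cj_DF, hT, transpose_smul, Matrix.smul_mul, Matrix.mul_smul, hS']
      simp)
    (fun v _ _ => ⟨-1, by rw [Jc_DF, Matrix.J_squared, Matrix.neg_mulVec, one_mulVec]; simp⟩)
  have h1' : U * Uᴴ = 1 := mul_eq_one_comm.1 h1
  have h4 : Uᴴᵀ * Uᵀ = 1 := by rw [← transpose_mul, h1', transpose_one]
  have h5 : Uᵀ * Uᴴᵀ = 1 := by rw [← transpose_mul, h1, transpose_one]
  rw [cj_DF] at h3
  set M : Matrix (K n) (K n) ℂ :=
    fromBlocks 0 (-diagonal fun i => (d i : ℂ)) (diagonal fun i => (d i : ℂ)) 0 with hM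
  have hMM : Mᴴ * M = 1 := by
    have e1 : (U * M)ᴴ * (U * M) = Mᴴ * M := by
      rw [conjTranspose_mul, Matrix.mul_assoc, ← Matrix.mul_assoc Uᴴ, h1, Matrix.one_mul]
    have e2 : (Uᴴᵀ)ᴴ = Uᵀ := by
      ext i j
      simp
    rw [← e1, ← h3, conjTranspose_mul, e2, JH_DF, Matrix.mul_assoc, ← Matrix.mul_assoc (-JJ n ℂ),
      Matrix.neg_mul, Matrix.J_squared, neg_neg, Matrix.one_mul, h5]
  have hd1 : ∀ i, d i = 1 := by
    intro i
    have e := congrFun (congrFun hMM (Sum.inl i)) (Sum.inl i)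
    rw [hM, fromBlocks_conjTranspose, fromBlocks_multiply] at e
    simp [diagonal_conjTranspose] at e
    have e' : d i * d i = 1 := by exact_mod_cast e
    have := hd i
    nlinarith
  have hMJ : M = JJ n ℂ := by
    rw [hM]
    simp [hd1, Matrix.J]
  refine ⟨U, μ, ⟨h1, ?_⟩, ?_⟩
  · rw [← hMJ, ← h3, Matrix.mul_assoc, h4, Matrix.mul_one, hMJ]
  · have e : Y * U = U * dg μ := by
      have e1 : Y * U = I • (((-I) • Y) * U) := by
        rw [Matrix.smul_mul, smul_smul]
        simp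
      rw [e1, h2, ← Matrix.mul_smul, dg, ← diagonal_smul]
      congr 2
      ext i
      rcases i with i | i <;> simp
    rw [← e, Matrix.mul_assoc, h1', Matrix.mul_one]

theorem core_DF {n : ℕ} (A : Matrix (K n) (K n) ℂ) (d : Fin n → ℝ) (hd : ∀ i, 0 < d i) (M : Matrix (K n) (K n) ℂ)
    (hM : M = fromBlocks 0 (-diagonal fun i => (d i : ℂ)) (diagonal fun i => (d i : ℂ)) 0)
    (h1 : A * M + M * Aᵀ = 0) (h2 : Aᴴ * M + M * Aᴴᵀ = 0) : IsSp A := by
  obtain ⟨D, hD⟩ : ∃ D : K n → ℝ, D = Sum.elim d d := ⟨_, rfl⟩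
  have hpos : ∀ a, 0 < D a := by
    rintro (a | a) <;> simp [hD, hd]
  have hdiag : (diagonal fun a => (D a : ℂ)) =
      fromBlocks (diagonal fun i => (d i : ℂ)) 0 0 (diagonal fun i => (d i : ℂ)) := by
    rw [fromBlocks_diagonal, hD]
    congr 1
    funext a
    rcases a with a | a <;> rfl
  have e1 : M = (diagonal fun a => (D a : ℂ)) * JJ n ℂ := by
    rw [hdiag, hM, JJ, Matrix.J, fromBlocks_multiply]
    simp
  have e2 : Mᴴ = -M := by
    rw [hM]
    simp [fromBlocks_conjTranspose, fromBlocks_neg, diagonal_conjTranspose, Pi.star_def]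
  have e3 : M * M = -diagonal fun a => (D a : ℂ) * D a := by
    rw [← diagonal_mul_diagonal, hdiag, hM]
    simp [fromBlocks_multiply]
  have h3 : M * A + Aᵀ * M = 0 := by
    have := congrArg conjTranspose h2
    rw [conjTranspose_add, conjTranspose_mul, conjTranspose_mul, e2, conjTranspose_conjTranspose,
      conjTranspose_zero, show Aᴴᵀᴴ = Aᵀ from by ext; simp, Matrix.neg_mul, Matrix.mul_neg,
      ← neg_add, neg_eq_zero] at this
    exact this
  have h4 : A * (M * M) = M * M * A := by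
    rw [← Matrix.mul_assoc, eq_neg_of_add_eq_zero_left h1, Matrix.mul_assoc M M,
      eq_neg_of_add_eq_zero_left h3, Matrix.neg_mul, Matrix.mul_neg, Matrix.mul_assoc]
  have h5 : A * (diagonal fun a => (D a : ℂ)) = (diagonal fun a => (D a : ℂ)) * A := by
    rw [e3, Matrix.mul_neg, Matrix.neg_mul, neg_inj] at h4
    ext a b
    have h6 := congrFun (congrFun h4 a) b
    rw [mul_diagonal, diagonal_mul] at h6 ⊢
    have h7 : (D a : ℂ) + D b ≠ 0 := by
      exact_mod_cast (add_pos (hpos a) (hpos b)).ne'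
    refine mul_left_cancel₀ h7 ?_
    linear_combination h6
  have h8 : (diagonal fun a => (D a : ℂ)) * (A * JJ n ℂ + JJ n ℂ * Aᵀ) = 0 := by
    rw [Matrix.mul_add, ← Matrix.mul_assoc, ← h5, Matrix.mul_assoc, ← Matrix.mul_assoc _ (JJ n ℂ),
      ← e1, h1]
  ext a b
  have h9 := congrFun (congrFun h8 a) b
  rw [diagonal_mul] at h9
  exact (mul_eq_zero.1 h9).resolve_left (by exact_mod_cast (hpos a).ne')

open scoped MatrixOrder in
theorem s_frame {n : ℕ} (h : SSpec n) : SFrame n := by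
  intro H S Θ hc hS
  obtain ⟨g, hg⟩ := CStarAlgebra.nonneg_iff_eq_mul_star_self.mp hc.pos.posSemidef.nonneg
  have hu : IsUnit g.det := by
    have := hc.pos.det_pos.ne'
    rw [hg, det_mul] at this
    exact (left_ne_zero_of_mul this).isUnit
  have e1 : ∀ k l, g⁻¹ * Θ k l * g = g⁻¹ * (Θ k l * H) * g⁻¹ᴴ := fun k l => by
    rw [hg, star_eq_conjTranspose, Matrix.mul_assoc _ (_ * _), Matrix.mul_assoc (Θ k l),
      Matrix.mul_assoc g, ← conjTranspose_mul, nonsing_inv_mul _ hu, conjTranspose_one,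
      Matrix.mul_one, Matrix.mul_assoc]
  have e2 : ∀ k l, (g⁻¹ * Θ k l * g)ᴴ = g⁻¹ * Θ l k * g := fun k l => by
    rw [e1, e1, conjTranspose_mul, conjTranspose_mul, conjTranspose_conjTranspose, hc.herm,
      Matrix.mul_assoc g⁻¹]
  obtain ⟨S0, hS0⟩ : ∃ S0, S0 = g⁻¹ * S * g⁻¹ᵀ := ⟨_, rfl⟩
  have s1 : S0ᵀ = -S0 := by
    rw [hS0, transpose_mul, transpose_mul, transpose_transpose, hS, Matrix.neg_mul, Matrix.mul_neg,
      Matrix.mul_assoc]
  have s2 : S0.det ≠ 0 := by
    have := (isUnit_nonsing_inv_det g hu).ne_zero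
    rw [hS0, det_mul, det_mul, det_transpose]
    exact mul_ne_zero (mul_ne_zero this hc.det) this
  have s3 : S0ᴴ = -S0.map conj := by
    ext a b
    have := congrFun (congrFun s1 a) b
    simp only [transpose_apply, Matrix.neg_apply] at this
    simp [this]
  have s4 : (S0.map conj).map conj = S0 := by
    ext a b
    simp
  have s5 : ∀ k l, g⁻¹ * Θ k l * g * S0 + S0 * (g⁻¹ * Θ k l * g)ᵀ = 0 := fun k l => by
    have a1 : g⁻¹ᵀ * gᵀ = 1 := by rw [← transpose_mul, mul_nonsing_inv _ hu, transpose_one]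
    have a2 : g⁻¹ * (Θ k l * S + S * (Θ k l)ᵀ) * g⁻¹ᵀ = 0 := by
      rw [hc.sp, Matrix.mul_zero, Matrix.zero_mul]
    rw [← a2, hS0, transpose_mul, transpose_mul]
    simp only [Matrix.mul_add, Matrix.add_mul, Matrix.mul_assoc,
      mul_nonsing_inv_cancel_left _ _ hu]
    rw [← Matrix.mul_assoc g⁻¹ᵀ gᵀ, a1, Matrix.one_mul]
  obtain ⟨U, d, μ, hd, hU, -, hSU⟩ := h (Fin (2 * n)) (by simp) S0 (S0 * S0ᴴ) 1 s1 s2
    (by rw [conjTranspose_mul, conjTranspose_conjTranspose])
    (by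
      rw [s3, Matrix.mul_neg, Matrix.map_neg _ (map_neg _), Matrix.map_mul, s4, ofReal_one,
        one_smul, Matrix.neg_mul, Matrix.mul_neg, Matrix.mul_assoc])
    (fun v m hv => ⟨-m, by
      rw [s3, Matrix.mul_neg, neg_mulVec] at hv
      rw [neg_smul, ← hv, neg_neg]⟩)
  have u1 : U * Uᴴ = 1 := (Matrix.mul_eq_one_comm_of_equiv (eK n)).1 hU
  have u2 : U.map conj = Uᴴᵀ := by
    ext a b
    simp
  have u3 : Uᴴᵀ * Uᵀ = 1 := by rw [← transpose_mul, u1, transpose_one]
  have u4 : U.submatrix id (eK n).symm * (U.submatrix id (eK n).symm)ᴴ = 1 := by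
    rw [conjTranspose_submatrix, submatrix_mul_equiv, u1, submatrix_id_id]
  have u5 : (U.submatrix id (eK n).symm)ᴴ * U.submatrix id (eK n).symm = 1 := mul_eq_one_comm.1 u4
  have m1 : Uᴴ * S0 * Uᴴᵀ =
      fromBlocks 0 (-diagonal fun i => (d i : ℂ)) (diagonal fun i => (d i : ℂ)) 0 := by
    rw [Matrix.mul_assoc, ← u2, hSU, ← Matrix.mul_assoc, hU, Matrix.one_mul]
  have m2 : ∀ k l, Uᴴ * (g⁻¹ * Θ k l * g) * U * (Uᴴ * S0 * Uᴴᵀ) +
      Uᴴ * S0 * Uᴴᵀ * (Uᴴ * (g⁻¹ * Θ k l * g) * U)ᵀ = 0 := fun k l => by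
    have a2 : Uᴴ * (g⁻¹ * Θ k l * g * S0 + S0 * (g⁻¹ * Θ k l * g)ᵀ) * Uᴴᵀ = 0 := by
      rw [s5, Matrix.mul_zero, Matrix.zero_mul]
    generalize g⁻¹ * Θ k l * g = B at a2 ⊢
    rw [← a2, transpose_mul, transpose_mul]
    simp only [Matrix.mul_add, Matrix.add_mul, Matrix.mul_assoc]
    rw [← Matrix.mul_assoc U Uᴴ, u1, ← Matrix.mul_assoc Uᴴᵀ Uᵀ, u3, Matrix.one_mul, Matrix.one_mul]
  refine ⟨g * U.submatrix id (eK n).symm, ?_, fun k l => ?_⟩
  · rw [conjTranspose_mul, Matrix.mul_assoc, ← Matrix.mul_assoc (U.submatrix _ _), u4,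
      Matrix.one_mul, hg, star_eq_conjTranspose]
  · have i1 : (g * U.submatrix id (eK n).symm)⁻¹ = (U.submatrix id (eK n).symm)ᴴ * g⁻¹ :=
      inv_eq_left_inv (by
        rw [Matrix.mul_assoc, nonsing_inv_mul_cancel_left _ _ hu, u5])
    have i2 : ((g * U.submatrix id (eK n).symm)⁻¹ * Θ k l * (g * U.submatrix id (eK n).symm)).submatrix
        (eK n) (eK n) = Uᴴ * (g⁻¹ * Θ k l * g) * U := by
      have : (U.submatrix id (eK n).symm)ᴴ * g⁻¹ * Θ k l * (g * U.submatrix id (eK n).symm) =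
          (U.submatrix id (eK n).symm)ᴴ * (g⁻¹ * Θ k l * g) * U.submatrix id (eK n).symm := by
        simp only [Matrix.mul_assoc]
      rw [i1, this]
      generalize g⁻¹ * Θ k l * g = B
      ext a b
      simp [Matrix.mul_apply]
    rw [i2]
    refine core_DF _ d hd _ m1 (m2 k l) ?_
    have := m2 l k
    rwa [← e2, show Uᴴ * (g⁻¹ * Θ k l * g)ᴴ * U = (Uᴴ * (g⁻¹ * Θ k l * g) * U)ᴴ from by
      simp only [conjTranspose_mul, conjTranspose_conjTranspose, Matrix.mul_assoc]] at this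

end Pool.Agent.MP_12a176_ag.HC

end

section
set_option autoImplicit false

namespace Pool.Agent.MP_12a176_ag.HC

open Complex Matrix MvPolynomial
open scoped ComplexOrder ComplexConjugate

variable {n : ℕ}

theorem mul_Haar {U V : Matrix (K n) (K n) ℂ} (hU : U * JJ n ℂ * Uᵀ = JJ n ℂ)
    (hV : V * JJ n ℂ * Vᵀ = JJ n ℂ) : U * V * JJ n ℂ * (U * V)ᵀ = JJ n ℂ := by
  calc U * V * JJ n ℂ * (U * V)ᵀ = U * (V * JJ n ℂ * Vᵀ) * Uᵀ := by
        simp only [transpose_mul, Matrix.mul_assoc]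
    _ = JJ n ℂ := by rw [hV, hU]

theorem inv_Haar {U : Matrix (K n) (K n) ℂ} (h : Grp U) : Uᴴ * JJ n ℂ * Uᴴᵀ = JJ n ℂ := by
  have h1 : Uᵀ * Uᴴᵀ = 1 := by rw [← transpose_mul, h.1, transpose_one]
  calc Uᴴ * JJ n ℂ * Uᴴᵀ = Uᴴ * (U * JJ n ℂ * Uᵀ) * Uᴴᵀ := by rw [h.2]
    _ = (Uᴴ * U) * JJ n ℂ * (Uᵀ * Uᴴᵀ) := by simp only [Matrix.mul_assoc]
    _ = JJ n ℂ := by rw [h.1, h1, Matrix.one_mul, Matrix.mul_one]

/-- The compact symplectic group as a subgroup of the unitary group. -/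
def G_Haar (n : ℕ) : Subgroup (Matrix.unitaryGroup (K n) ℂ) where
  carrier := {u | u.1 * JJ n ℂ * u.1ᵀ = JJ n ℂ}
  mul_mem' := fun ha hb => mul_Haar ha hb
  one_mem' := by simp
  inv_mem' := fun {u} hu => inv_Haar ⟨u.2.1, hu⟩

theorem grp_Haar (g : G_Haar n) : Grp g.1.1 := ⟨g.1.2.1, g.2⟩

theorem compact_Haar (n : ℕ) : CompactSpace (G_Haar n) := by
  have h1 : CompactSpace (Matrix.unitaryGroup (K n) ℂ) := by
    refine isCompact_iff_compactSpace.1 (IsCompact.of_isClosed_subset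
      (s := Set.pi Set.univ fun _ : K n => Set.pi Set.univ fun _ : K n =>
        Metric.closedBall (0 : ℂ) 1)
      (isCompact_univ_pi fun _ => isCompact_univ_pi fun _ => isCompact_closedBall _ _)
      (isClosed_unitary (R := Matrix (K n) (K n) ℂ)) fun U hU i _ j _ => ?_)
    exact mem_closedBall_zero_iff.2 (entry_norm_bound_of_unitary hU i j)
  refine isCompact_iff_compactSpace.1 (IsClosed.isCompact (isClosed_eq ?_ continuous_const))
  exact (continuous_subtype_val.matrix_mul continuous_const).matrix_mul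
    continuous_subtype_val.matrix_transpose

theorem dg_cont_Haar (n : ℕ) : Continuous (dg (n := n)) := by
  refine Continuous.matrix_diagonal (continuous_pi ?_)
  rintro (k | k)
  · exact continuous_const.mul (continuous_ofReal.comp (continuous_apply k))
  · exact (continuous_const.mul (continuous_ofReal.comp (continuous_apply k))).neg

theorem av_av_Haar (M U V : Matrix (K n) (K n) ℂ) (P : A n) :
    av M (av (U.map C * XX n * V.map C) P) = av (U * M * V) P := by
  have e : ∀ Z : Matrix (K n) (K n) (A n), av M (av Z P) = av (Z.map (av M)) P := fun Z => by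
    rw [av, av, ← AlgHom.comp_apply, comp_aeval]; rfl
  have eC : ∀ W : Matrix (K n) (K n) ℂ, (W.map C : Matrix (K n) (K n) (A n)).map (av M) = W :=
    fun W => by
      ext a b
      simp [av]
  have eX : (XX n).map (av M) = M := by
    ext a b
    exact av_X M (a, b)
  rw [e, Matrix.map_mul, Matrix.map_mul, eC, eC, eX]

theorem s_haar (n : ℕ) : SHaar n := by
  have := compact_Haar n
  borelize ↥(G_Haar n)
  let μ : MeasureTheory.Measure (G_Haar n) := MeasureTheory.Measure.haarMeasure ⊤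
  have hμ : μ Set.univ = 1 := by
    rw [← TopologicalSpace.PositiveCompacts.coe_top]
    exact MeasureTheory.Measure.haarMeasure_self
  let Y : (Fin n → ℝ) × G_Haar n → Matrix (K n) (K n) ℂ := fun p => p.2.1.1 * dg p.1 * p.2.1.1ᴴ
  have hY : Continuous Y := by
    have h : Continuous fun p : (Fin n → ℝ) × G_Haar n => p.2.1.1 :=
      continuous_subtype_val.comp (continuous_subtype_val.comp continuous_snd)
    exact (h.matrix_mul ((dg_cont_Haar n).comp continuous_fst)).matrix_mul h.matrix_conjTranspose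
  have hF : ∀ P, Continuous fun p => av (Y p) P := fun P => by
    induction P using MvPolynomial.induction_on with
    | C a => simpa [av] using continuous_const
    | add p q hp hq => simpa only [map_add] using hp.fun_add hq
    | mul_X p a hp => simpa only [map_mul, av_X] using hp.fun_mul (hY.matrix_elem a.1 a.2)
  have hI : ∀ ξ P, MeasureTheory.Integrable (fun g => av (Y (ξ, g)) P) μ := fun ξ P =>
    ((hF P).comp (Continuous.prodMk_right ξ)).integrable_of_hasCompactSupport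
      (HasCompactSupport.of_compactSpace _)
  refine ⟨fun ξ => ⟨⟨fun P => ∫ g, av (Y (ξ, g)) P ∂μ, fun P Q => ?_⟩, fun c P => ?_⟩,
    fun ξ P hP => ?_, fun ξ U hU P => ?_, fun ξ => ?_, fun P => ?_⟩
  · rw [← MeasureTheory.integral_add (hI ξ P) (hI ξ Q)]
    simp only [map_add]
  · simp only [map_smul, RingHom.id_apply, MeasureTheory.integral_smul]
  · exact MeasureTheory.integral_nonneg fun g => hP _ (grp_Haar g)
  · let u : G_Haar n := ⟨⟨U, hU.1, mul_eq_one_comm.1 hU.1⟩, hU.2⟩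
    show ∫ g, av (Y (ξ, g)) _ ∂μ = ∫ g, av (Y (ξ, g)) P ∂μ
    rw [← MeasureTheory.integral_mul_left_eq_self (fun g => av (Y (ξ, g)) P) u]
    refine congrArg _ (funext fun g => ?_)
    have e : Y (ξ, u * g) = U * Y (ξ, g) * Uᴴ := by
      show U * g.1.1 * _ * (U * g.1.1)ᴴ = U * (g.1.1 * _ * g.1.1ᴴ) * Uᴴ
      simp only [conjTranspose_mul, Matrix.mul_assoc]
    rw [av_av_Haar, e]
  · show ∫ g, av (Y (ξ, g)) 1 ∂μ = 1
    simp [MeasureTheory.Measure.real, hμ]
  · show Continuous fun ξ => ∫ g, av (Y (ξ, g)) P ∂μ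
    have := continuous_parametric_integral_of_continuous (μ := μ)
      (f := fun ξ g => av (Y (ξ, g)) P) (hF P) isCompact_univ
    simpa only [MeasureTheory.Measure.restrict_univ] using this

end Pool.Agent.MP_12a176_ag.HC

end

section
set_option autoImplicit false

namespace Pool.Agent.MP_12a176_ag.HC

open Complex Matrix MvPolynomial
open scoped ComplexOrder ComplexConjugate

variable {n : ℕ}

theorem sp_add_Inf {Y Z : Matrix (K n) (K n) ℂ} (hY : IsSp Y) (hZ : IsSp Z) : IsSp (Y + Z) := by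
  rw [IsSp] at *
  rw [transpose_add, Matrix.add_mul, Matrix.mul_add, add_add_add_comm, hY, hZ, add_zero]

theorem sp_smul_Inf (c : ℂ) {Y : Matrix (K n) (K n) ℂ} (hY : IsSp Y) : IsSp (c • Y) := by
  rw [IsSp] at *
  rw [transpose_smul, Matrix.smul_mul, Matrix.mul_smul, ← smul_add, hY, smul_zero]

theorem sp_star_Inf {W : Matrix (K n) (K n) ℂ} (hW : IsSp W) : IsSp Wᴴ := by
  have hJ : (JJ n ℂ)ᴴ = -JJ n ℂ := by
    rw [← J_transpose]
    exact congrArg transpose (map_J (Fin n) (starRingEnd ℂ))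
  have h := congrArg conjTranspose hW
  rw [conjTranspose_add, conjTranspose_mul, conjTranspose_mul, hJ, conjTranspose_zero] at h
  have e : Wᵀᴴ = Wᴴᵀ := rfl
  have h2 := congrArg (fun M => JJ n ℂ * M * JJ n ℂ) h
  simp only [e, Matrix.mul_add, Matrix.add_mul, Matrix.mul_neg, Matrix.neg_mul, Matrix.mul_zero,
    Matrix.zero_mul] at h2
  rw [← Matrix.mul_assoc, J_squared, Matrix.mul_assoc (JJ n ℂ), Matrix.mul_assoc Wᴴᵀ,
    J_squared] at h2
  simpa [IsSp] using h2

theorem mul_Inf {U V : Matrix (K n) (K n) ℂ} (hU : Grp U) (hV : Grp V) : Grp (U * V) := by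
  constructor
  · rw [conjTranspose_mul, Matrix.mul_assoc, ← Matrix.mul_assoc Uᴴ, hU.1, Matrix.one_mul, hV.1]
  · calc U * V * JJ n ℂ * (U * V)ᵀ = U * (V * JJ n ℂ * Vᵀ) * Uᵀ := by
          simp only [transpose_mul, Matrix.mul_assoc]
      _ = JJ n ℂ := by rw [hV.2, hU.2]

theorem inv_Inf {U : Matrix (K n) (K n) ℂ} (h : Grp U) : Grp Uᴴ := by
  refine ⟨by rw [conjTranspose_conjTranspose, mul_eq_one_comm, h.1], ?_⟩
  have h1 : Uᵀ * Uᴴᵀ = 1 := by rw [← transpose_mul, h.1, transpose_one]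
  calc Uᴴ * JJ n ℂ * Uᴴᵀ = Uᴴ * (U * JJ n ℂ * Uᵀ) * Uᴴᵀ := by rw [h.2]
    _ = (Uᴴ * U) * JJ n ℂ * (Uᵀ * Uᴴᵀ) := by simp only [Matrix.mul_assoc]
    _ = JJ n ℂ := by rw [h.1, h1, Matrix.one_mul, Matrix.mul_one]

theorem LZ_X_Inf (Z : Matrix (K n) (K n) ℂ) (a b : K n) :
    LZ Z (X (a, b)) = ∑ c, Z a c • (X (c, b) : A n) - ∑ d, Z d b • (X (a, d) : A n) := by
  simp only [LZ, mkDerivation_X, Matrix.sub_apply, Matrix.mul_apply, Matrix.map_apply,
    mvPolynomialX_apply, smul_eq_C_mul, mul_comm]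

theorem LZ_lin_Inf (Y V : Matrix (K n) (K n) ℂ) (c : ℂ) : LZ (Y + c • V) = LZ Y + c • LZ V := by
  refine derivation_ext fun ⟨a, b⟩ => ?_
  simp only [Derivation.add_apply, Derivation.smul_apply, LZ_X_Inf, Matrix.add_apply,
    Matrix.smul_apply, smul_eq_mul, add_smul, Finset.sum_add_distrib, smul_sub, Finset.smul_sum,
    smul_smul]
  abel

theorem der_Inf {w v : ℝ → Matrix (K n) (K n) ℂ} {Z : Matrix (K n) (K n) ℂ} (w0 : w 0 = 1)
    (v0 : v 0 = 1) (hw : ∀ a b, HasDerivAt (fun t => w t a b) (Z a b) 0)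
    (hv : ∀ a b, HasDerivAt (fun t => v t a b) (-Z a b) 0) (P : A n) : ∀ F : A n →ₗ[ℂ] ℂ,
    HasDerivAt (fun t : ℝ => F (av ((w t).map C * XX n * (v t).map C) P)) (F (LZ Z P)) 0 := by
  induction P using MvPolynomial.induction_on with
  | C a =>
    intro F
    simp only [av, aeval_C, derivation_C, map_zero]
    exact hasDerivAt_const _ _
  | add p q h h' =>
    intro F
    simp only [map_add]
    exact (h F).add (h' F)
  | mul_X p i h =>
    intro F
    obtain ⟨a, b⟩ := i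
    have e : ∀ t, F (av ((w t).map C * XX n * (v t).map C) (p * X (a, b))) =
        ∑ d, ∑ c, w t a c * v t d b * (F ∘ₗ LinearMap.mulRight ℂ (X (c, d)))
          (av ((w t).map C * XX n * (v t).map C) p) := fun t => by
      rw [map_mul, av_X]
      generalize av ((w t).map C * XX n * (v t).map C) p = q
      simp only [Matrix.mul_apply, Matrix.map_apply, mvPolynomialX_apply, Finset.sum_mul,
        Finset.mul_sum, map_sum, LinearMap.comp_apply, LinearMap.mulRight_apply]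
      refine Finset.sum_congr rfl fun d _ => Finset.sum_congr rfl fun c _ => ?_
      rw [← smul_eq_mul (w t a c * v t d b), ← map_smul, smul_eq_C_mul, C_mul]
      congr 1
      ring
    have e0 : av ((w 0).map C * XX n * (v 0).map C) p = p := by
      rw [w0, v0, Matrix.map_one _ (map_zero _) (map_one _), Matrix.one_mul, Matrix.mul_one]
      exact aeval_X_left_apply p
    simp only [e]
    refine (HasDerivAt.fun_sum fun d _ => HasDerivAt.fun_sum fun c _ => ((hw a c).fun_mul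
      (hv d b)).fun_mul (h (F ∘ₗ LinearMap.mulRight ℂ (X (c, d))))).congr_deriv ?_
    rw [e0, w0, v0]
    simp only [Derivation.leibniz, LZ_X_Inf, smul_eq_mul, mul_sub, Finset.mul_sum, mul_smul_comm,
      map_add, map_sub, map_sum, map_smul, LinearMap.comp_apply, LinearMap.mulRight_apply,
      Matrix.one_apply, add_mul, Finset.sum_add_distrib, mul_ite, ite_mul, mul_one, mul_zero,
      one_mul, zero_mul, Finset.sum_ite_eq, Finset.sum_ite_eq', Finset.mem_univ, if_true,
      Finset.sum_ite_irrel, Finset.sum_const_zero, neg_mul, Finset.sum_neg_distrib,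
      mul_comm (X (a, b))]
    ring

theorem skew_Inf (h : SDiag n) {E : A n →ₗ[ℂ] ℂ} (hE : GInv E) {Z : Matrix (K n) (K n) ℂ}
    (h1 : Zᴴ = -Z) (h2 : IsSp Z) (P : A n) : E (LZ Z P) = 0 := by
  obtain ⟨U, y, hU, rfl⟩ := h Z h1 h2
  let l : K n → ℂ := Sum.elim (fun k => I * y k) fun k => -(I * y k)
  let u : ℝ → Matrix (K n) (K n) ℂ := fun t => U * diagonal (fun c => exp (l c * t)) * Uᴴ
  have hl : ∀ (t : ℝ) c, conj (exp (l c * t)) = exp (-(l c * t)) := fun t c => by
    rw [← exp_conj]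
    rcases c with c | c <;> simp [l]
  have hg : ∀ t, Grp (u t) := fun t => by
    refine mul_Inf (mul_Inf hU ⟨?_, ?_⟩) (inv_Inf hU)
    · rw [diagonal_conjTranspose, diagonal_mul_diagonal, ← diagonal_one]
      congr 1
      funext c
      rw [Pi.star_apply, star_def, hl, ← exp_add, neg_add_cancel, exp_zero]
    · ext a b
      rw [diagonal_transpose, mul_diagonal, diagonal_mul]
      rcases a with a | a <;> rcases b with b | b <;> by_cases e : a = b <;>
        simp [J, l, e, ← exp_add]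
  have u0 : u 0 = 1 := by
    simp only [u, ofReal_zero, mul_zero, exp_zero, diagonal_one, Matrix.mul_one]
    rw [mul_eq_one_comm, hU.1]
  have hu : ∀ a b, HasDerivAt (fun t => u t a b) ((U * dg y * Uᴴ) a b) 0 := fun a b => by
    simp only [u, dg, Matrix.mul_apply (N := Uᴴ), mul_diagonal]
    refine HasDerivAt.fun_sum fun c _ => HasDerivAt.mul_const (HasDerivAt.const_mul _ ?_) _
    simpa using ((hasDerivAt_id ((0 : ℝ) : ℂ)).const_mul (l c)).cexp.comp_ofReal
  have hv : ∀ a b, HasDerivAt (fun t => (u t)ᴴ a b) (-(U * dg y * Uᴴ) a b) 0 := fun a b => by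
    rw [← Matrix.neg_apply, ← h1]
    exact (hu b a).star
  have := der_Inf u0 (by rw [u0, conjTranspose_one]) hu hv P E
  simp only [hE _ (hg _)] at this
  exact this.unique (hasDerivAt_const _ _)

theorem s_inf {n : ℕ} (h : SDiag n) : SInf n := by
  intro E hE W hW P
  obtain ⟨Y, hY⟩ : ∃ Y, Y = (1 / 2 : ℂ) • (W + (-1 : ℂ) • Wᴴ) := ⟨_, rfl⟩
  obtain ⟨V, hV⟩ : ∃ V, V = (-I / 2 : ℂ) • (W + Wᴴ) := ⟨_, rfl⟩
  have h1 : IsSp Y := hY ▸ sp_smul_Inf _ (sp_add_Inf hW (sp_smul_Inf _ (sp_star_Inf hW)))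
  have h2 : IsSp V := hV ▸ sp_smul_Inf _ (sp_add_Inf hW (sp_star_Inf hW))
  have h3 : Yᴴ = -Y := by
    ext a b
    simp [hY]
  have h4 : Vᴴ = -V := by
    ext a b
    simp [hV]
    ring
  have h5 : W = Y + I • V := by
    ext a b
    simp only [hY, hV, Matrix.add_apply, Matrix.smul_apply, smul_eq_mul]
    linear_combination (W a b + Wᴴ a b) / 2 * I_mul_I
  rw [h5, LZ_lin_Inf, Derivation.add_apply, Derivation.smul_apply, map_add, map_smul,
    skew_Inf h hE h3 h1, skew_Inf h hE h4 h2, smul_zero, add_zero]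

end Pool.Agent.MP_12a176_ag.HC

end

section
set_option autoImplicit false

namespace Pool.Agent.MP_12a176_ag.HC

open Complex Matrix MvPolynomial
open scoped ComplexOrder ComplexConjugate

theorem coeff_wa_Span {n : ℕ} (ε : Fin n → ℤˣ) (g : B n) (m : Fin n →₀ ℕ) :
    coeff m (wa 1 ε g) = (∏ k, ((ε k : ℤ) : ℂ) ^ m k) * coeff m g := by
  induction g using MvPolynomial.induction_on' with
  | add p q hp hq => rw [map_add, coeff_add, coeff_add, hp, hq, mul_add]
  | monomial d c =>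
    have h : wa 1 ε (monomial d c) = monomial d ((∏ k, ((ε k : ℤ) : ℂ) ^ d k) * c) := by
      rw [wa, aeval_monomial, Finsupp.prod_fintype _ _ (by simp), monomial_eq,
        Finsupp.prod_fintype _ _ (by simp), map_mul, map_prod]
      simp only [smul_eq_C_mul, mul_pow, Finset.prod_mul_distrib, map_pow, algebraMap_eq,
        Equiv.Perm.coe_one, id]
      ring
    rw [h, coeff_monomial, coeff_monomial]
    split_ifs with e
    · rw [e]
    · rw [mul_zero]

theorem even_Span {n : ℕ} (g : B n) (hg : ∀ ε, wa 1 ε g = g) (m : Fin n →₀ ℕ)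
    (hm : m ∈ g.support) (k : Fin n) : Even (m k) := by
  have h := coeff_wa_Span (Pi.mulSingle k (-1)) g m
  rw [hg, Finset.prod_eq_single k (fun j _ hj => by simp [Pi.mulSingle_eq_of_ne hj])
    (by simp)] at h
  have h1 : ((-1 : ℂ)) ^ m k = 1 := by
    have h2 := mem_support_iff.1 hm
    apply mul_right_cancel₀ h2
    rw [one_mul]
    simpa using h.symm
  exact (neg_one_pow_eq_one_iff_even (by norm_num)).1 h1

theorem half_Span {n : ℕ} (g : B n) (hg : ∀ s ε, wa s ε g = g) :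
    ∃ g1 : B n, g1.IsSymmetric ∧ expand 2 g1 = g := by
  have h : ∃ g1 : B n, expand 2 g1 = g := by
    refine ⟨∑ m ∈ g.support, monomial (m.mapRange (· / 2) (by simp)) (coeff m g), ?_⟩
    rw [map_sum]
    conv_rhs => rw [g.as_sum]
    refine Finset.sum_congr rfl fun m hm => ?_
    rw [expand_monomial]
    have e : 2 • m.mapRange (· / 2) (by simp) = m := by
      ext k
      simp only [Finsupp.smul_apply, Finsupp.mapRange_apply, smul_eq_mul]
      exact Nat.mul_div_cancel' (even_Span g (hg 1) m hm k).two_dvd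
    rw [e]
  obtain ⟨g1, h1⟩ := h
  refine ⟨g1, fun e => expand_injective (n := 2) (by norm_num) ?_, h1⟩
  have hw : wa e 1 = rename e := MvPolynomial.algHom_ext fun k => by simp [wa]
  rw [← rename_expand, h1, ← hw, hg]

/-- Elementary symmetric functions of the squares. -/
noncomputable def E_Span (n k : ℕ) : B n := expand 2 (esymm (Fin n) ℂ k)

theorem E_eq_Span (n k : ℕ) :
    E_Span n k = (Finset.univ.val.map fun i : Fin n => (X i : B n) ^ 2).esymm k := by
  rw [← aeval_esymm_eq_multiset_esymm (Fin n) ℂ]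
  rfl

theorem E_hom_Span (n k : ℕ) : (E_Span n k).IsHomogeneous (2 * k) := by
  rw [E_Span, esymm, map_sum]
  refine IsHomogeneous.sum _ _ _ fun t ht => ?_
  rw [map_prod, ← (Finset.mem_powersetCard.1 ht).2, mul_comm, ← smul_eq_mul, ← Finset.sum_const]
  refine IsHomogeneous.prod _ _ _ fun i _ => ?_
  rw [expand_X]
  exact isHomogeneous_X_pow i 2

theorem parts_Span {ι M : Type} [CommMonoid M] (s : Finset ι) (a b : ι → ℕ) (f : ℕ → M) :
    ((∑ i ∈ s, a i • ({b i} : Multiset ℕ)).map f).prod = ∏ i ∈ s, f (b i) ^ a i := by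
  classical
  induction s using Finset.induction_on with
  | empty => simp
  | insert i s hi h =>
    rw [Finset.sum_insert hi, Finset.prod_insert hi, Multiset.map_add, Multiset.prod_add, h,
      Multiset.map_nsmul, Multiset.prod_nsmul, Multiset.map_singleton, Multiset.prod_singleton]

theorem parts_sum_Span {ι : Type} (s : Finset ι) (a b : ι → ℕ) :
    (∑ i ∈ s, a i • ({b i} : Multiset ℕ)).sum = ∑ i ∈ s, b i * a i := by
  classical
  induction s using Finset.induction_on with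
  | empty => simp
  | insert i s hi h =>
    rw [Finset.sum_insert hi, Finset.sum_insert hi, Multiset.sum_add, h, Multiset.sum_nsmul,
      Multiset.sum_singleton, smul_eq_mul, mul_comm]

theorem mem_Span {n : ℕ} (g : B n) (hh : g.IsHomogeneous (2 * n)) (hg : ∀ s ε, wa s ε g = g) :
    g ∈ Submodule.span ℂ (Set.range fun μ : n.Partition => (em μ X : B n)) := by
  obtain ⟨g1, hs, h1⟩ := half_Span g hg
  obtain ⟨Q, hQ⟩ := esymmAlgHom_fin_surjective ℂ (le_refl n) ⟨g1, hs⟩
  have hQ1 : g1 = aeval (fun i : Fin n => esymm (Fin n) ℂ (i + 1)) Q := by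
    rw [← esymmAlgHom_apply, hQ]
  have hsum : g = ∑ m ∈ Q.support, coeff m Q • ∏ i : Fin n, E_Span n (i + 1) ^ m i := by
    rw [← h1, hQ1]
    conv_lhs => rw [Q.as_sum]
    rw [map_sum, map_sum]
    refine Finset.sum_congr rfl fun m _ => ?_
    rw [aeval_monomial, Finsupp.prod_fintype _ _ (by simp), map_mul, map_prod, algebraMap_eq,
      expand_C, smul_eq_C_mul]
    simp only [map_pow, E_Span]
  have hc : g = homogeneousComponent (2 * n) g := by
    rw [homogeneousComponent_of_mem hh, if_pos rfl]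
  rw [hc, hsum, map_sum]
  refine Submodule.sum_mem _ fun m _ => ?_
  rw [map_smul]
  refine Submodule.smul_mem _ _ ?_
  have hp : (∏ i : Fin n, E_Span n (i + 1) ^ m i).IsHomogeneous
      (∑ i : Fin n, 2 * (i.1 + 1) * m i) :=
    IsHomogeneous.prod _ _ _ fun i _ => (E_hom_Span n (i + 1)).pow _
  rw [homogeneousComponent_of_mem hp]
  split_ifs with e
  · have e' : ∑ i : Fin n, (i.1 + 1) * m i = n := by
      simp only [mul_assoc, ← Finset.mul_sum] at e
      omega
    refine Submodule.subset_span ⟨⟨∑ i : Fin n, m i • {i.1 + 1}, ?_, ?_⟩, ?_⟩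
    · intro k hk
      obtain ⟨i, -, hi⟩ := Multiset.mem_sum.1 hk
      have := Multiset.mem_singleton.1 (Multiset.mem_of_mem_nsmul hi)
      omega
    · rw [parts_sum_Span, e']
    · simp only [em, ← E_eq_Span]
      exact parts_Span _ _ _ _
  · exact Submodule.zero_mem _

theorem s_span (n : ℕ) : SSpan n := by
  let f := Fintype.linearCombination ℂ fun μ : n.Partition => (em μ X : B n)
  obtain ⟨r, hr⟩ := f.rangeRestrict.exists_rightInverse_of_surjective f.range_rangeRestrict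
  obtain ⟨R, hR⟩ := r.exists_extend
  refine ⟨fun μ => (LinearMap.proj μ).comp R, fun g hh hg => ?_⟩
  have hm : g ∈ LinearMap.range f := by
    rw [Fintype.range_linearCombination]
    exact mem_Span g hh hg
  have h1 : R g = r ⟨g, hm⟩ := by
    rw [← hR]
    rfl
  have h2 : f (r ⟨g, hm⟩) = g := congrArg Subtype.val (LinearMap.congr_fun hr ⟨g, hm⟩)
  rw [← h1, Fintype.linearCombination_apply] at h2
  exact h2.symm

end Pool.Agent.MP_12a176_ag.HC

end

section
/- Continuous coefficients of the orbital moments. -/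

set_option autoImplicit false

namespace Pool.Agent.MP_12a176_ag.HC

open Complex Matrix MvPolynomial
open scoped ComplexOrder ComplexConjugate

/-- The linear form. -/
noncomputable def l_Coef {n : ℕ} (z : Fin n → ℂ) : B n := ∑ k, z k • ((-2 : ℂ) • X k)

/-- The moment polynomial. -/
noncomputable def g_Coef {n : ℕ} (E : A n →ₗ[ℂ] ℂ) : B n :=
  ∑ j : Fin (2 * n) → Fin n, E (io (∏ i, (-2 : ℂ) • X (j i))) • ∏ i, X (j i)

theorem ell_Coef {n : ℕ} (y : Fin n → ℝ) : ell (dg y) = io (l_Coef fun k => (y k : ℂ)) := by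
  have e : ell (dg y) = ∑ a : K n,
      (Sum.elim (fun k => I * y k) (fun k => -(I * y k)) a : ℂ) • (X (a, a) : A n) := by
    rw [ell, Fintype.sum_prod_type]
    refine Finset.sum_congr rfl fun a _ => ?_
    rw [Finset.sum_eq_single a]
    · rw [dg, diagonal_apply_eq]
    · intro b _ hb
      rw [dg, diagonal_apply_ne _ hb, zero_smul]
    · simp
  rw [e, Fintype.sum_sum_type, ← Finset.sum_add_distrib, l_Coef, map_sum]
  refine Finset.sum_congr rfl fun k _ => ?_
  rw [map_smul, map_smul, io, aeval_X, Sum.elim_inl, Sum.elim_inr]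
  module

theorem eval_Coef {n : ℕ} (E : A n →ₗ[ℂ] ℂ) (z : Fin n → ℂ) :
    eval z (g_Coef E) = E (io (l_Coef z ^ (2 * n))) := by
  rw [l_Coef, Fintype.sum_pow, g_Coef, map_sum, map_sum, map_sum]
  refine Finset.sum_congr rfl fun j _ => ?_
  rw [Finset.prod_smul _ (fun i => z (j i)), map_smul io, map_smul E, smul_eval,
    map_prod (eval z), smul_eq_mul, mul_comm]
  simp only [eval_X]

theorem hom_Coef {n : ℕ} (E : A n →ₗ[ℂ] ℂ) : (g_Coef E).IsHomogeneous (2 * n) := by
  refine IsHomogeneous.sum _ _ _ fun j _ => ?_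
  have := IsHomogeneous.prod Finset.univ (fun i => (X (j i) : B n)) (fun _ => 1)
    fun i _ => isHomogeneous_X ℂ (j i)
  rw [Finset.sum_const, Finset.card_univ, Fintype.card_fin, smul_eq_mul, mul_one] at this
  exact (homogeneousSubmodule _ _ _).smul_mem _ this

theorem wa_Coef {n : ℕ} (s : Equiv.Perm (Fin n)) (ε : Fin n → ℤˣ) (z : Fin n → ℂ) (p : B n) :
    eval z (wa s ε p) = eval (fun k => ((ε k : ℤ) : ℂ) * z (s k)) p := by
  induction p using MvPolynomial.induction_on with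
  | C a => simp [wa]
  | add p q hp hq => simp only [map_add, hp, hq]
  | mul_X p k hp =>
    rw [map_mul, map_mul, map_mul, hp]
    simp [wa]

theorem wl_Coef {n : ℕ} (s : Equiv.Perm (Fin n)) (ε : Fin n → ℤˣ) (z : Fin n → ℂ) :
    l_Coef (fun k => ((ε k : ℤ) : ℂ) * z (s k)) = wa s⁻¹ (fun k => ε (s⁻¹ k)) (l_Coef z) := by
  rw [l_Coef, l_Coef, map_sum]
  refine Eq.trans ?_ (Equiv.sum_comp s _)
  refine Finset.sum_congr rfl fun k _ => ?_
  rw [map_smul, map_smul, wa, aeval_X]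
  simp only [Equiv.Perm.coe_inv, Equiv.symm_apply_apply]
  module

theorem em_Coef {n : ℕ} {R S : Type} [CommRing R] [CommRing S] (φ : R →+* S) (μ : n.Partition)
    (y : Fin n → R) : φ (em μ y) = em μ fun k => φ (y k) := by
  simp only [em, map_multiset_prod, Multiset.map_map, Function.comp_def, Finset.esymm_map_val,
    map_sum, map_prod, map_pow]

theorem real_Coef {n : ℕ} {P Q : Matrix (K n) (K n) ℂ} (hA : Pᴴ = -P) (hB : Qᴴ = -Q) :
    (P * Q).trace = (((P * Q).trace.re : ℝ) : ℂ) := by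
  refine (Complex.conj_eq_iff_re.1 ?_).symm
  rw [← Complex.star_def, ← trace_conjTranspose, conjTranspose_mul, hA, hB, Matrix.neg_mul,
    Matrix.mul_neg, neg_neg, trace_mul_comm]

theorem dg_Coef {n : ℕ} (y : Fin n → ℝ) : (dg y)ᴴ = -dg y := by
  rw [dg, diagonal_conjTranspose, diagonal_neg]
  congr 1
  funext a
  rcases a with k | k <;> simp

theorem s_coef {n : ℕ} (h1 : SSpan n) (h2 : SWeyl n) : SCoef n := by
  intro E hP hG hC
  obtain ⟨L, hL⟩ := h1
  refine ⟨fun μ ξ => (L μ (g_Coef (E ξ))).re, fun μ => continuous_re.comp ?_, fun ξ y => ?_⟩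
  · simp only [g_Coef, map_sum, map_smul, smul_eq_mul]
    exact continuous_finsetSum _ fun j _ => (hC _).mul continuous_const
  have hw : ∀ s ε, wa s ε (g_Coef (E ξ)) = g_Coef (E ξ) := fun s ε =>
    MvPolynomial.funext fun z => by
      rw [wa_Coef, eval_Coef, eval_Coef, wl_Coef, ← map_pow (wa _ _), (h2 _ (hG ξ) _ _ _).1]
  have e1 : E ξ (ell (dg y) ^ (2 * n)) = ∑ μ, L μ (g_Coef (E ξ)) * (em μ y : ℝ) := by
    rw [ell_Coef, ← map_pow io, ← eval_Coef]
    conv_lhs => rw [hL _ (hom_Coef (E ξ)) hw]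
    rw [map_sum]
    refine Finset.sum_congr rfl fun μ _ => ?_
    rw [smul_eval, em_Coef, ← ofRealHom_eq_coe, em_Coef]
    simp only [eval_X, ofRealHom_eq_coe]
  have e2 : 0 ≤ E ξ (ell (dg y) ^ (2 * n)) := hP ξ _ fun U _ => by
    have a : (U * dg ξ * Uᴴ)ᴴ = -(U * dg ξ * Uᴴ) := by
      rw [conjTranspose_mul, conjTranspose_mul, conjTranspose_conjTranspose, dg_Coef,
        Matrix.neg_mul, Matrix.mul_neg, Matrix.mul_assoc]
    rw [map_pow, av_ell, real_Coef a (dg_Coef y), ← ofReal_pow, zero_le_real]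
    exact (even_two_mul n).pow_nonneg _
  rw [← re_add_im (E ξ _), ← (le_def.1 e2).2, e1, re_sum]
  simp

end Pool.Agent.MP_12a176_ag.HC

end

section
/- Chern polynomials on the Cartan subalgebra. -/

set_option autoImplicit false

namespace Pool.Agent.MP_12a176_ag.HC

open Complex Matrix MvPolynomial
open scoped ComplexOrder ComplexConjugate

theorem det_Chern {n : ℕ} (y : Fin n → ℝ) (s : Fin n → ℂ) (hs : ∀ j, s j = y j / (2 * Real.pi)) :
    det (1 + (Polynomial.X : Polynomial ℂ) •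
      ((I / (2 * Real.pi)) • (dg y).submatrix (eK n).symm (eK n).symm).map Polynomial.C) =
    ∏ j, (1 + Polynomial.C (-s j ^ 2) * Polynomial.X ^ 2) := by
  have h1 : ∀ j, I / (2 * Real.pi) * (I * y j) = -s j := fun j => by
    rw [hs]
    linear_combination (y j / (2 * Real.pi) : ℂ) * I_mul_I
  have h2 : (1 + (Polynomial.X : Polynomial ℂ) •
      ((I / (2 * Real.pi)) • (dg y).submatrix (eK n).symm (eK n).symm).map Polynomial.C) =
      (diagonal (Sum.elim (fun j => 1 - Polynomial.X * Polynomial.C (s j))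
        fun j => 1 + Polynomial.X * Polynomial.C (s j))).submatrix (eK n).symm (eK n).symm := by
    refine Matrix.ext fun a b => ?_
    obtain ⟨a, rfl⟩ := (eK n).surjective a
    obtain ⟨b, rfl⟩ := (eK n).surjective b
    simp only [Matrix.add_apply, Matrix.smul_apply, Matrix.map_apply, submatrix_apply,
      Equiv.symm_apply_apply, dg, smul_eq_mul, one_apply, diagonal_apply,
      EmbeddingLike.apply_eq_iff_eq]
    split_ifs
    · rcases a with j | j
      · rw [Sum.elim_inl, Sum.elim_inl, h1, map_neg, mul_neg, sub_eq_add_neg]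
      · rw [Sum.elim_inr, Sum.elim_inr, mul_neg, h1, neg_neg]
    · rw [mul_zero, map_zero, mul_zero, add_zero]
  rw [h2, det_submatrix_equiv_self, det_diagonal, Fintype.prod_sum_type, ← Finset.prod_mul_distrib]
  refine Finset.prod_congr rfl fun j _ => ?_
  simp only [Sum.elim_inl, Sum.elim_inr, map_neg, map_pow]
  ring

theorem coeff_Chern {n : ℕ} (u : Fin n → ℂ) (k : ℕ) :
    (∏ j, (1 + Polynomial.C (u j) * Polynomial.X ^ 2)).coeff (2 * k) =
      ∑ t ∈ Finset.univ.powersetCard k, ∏ j ∈ t, u j := by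
  rw [Finset.prod_one_add, Polynomial.finsetSum_coeff, Finset.powersetCard_eq_filter,
    Finset.sum_filter]
  refine Finset.sum_congr rfl fun t _ => ?_
  rw [Finset.prod_mul_distrib, Finset.prod_const, ← pow_mul, ← map_prod,
    Polynomial.coeff_C_mul_X_pow]
  exact if_congr (by omega) rfl rfl

theorem one_Chern {n : ℕ} (U : Matrix (K n) (K n) ℂ) (y : Fin n → ℝ) (hU : Uᴴ * U = 1) (k : ℕ) :
    (-(2 * Real.pi) ^ 2 : ℂ) ^ k *
      ev ((U * dg y * Uᴴ).submatrix (eK n).symm (eK n).symm) (chernPoly (2 * n) (2 * k)) =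
      ((Finset.univ.val.map fun i => y i ^ 2).esymm k : ℝ) := by
  have hg : Uᴴ.submatrix (eK n).symm (eK n).symm * U.submatrix (eK n).symm (eK n).symm = 1 := by
    rw [submatrix_mul_equiv, hU, submatrix_one_equiv]
  have hπ : (Real.pi : ℂ) ≠ 0 := by exact_mod_cast Real.pi_ne_zero
  rw [← submatrix_mul_equiv _ _ _ (eK n).symm, ← submatrix_mul_equiv _ _ _ (eK n).symm,
    chern_inv _ _ _ _ hg, ev_chern, det_Chern y _ fun _ => rfl, coeff_Chern, Finset.esymm_map_val,
    Finset.mul_sum]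
  push_cast
  refine Finset.sum_congr rfl fun t ht => ?_
  rw [← (Finset.mem_powersetCard.1 ht).2, ← Finset.prod_const, ← Finset.prod_mul_distrib]
  refine Finset.prod_congr rfl fun j _ => ?_
  field_simp

theorem s_chern (n : ℕ) : SChern n := by
  intro U y μ hU
  have key : ∀ s : Multiset ℕ, (-(2 * Real.pi) ^ 2 : ℂ) ^ s.sum *
      ev ((U * dg y * Uᴴ).submatrix (eK n).symm (eK n).symm)
        (s.map fun k => chernPoly (2 * n) (2 * k)).prod =
      ((s.map fun k => (Finset.univ.val.map fun i => y i ^ 2).esymm k).prod : ℝ) := by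
    intro s
    induction s using Multiset.induction with
    | empty => simp
    | cons k s ih =>
      rw [Multiset.sum_cons, Multiset.map_cons, Multiset.prod_cons, Multiset.map_cons,
        Multiset.prod_cons, map_mul, ofReal_mul, ← ih, ← one_Chern U y hU k, pow_add]
      ring
  have := key μ.parts
  rw [μ.parts_sum] at this
  exact this

end Pool.Agent.MP_12a176_ag.HC

end

section
set_option autoImplicit false

namespace Pool.Agent.MP_12a176_ag.HC

open Complex Matrix MvPolynomial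
open scoped ComplexOrder ComplexConjugate

noncomputable section

variable {n : ℕ} {R S : Type} [CommRing R] [Algebra ℂ R] [CommRing S] [Algebra ℂ S]

theorem av_av_Ring (φ : R →ₐ[ℂ] S) (Z : Matrix (K n) (K n) R) (P : A n) :
    φ (av Z P) = av (Z.map φ) P := by
  rw [av, ← AlgHom.comp_apply, comp_aeval]; rfl

theorem pow_Ring {ι : Type} [Fintype ι] (m : ℕ) (c : ι → ℂ) (z : ι → R) :
    (∑ a, c a • z a) ^ m = ∑ j : Fin m → ι, (∏ i, c (j i)) • ∏ i, z (j i) := by
  rw [Fintype.sum_pow]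
  exact Finset.sum_congr rfl fun j _ => Finset.prod_smul _ _ _

/-- The polynomial dual to a functional. -/
def dual_Ring (E : A n →ₗ[ℂ] ℂ) : A n :=
  ∑ j : Fin (2 * n) → K n × K n, E (∏ i, X (j i)) • ∏ i, X (j i).swap

/-- The moment. -/
def mom_Ring (Z : Matrix (K n) (K n) R) (T : R →ₗ[ℂ] ℂ) : A n :=
  ∑ j : Fin (2 * n) → K n × K n, T (∏ i, Z (j i).2 (j i).1) • ∏ i, X (j i)

theorem dual_mom_Ring (E : A n →ₗ[ℂ] ℂ) (Z : Matrix (K n) (K n) R) (T : R →ₗ[ℂ] ℂ) :
    T (av Z (dual_Ring E)) = E (mom_Ring Z T) := by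
  rw [dual_Ring, mom_Ring, map_sum, map_sum, map_sum]
  refine Finset.sum_congr rfl fun j _ => ?_
  rw [map_smul, map_smul, map_smul, map_prod (av Z), smul_eq_mul, smul_eq_mul, mul_comm]
  simp only [av_X, Prod.fst_swap, Prod.snd_swap]

theorem av_mom_Ring (η : Matrix (K n) (K n) ℂ) (Z : Matrix (K n) (K n) R) (T : R →ₗ[ℂ] ℂ) :
    av η (mom_Ring Z T) = T ((η.map (algebraMap ℂ R) * Z).trace ^ (2 * n)) := by
  have h : (η.map (algebraMap ℂ R) * Z).trace = ∑ a : K n × K n, η a.1 a.2 • Z a.2 a.1 := by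
    simp only [trace, Matrix.diag, Matrix.mul_apply, Fintype.sum_prod_type, Matrix.map_apply,
      Algebra.smul_def]
  rw [h, pow_Ring, mom_Ring, map_sum, map_sum]
  refine Finset.sum_congr rfl fun j _ => ?_
  rw [map_smul, map_smul, map_prod (av η), smul_eq_mul, smul_eq_mul, mul_comm]
  simp only [av_X]

theorem mom_id_Ring (Y : Matrix (K n) (K n) ℂ) : mom_Ring Y LinearMap.id = ell Y ^ (2 * n) := by
  rw [ell, pow_Ring, mom_Ring]
  rfl

omit [Algebra ℂ R] in
theorem sp_add_Ring {Y Z : Matrix (K n) (K n) R} (hY : IsSp Y) (hZ : IsSp Z) : IsSp (Y + Z) := by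
  rw [IsSp] at *
  rw [transpose_add, Matrix.add_mul, Matrix.mul_add, add_add_add_comm, hY, hZ, add_zero]

theorem sp_smul_Ring (c : ℂ) {Y : Matrix (K n) (K n) R} (hY : IsSp Y) : IsSp (c • Y) := by
  rw [IsSp] at *
  rw [transpose_smul, Matrix.smul_mul, Matrix.mul_smul, ← smul_add, hY, smul_zero]

theorem sp_star_Ring {W : Matrix (K n) (K n) ℂ} (hW : IsSp W) : IsSp Wᴴ := by
  have hJ : (JJ n ℂ)ᴴ = -JJ n ℂ := by
    rw [← J_transpose]
    exact congrArg transpose (map_J (Fin n) (starRingEnd ℂ))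
  have h := congrArg conjTranspose hW
  rw [conjTranspose_add, conjTranspose_mul, conjTranspose_mul, hJ, conjTranspose_zero] at h
  have e : Wᵀᴴ = Wᴴᵀ := rfl
  have h2 := congrArg (fun M => JJ n ℂ * M * JJ n ℂ) h
  simp only [e, Matrix.mul_add, Matrix.add_mul, Matrix.mul_neg, Matrix.neg_mul, Matrix.mul_zero,
    Matrix.zero_mul] at h2
  rw [← Matrix.mul_assoc, J_squared, Matrix.mul_assoc (JJ n ℂ), Matrix.mul_assoc Wᴴᵀ, J_squared] at h2
  simpa [IsSp] using h2

theorem cx_Ring {D : A n}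
    (hD : ∀ Y : Matrix (K n) (K n) ℂ, Yᴴ = -Y → IsSp Y → av Y D = 0) {W : Matrix (K n) (K n) ℂ}
    (hW : IsSp W) : av W D = 0 := by
  obtain ⟨Y, hY⟩ : ∃ Y, Y = (1 / 2 : ℂ) • (W + (-1 : ℂ) • Wᴴ) := ⟨_, rfl⟩
  obtain ⟨V, hV⟩ : ∃ V, V = (-I / 2 : ℂ) • (W + Wᴴ) := ⟨_, rfl⟩
  have h1 : IsSp Y := hY ▸ sp_smul_Ring _ (sp_add_Ring hW (sp_smul_Ring _ (sp_star_Ring hW)))
  have h2 : IsSp V := hV ▸ sp_smul_Ring _ (sp_add_Ring hW (sp_star_Ring hW))
  have h3 : Yᴴ = -Y := by
    ext a b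
    simp [hY]
  have h4 : Vᴴ = -V := by
    ext a b
    simp [hV]
    ring
  have h5 : W = Y + I • V := by
    ext a b
    simp only [hY, hV, Matrix.add_apply, Matrix.smul_apply, smul_eq_mul]
    linear_combination (W a b + Wᴴ a b) / 2 * I_mul_I
  let q : Polynomial ℂ :=
    av (Matrix.of fun a b => Polynomial.C (Y a b) + Polynomial.X * Polynomial.C (V a b)) D
  have hq : ∀ t : ℂ, Polynomial.aeval t q = av (Y + t • V) D := fun t => by
    rw [av_av_Ring]
    congr 2
    ext a b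
    simp only [Matrix.map_apply, Matrix.of_apply, map_add, map_mul, Polynomial.aeval_C,
      Polynomial.aeval_X, Matrix.add_apply, Matrix.smul_apply, smul_eq_mul, Algebra.algebraMap_self,
      RingHom.id_apply]
  have h0 : q = 0 := by
    refine Polynomial.eq_zero_of_infinite_isRoot _
      ((Set.infinite_range_of_injective ofReal_injective).mono ?_)
    rintro _ ⟨s, rfl⟩
    refine Eq.trans (Polynomial.coe_aeval_eq_eval (s : ℂ) ▸ hq s) (hD _ ?_ ?_)
    · rw [conjTranspose_add, conjTranspose_smul, h3, h4, neg_add, smul_neg]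
      simp
    · exact sp_add_Ring h1 (sp_smul_Ring _ h2)
  rw [h5, ← hq, h0, map_zero]

theorem sp_pr_Ring (Z : Matrix (K n) (K n) R) : IsSp (pr Z) := by
  refine sp_smul_Ring _ ?_
  rw [IsSp, transpose_add, transpose_mul, transpose_mul, transpose_transpose, J_transpose,
    Matrix.add_mul, Matrix.mul_add, Matrix.mul_assoc _ (JJ n R), J_squared,
    ← Matrix.mul_assoc (JJ n R), Matrix.mul_neg (JJ n R), J_squared]
  simp

theorem pr_eq_Ring {Z : Matrix (K n) (K n) R} (hZ : IsSp Z) : pr Z = Z := by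
  rw [pr, eq_neg_of_add_eq_zero_right hZ, Matrix.neg_mul, Matrix.mul_assoc, J_squared,
    Matrix.mul_neg, Matrix.mul_one, neg_neg, ← two_smul ℂ, smul_smul]
  norm_num

theorem pr_map_Ring (Z : Matrix (K n) (K n) R) :
    (pr (XX n)).map (av Z) = pr Z := by
  have h : (XX n).map (av Z) = Z := by
    ext a b
    exact av_X Z (a, b)
  rw [pr, pr, Matrix.map_smul _ _ (map_smul _ _), Matrix.map_add _ (map_add _),
    Matrix.map_mul, Matrix.map_mul, transpose_map, map_J, h]

theorem all_Ring {D : A n}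
    (hD : ∀ Y : Matrix (K n) (K n) ℂ, Yᴴ = -Y → IsSp Y → av Y D = 0) {Z : Matrix (K n) (K n) R}
    (hZ : IsSp Z) : av Z D = 0 := by
  have h : av (pr (XX n)) D = 0 := by
    refine MvPolynomial.funext fun x => ?_
    have := av_av_Ring (av (Matrix.of fun a b => x (a, b))) (pr (XX n)) D
    rw [pr_map_Ring, cx_Ring hD (sp_pr_Ring _)] at this
    rw [map_zero, ← this, ← coe_aeval_eq_eval]
    rfl
  rw [← pr_eq_Ring hZ, ← pr_map_Ring, ← av_av_Ring, h, map_zero]

theorem s_ring (n : ℕ) : SRing n := by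
  intro ξ E P hE h R _ _ Z T hZ hT
  have key : ∀ (S : Type) [CommRing S] [Algebra ℂ S] (Y : Matrix (K n) (K n) S),
      av Y (dual_Ring E - ((-1) ^ n : ℂ) • ev ((XX n).submatrix (eK n).symm (eK n).symm) P) =
      av Y (dual_Ring E) - ((-1) ^ n : ℂ) • ev (Y.submatrix (eK n).symm (eK n).symm) P := by
    intro S _ _ Y
    rw [map_sub, map_smul, ev_ev]
    have e : ((XX n).submatrix (eK n).symm (eK n).symm).map (av Y) =
        Y.submatrix (eK n).symm (eK n).symm := by
      ext a b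
      exact av_X Y ((eK n).symm a, (eK n).symm b)
    rw [e]
  have h1 := all_Ring (D := dual_Ring E -
      ((-1) ^ n : ℂ) • ev ((XX n).submatrix (eK n).symm (eK n).symm) P) (fun Y h1 h2 => by
    have := dual_mom_Ring E Y LinearMap.id
    rw [mom_id_Ring, h Y h1 h2, LinearMap.id_apply] at this
    rw [key, this, smul_eq_mul, sub_self]) hZ
  have h2 := congrArg T h1
  rw [key, map_sub, map_smul, map_zero, dual_mom_Ring, smul_eq_mul, sub_eq_zero] at h2
  have hd : (dg ξ)ᴴ = -dg ξ := by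
    rw [dg, diagonal_conjTranspose, diagonal_neg]
    congr 1
    ext (k | k) <;> simp
  have h3 := hE (((-1) ^ n : ℂ) • mom_Ring Z T) fun U _ => by
    rw [map_smul, av_mom_Ring, smul_eq_mul]
    refine hT _ ?_
    simp only [conjTranspose_mul, conjTranspose_conjTranspose, hd, Matrix.mul_assoc,
      Matrix.neg_mul, Matrix.mul_neg]
  rwa [map_smul, h2, smul_eq_mul, ← mul_assoc, ← mul_pow, neg_mul_neg, one_mul, one_pow,
    one_mul] at h3

end

end Pool.Agent.MP_12a176_ag.HC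

end

section
/- The pointwise inequality and its integration. -/

set_option autoImplicit false

namespace Pool.Agent.MP_12a176_ag.HC

open Complex Matrix MvPolynomial
open scoped ComplexOrder ComplexConjugate
open scoped Manifold ContDiff
open MeasureTheory

theorem sp_PG {n : ℕ} {R : Type} [CommRing R] [Algebra ℂ R] (x : Fin (2 * n) → Fin (2 * n) → R)
    (A : Fin (2 * n) → Fin (2 * n) → Matrix (Fin (2 * n)) (Fin (2 * n)) ℂ)
    (h : ∀ k l, IsSp ((A k l).submatrix (eK n) (eK n))) :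
    IsSp ((mform x A).submatrix (eK n) (eK n)) := by
  have hJ : JJ n R = (JJ n ℂ).map (algebraMap ℂ R) := (Matrix.map_J _ _).symm
  unfold IsSp
  rw [hJ]
  ext a b
  simp only [mform, Matrix.add_apply, Matrix.mul_apply, of_apply, map_apply, submatrix_apply,
    transpose_apply, mul_comm _ (algebraMap ℂ R _), ← Algebra.smul_def, ← map_smul, ← map_sum,
    ← map_add, Matrix.zero_apply]
  rw [← map_zero (formL x)]
  congr 1
  ext k l
  have := congrFun (congrFun (h k l) a) b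
  simp only [Matrix.add_apply, Matrix.mul_apply, submatrix_apply, transpose_apply,
    Matrix.zero_apply] at this
  simpa only [Matrix.add_apply, Matrix.sum_apply, Matrix.smul_apply, of_apply, smul_eq_mul,
    Matrix.zero_apply, mul_comm] using this

theorem tr_PG {n : ℕ} {R : Type} [CommRing R] [Algebra ℂ R] (x : Fin (2 * n) → Fin (2 * n) → R)
    (A : Fin (2 * n) → Fin (2 * n) → Matrix (Fin (2 * n)) (Fin (2 * n)) ℂ)
    (η : Matrix (K n) (K n) ℂ) :
    (η.map (algebraMap ℂ R) * (mform x A).submatrix (eK n) (eK n)).trace =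
      form x (Matrix.of fun k l => (η.submatrix (eK n).symm (eK n).symm * A k l).trace) := by
  change _ = formL x _
  simp only [mform, Matrix.trace, Matrix.diag, Matrix.mul_apply, of_apply, map_apply,
    submatrix_apply, ← Algebra.smul_def, ← map_smul, ← map_sum]
  refine congrArg _ ?_
  ext k l
  simp only [Matrix.sum_apply, Matrix.smul_apply, of_apply, smul_eq_mul]
  refine Fintype.sum_equiv (eK n) _ _ fun a => Fintype.sum_equiv (eK n) _ _ fun b => ?_
  rw [Equiv.symm_apply_apply, Equiv.symm_apply_apply]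

theorem s_point {n : ℕ} (h : SFrame n) : SPoint n := by
  intro P hP h1 R _ _ x hx H S Θ hc hS T hT
  obtain ⟨g, hg, hsp⟩ := h H S Θ hc hS
  have hu : IsUnit g.det := by
    have := hc.pos.det_pos.ne'
    rw [hg, det_mul] at this
    exact (left_ne_zero_of_mul this).isUnit
  have e1 : ∀ k l, g⁻¹ * Θ k l * g = g⁻¹ * (Θ k l * H) * g⁻¹ᴴ := fun k l => by
    rw [hg, Matrix.mul_assoc _ (_ * _), Matrix.mul_assoc (Θ k l),
      Matrix.mul_assoc g, ← conjTranspose_mul, nonsing_inv_mul _ hu, conjTranspose_one,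
      Matrix.mul_one, Matrix.mul_assoc]
  have e3 : (mform x fun k l => g⁻¹ * Θ k l * g) =
      g⁻¹.map (algebraMap ℂ R) * mform x Θ * g.map (algebraMap ℂ R) := by
    ext a b
    simp only [mform, Matrix.mul_apply, of_apply, map_apply, mul_comm _ (algebraMap ℂ R _),
      ← Algebra.smul_def, ← map_smul, ← map_sum]
    congr 1
    ext k l
    simp [Matrix.sum_apply, mul_comm]
  have key := h1 R ((mform x fun k l => g⁻¹ * Θ k l * g).submatrix (eK n) (eK n)) T
    (sp_PG x _ hsp) fun η hη => by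
      obtain ⟨N, hN0, hN⟩ := form_pow_vol n
      have e6 : (η.submatrix (eK n).symm (eK n).symm)ᴴ = -η.submatrix (eK n).symm (eK n).symm := by
        rw [conjTranspose_submatrix, hη]
        rfl
      have e5 : (Matrix.of fun k l =>
          (η.submatrix (eK n).symm (eK n).symm * (g⁻¹ * Θ k l * g)).trace) =
          Matrix.of fun k l =>
            (g⁻¹ᴴ * η.submatrix (eK n).symm (eK n).symm * g⁻¹ * (Θ k l * H)).trace := by
        ext k l
        rw [of_apply, of_apply, e1, ← Matrix.mul_assoc, trace_mul_comm]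
        simp only [Matrix.mul_assoc]
      have a1 := hc.det_nonneg (ζ := g⁻¹ᴴ * η.submatrix (eK n).symm (eK n).symm * g⁻¹)
        (by simp only [conjTranspose_mul, e6, conjTranspose_conjTranspose, Matrix.mul_assoc,
          Matrix.neg_mul, Matrix.mul_neg])
      rw [tr_PG, e5]
      generalize (Matrix.of fun k l =>
        (g⁻¹ᴴ * η.submatrix (eK n).symm (eK n).symm * g⁻¹ * (Θ k l * H)).trace) = ρ at a1
      have a2 : form x ρ ^ (2 * n) = ((-1) ^ n * N * ρ.det) • vol x := hN (x := x) hx ρ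
      have a3 : (-1 : ℂ) ^ n * ((-1) ^ n * N * ρ.det) = N * ρ.det := by
        rw [← mul_assoc, ← mul_assoc, ← mul_pow]
        simp
      rw [a2, map_smul, hT, smul_eq_mul, mul_one, a3]
      exact mul_nonneg (by exact_mod_cast hN0.le) a1
  rwa [submatrix_submatrix, Equiv.self_comp_symm, submatrix_id_id, e3,
    hP.conj (mul_nonsing_inv _ hu)] at key

theorem dens_PG {m : ℕ} {W : Type} [AddCommGroup W] [Module ℂ W] {a b : Fin m → W}
    (hx : Good (xw a b)) {T : Subalgebra.center ℂ (ExteriorAlgebra ℂ W) →ₗ[ℂ] ℂ}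
    (hT : T (vol (xw a b)) = 1) (H : (Fin m → ℂ) → Matrix (Fin m) (Fin m) ℂ)
    {P : MvPolynomial (Fin m × Fin m) ℂ} (hP : P.IsHomogeneous m) (z : Fin m → ℂ) :
    extDens a b H P z = T (ev (mform (xw a b) fun k l => -mw I l (conn H k) z) P) := by
  have e : extDens a b H P = cwDens (xw a b) H P := rfl
  rw [e, cwDens_eq]
  exact eps_eq hx (aeval_top hx
    (fun c : Fin m × Fin m => Matrix.of fun k l => (-mw I l (conn H k) z) c.1 c.2) hP hT)

theorem cont_PG {m : ℕ} {W : Type} [AddCommGroup W] [Module ℂ W] {a b : Fin m → W}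
    (hx : Good (xw a b)) {Q : MvPolynomial (Fin m × Fin m) ℂ} (hQ : Q.IsHomogeneous m)
    {U : Set (Fin m → ℂ)} {H S : (Fin m → ℂ) → Matrix (Fin m) (Fin m) ℂ} (h : LocalHK U H S)
    (hU : IsOpen U) (hH : ∀ w ∈ U, (H w).PosDef) : ContinuousOn (extDens a b H Q) U := by
  have e : extDens a b H Q = cwDens (xw a b) H Q := rfl
  rw [e, cwDens_eq]
  exact dens_cont hx (fun k l a b => (wirt_smooth hU (conn_smooth hU h.smooth
    (fun w hw => (hH w hw).det_pos.ne') k a b)).continuousOn.neg) hQ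

section

variable {m : ℕ} {M : Type*} [TopologicalSpace M] [ChartedSpace (Fin m → ℂ) M]
  [IsManifold 𝓘(ℂ, Fin m → ℂ) ω M] [T2Space M] [CompactSpace M]
  {h σ : M → Matrix (Fin m) (Fin m) ℂ}

theorem int_PG {Q : MvPolynomial (Fin m × Fin m) ℂ} (hQ : Q.IsHomogeneous m)
    (g : IsHKMetric h σ) (ρ : PartitionOfUnity M M Set.univ)
    (hρ : ρ.IsSubordinate fun p => (chartAt (Fin m → ℂ) p).source) (p : M) :
    IntegrableOn (fun z => ρ p ((chartAt (Fin m → ℂ) p).symm z) *
      (extDens dz dzb (metricIn h p) Q z).re) (chartAt (Fin m → ℂ) p).target := by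
  set φ := chartAt (Fin m → ℂ) p
  have h2 := cont_PG good_dz hQ (g.charts p) φ.open_target fun w hw => (g.curv p hw).1
  have h3 : IsCompact (φ '' tsupport (ρ p)) :=
    (isClosed_tsupport _).isCompact.image_of_continuousOn (φ.continuousOn.mono (hρ p))
  have h4 : φ '' tsupport (ρ p) ⊆ φ.target := by
    rintro _ ⟨y, hy, rfl⟩; exact φ.map_source (hρ p hy)
  refine IntegrableOn.of_forall_sdiff_eq_zero (ContinuousOn.integrableOn_compact h3
    (ContinuousOn.mono ?_ h4)) φ.open_target.measurableSet fun z hz => ?_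
  · exact ((ρ p).continuous.comp_continuousOn φ.continuousOn_symm).mul
      (continuous_re.comp_continuousOn h2)
  · rw [image_eq_zero_of_notMem_tsupport fun h => hz.2 ⟨_, h, φ.right_inv hz.1⟩, zero_mul]

theorem glob_PG {ι : Type} [Fintype ι] {P : ι → MvPolynomial (Fin m × Fin m) ℂ}
    (hP : ∀ i, (P i).IsHomogeneous m) (a : ι → ℝ)
    (g : IsHKMetric h σ) (ρ : PartitionOfUnity M M Set.univ)
    (hρ : ρ.IsSubordinate fun p => (chartAt (Fin m → ℂ) p).source)
    (hp : ∀ p, ∀ z ∈ (chartAt (Fin m → ℂ) p).target,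
      0 ≤ ∑ i, a i * (extDens dz dzb (metricIn h p) (P i) z).re) :
    0 ≤ ∑ i, a i * charNumber h ρ (P i) := by
  have hs := ρ.locallyFinite.finite_nonempty_of_compact
  have e : ∀ P, charNumber h ρ P = ∑ p ∈ hs.toFinset, ∫ z in (chartAt (Fin m → ℂ) p).target,
      ρ p ((chartAt (Fin m → ℂ) p).symm z) * (extDens dz dzb (metricIn h p) P z).re := fun P => by
    refine finsum_eq_sum_of_support_subset_of_finite _ (fun p hp => ?_) hs
    by_contra h0
    simp only [Set.mem_ofPred_eq, Set.not_nonempty_iff_eq_empty,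
      Function.support_eq_empty_iff] at h0
    simp [h0] at hp
  simp only [e, Finset.mul_sum]
  rw [Finset.sum_comm]
  refine Finset.sum_nonneg fun p _ => ?_
  simp only [← integral_const_mul]
  rw [← integral_finsetSum _ fun i _ => (int_PG (hP i) g ρ hρ p).const_mul (a i)]
  refine setIntegral_nonneg (chartAt (Fin m → ℂ) p).open_target.measurableSet fun z hz => ?_
  have := mul_nonneg (ρ.nonneg p ((chartAt (Fin m → ℂ) p).symm z)) (hp p z hz)
  rw [Finset.mul_sum] at this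
  exact this.trans_eq (Finset.sum_congr rfl fun i _ => by ring)

end

theorem cm_homog_PG {n : ℕ} (μ : n.Partition) : (cm μ).IsHomogeneous (2 * n) := by
  have h := prod_homog (m := 2 * n) (μ.parts.map fun k => 2 * k)
  rw [Multiset.map_map, Multiset.sum_map_mul_left, Multiset.map_id', μ.parts_sum] at h
  exact h

theorem s_glob.{u} (n : ℕ) : SGlob.{u} n := by
  intro a h M _ _ _ _ _ H σ g ρ hρ
  refine glob_PG cm_homog_PG a g ρ hρ fun p z hz => ?_
  obtain ⟨T, hT⟩ := Module.Projective.exists_dual_eq_one ℂ (vol_ne (good_dz (m := 2 * n)))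
  have hc := (g.charts p).curv (chartAt (Fin (2 * n) → ℂ) p).open_target
    (fun w hw => (g.curv p hw).1) hz (g.curv p hz).2
  have hs : (formIn σ p z)ᵀ = -formIn σ p z := by
    rw [formIn, transpose_mul, transpose_mul, transpose_transpose, g.skew, Matrix.neg_mul,
      Matrix.mul_neg, Matrix.mul_assoc]
  have h1 := h _ _ good_dz _ _ _ hc hs T hT
  simp only [map_sum, map_smul, smul_eq_mul] at h1
  have h2 := (Complex.nonneg_iff.1 h1).1
  rw [re_sum] at h2
  refine h2.trans_eq (Finset.sum_congr rfl fun μ _ => ?_)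
  rw [dens_PG good_dz hT _ (cm_homog_PG μ), re_ofReal_mul]

end Pool.Agent.MP_12a176_ag.HC

end

section
/- Assembly of the Harish-Chandra inequalities. -/

set_option autoImplicit false

namespace Pool.Agent.MP_12a176_ag.HC

open Complex Matrix MvPolynomial
open scoped ComplexOrder ComplexConjugate Manifold ContDiff

variable {n : ℕ}

theorem av_ell_conj {U : Matrix (K n) (K n) ℂ} (h : Uᴴ * U = 1) (Y : Matrix (K n) (K n) ℂ) :
    av (U.map C * XX n * Uᴴ.map C) (ell (U * Y * Uᴴ)) = ell Y := by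
  have e : ∀ (Z : Matrix (K n) (K n) (A n)) (Y : Matrix (K n) (K n) ℂ),
      av Z (ell Y) = (Z * Y.map C).trace := fun Z Y => by
    simp only [ell, map_sum, map_smul, av_X]
    simp only [smul_eq_C_mul, trace, Matrix.diag, Matrix.mul_apply, Fintype.sum_prod_type, mul_comm,
      map_apply]
  have e1 : Uᴴ.map C * U.map (C : ℂ →+* A n) = 1 := by
    rw [← Matrix.map_mul, h, Matrix.map_one _ (map_zero _) (map_one _)]
  have e2 : av (XX n) (ell Y) = ell Y := by
    simp only [ell, map_sum, map_smul, av_X, mvPolynomialX_apply]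
  rw [← e2, e, e, Matrix.map_mul, Matrix.map_mul, Matrix.mul_assoc _ (Uᴴ.map C),
    ← Matrix.mul_assoc (Uᴴ.map C), ← Matrix.mul_assoc (Uᴴ.map C), e1, Matrix.one_mul,
    ← Matrix.mul_assoc, trace_mul_comm, ← Matrix.mul_assoc, ← Matrix.mul_assoc, e1, Matrix.one_mul]

theorem cm_inv (μ : n.Partition) : Inv (cm μ) := fun g g' Θ hg => by
  simp only [cm, map_multiset_prod, Multiset.map_map, Function.comp, chern_inv _ g g' Θ hg]

theorem s_fin.{u} (h1 : SHaar n) (h2 : SCoef n) (h3 : SHC n) (h4 : SChern n) (h5 : SDiag n)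
    (h6 : SRing n) (h7 : SPoint n) (h8 : SGlob.{u} n) :
    ∃ a : n.Partition → (Fin n → ℝ) → ℝ, (∀ μ, Continuous (a μ)) ∧
      (∀ ξ y : Fin n → ℝ, del ξ * del y * ∑ μ, a μ ξ * em μ y = alt ξ y) ∧
      ∀ (M : Type u) [TopologicalSpace M] [T2Space M] [CompactSpace M]
        [ChartedSpace (Fin (2 * n) → ℂ) M] [IsManifold 𝓘(ℂ, Fin (2 * n) → ℂ) ω M]
        (h σ : M → Matrix (Fin (2 * n)) (Fin (2 * n)) ℂ), IsHKMetric h σ →
        ∀ ρ : PartitionOfUnity M M Set.univ,
          ρ.IsSubordinate (fun p => (chartAt (Fin (2 * n) → ℂ) p).source) →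
          ∀ ξ, 0 ≤ ∑ μ, a μ ξ * charNumber h ρ (cm μ) := by
  obtain ⟨E, a1, a2, a3, a4⟩ := h1
  obtain ⟨a, b1, b2⟩ := h2 E a1 a2 a4
  obtain ⟨κ, k0, hk⟩ := h3
  refine ⟨fun μ ξ => κ * a μ ξ, fun μ => continuous_const.mul (b1 μ), fun ξ y => ?_,
    fun M _ _ _ _ _ h σ g ρ hρ ξ => ?_⟩
  · have := hk ξ _ (a1 ξ) (a2 ξ) (a3 ξ) y
    rw [b2, ← ofReal_mul, ofReal_inj] at this
    simp only [mul_assoc κ, ← Finset.mul_sum]
    linear_combination this
  · have key := h8 (fun μ => ((2 * Real.pi) ^ 2) ^ n * a μ ξ) (h7 _ (fun g g' Θ hg => by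
      simp only [map_sum, map_smul, cm_inv _ g g' Θ hg]) (h6 ξ _ _ (a1 ξ) fun Y s t => ?_))
      M h σ g ρ hρ
    · simp only [mul_assoc _ (a _ ξ), ← Finset.mul_sum] at key ⊢
      exact mul_nonneg k0.le (nonneg_of_mul_nonneg_right key (by have := Real.pi_pos; positivity))
    · obtain ⟨U, y, hU, rfl⟩ := h5 Y s t
      rw [← a2 ξ U hU, map_pow, av_ell_conj hU.1, b2, map_sum, Finset.mul_sum, ofReal_sum]
      refine Finset.sum_congr rfl fun μ _ => ?_
      rw [ofReal_mul, ← h4 U y μ hU.1, map_smul, neg_pow, smul_eq_mul]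
      push_cast
      ring

end Pool.Agent.MP_12a176_ag.HC

end

section
set_option autoImplicit false

namespace Pool.Agent.MP_12a176_ag.HC

open Complex Matrix MvPolynomial
open scoped ComplexOrder ComplexConjugate

variable {n : ℕ}

/-- Left multiplication in the Weyl group. -/
def lm_Alt (s : Equiv.Perm (Fin n)) (ε : Fin n → ℤˣ) (w : Equiv.Perm (Fin n) × (Fin n → ℤˣ)) :
    Equiv.Perm (Fin n) × (Fin n → ℤˣ) := (s * w.1, fun k => w.2 k * ε (w.1 k))

theorem lm_bij_Alt (s : Equiv.Perm (Fin n)) (ε : Fin n → ℤˣ) :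
    Function.Bijective (lm_Alt s ε) := by
  refine Finite.injective_iff_bijective.1 ?_
  rintro ⟨a, b⟩ ⟨c, d⟩ h
  obtain ⟨h1, h2⟩ := Prod.mk.inj h
  obtain rfl : a = c := mul_left_cancel h1
  exact Prod.ext rfl (funext fun k => mul_right_cancel (congrFun h2 k))

theorem wa_wa_Alt (s : Equiv.Perm (Fin n)) (ε : Fin n → ℤˣ)
    (w : Equiv.Perm (Fin n) × (Fin n → ℤˣ)) (q : B n) :
    wa s ε (wa w.1 w.2 q) = wa (lm_Alt s ε w).1 (lm_Alt s ε w).2 q := by
  have : (wa s ε).comp (wa w.1 w.2) = wa (lm_Alt s ε w).1 (lm_Alt s ε w).2 := by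
    refine algHom_ext fun k => ?_
    simp [wa, lm_Alt, smul_smul]
  rw [← this]
  rfl

theorem sg_lm_Alt (s : Equiv.Perm (Fin n)) (ε : Fin n → ℤˣ)
    (w : Equiv.Perm (Fin n) × (Fin n → ℤˣ)) :
    sg (lm_Alt s ε w).1 (lm_Alt s ε w).2 = sg s ε * sg w.1 w.2 := by
  unfold sg lm_Alt
  rw [← Units.val_mul, Finset.prod_mul_distrib, Equiv.prod_comp w.1 ε, map_mul]
  congr 1
  exact (by ac_rfl)

theorem sg_sq_Alt (s : Equiv.Perm (Fin n)) (ε : Fin n → ℤˣ) : sg s ε * sg s ε = 1 := by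
  unfold sg
  rw [← Units.val_mul, Int.units_mul_self, Units.val_one]

theorem s_alt (n : ℕ) : SAlt n := by
  rintro z Λ h ⟨c, hc⟩
  have hW : (Fintype.card (Equiv.Perm (Fin n) × (Fin n → ℤˣ)) : ℂ) ≠ 0 :=
    Nat.cast_ne_zero.2 Fintype.card_ne_zero
  refine ⟨(∑ w, c w * (sg w.1 w.2 : ℂ)) / Fintype.card (Equiv.Perm (Fin n) × (Fin n → ℤˣ)),
    fun q => ?_⟩
  rw [div_mul_eq_mul_div, eq_div_iff hW, ← Fintype.sum_prod_type'
    (fun s ε => (sg s ε : ℂ) * eval z (wa s ε q))]
  have sq : ∀ s ε, (sg (n := n) s ε : ℂ) * (sg s ε : ℂ) = 1 := fun s ε => by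
    exact_mod_cast sg_sq_Alt s ε
  calc Λ q * Fintype.card (Equiv.Perm (Fin n) × (Fin n → ℤˣ))
      = ∑ w : Equiv.Perm (Fin n) × (Fin n → ℤˣ), (sg w.1 w.2 : ℂ) * Λ (wa w.1 w.2 q) := by
        simp only [h, ← mul_assoc, sq, one_mul, Finset.sum_const, Finset.card_univ, nsmul_eq_mul]
        ring
    _ = ∑ u : Equiv.Perm (Fin n) × (Fin n → ℤˣ), ∑ w : Equiv.Perm (Fin n) × (Fin n → ℤˣ),
          c u * (sg u.1 u.2 : ℂ) * ((sg (lm_Alt u.1 u.2 w).1 (lm_Alt u.1 u.2 w).2 : ℂ)
            * eval z (wa (lm_Alt u.1 u.2 w).1 (lm_Alt u.1 u.2 w).2 q)) := by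
        rw [Finset.sum_comm]
        refine Finset.sum_congr rfl fun w _ => ?_
        rw [hc, Finset.mul_sum]
        refine Finset.sum_congr rfl fun u _ => ?_
        rw [wa_wa_Alt, sg_lm_Alt]
        push_cast
        linear_combination (-(c u * (sg w.1 w.2 : ℂ)
          * eval z (wa (lm_Alt u.1 u.2 w).1 (lm_Alt u.1 u.2 w).2 q))) * sq u.1 u.2
    _ = _ := by
        rw [Finset.sum_mul]
        refine Finset.sum_congr rfl fun u _ => ?_
        rw [← Finset.mul_sum]
        congr 1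
        exact (lm_bij_Alt u.1 u.2).sum_comp fun w => (sg w.1 w.2 : ℂ) * eval z (wa w.1 w.2 q)

theorem fix_Alt {ξ : Fin n → ℝ} (h : del ξ = 0) : ∃ (s : Equiv.Perm (Fin n)) (ε : Fin n → ℤˣ),
    sg s ε = -1 ∧ ∀ k, ((ε k : ℤ) : ℝ) * ξ (s k) = ξ k := by
  classical
  have e : del ξ = (∏ i, ξ i) * (vandermonde fun i => ξ i ^ 2).det := by
    rw [← det_mul_column, del]
    congr 1
    ext i j
    simp only [of_apply, vandermonde_apply]
    ring
  rw [e, mul_eq_zero, Finset.prod_eq_zero_iff, det_vandermonde_eq_zero_iff] at h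
  rcases h with ⟨i, _, hi⟩ | ⟨i, j, hij, hne⟩
  · refine ⟨1, Function.update 1 i (-1), ?_, fun k => ?_⟩
    · simp [sg, Finset.prod_update_of_mem]
    · by_cases hk : k = i
      · simp [hk, hi]
      · simp [hk]
  · rcases sq_eq_sq_iff_eq_or_eq_neg.1 hij with h | h
    · refine ⟨Equiv.swap i j, 1, by simp [sg, hne], fun k => ?_⟩
      rcases eq_or_ne k i with rfl | h1
      · simp [h]
      · rcases eq_or_ne k j with rfl | h2
        · simp [h]
        · simp [Equiv.swap_apply_of_ne_of_ne h1 h2]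
    · refine ⟨Equiv.swap i j, Function.update (1 : Fin n → ℤˣ) i (-1)
        * Function.update (1 : Fin n → ℤˣ) j (-1), ?_, fun k => ?_⟩
      · simp [sg, hne, Finset.prod_mul_distrib, Finset.prod_update_of_mem]
      · rcases eq_or_ne k i with rfl | h1
        · simp [h, hne]
        · rcases eq_or_ne k j with rfl | h2
          · simp [h, h1]
          · simp [Equiv.swap_apply_of_ne_of_ne h1 h2, h1, h2]

theorem s_sing (n : ℕ) : SSing n := by
  intro ξ y h
  obtain ⟨s, ε, h1, h2⟩ := fix_Alt h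
  have e : alt ξ y = ∑ w : Equiv.Perm (Fin n) × (Fin n → ℤˣ),
      (sg w.1 w.2 : ℝ) * (∑ k, ((w.2 k : ℤ) : ℝ) * ξ (w.1 k) * y k) ^ (n ^ 2 + 2 * n) := by
    rw [alt, Fintype.sum_prod_type]
  have e2 := (lm_bij_Alt s ε).sum_comp fun w =>
    (sg w.1 w.2 : ℝ) * (∑ k, ((w.2 k : ℤ) : ℝ) * ξ (w.1 k) * y k) ^ (n ^ 2 + 2 * n)
  have e3 : ∀ w : Equiv.Perm (Fin n) × (Fin n → ℤˣ),
      (sg (lm_Alt s ε w).1 (lm_Alt s ε w).2 : ℝ) * (∑ k, (((lm_Alt s ε w).2 k : ℤ) : ℝ)
        * ξ ((lm_Alt s ε w).1 k) * y k) ^ (n ^ 2 + 2 * n)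
      = -((sg w.1 w.2 : ℝ) * (∑ k, ((w.2 k : ℤ) : ℝ) * ξ (w.1 k) * y k) ^ (n ^ 2 + 2 * n)) := by
    intro w
    have : ∀ k, (((lm_Alt s ε w).2 k : ℤ) : ℝ) * ξ ((lm_Alt s ε w).1 k)
        = ((w.2 k : ℤ) : ℝ) * ξ (w.1 k) := fun k => by
      rw [← h2 (w.1 k)]
      simp [lm_Alt, mul_assoc]
    rw [sg_lm_Alt, h1]
    simp only [this]
    push_cast
    ring
  simp only [e3, Finset.sum_neg_distrib] at e2
  rw [e]
  linarith

end Pool.Agent.MP_12a176_ag.HC

end
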