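import Pool.Agent.MP_12a176_ag.HC.St

section
set_option autoImplicit false

namespace Pool.Agent.MP_12a176_ag.HC

open Complex Matrix MvPolynomial
open scoped ComplexOrder ComplexConjugate

section ring

variable {R : Type} [Ring R] [Algebra ℂ R]

theorem leib_Ad (d : Module.End ℂ R) (hd : ∀ x y, d (x * y) = d x * y + x * d y) {x : R}
    (hx : d (d x) = 0) (y : R) (k : ℕ) :
    (d ^ (k + 1)) (x * y) = x * (d ^ (k + 1)) y + ((k : ℂ) + 1) • (d x * (d ^ k) y) := by
  induction k with
  | zero => simp [hd, add_comm]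
  | succ k ih =>
    have e : ∀ (j : ℕ) (z : R), (d ^ (j + 1)) z = d ((d ^ j) z) := fun j z => by
      rw [pow_succ']; rfl
    rw [e (k + 1), ih, map_add, map_smul, hd, hd, hx, zero_mul, zero_add, ← e k, ← e (k + 1)]
    push_cast
    module

theorem pow_Ad (d : Module.End ℂ R) (hd : ∀ x y, d (x * y) = d x * y + x * d y) {x : R}
    (hx : d (d x) = 0) (m : ℕ) :
    (d ^ m) (x ^ m) = (m.factorial : ℂ) • d x ^ m ∧ (d ^ (m + 1)) (x ^ m) = 0 := by
  induction m with
  | zero =>
    have h := hd 1 1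
    rw [mul_one, mul_one, one_mul] at h
    exact ⟨by simp, by simpa using h⟩
  | succ m ih =>
    have e : (d ^ (m + 1 + 1)) (x ^ m) = 0 := by
      rw [pow_succ' d, Module.End.mul_apply, ih.2, map_zero]
    constructor
    · rw [pow_succ' x, leib_Ad d hd hx, ih.1, ih.2, mul_zero, zero_add, mul_smul_comm, smul_smul,
        ← pow_succ', Nat.factorial_succ]
      push_cast
      rfl
    · rw [pow_succ' x, leib_Ad d hd hx, e, ih.2, mul_zero, mul_zero, smul_zero, add_zero]

end ring

variable {σ : Type}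

/-- The commutator as a linear map. -/
noncomputable def dL_Ad (Q : MvPolynomial σ ℂ) : Module.End ℂ (Module.End ℂ (MvPolynomial σ ℂ)) :=
  LinearMap.mulRight ℂ (Mul Q) - LinearMap.mulLeft ℂ (Mul Q)

theorem dL_apply_Ad (Q : MvPolynomial σ ℂ) (S : Module.End ℂ (MvPolynomial σ ℂ)) :
    dL_Ad Q S = S * Mul Q - Mul Q * S := rfl

theorem it_Ad (Q : MvPolynomial σ ℂ) (m : ℕ) (S : Module.End ℂ (MvPolynomial σ ℂ)) :
    (adM Q)^[m] S = (dL_Ad Q ^ m) S := by
  rw [Module.End.pow_apply]; rfl

theorem dL_mul_Ad (Q : MvPolynomial σ ℂ) (S T : Module.End ℂ (MvPolynomial σ ℂ)) :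
    dL_Ad Q (S * T) = dL_Ad Q S * T + S * dL_Ad Q T := by
  simp only [dL_apply_Ad, sub_mul, mul_sub, mul_assoc]
  abel

theorem Mul_eq_Ad (p : MvPolynomial σ ℂ) : Mul p = Algebra.lmul ℂ (MvPolynomial σ ℂ) p := rfl

theorem dL_Mul_Ad (Q p : MvPolynomial σ ℂ) : dL_Ad Q (Mul p) = 0 := by
  rw [dL_apply_Ad, Mul_eq_Ad, Mul_eq_Ad, ← map_mul, ← map_mul, mul_comm, sub_self]

theorem dL_X_Ad (Q : MvPolynomial σ ℂ) (a : σ) : dL_Ad Q (Dop (X a)) = Mul (pderiv a Q) := by
  refine LinearMap.ext fun q => ?_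
  show Dop (X a) (Q * q) - Q * Dop (X a) q = pderiv a Q * q
  rw [Dop_X, Dop_X, Derivation.leibniz, smul_eq_mul, smul_eq_mul]
  ring

theorem pd_Q_Ad [Fintype σ] {s : σ → σ} (hs : Function.Involutive s) (a : σ) :
    pderiv a (∑ b, X b * X (s b) : MvPolynomial σ ℂ) = (2 : ℂ) • X (s a) := by
  classical
  have e : ∀ b, (s b = a) ↔ (b = s a) := fun b =>
    ⟨fun h => by rw [← h, hs b], fun h => by rw [h, hs a]⟩
  simp only [map_sum, Derivation.leibniz, smul_eq_mul, pderiv_X, Pi.single_apply, e, mul_ite,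
    mul_one, mul_zero, Finset.sum_add_distrib, Finset.sum_ite_eq', Finset.mem_univ, if_true]
  rw [two_smul]

theorem dL_lin_Ad [Fintype σ] {s : σ → σ} (hs : Function.Involutive s) (g : σ → ℝ) :
    dL_Ad (∑ b, X b * X (s b)) (Dop (lin g)) = (2 : ℂ) • Mul (rename s (lin g)) := by
  simp only [lin, map_sum (Dop (σ := σ)), map_sum (rename s), map_sum (dL_Ad _), map_smul,
    dL_X_Ad, pd_Q_Ad hs, rename_X, Mul_eq_Ad, map_sum (Algebra.lmul ℂ (MvPolynomial σ ℂ)),
    Finset.smul_sum]
  exact Finset.sum_congr rfl fun a _ => smul_comm _ _ _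

theorem s_ad : SAd := by
  intro σ _ s hs m p hp
  classical
  rw [it_Ad]
  refine Submodule.span_induction (p := fun p _ => (dL_Ad (∑ b, X b * X (s b)) ^ m) (Dop p) =
    (2 ^ m * m.factorial : ℂ) • Mul (rename s p)) ?_ ?_ (fun _ _ _ _ h h' => ?_)
    (fun c _ _ h => ?_) (mem_span_lin hp)
  · rintro _ ⟨g, rfl⟩
    have h1 := dL_lin_Ad hs g
    have h2 := (pow_Ad _ (dL_mul_Ad (∑ b, X b * X (s b))) (x := Dop (lin g))
      (by rw [h1, map_smul, dL_Mul_Ad, smul_zero]) m).1
    rw [map_pow, h2, h1, smul_pow, smul_smul, map_pow, Mul_eq_Ad, Mul_eq_Ad, map_pow, mul_comm]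
  · simp [Mul_eq_Ad]
  · simp only [map_add, h, h', Mul_eq_Ad, smul_add]
  · simp only [map_smul, h, Mul_eq_Ad]
    exact smul_comm _ _ _

end Pool.Agent.MP_12a176_ag.HC

end

section
set_option autoImplicit false

namespace Pool.Agent.MP_12a176_ag.HC

open Complex Matrix MvPolynomial
open scoped ComplexOrder ComplexConjugate

section

variable {σ : Type} [Fintype σ]

theorem der_sum_Adm (D : Derivation ℂ (MvPolynomial σ ℂ) (MvPolynomial σ ℂ))
    (P : MvPolynomial σ ℂ) : D P = ∑ a, D (X a) * pderiv a P := by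
  classical
  induction P using MvPolynomial.induction_on with
  | C a => simp
  | add p q h h' => simp only [map_add, h, h', mul_add, Finset.sum_add_distrib]
  | mul_X p k h =>
    simp only [Derivation.leibniz, smul_eq_mul, pderiv_X, Pi.single_apply, mul_add,
      Finset.sum_add_distrib, mul_ite, mul_one, mul_zero, Finset.sum_ite_eq, Finset.mem_univ,
      if_true]
    rw [h, Finset.mul_sum, mul_comm p]
    exact congrArg _ (Finset.sum_congr rfl fun a _ => by ring)

theorem lin_Adm (w : σ → ℂ) (p P : MvPolynomial σ ℂ) :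
    Dop p ((∑ c, w c • X c) * P) =
      (∑ c, w c • X c) * Dop p P + Dop (∑ c, w c • pderiv c p) P := by
  simp only [Finset.sum_mul, smul_mul_assoc, map_sum, map_smul, Dop_mul_X, smul_add,
    Finset.sum_add_distrib, LinearMap.sum_apply, LinearMap.smul_apply]

theorem comm_Adm (w : σ → σ → ℂ) (L L' : Derivation ℂ (MvPolynomial σ ℂ) (MvPolynomial σ ℂ))
    (h : ∀ a, L (X a) = ∑ c, w a c • X c) (h' : ∀ c, L' (X c) = ∑ a, w a c • X a)
    (p P : MvPolynomial σ ℂ) : Dop p (L P) = L (Dop p P) + Dop (L' p) P := by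
  have e : ∀ (a : σ) (q : MvPolynomial σ ℂ), Dop q (pderiv a P) = Dop (X a * q) P := fun a q => by
    rw [mul_comm, Dop_mul, Dop_X]
  rw [der_sum_Adm L P, der_sum_Adm L (Dop p P), der_sum_Adm L' p]
  simp only [h, h', map_sum, lin_Adm, Finset.sum_add_distrib, e]
  congr 1
  · simp only [Dop_mul, Dop_X]
  · simp only [Finset.sum_mul, smul_mul_assoc, map_sum, map_smul, LinearMap.sum_apply,
      LinearMap.smul_apply, e]
    exact Finset.sum_comm

end

section

variable {n : ℕ} (D : Derivation ℂ (A n) (A n))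

theorem map_mul_Adm (M N : Matrix (K n) (K n) (A n)) :
    (M * N).map D = M.map D * N + M * N.map D := by
  ext1 a b
  simp only [Matrix.map_apply, Matrix.mul_apply, Matrix.add_apply, map_sum, Derivation.leibniz,
    smul_eq_mul, ← Finset.sum_add_distrib]
  exact Finset.sum_congr rfl fun c _ => by ring

theorem map_trace_Adm (M : Matrix (K n) (K n) (A n)) : D M.trace = (M.map D).trace := by
  simp only [Matrix.trace, Matrix.diag, map_sum, Matrix.map_apply]

theorem JJ_Adm : JJ n (A n) = (JJ n ℂ).map C := (Matrix.map_J (Fin n) C).symm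

theorem map_J_Adm : (JJ n (A n)).map D = 0 := by
  rw [JJ_Adm]
  ext1 a b
  simp only [Matrix.map_apply, derivation_C, Matrix.zero_apply]

theorem map_pr_Adm (M : Matrix (K n) (K n) (A n)) : (pr M).map D = pr (M.map D) := by
  have h1 : ∀ M N : Matrix (K n) (K n) (A n), ((1 / 2 : ℂ) • (M + N)).map D =
      (1 / 2 : ℂ) • (M.map D + N.map D) := fun M N => by
    ext1 a b
    simp only [Matrix.map_apply, Matrix.smul_apply, Matrix.add_apply, Derivation.map_smul,
      map_add]
  rw [pr, pr, h1, map_mul_Adm, map_mul_Adm, map_J_Adm, Matrix.zero_mul, Matrix.mul_zero, zero_add,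
    add_zero, Matrix.transpose_map]

theorem tr_pow_Adm {M W : Matrix (K n) (K n) (A n)} (h : M.map D = W * M - M * W) (k : ℕ) :
    D (M ^ k).trace = 0 := by
  have h1 : (M ^ k).map D = W * M ^ k - M ^ k * W := by
    induction k with
    | zero =>
      ext1 a b
      simp only [pow_zero, Matrix.map_apply, Matrix.one_apply, mul_one, one_mul, sub_self,
        Matrix.zero_apply]
      split_ifs <;> simp
    | succ k ih =>
      rw [pow_succ, map_mul_Adm, ih, h]
      noncomm_ring
  rw [map_trace_Adm, h1, Matrix.trace_sub, Matrix.trace_mul_comm, sub_self]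

theorem map_LZ_Adm (Z : Matrix (K n) (K n) ℂ) :
    (XX n).map (LZ Z) = Z.map C * XX n - XX n * Z.map C := by
  ext1 a b
  exact mkDerivation_X ℂ _ (a, b)

theorem sp_left_Adm {R : Type} [CommRing R] {W : Matrix (K n) (K n) R} (h : IsSp W) :
    Wᵀ * JJ n R = -(JJ n R * W) := by
  have h1 := congrArg (fun Y => JJ n R * Y * JJ n R) h
  simp only [Matrix.mul_add, Matrix.add_mul, Matrix.mul_zero, Matrix.zero_mul,
    ← Matrix.mul_assoc, Matrix.J_squared] at h1
  rw [Matrix.mul_assoc _ (JJ n R), Matrix.J_squared] at h1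
  simp only [Matrix.mul_neg, Matrix.neg_mul, Matrix.mul_one, Matrix.one_mul] at h1
  rw [← neg_add, neg_eq_zero] at h1
  exact eq_neg_of_add_eq_zero_right h1

theorem sp_tr_Adm {W : Matrix (K n) (K n) ℂ} (h : IsSp W) : IsSp Wᵀ := by
  rw [IsSp, sp_left_Adm h, Matrix.transpose_transpose, neg_add_cancel]

theorem pr_comm_Adm {R : Type} [CommRing R] [Algebra ℂ R] {W : Matrix (K n) (K n) R} (h : IsSp W)
    (Y : Matrix (K n) (K n) R) : pr (W * Y - Y * W) = W * pr Y - pr Y * W := by
  have h1 := sp_left_Adm h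
  have h2 : JJ n R * Wᵀ = -(W * JJ n R) := eq_neg_of_add_eq_zero_right h
  have h3 : JJ n R * (W * Y - Y * W)ᵀ * JJ n R =
      JJ n R * Yᵀ * (Wᵀ * JJ n R) - JJ n R * Wᵀ * Yᵀ * JJ n R := by
    simp only [Matrix.transpose_sub, Matrix.transpose_mul, Matrix.mul_sub, Matrix.sub_mul,
      Matrix.mul_assoc]
  rw [pr, pr, Matrix.mul_smul, Matrix.smul_mul, ← smul_sub, h3, h1, h2]
  refine congrArg _ ?_
  noncomm_ring

theorem LZ_pw_Adm {W : Matrix (K n) (K n) ℂ} (h : IsSp W) (m : ℕ) : LZ W (pw n m) = 0 := by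
  have h0 : IsSp (W.map C : Matrix (K n) (K n) (A n)) := by
    have := congrArg (fun Y : Matrix (K n) (K n) ℂ => Y.map (C : ℂ →+* A n)) h
    simp only [Matrix.map_add _ (map_add _), Matrix.map_mul, Matrix.map_zero _ (map_zero _),
      Matrix.transpose_map] at this
    rwa [IsSp, JJ_Adm]
  refine tr_pow_Adm _ (W := W.map C) ?_ _
  rw [map_pr_Adm, map_LZ_Adm, pr_comm_Adm h0]

theorem LZ_QQ_Adm (Z : Matrix (K n) (K n) ℂ) : LZ Z (QQ n) = 0 := by
  have h : QQ n = (XX n ^ 2).trace := by
    simp only [QQ, sq, Matrix.trace, Matrix.diag, Matrix.mul_apply, Fintype.sum_prod_type]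
    rfl
  exact h ▸ tr_pow_Adm _ (map_LZ_Adm Z) 2

theorem LZ_X_Adm (Z : Matrix (K n) (K n) ℂ) (a : K n × K n) : LZ Z (X a) = ∑ c : K n × K n,
    ((if a.2 = c.2 then Z a.1 c.1 else 0) - if a.1 = c.1 then Z c.2 a.2 else 0) • X c := by
  rw [LZ, mkDerivation_X]
  simp only [Matrix.sub_apply, Matrix.mul_apply, Matrix.map_apply, mvPolynomialX_apply, sub_smul,
    Finset.sum_sub_distrib, Fintype.sum_prod_type, ite_smul, zero_smul, Finset.sum_ite_eq,
    Finset.mem_univ, if_true, Finset.sum_ite_irrel, Finset.sum_const_zero, smul_eq_C_mul,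
    mul_comm (X _)]

theorem supp_pw_Adm (a b : K n) (m : ℕ) : ∃ w : K n × K n → ℂ,
    (XX n * JJ n (A n) + JJ n (A n) * (XX n)ᵀ) a b = ∑ c, w c • X c ∧
      ∑ c, w c • pderiv c (pw n m) = 0 := by
  let W : Matrix (K n) (K n) ℂ := (single a b 1)ᵀ * JJ n ℂ - single a b 1 * JJ n ℂ
  have hJ : ∀ c d, JJ n ℂ c d = -JJ n ℂ d c := fun c d =>
    congrFun (congrFun (Matrix.J_transpose (Fin n) ℂ) d) c
  refine ⟨fun c => W c.1 c.2, ?_, ?_⟩
  · simp only [W, JJ_Adm, Matrix.add_apply, Matrix.sub_apply, Matrix.mul_apply, Matrix.map_apply,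
      Matrix.transpose_apply, mvPolynomialX_apply, Fintype.sum_prod_type, Matrix.single_apply,
      ite_and, ite_mul, one_mul, zero_mul, Finset.sum_ite_eq, Finset.mem_univ, if_true,
      Finset.sum_ite_irrel, Finset.sum_const_zero, sub_smul, Finset.sum_sub_distrib, ite_smul,
      zero_smul, smul_eq_C_mul, hJ b, map_neg, neg_mul, Finset.sum_neg_distrib, mul_comm (X _)]
    ring
  · have h1 := der_sum_Adm (mkDerivation ℂ fun c : K n × K n => (C (W c.1 c.2) : A n)) (pw n m)
    simp only [mkDerivation_X, ← smul_eq_C_mul] at h1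
    rw [← h1]
    refine tr_pow_Adm _ (W := 0) ?_ _
    have h2 : (XX n).map (mkDerivation ℂ fun c : K n × K n => (C (W c.1 c.2) : A n)) = W.map C := by
      ext1 c d
      exact mkDerivation_X ℂ _ (c, d)
    have h3 : W + JJ n ℂ * Wᵀ * JJ n ℂ = 0 := by
      simp only [W, Matrix.transpose_sub, Matrix.transpose_mul, Matrix.transpose_transpose,
        Matrix.J_transpose, Matrix.mul_sub, Matrix.sub_mul, Matrix.neg_mul, Matrix.mul_neg,
        ← Matrix.mul_assoc, Matrix.J_squared, Matrix.one_mul, neg_neg]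
      abel
    have h4 := congrArg (fun Y : Matrix (K n) (K n) ℂ => Y.map (C : ℂ →+* A n)) h3
    simp only [Matrix.map_add _ (map_add _), Matrix.map_mul, Matrix.map_zero _ (map_zero _),
      Matrix.transpose_map] at h4
    rw [map_pr_Adm, h2, pr, JJ_Adm, h4, smul_zero, Matrix.zero_mul, Matrix.mul_zero, sub_zero]

end

theorem s_adm (n : ℕ) : SAdm n := by
  intro ν h
  refine ⟨⟨fun a b P => ?_, fun Z hZ P => ?_⟩, fun m => ⟨fun a b P => ?_, fun Z hZ P => ?_⟩⟩
  · change ν (QQ n * (_ * P)) = 0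
    rw [mul_left_comm]
    exact h.supp a b _
  · have h1 := h.inv Z hZ (QQ n * P)
    rwa [Derivation.leibniz, LZ_QQ_Adm, smul_zero, add_zero] at h1
  · obtain ⟨w, h1, h2⟩ := supp_pw_Adm a b m
    change ν (Dop _ _) = 0
    rw [h1, lin_Adm, h2, ← h1, map_zero, LinearMap.zero_apply, add_zero]
    exact h.supp a b _
  · change ν (Dop _ _) = 0
    rw [comm_Adm _ (LZ Z) (LZ Zᵀ) (LZ_X_Adm Z) (fun c => by
      simp only [LZ_X_Adm, Matrix.transpose_apply, eq_comm]), LZ_pw_Adm (sp_tr_Adm hZ), map_zero,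
      LinearMap.zero_apply, add_zero]
    exact h.inv Z hZ _

end Pool.Agent.MP_12a176_ag.HC

end

section
set_option autoImplicit false

namespace Pool.Agent.MP_12a176_ag.HC

open Complex Matrix MvPolynomial
open scoped ComplexOrder ComplexConjugate

noncomputable section

variable {n : ℕ}

/-- The diagonal matrix of the weights. -/
def dd_Io (n : ℕ) : Matrix (K n) (K n) (B n) := diagonal fun a => (-I / 2) • lam a

theorem chain_Io (D : Derivation ℂ (A n) (A n)) (D' : Derivation ℂ (B n) (B n))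
    (h : ∀ k, D (io (X k)) = io (D' (X k))) (q : B n) : D (io q) = io (D' q) := by
  induction q using MvPolynomial.induction_on with
  | C a => rw [← algebraMap_eq, AlgHom.commutes, D.map_algebraMap, D'.map_algebraMap, map_zero]
  | add p q hp hq => simp only [map_add, hp, hq]
  | mul_X p k hp => simp only [map_mul, Derivation.leibniz, smul_eq_mul, map_add, hp, h]

theorem base_Io (a : K n × K n) (q : B n) :
    pderiv a (io q) = io (Dop (av (dd_Io n) (X a)) q) := by
  obtain ⟨a, b⟩ := a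
  rw [av_X, dd_Io]
  by_cases e : a = b
  · subst e
    rw [diagonal_apply_eq]
    rcases a with k | k
    · rw [chain_Io _ ((-I / 2) • pderiv k), map_smul, LinearMap.smul_apply, lam, Sum.elim_inl,
        Dop_X, Derivation.smul_apply]
      intro j
      by_cases e : j = k
      · subst e
        simp [io, smul_eq_C_mul]
      · simp [io, pderiv_X, e]
    · rw [chain_Io _ ((I / 2) • pderiv k), map_smul, LinearMap.smul_apply, lam, Sum.elim_inr,
        map_neg, LinearMap.neg_apply, Dop_X, Derivation.smul_apply, neg_div, neg_smul, smul_neg,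
        neg_neg]
      intro j
      by_cases e : j = k
      · subst e
        simp [io, smul_eq_C_mul, neg_div]
      · simp [io, pderiv_X, e]
  · rw [diagonal_apply_ne _ e, chain_Io _ 0, map_zero]
    · rfl
    · intro j
      have h : ∀ c : K n, (c, c) ≠ (a, b) := fun c hc =>
        e ((congrArg Prod.fst hc).symm.trans (congrArg Prod.snd hc))
      simp [io, pderiv_X, h]

theorem dop_Io (p : A n) (q : B n) : Dop p (io q) = io (Dop (av (dd_Io n) p) q) := by
  induction p using MvPolynomial.induction_on generalizing q with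
  | C a => rw [← algebraMap_eq, AlgHom.commutes (av _), algebraMap_eq, algebraMap_eq, Dop_C, Dop_C,
      map_smul]
  | add p p' h h' => simp only [map_add, LinearMap.add_apply, h, h']
  | mul_X p a h => rw [Dop_mul, Dop_X, base_Io, h, map_mul (av _), Dop_mul]

theorem sp_Io : IsSp (dd_Io n) := by
  rw [IsSp, dd_Io, diagonal_transpose]
  ext1 a b
  rw [Matrix.add_apply, diagonal_mul, mul_diagonal]
  rcases a with k | k <;> rcases b with j | j <;> by_cases e : k = j <;>
    simp [Matrix.J, lam, e]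

theorem pw_Io (m : ℕ) : av (dd_Io n) (pw n m) = (2 * (-1 / 4) ^ m : ℂ) • ps n m := by
  have h : (XX n).map (av (dd_Io n)) = dd_Io n := by
    ext1 a b
    exact av_X _ (a, b)
  have h1 : (pr (XX n)).map (av (dd_Io n)) = dd_Io n := by
    rw [pr, Matrix.map_smul _ _ (map_smul _ _), Matrix.map_add _ (map_add _),
      Matrix.map_mul, Matrix.map_mul, transpose_map, map_J, h,
      eq_neg_of_add_eq_zero_right sp_Io, Matrix.neg_mul, Matrix.mul_assoc, J_squared,
      Matrix.mul_neg, Matrix.mul_one, neg_neg, ← two_smul ℂ, smul_smul]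
    norm_num
  have h2 : (-I / 2) ^ 2 = -1 / 4 := by
    rw [div_pow, neg_sq, I_sq]
    norm_num
  rw [pw, AddMonoidHom.map_trace, ← AlgHom.mapMatrix_apply, map_pow, AlgHom.mapMatrix_apply, h1,
    dd_Io, diagonal_pow, trace_diagonal, Fintype.sum_sum_type, ps, mul_smul, two_smul,
    Finset.smul_sum]
  simp only [Pi.pow_apply, lam, Sum.elim_inl, Sum.elim_inr, smul_pow, (even_two_mul m).neg_pow,
    pow_mul (-I / 2), h2]

theorem s_io (n : ℕ) : SIo n := fun m q => by
  rw [dop_Io, pw_Io, map_smul, LinearMap.smul_apply, map_smul]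

theorem pd_Io (y : Fin n → ℂ) (k : Fin n) (j : ℕ) :
    pderiv k ((∑ i, y i • X i : B n) ^ (j + 1)) = ((j + 1 : ℂ) * y k) • (∑ i, y i • X i) ^ j := by
  have h : pderiv k (∑ i, y i • X i : B n) = y k • 1 := by
    simp [pderiv_X, Pi.single_apply]
  rw [Derivation.leibniz_pow, h, Nat.add_sub_cancel, smul_eq_mul, mul_smul_comm, mul_one,
    ← Nat.cast_smul_eq_nsmul ℂ, smul_smul, Nat.cast_succ]

theorem s_lin (n : ℕ) : SLin n := by
  intro d
  induction d with
  | zero =>
    intro M p y hp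
    rw [← totalDegree_zero_iff_isHomogeneous, totalDegree_eq_zero_iff_eq_C] at hp
    rw [hp, Dop_C, eval_C, zero_add, Nat.descFactorial_zero, Nat.cast_one, one_mul]
  | succ d ih =>
    intro M p y hp
    have hd : ((d + 1 : ℕ) : ℂ) ≠ 0 := Nat.cast_ne_zero.2 d.succ_ne_zero
    have e := hp.sum_X_mul_pderiv
    rw [← Nat.cast_smul_eq_nsmul ℂ] at e
    refine smul_right_injective _ hd ?_
    have e1 : ((d + 1 : ℕ) : ℂ) * eval y p = ∑ k, y k * eval y (pderiv k p) := by
      rw [← smul_eval, ← e, map_sum]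
      simp only [map_mul, eval_X]
    dsimp only
    rw [← LinearMap.smul_apply, ← map_smul, ← e, smul_smul, mul_left_comm, e1, Finset.mul_sum,
      Finset.sum_smul, map_sum, LinearMap.sum_apply, Nat.add_right_comm]
    refine Finset.sum_congr rfl fun k _ => ?_
    rw [mul_comm (X k), Dop_mul, Dop_X, pd_Io, map_smul, ih M _ y hp.pderiv, smul_smul,
      Nat.succ_descFactorial_succ]
    congr 1
    push_cast
    ring

end

end Pool.Agent.MP_12a176_ag.HC

end

section
set_option autoImplicit false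

namespace Pool.Agent.MP_12a176_ag.HC

open Complex Matrix MvPolynomial
open scoped ComplexOrder ComplexConjugate

noncomputable section

variable {n : ℕ}

/-- The side of an index. -/
def s_Root : K n → ℂ := Sum.elim (fun _ => 1) fun _ => -1

theorem ent_Root {R : Type} [CommRing R] [Algebra ℂ R] (Y : Matrix (K n) (K n) R) (a b : K n) :
    (Y * JJ n R + JJ n R * Yᵀ) a b = s_Root b • Y a b.swap - s_Root a • Y b a.swap := by
  rcases a with a | a <;> rcases b with b | b <;>
    simp [s_Root, Matrix.J, Matrix.mul_apply, Fintype.sum_sum_type, Matrix.one_apply,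
      sub_eq_add_neg]

/-- The root vector. -/
def Z_Root (a b : K n) : Matrix (K n) (K n) ℂ :=
  single a b 1 - (s_Root a * s_Root b) • single b.swap a.swap 1

theorem sp_Root (a b : K n) : IsSp (Z_Root a b) := by
  ext c d
  rw [ent_Root]
  rcases a with a | a <;> rcases b with b | b <;> rcases c with c | c <;> rcases d with d | d <;>
    simp [s_Root, Z_Root, Matrix.single_apply, and_comm] <;> split_ifs <;> simp

theorem LZ_Root (a b c d : K n) : LZ (Z_Root a b) (X (c, d)) =
    (if a = c then X (b, d) else 0) - (if b = d then X (c, a) else 0) - (s_Root a * s_Root b) •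
      ((if b.swap = c then X (a.swap, d) else 0) - if a.swap = d then X (c, b.swap) else 0) := by
  rw [LZ, mkDerivation_X]
  simp only [Z_Root, Matrix.sub_apply, Matrix.mul_apply, Matrix.map_apply, Matrix.smul_apply,
    Matrix.single_apply, mvPolynomialX_apply, map_sub, smul_eq_mul, map_mul, sub_mul, mul_sub,
    Finset.sum_sub_distrib, smul_eq_C_mul, ite_and, apply_ite C, map_one, map_zero, mul_ite,
    ite_mul, mul_one, one_mul, mul_zero, zero_mul, Finset.sum_ite_eq, Finset.mem_univ, if_true,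
    Finset.sum_ite_irrel, Finset.sum_const_zero]
  split_ifs <;> ring

theorem LZ_ab_Root (a b : K n) : LZ (Z_Root a b) (X (a, b)) = mu a b • (X (b, b) - X (a, a)) := by
  rw [LZ_Root, mu, if_pos rfl, if_pos rfl]
  by_cases h : b = a.swap
  · subst h
    have : s_Root a * s_Root a.swap = -1 := by rcases a with a | a <;> simp [s_Root]
    rw [this]
    simp [two_smul]
    ring
  · rw [if_neg h, if_neg (Ne.symm h), if_neg fun e => h (by rw [← e, Sum.swap_swap])]
    simp

/-- The derivation along a weight. -/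
def d_Root : K n → Derivation ℂ (B n) (B n) := Sum.elim pderiv fun k => -pderiv k

theorem Dop_Root (a : K n) (u : B n) : Dop (lam a) u = d_Root a u := by
  rcases a with a | a <;> simp [lam, d_Root, Dop_X]

theorem d_X_Root (a : K n) (k : Fin n) : d_Root a (X k) =
    C ((if a = .inl k then 1 else 0) - if a = .inr k then 1 else 0) := by
  rcases a with a | a <;> by_cases h : a = k <;> simp [d_Root, h, eq_comm (a := k)]

section
variable {R : Type} [CommRing R] [Algebra ℂ R] (π : A n →ₐ[ℂ] R)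
  (h : ∀ a b : K n, π (X (a, b)) = -(s_Root a * s_Root b) • π (X (b.swap, a.swap)))
include h

theorem diag_Root (c : K n) : π (X (c, c)) = I • π (io (lam c)) := by
  rcases c with k | k <;>
  · have := h (.inr k) (.inr k)
    simp only [s_Root, Sum.elim_inr, Sum.swap_inr] at this
    simp only [lam, Sum.elim_inl, Sum.elim_inr, map_neg, io, aeval_X, map_smul, map_sub, this]
    match_scalars
    ring_nf
    simp

theorem LZ_cc_Root (a b c : K n) : π (LZ (Z_Root a b) (X (c, c))) =
    (((if a = c then 1 else 0) - if a = c.swap then 1 else 0) -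
      ((if b = c then 1 else 0) - if b = c.swap then (1 : ℂ) else 0)) • π (X (b, a)) := by
  have e : ∀ x : K n, x.swap = c ↔ x = c.swap := fun x =>
    ⟨fun e => by rw [← e, Sum.swap_swap], fun e => by rw [e, Sum.swap_swap]⟩
  have e1 : (if a = c then X (b, c) else 0 : A n) =
      (if a = c then (1 : ℂ) else 0) • X (b, a) := by split_ifs with q <;> simp [q]
  have e2 : (if b = c then X (c, a) else 0 : A n) =
      (if b = c then (1 : ℂ) else 0) • X (b, a) := by split_ifs with q <;> simp [q]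
  have e3 : (if b.swap = c then X (a.swap, c) else 0 : A n) =
      (if b = c.swap then (1 : ℂ) else 0) • X (a.swap, b.swap) := by
    simp only [← e]; split_ifs with q <;> simp [q]
  have e4 : (if a.swap = c then X (c, b.swap) else 0 : A n) =
      (if a = c.swap then (1 : ℂ) else 0) • X (a.swap, b.swap) := by
    simp only [← e]; split_ifs with q <;> simp [q]
  rw [LZ_Root, e1, e2, e3, e4]
  simp only [map_sub, map_smul, h b a]
  module

theorem chain_Root (a b : K n) (u : B n) : π (LZ (Z_Root a b) (io u)) =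
    -I • (π (X (b, a)) * π (io ((d_Root a - d_Root b) u))) := by
  induction u using MvPolynomial.induction_on with
  | C r => simp [← algebraMap_eq]
  | add p q hp hq => simp only [map_add, hp, hq, mul_add, smul_add]
  | mul_X p k hp =>
    have e : π (LZ (Z_Root a b) (io (X k))) =
        -I • (π (X (b, a)) * π (io ((d_Root a - d_Root b) (X k)))) := by
      rw [Derivation.sub_apply, d_X_Root, d_X_Root, ← map_sub, ← algebraMap_eq, AlgHom.commutes,
        AlgHom.commutes, mul_comm, ← Algebra.smul_def, io, aeval_X]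
      simp only [map_sub, Derivation.map_smul, map_smul, LZ_cc_Root π h, Sum.swap_inl, Sum.swap_inr]
      match_scalars
      split_ifs <;> ring
    simp only [map_mul, Derivation.leibniz, smul_eq_mul, map_add, hp, e, Algebra.smul_def]
    ring

theorem main_Root (a b : K n) (u : B n) : π (LZ (Z_Root a b) (X (a, b) * io u)) =
    π (-I • (X (a, b) * X (b, a) * io (Dop (lam a - lam b) u) +
      mu a b • io ((lam a - lam b) * u))) := by
  rw [map_sub Dop, LinearMap.sub_apply, Dop_Root, Dop_Root, ← Derivation.sub_apply]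
  simp only [Derivation.leibniz, smul_eq_mul, map_add, map_mul, chain_Root π h, LZ_ab_Root,
    map_smul, map_sub, diag_Root π h]
  simp only [Algebra.smul_def, map_neg]
  ring

end

/-- The polynomials that vanish on the support. -/
def N_Root (ν : A n →ₗ[ℂ] ℂ) : Ideal (A n) where
  carrier := {P | ∀ Q, ν (P * Q) = 0}
  add_mem' := fun {P P'} h h' Q => by rw [add_mul, map_add, h Q, h' Q, add_zero]
  zero_mem' := fun Q => by rw [zero_mul, map_zero]
  smul_mem' := fun c P h Q => by rw [smul_eq_mul, mul_comm c, mul_assoc]; exact h _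

theorem s_root (n : ℕ) : SRoot n := by
  intro ν hν a b _ u
  let π := Ideal.Quotient.mkₐ ℂ (N_Root ν)
  have hπ : ∀ P Q, π P = π Q → ν P = ν Q := fun P Q e => by
    have := (Ideal.Quotient.eq.1 e) 1
    rwa [mul_one, map_sub, sub_eq_zero] at this
  have h : ∀ c d : K n, π (X (c, d)) = -(s_Root c * s_Root d) • π (X (d.swap, c.swap)) := by
    intro c d
    have h1 : π _ = 0 := Ideal.Quotient.eq_zero_iff_mem.2 (hν.supp c d.swap)
    rw [ent_Root, Sum.swap_swap, map_sub, map_smul, map_smul, sub_eq_zero] at h1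
    change _ • π (X (c, d)) = _ • π (X (d.swap, c.swap)) at h1
    have h2 : -s_Root d * s_Root d.swap = 1 := by rcases d with d | d <;> simp [s_Root]
    rw [← one_smul ℂ (π (X (c, d))), ← h2, mul_smul, h1, smul_smul]
    congr 1
    ring
  have h0 := hν.inv _ (sp_Root a b) (X (a, b) * io u)
  rw [hπ _ _ (main_Root π h a b u), map_smul, map_add, map_smul, smul_eq_mul, smul_eq_mul] at h0
  linear_combination I * h0 + (ν (X (a, b) * X (b, a) * io (Dop (lam a - lam b) u)) +
    mu a b * ν (io ((lam a - lam b) * u))) * I_mul_I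

end

end Pool.Agent.MP_12a176_ag.HC

end

section
set_option autoImplicit false

namespace Pool.Agent.MP_12a176_ag.HC

open Complex Matrix MvPolynomial
open scoped ComplexOrder ComplexConjugate

theorem del_eq_Cof {n : ℕ} {R : Type} [CommRing R] (y : Fin n → R) :
    del y = (∏ i, y i) * ∏ i, ∏ j ∈ Finset.Ioi i, (y j ^ 2 - y i ^ 2) := by
  rw [← det_vandermonde fun i => y i ^ 2, ← det_mul_column, del]
  congr 1
  ext i j
  rw [of_apply, of_apply, vandermonde_apply, ← pow_mul, pow_succ']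

theorem dvd_Cof {n : ℕ} (a b : K n) (h : a ≠ b) : lam a - lam b ∣ (del X : B n) := by
  have h0 : ∀ i j : Fin n, i < j → (X j ^ 2 - X i ^ 2 : B n) ∣ del X := fun i j h =>
    del_eq_Cof (X : Fin n → B n) ▸ Dvd.dvd.mul_left
      ((Finset.dvd_prod_of_mem (fun j => (X j ^ 2 - X i ^ 2 : B n)) (Finset.mem_Ioi.2 h)).trans
        (Finset.dvd_prod_of_mem (fun i => ∏ j ∈ Finset.Ioi i, (X j ^ 2 - X i ^ 2 : B n))
          (Finset.mem_univ i))) _
  have h1 : ∀ i j : Fin n, i ≠ j → (X i ^ 2 - X j ^ 2 : B n) ∣ del X := fun i j h =>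
    h.lt_or_gt.elim (fun e => dvd_sub_comm.1 dvd_rfl |>.trans (h0 i j e)) fun e => h0 j i e
  have h2 : ∀ i j : Fin n, i ≠ j → (X i - X j : B n) ∣ del X := fun i j h =>
    (sub_dvd_pow_sub_pow _ _ 2).trans (h1 i j h)
  have h3 : ∀ i j : Fin n, (X i + X j : B n) ∣ del X := fun i j => by
    rcases eq_or_ne i j with rfl | h
    · refine Dvd.dvd.trans ⟨C (1 / 2), ?_⟩ (del_eq_Cof (X : Fin n → B n) ▸
        (Finset.dvd_prod_of_mem X (Finset.mem_univ i)).mul_right _)
      rw [← two_mul, mul_right_comm, ← map_ofNat C 2, ← map_mul]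
      simp
    · exact Dvd.dvd.trans ⟨X i - X j, by ring⟩ (h1 i j h)
  rcases a with i | i <;> rcases b with j | j <;> simp only [lam, Sum.elim_inl, Sum.elim_inr]
  · exact h2 i j fun e => h (by rw [e])
  · rw [sub_neg_eq_add]; exact h3 i j
  · rw [← neg_add', neg_dvd]; exact h3 i j
  · rw [neg_sub_neg]; exact h2 j i fun e => h (by rw [e])

theorem ne_Cof {n : ℕ} : (del X : B n) ≠ 0 := by
  rw [del_eq_Cof]
  refine mul_ne_zero (Finset.prod_ne_zero_iff.2 fun i _ => X_ne_zero i)
    (Finset.prod_ne_zero_iff.2 fun i _ => Finset.prod_ne_zero_iff.2 fun j h => ?_)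
  rw [sq_sub_sq]
  refine mul_ne_zero (fun e => ?_) (sub_ne_zero.2 (X_injective.ne (Finset.mem_Ioi.1 h).ne'))
  have := congrArg (eval fun _ => (1 : ℂ)) e
  norm_num at this

theorem log_Cof {R F ι : Type} [CommRing R] [Algebra ℂ R] [Field F] (f : R →+* F)
    (D : Derivation ℂ R R) (s : Finset ι) (g : ι → R) (h : f (∏ i ∈ s, g i) ≠ 0) :
    f (D (∏ i ∈ s, g i)) / f (∏ i ∈ s, g i) = ∑ i ∈ s, f (D (g i)) / f (g i) := by
  classical
  induction s using Finset.induction_on with
  | empty => simp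
  | insert a s ha ih =>
    rw [Finset.prod_insert ha, map_mul, mul_ne_zero_iff] at h
    rw [Finset.prod_insert ha, Finset.sum_insert ha, ← ih h.2]
    simp only [Derivation.leibniz, smul_eq_mul, map_add, map_mul]
    have := h.1
    have := h.2
    field_simp
    ring

theorem sum_Cof {n : ℕ} {F : Type} [Field F] [CharZero F] (x d : Fin n → F) (h0 : ∀ i, x i ≠ 0)
    (h1 : ∀ i j, i ≠ j → x i - x j ≠ 0) (h2 : ∀ i j, x i + x j ≠ 0) :
    ∑ a : K n, ∑ b ∈ Finset.univ.erase a, (if b = a.swap then 2 else 1) *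
      ((Sum.elim d (fun k => -d k) a - Sum.elim d (fun k => -d k) b) /
        (Sum.elim x (fun k => -x k) a - Sum.elim x (fun k => -x k) b)) =
    4 * (∑ i, d i / x i + ∑ i, ∑ j ∈ Finset.Ioi i,
      (2 * x j * d j - 2 * x i * d i) / (x j ^ 2 - x i ^ 2)) := by
  obtain ⟨r, hr⟩ : ∃ r : Fin n → Fin n → F,
    r = fun i j => (d i - d j) / (x i - x j) + (d i + d j) / (x i + x j) := ⟨_, rfl⟩
  have e1 : ∀ i, ∑ j, (if j = i then 0 else (d i - d j) / (x i - x j)) +
      ∑ j, (if j = i then 2 else 1) * ((d i + d j) / (x i + x j)) =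
      2 * (d i / x i) + ∑ j ∈ ({i}ᶜ : Finset (Fin n)), r j i := fun i => by
    rw [← Finset.sum_add_distrib, Fintype.sum_eq_add_sum_compl i]
    congr 1
    · have := h0 i
      rw [if_pos rfl, if_pos rfl, ← two_mul, ← two_mul]
      field_simp
      ring
    · refine Finset.sum_congr rfl fun j hj => ?_
      have hj : j ≠ i := by simpa using hj
      rw [if_neg hj, if_neg hj, hr, one_mul, ← neg_div_neg_eq, neg_sub, neg_sub, add_comm (d i),
        add_comm (x i)]
  have e2 : ∑ i, ∑ j ∈ ({i}ᶜ : Finset (Fin n)), r j i = 2 * ∑ i, ∑ j ∈ Finset.Ioi i,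
      (2 * x j * d j - 2 * x i * d i) / (x j ^ 2 - x i ^ 2) := by
    rw [← Finset.sum_sum_Ioi_add_eq_sum_sum_off_diag, Finset.mul_sum]
    refine Finset.sum_congr rfl fun i _ => ?_
    rw [Finset.mul_sum]
    refine Finset.sum_congr rfl fun j hj => ?_
    have hj := (Finset.mem_Ioi.1 hj).ne
    have a1 := h1 i j hj
    have a2 := h1 j i hj.symm
    have a3 := h2 i j
    have a4 := h2 j i
    rw [hr, sq_sub_sq]
    field_simp
    ring
  simp only [← Finset.filter_ne', Finset.sum_filter, Fintype.sum_sum_type, Sum.elim_inl,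
    Sum.elim_inr, Sum.swap_inl, Sum.swap_inr, ne_eq, Sum.inl.injEq, Sum.inr.injEq, reduceCtorEq,
    if_false, ite_not, one_mul, sub_neg_eq_add, ← neg_add', neg_div_neg_eq]
  have e3 : ∀ i j, (-d i + d j) / (-x i + x j) = (d i - d j) / (x i - x j) := fun i j => by
    rw [← neg_div_neg_eq, neg_add, neg_add, neg_neg, neg_neg, sub_eq_add_neg, sub_eq_add_neg]
  conv_lhs => enter [2, 2, i]; rw [add_comm]; enter [1, 2, j]; rw [e3]
  simp only [e1, Finset.sum_add_distrib, e2, ← Finset.mul_sum]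
  ring

theorem s_cof (n : ℕ) : SCof n := by
  classical
  choose! γ hγ using fun a b : K n => dvd_Cof a b
  refine ⟨γ, fun a b h => (hγ a b h).symm, fun k => ?_⟩
  obtain ⟨f, hf⟩ : ∃ f : B n →+* FractionRing (B n), Function.Injective f :=
    ⟨algebraMap _ _, IsFractionRing.injective _ _⟩
  have h0 : f (del X) ≠ 0 := (map_ne_zero_iff f hf).2 ne_Cof
  have h1 : ∀ a b : K n, a ≠ b → f (lam a - lam b) ≠ 0 := fun a b h e =>
    h0 (by rw [hγ a b h, map_mul, e, zero_mul])
  have hl : ∀ (g : B n →+ FractionRing (B n)) a,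
      g (lam a) = Sum.elim (fun i => g (X i)) (fun i => -g (X i)) a := by
    rintro g (i | i) <;> simp [lam]
  have hs := sum_Cof (fun i => f (X i)) (fun i => f (pderiv k (X i)))
    (fun i => (map_ne_zero_iff f hf).2 (X_ne_zero i))
    (fun i j h => by simpa [lam] using h1 (.inl i) (.inl j) (by simpa using h))
    (fun i j => by simpa [lam] using h1 (.inl i) (.inr j) (by simp))
  have hd : f (pderiv k (del X)) / f (del X) = ∑ i, f (pderiv k (X i)) / f (X i) +
      ∑ i, ∑ j ∈ Finset.Ioi i, (2 * f (X j) * f (pderiv k (X j)) -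
        2 * f (X i) * f (pderiv k (X i))) / (f (X j) ^ 2 - f (X i) ^ 2) := by
    rw [del_eq_Cof] at h0 ⊢
    have h2 := h0
    rw [map_mul, mul_ne_zero_iff] at h2
    rw [← log_Cof f _ _ _ h2.1, Finset.sum_congr rfl fun i _ => ?_, ← log_Cof f _ _ _ h2.2]
    · simp only [Derivation.leibniz, smul_eq_mul, map_add, map_mul]
      have := h2.1
      have := h2.2
      field_simp
      ring
    · have h3 := h2.2
      rw [map_prod, Finset.prod_ne_zero_iff] at h3
      rw [log_Cof f _ _ _ (h3 i (Finset.mem_univ i))]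
      refine Finset.sum_congr rfl fun j _ => ?_
      simp only [map_sub, sq, Derivation.leibniz, smul_eq_mul, map_add, map_mul]
      ring
  apply hf
  rw [← hd] at hs
  rw [show (4 : ℂ) • pderiv k (del X : B n) = 4 * pderiv k (del X) by
    rw [Algebra.smul_def, map_ofNat], map_mul, map_ofNat, ← div_mul_cancel₀ (f (pderiv k _)) h0,
    ← mul_assoc, ← hs, map_sum, Finset.sum_mul]
  refine Finset.sum_congr rfl fun a _ => ?_
  rw [map_sum, Finset.sum_mul]
  refine Finset.sum_congr rfl fun b hb => ?_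
  have hb := (Finset.ne_of_mem_erase hb).symm
  have e1 := hl f.toAddMonoidHom
  have e2 := hl (f.toAddMonoidHom.comp (pderiv k).toLinearMap.toAddMonoidHom)
  simp only [RingHom.toAddMonoidHom_eq_coe, AddMonoidHom.coe_coe, AddMonoidHom.comp_apply,
    LinearMap.toAddMonoidHom_coe, Derivation.coeFn_coe] at e1 e2
  rw [← e1, ← e1, ← e2, ← e2, ← map_sub, ← map_sub, ← map_sub, hγ a b hb, map_mul f (lam a - lam b),
    mul_assoc, ← mul_assoc (_ / _), div_mul_cancel₀ _ (h1 a b hb), ← map_mul, mu]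
  split_ifs
  · rw [two_smul, two_mul, map_add]
  · rw [one_smul, one_mul]

end Pool.Agent.MP_12a176_ag.HC

end

section
set_option autoImplicit false

namespace Pool.Agent.MP_12a176_ag.HC

open Complex Matrix MvPolynomial
open scoped ComplexOrder ComplexConjugate

section
variable {n : ℕ}

/-- Monomials. -/
noncomputable def mon_Del (b : Fin n → ℕ) : B n := ∏ i, X i ^ b i

/-- Alternants. -/
noncomputable def al_Del (e : Fin n → ℕ) : B n := (Matrix.of fun i j : Fin n => (X i : B n) ^ e j).det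

theorem al_eq_Del (e : Fin n → ℕ) :
    al_Del e = ∑ σ : Equiv.Perm (Fin n), ((Equiv.Perm.sign σ : ℤ) : ℂ) • mon_Del (e ∘ σ) := by
  rw [al_Del, ← det_transpose, det_apply']
  refine Finset.sum_congr rfl fun σ _ => ?_
  rw [Int.cast_smul_eq_zsmul, zsmul_eq_mul]
  rfl

theorem mon_split_Del (b : Fin n → ℕ) (k : Fin n) (v : ℕ) : mon_Del (Function.update b k v) =
    X k ^ v * ∏ i ∈ Finset.univ.erase k, X i ^ b i := by
  rw [mon_Del, ← Finset.mul_prod_erase _ _ (Finset.mem_univ k), Function.update_self]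
  congr 1
  exact Finset.prod_congr rfl fun i hi => by
    rw [Function.update_of_ne (Finset.ne_of_mem_erase hi)]

theorem pd_mon_Del (b : Fin n → ℕ) (k : Fin n) :
    pderiv k (mon_Del b) = (b k : ℂ) • mon_Del (Function.update b k (b k - 1)) := by
  have h0 : pderiv k (∏ i ∈ Finset.univ.erase k, (X i : B n) ^ b i) = 0 := by
    refine Finset.prod_induction _ (fun p => pderiv k p = 0) (fun p q hp hq => ?_) ?_ fun i hi => ?_
    · rw [Derivation.leibniz, hp, hq, smul_zero, smul_zero, add_zero]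
    · exact Derivation.map_one_eq_zero _
    · rw [Derivation.leibniz_pow, pderiv_X_of_ne (Finset.ne_of_mem_erase hi), smul_zero, smul_zero]
  have h1 := mon_split_Del b k (b k)
  rw [Function.update_eq_self] at h1
  rw [h1, mon_split_Del, Derivation.leibniz, h0, smul_zero, zero_add, Derivation.leibniz_pow,
    pderiv_X_self, Nat.cast_smul_eq_nsmul]
  simp only [smul_eq_mul, nsmul_eq_mul]
  ring

theorem Dop_pow_Del (k : Fin n) (m : ℕ) (b : Fin n → ℕ) : Dop (X k ^ m) (mon_Del b) =
    ((b k).descFactorial m : ℂ) • mon_Del (Function.update b k (b k - m)) := by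
  induction m with
  | zero => simp
  | succ m ih =>
    rw [pow_succ', Dop_mul, ih, map_smul, Dop_X, pd_mon_Del, Function.update_idem,
      Function.update_self, smul_smul, Nat.descFactorial_succ, Nat.cast_mul, mul_comm, Nat.sub_sub]

theorem Dop_prod_Del (a b : Fin n → ℕ) (s : Finset (Fin n)) :
    Dop (∏ i ∈ s, X i ^ a i) (mon_Del b) = (∏ i ∈ s, ((b i).descFactorial (a i) : ℂ)) •
      mon_Del (fun i => if i ∈ s then b i - a i else b i) := by
  induction s using Finset.induction_on with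
  | empty => simp
  | insert k s hk ih =>
    rw [Finset.prod_insert hk, Finset.prod_insert hk, Dop_mul, ih, map_smul, Dop_pow_Del,
      smul_smul, if_neg hk, mul_comm]
    congr 2
    funext i
    by_cases e : i = k
    · subst e
      simp
    · simp [e]

theorem Dop_mon_Del (a b : Fin n → ℕ) : Dop (mon_Del a) (mon_Del b) =
    (∏ i, ((b i).descFactorial (a i) : ℂ)) • mon_Del (fun i => b i - a i) := by
  simpa [mon_Del] using Dop_prod_Del a b Finset.univ

theorem lap_Del (e : Fin n → ℕ) : ∑ k, pderiv k (pderiv k (al_Del e)) =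
    ∑ j, ((e j : ℂ) * (e j - 1 : ℕ)) • al_Del (Function.update e j (e j - 1 - 1)) := by
  simp only [al_eq_Del, map_sum, Derivation.map_smul, pd_mon_Del, Function.update_idem,
    Function.update_self, Finset.smul_sum]
  refine Finset.sum_comm.trans (Eq.trans ?_ Finset.sum_comm)
  refine Finset.sum_congr rfl fun σ _ => ?_
  refine Eq.trans ?_ (Equiv.sum_comp σ _)
  refine Finset.sum_congr rfl fun k _ => ?_
  rw [Function.update_comp_eq_of_injective _ σ.injective, smul_smul, smul_smul, smul_smul]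
  congr 1
  simp only [Function.comp_apply]
  ring

theorem odd_sum_Del (n : ℕ) : ∑ j : Fin n, (2 * j.1 + 1) = n ^ 2 := by
  rw [Fin.sum_univ_eq_sum_range (fun j => 2 * j + 1)]
  induction n with
  | zero => rfl
  | succ n ih => rw [Finset.sum_range_succ, ih]; ring

end

theorem s_del (n : ℕ) : SDel n := by
  have e0 : (del X : B n) = al_Del fun j => 2 * j.1 + 1 := rfl
  refine ⟨?_, ?_, fun s ε => ?_, ?_⟩
  · rw [e0, lap_Del]
    refine Finset.sum_eq_zero fun j _ => ?_
    rcases Nat.eq_zero_or_pos j.1 with h | h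
    · simp [h]
    · have hj : (⟨j.1 - 1, by omega⟩ : Fin n) ≠ j := fun k => by
        have := congrArg Fin.val k
        simp only at this
        omega
      rw [al_Del, det_zero_of_column_eq hj, smul_zero]
      intro i
      rw [of_apply, of_apply, Function.update_of_ne hj, Function.update_self]
      congr 1
      simp only
      omega
  · rw [e0, al_eq_Del]
    refine IsHomogeneous.sum _ _ _ fun σ _ => ?_
    rw [smul_eq_C_mul]
    refine IsHomogeneous.C_mul ?_ _
    have := IsHomogeneous.prod Finset.univ (fun i => (X i : B n) ^ (2 * (σ i).1 + 1))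
      (fun i => 2 * (σ i).1 + 1) fun i _ => isHomogeneous_X_pow i _
    rwa [Equiv.sum_comp σ (fun j => 2 * j.1 + 1), odd_sum_Del] at this
  · have h1 : (wa s ε).mapMatrix (Matrix.of fun i j : Fin n => (X i : B n) ^ (2 * j.1 + 1)) =
        Matrix.of fun i j => (((ε i : ℤ) : B n)) *
          (Matrix.of fun i j : Fin n => (X i : B n) ^ (2 * j.1 + 1)).submatrix s id i j := by
      ext1 i j
      simp only [AlgHom.mapMatrix_apply, map_apply, of_apply, submatrix_apply, id, map_pow, wa,
        aeval_X]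
      rcases Int.units_eq_one_or (ε i) with h | h
      · simp [h]
      · simp [h, (odd_two_mul_add_one j.1).neg_pow]
    rw [del, AlgHom.map_det, h1, det_mul_column, det_permute, sg, Int.cast_smul_eq_zsmul,
      zsmul_eq_mul, ← mul_assoc]
    congr 1
    push_cast
    ring
  · refine ⟨∑ σ : Equiv.Perm (Fin n), ∏ i, ((2 * (σ i).1 + 1).factorial : ℝ),
      Finset.sum_pos (fun σ _ => by positivity) Finset.univ_nonempty, ?_⟩
    rw [e0, al_eq_Del, map_sum Dop, LinearMap.sum_apply, ofReal_sum, map_sum C]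
    refine Finset.sum_congr rfl fun σ _ => ?_
    rw [map_smul, LinearMap.smul_apply, map_sum, Finset.sum_eq_single σ]
    · rw [map_smul, smul_smul, ← Int.cast_mul, ← Units.val_mul, Int.units_mul_self, Units.val_one,
        Int.cast_one, one_smul, Dop_mon_Del]
      simp only [Nat.descFactorial_self]
      simp [mon_Del, smul_eq_C_mul]
    · intro τ _ hτ
      rw [map_smul, Dop_mon_Del]
      obtain ⟨i, hi⟩ : ∃ i, τ i < σ i := by
        by_contra hn
        push Not at hn
        have h2 := (Finset.sum_eq_sum_iff_of_le (s := Finset.univ) (f := fun i => (σ i).1)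
          (g := fun i => (τ i).1) fun i _ => hn i).1
          ((Equiv.sum_comp σ fun j => j.1).trans (Equiv.sum_comp τ fun j => j.1).symm)
        exact hτ (Equiv.ext fun i => (Fin.ext (h2 i (Finset.mem_univ i))).symm)
      rw [Finset.prod_eq_zero (Finset.mem_univ i), zero_smul, smul_zero]
      rw [Nat.cast_eq_zero, Nat.descFactorial_eq_zero_iff_lt]
      have : (τ i).1 < (σ i).1 := hi
      simp only [Function.comp_apply]
      omega
    · exact fun h => absurd (Finset.mem_univ σ) h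

end Pool.Agent.MP_12a176_ag.HC

end

section
set_option autoImplicit false

namespace Pool.Agent.MP_12a176_ag.HC

open Complex Matrix MvPolynomial
open scoped ComplexOrder ComplexConjugate

variable {n : ℕ}

theorem lam_lin_Rad (a : K n) : ∃ c : Fin n → ℂ,
    (∀ k, pderiv k (lam a : B n) = C (c k)) ∧ (lam a : B n) = ∑ k, c k • X k := by
  rcases a with i | i
  · refine ⟨Pi.single i 1, fun k => ?_, ?_⟩
    · by_cases e : k = i
      · subst e; simp [lam]
      · simp [lam, pderiv_X, e, Ne.symm e]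
    · simp [lam, Pi.single_apply, ite_smul]
  · refine ⟨-Pi.single i 1, fun k => ?_, ?_⟩
    · by_cases e : k = i
      · subst e; simp [lam]
      · simp [lam, pderiv_X, e, Ne.symm e]
    · simp [lam, Pi.single_apply, ite_smul]

theorem root_mul_Rad (a b : K n) (g q : B n) : (lam a - lam b) * Dop g q =
    ∑ k, X k * Dop (pderiv k (lam a - lam b) * g) q := by
  obtain ⟨c, h1, h2⟩ := lam_lin_Rad a
  obtain ⟨d, h3, h4⟩ := lam_lin_Rad b
  have e : ∀ k, pderiv k (lam a - lam b : B n) = C (c k - d k) := fun k => by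
    rw [map_sub, h1, h3, C_sub]
  simp only [e, Dop_mul, Dop_C]
  rw [h2, h4, ← Finset.sum_sub_distrib, Finset.sum_mul]
  refine Finset.sum_congr rfl fun k _ => ?_
  rw [← sub_smul, smul_mul_assoc, mul_smul_comm]

theorem ps_mul_Rad (p q : B n) (h : ∑ k, pderiv k (pderiv k p) = 0) :
    Dop p (ps n 1 * q) = ps n 1 * Dop p q + (2 : ℂ) • ∑ k, X k * Dop (pderiv k p) q := by
  have e : ∀ k, Dop p (X k ^ (2 * 1) * q) = X k ^ (2 * 1) * Dop p q +
      (2 : ℂ) • (X k * Dop (pderiv k p) q) + Dop (pderiv k (pderiv k p)) q := fun k => by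
    rw [mul_one, sq, mul_assoc, Dop_mul_X, Dop_mul_X, Dop_mul_X, two_smul]; ring
  have h0 : ∑ k, Dop (pderiv k (pderiv k p)) q = 0 := by
    rw [← LinearMap.sum_apply, ← map_sum, h, map_zero, LinearMap.zero_apply]
  simp only [ps, Finset.sum_mul, map_sum, e, Finset.sum_add_distrib, h0, add_zero,
    Finset.smul_sum]

theorem supp_Rad {ν : A n →ₗ[ℂ] ℂ} (h : Adm ν) (k : Fin n) (P : A n) :
    ν ((X (Sum.inr k, Sum.inr k) + X (Sum.inl k, Sum.inl k)) * P) = 0 := by
  have := h.supp (Sum.inr k) (Sum.inl k) P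
  convert this using 3
  simp [Matrix.add_apply, Matrix.mul_apply, Matrix.J, Fintype.sum_sum_type, Matrix.one_apply]

theorem diag_Rad {ν : A n →ₗ[ℂ] ℂ} (h : Adm ν) (P : A n) :
    ∑ a : K n, ν (X (a, a) * X (a, a) * P) = -2 * ν (io (ps n 1) * P) := by
  simp only [Fintype.sum_sum_type, ps, map_sum, Finset.sum_mul, Finset.mul_sum,
    ← Finset.sum_add_distrib]
  refine Finset.sum_congr rfl fun k _ => ?_
  have h1 := supp_Rad h k ((X (Sum.inr k, Sum.inr k) + X (Sum.inl k, Sum.inl k)) * P)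
  have h2 : io (X k ^ (2 * 1) : B n) * P = (-1 / 4 : ℂ) •
      ((X (Sum.inl k, Sum.inl k) - X (Sum.inr k, Sum.inr k)) ^ 2 * P) := by
    rw [map_pow, io, aeval_X, mul_one, _root_.smul_pow, smul_mul_assoc]
    congr 1
    rw [div_pow, neg_sq, I_sq]; norm_num
  have h3 : (X (Sum.inl k, Sum.inl k) - X (Sum.inr k, Sum.inr k)) ^ 2 * P =
      (2 : ℂ) • (X (Sum.inl k, Sum.inl k) * X (Sum.inl k, Sum.inl k) * P) +
      (2 : ℂ) • (X (Sum.inr k, Sum.inr k) * X (Sum.inr k, Sum.inr k) * P) -
      (X (Sum.inr k, Sum.inr k) + X (Sum.inl k, Sum.inl k)) *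
        ((X (Sum.inr k, Sum.inr k) + X (Sum.inl k, Sum.inl k)) * P) := by
    simp only [two_smul]; ring
  rw [h2, h3, map_smul, map_sub, h1, map_add, map_smul, map_smul]
  simp only [smul_eq_mul]; ring

theorem s_rad {n : ℕ} (h1 : SRoot n) (h2 : SCof n) (h3 : SDel n) : SRad n := by
  intro ν hν
  obtain ⟨γ, hγ, hs⟩ := h2
  refine LinearMap.ext fun q => ?_
  change ν (QQ n * io (Dop (del X) q)) = (-2 : ℂ) * ν (io (Dop (del X) (ps n 1 * q)))
  have hQ : QQ n = ∑ a : K n, (X (a, a) * X (a, a) +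
      ∑ b ∈ Finset.univ.erase a, X (a, b) * X (b, a)) := by
    rw [QQ, Fintype.sum_prod_type]
    refine Finset.sum_congr rfl fun a _ => ?_
    rw [← Finset.add_sum_erase _ _ (Finset.mem_univ a)]; rfl
  have hoff : ∀ a, ∀ b ∈ Finset.univ.erase a, ν (X (a, b) * X (b, a) * io (Dop (del X) q)) =
      -∑ k, ν (io (X k * Dop (mu a b • (pderiv k (lam a - lam b) * γ a b)) q)) := by
    intro a b hb
    have hab : a ≠ b := (Finset.ne_of_mem_erase hb).symm
    rw [← hγ a b hab, Dop_mul, h1 ν hν a b hab, root_mul_Rad]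
    simp only [map_sum, map_smul, LinearMap.smul_apply, mul_smul_comm, smul_eq_mul, neg_mul,
      Finset.mul_sum, Finset.sum_neg_distrib]
  have hsum : ∑ a : K n, ∑ b ∈ Finset.univ.erase a,
      ν (X (a, b) * X (b, a) * io (Dop (del X) q)) =
      -4 * ∑ k, ν (io (X k * Dop (pderiv k (del X)) q)) := by
    rw [Finset.sum_congr rfl fun a _ => Finset.sum_congr rfl (hoff a)]
    simp only [Finset.sum_neg_distrib]
    rw [Finset.sum_congr rfl fun a _ => Finset.sum_comm, Finset.sum_comm, neg_mul, Finset.mul_sum]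
    congr 1
    refine Finset.sum_congr rfl fun k _ => ?_
    have := congrArg (fun p : B n => ν (io (X k * Dop p q))) (hs k)
    simp only [map_sum, LinearMap.sum_apply, Finset.mul_sum] at this
    rw [this]
    simp only [map_smul, LinearMap.smul_apply, mul_smul_comm, smul_eq_mul]
  rw [ps_mul_Rad _ _ h3.1, hQ]
  simp only [Finset.sum_mul, add_mul, map_sum, map_add, Finset.sum_add_distrib]
  rw [hsum, diag_Rad hν, map_mul io, map_smul, map_smul, map_sum, map_sum, smul_eq_mul]
  ring

end Pool.Agent.MP_12a176_ag.HC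

end

section
/- Radial parts of invariant operators and the formula of Harish-Chandra. -/

set_option autoImplicit false

namespace Pool.Agent.MP_12a176_ag.HC

open Complex Matrix MvPolynomial
open scoped ComplexOrder ComplexConjugate

variable {n : ℕ}

theorem homog_mul {ι σ : Type} [Fintype ι] {M N : Matrix ι ι (MvPolynomial σ ℂ)} {i j : ℕ}
    (h : ∀ a b, (M a b).IsHomogeneous i) (h' : ∀ a b, (N a b).IsHomogeneous j) (a b : ι) :
    ((M * N) a b).IsHomogeneous (i + j) :=
  IsHomogeneous.sum _ _ _ fun c _ => (h a c).mul (h' c b)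

theorem pw_homog (m : ℕ) : (pw n m).IsHomogeneous (2 * m) := by
  have hJ : ∀ a b, (JJ n (A n) a b).IsHomogeneous 0 := by
    rintro (a | a) (b | b) <;> simp only [Matrix.J, fromBlocks_apply₁₁, fromBlocks_apply₁₂,
      fromBlocks_apply₂₁, fromBlocks_apply₂₂, Matrix.zero_apply, Matrix.neg_apply, one_apply]
    · exact isHomogeneous_zero _ _ _
    · split_ifs
      exacts [(isHomogeneous_one _ _).neg, (isHomogeneous_zero _ _ _).neg]
    · split_ifs
      exacts [isHomogeneous_one _ _, isHomogeneous_zero _ _ _]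
    · exact isHomogeneous_zero _ _ _
  have h1 : ∀ a b, (pr (XX n) a b).IsHomogeneous 1 := fun a b => by
    rw [pr, Matrix.smul_apply, ← C_mul']
    exact ((isHomogeneous_X _ _).add (homog_mul (i := 1) (homog_mul (N := (XX n)ᵀ) hJ
      fun a b => isHomogeneous_X _ _) hJ a b)).C_mul _
  have h2 : ∀ k a b, ((pr (XX n) ^ k) a b).IsHomogeneous k := fun k => by
    induction k with
    | zero =>
      intro a b
      rw [pow_zero, one_apply]
      split_ifs
      exacts [isHomogeneous_one _ _, isHomogeneous_zero _ _ _]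
    | succ k ih => rw [pow_succ]; exact homog_mul ih h1
  exact IsHomogeneous.sum _ _ _ fun a _ => h2 _ a a

theorem s_int (h1 : SAd) (h2 : SAdm n) (h3 : SIo n) (h4 : SRad n) : SInt n := by
  intro ν hν m q
  have key : ∀ (j : ℕ) (ν : A n →ₗ[ℂ] ℂ), Adm ν → Adm (ν ∘ₗ (adM (QQ n))^[j] (Dop (pw n m))) ∧
      ∀ q, RR (ν ∘ₗ (adM (QQ n))^[j] (Dop (pw n m))) q =
        (-2) ^ j * (2 * (-1 / 4) ^ m) * RR ν ((adM (ps n 1))^[j] (Dop (ps n m)) q) := by
    intro j
    induction j with
    | zero =>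
      refine fun ν hν => ⟨(h2 ν hν).2 m, fun q => ?_⟩
      change ν (Dop (pw n m) (io (Dop (del X) q))) = _ * ν (io (Dop (del X) (Dop (ps n m) q)))
      rw [h3, map_smul, ← Dop_mul, mul_comm (ps n m), Dop_mul, pow_zero, one_mul, smul_eq_mul]
    | succ j ih =>
      intro ν hν
      obtain ⟨a1, a2⟩ := ih ν hν
      obtain ⟨b1, b2⟩ := ih _ (h2 ν hν).1
      have c1 := (h2 _ a1).1
      simp only [Function.iterate_succ_apply']
      generalize (adM (QQ n))^[j] (Dop (pw n m)) = S at *
      generalize (adM (ps n 1))^[j] (Dop (ps n m)) = T at *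
      refine ⟨⟨fun a b P => sub_eq_zero.2 ?_ |> (map_sub ν _ _).trans,
        fun Z hZ P => sub_eq_zero.2 ?_ |> (map_sub ν _ _).trans⟩, fun q => ?_⟩
      · exact (c1.supp a b P).trans (b1.supp a b P).symm
      · exact (c1.inv Z hZ P).trans (b1.inv Z hZ P).symm
      · have e1 := DFunLike.congr_fun (h4 _ a1) q
        have e2 := DFunLike.congr_fun (h4 _ hν) (T q)
        have e3 := a2 (Mul (ps n 1) q)
        have e4 := b2 q
        have e5 : RR (ν ∘ₗ adM (QQ n) S) q =
            RR ((ν ∘ₗ S) ∘ₗ Mul (QQ n)) q - RR ((ν ∘ₗ Mul (QQ n)) ∘ₗ S) q := map_sub ν _ _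
        have e6 : RR ν (adM (ps n 1) T q) =
            RR ν (T (Mul (ps n 1) q)) - RR ν (Mul (ps n 1) (T q)) := map_sub (RR ν) _ _
        simp only [LinearMap.smul_apply, LinearMap.comp_apply (RR _), smul_eq_mul] at e1 e2
        rw [e5, e6, e1, e3, e4, e2]
        ring
  have e := (key (2 * m) ν hν).2 q
  have e1 : QQ n = ∑ a, X a * X (Prod.swap a) := rfl
  have e2 : ps n 1 = ∑ a, X a * X (id a) := by simp only [ps, mul_one, sq, id]
  rw [e1, e2, h1 _ _ Prod.swap_swap _ _ (pw_homog m), h1 _ _ (fun _ => rfl) _ (ps n m)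
    (IsHomogeneous.sum _ _ _ fun a _ => isHomogeneous_X_pow _ _), rename_id] at e
  have e3 : (2 ^ (2 * m) * (2 * m).factorial : ℂ) ≠ 0 :=
    mul_ne_zero (pow_ne_zero _ two_ne_zero) (by exact_mod_cast Nat.factorial_ne_zero _)
  refine mul_left_cancel₀ e3 (Eq.trans (map_smul ν _ _).symm (e.trans ?_))
  have e4 : (-2 : ℂ) ^ (2 * m) * (-1 / 4) ^ m = (-1) ^ m := by
    rw [pow_mul, ← mul_pow]; norm_num
  rw [LinearMap.smul_apply, map_smul, smul_eq_mul, ← e4]
  change _ * (_ * RR ν (ps n m * q)) = _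
  ring

theorem ell_dg (y : Fin n → ℝ) : ell (dg y) = (-2 : ℂ) • io (∑ k, (y k : ℂ) • X k) := by
  simp only [ell, dg, Fintype.sum_prod_type, diagonal_apply, ite_smul, zero_smul,
    Finset.sum_ite_eq', Finset.mem_univ, if_true, Fintype.sum_sum_type, Sum.elim_inl, Sum.elim_inr,
    map_sum, map_smul, io, aeval_X, Finset.smul_sum, ← Finset.sum_add_distrib]
  refine Finset.sum_congr rfl fun k _ => ?_
  module

theorem s_hc (h1 : SEig n) (h2 : SWeyl n) (h3 : SSupp n) (h4 : SAlt n) (h5 : SLin n)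
    (h6 : SDel n) (h7 : SSing n) : SHC n := by
  obtain ⟨-, d1, d2, r, hr, d3⟩ := h6
  have w0 : 0 < Fintype.card (Equiv.Perm (Fin n)) * Fintype.card (Fin n → ℤˣ) :=
    Nat.mul_pos Fintype.card_pos Fintype.card_pos
  have f0 : 0 < (n ^ 2 + 2 * n).descFactorial (n ^ 2) :=
    Nat.descFactorial_pos.2 (Nat.le_add_right _ _)
  refine ⟨(n ^ 2 + 2 * n).descFactorial (n ^ 2) *
    (Fintype.card (Equiv.Perm (Fin n)) * Fintype.card (Fin n → ℤˣ) : ℕ) / (4 ^ n * r),
    by positivity, fun ξ E a1 a2 a3 y => ?_⟩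
  by_cases h0 : del ξ = 0
  · simp [h0, h7 ξ y h0]
  obtain ⟨c, hc⟩ := h4 _ (RR E) (fun s ε q => (h2 E a2 s ε q).2) (h3 ξ _ h0 (h1 ξ E a1 a2))
  have ed : ∀ z : Fin n → ℝ, eval (fun k => (z k : ℂ)) (del X) = (del z : ℝ) := fun z => by
    rw [del, del, RingHom.map_det, ← ofRealHom_eq_coe, RingHom.map_det]
    congr 1
    ext i j
    simp
  have e1 := hc (del X)
  have e2 := hc ((∑ k, (y k : ℂ) • X k) ^ (n ^ 2 + 2 * n))
  have s1 : ∀ s ε, (sg (n := n) s ε : ℂ) * (sg s ε : ℂ) = 1 := fun s ε => by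
    rw [sg, ← Int.cast_mul, ← Units.val_mul, Int.units_mul_self, Units.val_one, Int.cast_one]
  change E (io (Dop (del X) (del X))) = _ at e1
  change E (io (Dop (del X) _)) = _ at e2
  simp only [d2, smul_eval, ← mul_assoc, s1, one_mul, ed, Finset.sum_const, Finset.card_univ,
    nsmul_eq_mul, d3] at e1
  rw [← algebraMap_eq, AlgHom.commutes, Algebra.algebraMap_eq_smul_one, map_smul, a3, smul_eq_mul,
    mul_one] at e1
  have e3 : (alt ξ y : ℂ) = ∑ s, ∑ ε, (sg s ε : ℂ) * eval (fun k => (ξ k : ℂ))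
      (wa s ε ((∑ k, (y k : ℂ) • X k) ^ (n ^ 2 + 2 * n))) := by
    simp only [alt, ofReal_sum, ofReal_mul, ofReal_pow, ofReal_intCast, map_pow, map_sum, map_smul,
      wa, aeval_X, smul_eval, eval_X, mul_comm (y _ : ℂ)]
  rw [h5 _ _ _ _ d1, map_smul, map_smul, ed, ← e3, smul_eq_mul] at e2
  have r0 : (r : ℂ) ≠ 0 := by exact_mod_cast hr.ne'
  rw [ell_dg, smul_pow, map_smul, ← map_pow, smul_eq_mul, pow_mul (-2 : ℂ)]
  push_cast
  norm_num only
  field_simp
  linear_combination (Fintype.card (Equiv.Perm (Fin n)) * Fintype.card (Fin n → ℤˣ) * del ξ : ℂ) *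
    e2 - (alt ξ y : ℂ) * e1

end Pool.Agent.MP_12a176_ag.HC

end

section
set_option autoImplicit false

namespace Pool.Agent.MP_12a176_ag.HC

open Complex Matrix MvPolynomial
open scoped ComplexOrder ComplexConjugate

variable {n : ℕ}

theorem orb_Eig (ξ : Fin n → ℝ) {U : Matrix (K n) (K n) ℂ} (h : Grp U) :
    IsSp (U * dg ξ * Uᴴ) := by
  have h1 : dg ξ * JJ n ℂ + JJ n ℂ * (dg ξ)ᵀ = 0 := by
    rw [dg, diagonal_transpose]
    ext (i | i) (j | j) <;> by_cases hij : i = j <;>
      simp [Matrix.J, Matrix.diagonal_mul, Matrix.mul_diagonal, hij]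
  have h2 : Uᵀ * Uᴴᵀ = 1 := by rw [← transpose_mul, h.1, transpose_one]
  have h3 : Uᴴ * JJ n ℂ = JJ n ℂ * Uᵀ := by
    calc Uᴴ * JJ n ℂ = Uᴴ * (U * JJ n ℂ * Uᵀ) := by rw [h.2]
      _ = (Uᴴ * U) * JJ n ℂ * Uᵀ := by simp only [Matrix.mul_assoc]
      _ = _ := by rw [h.1, Matrix.one_mul]
  have h4 : JJ n ℂ * Uᴴᵀ = U * JJ n ℂ := by
    calc JJ n ℂ * Uᴴᵀ = (U * JJ n ℂ * Uᵀ) * Uᴴᵀ := by rw [h.2]
      _ = U * JJ n ℂ * (Uᵀ * Uᴴᵀ) := by simp only [Matrix.mul_assoc]
      _ = _ := by rw [h2, Matrix.mul_one]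
  calc U * dg ξ * Uᴴ * JJ n ℂ + JJ n ℂ * (U * dg ξ * Uᴴ)ᵀ
      = U * dg ξ * (Uᴴ * JJ n ℂ) + (JJ n ℂ * Uᴴᵀ) * (dg ξ)ᵀ * Uᵀ := by
        simp only [transpose_mul, Matrix.mul_assoc]
    _ = U * (dg ξ * JJ n ℂ + JJ n ℂ * (dg ξ)ᵀ) * Uᵀ := by
        rw [h3, h4]
        simp only [Matrix.mul_add, Matrix.add_mul, Matrix.mul_assoc]
    _ = 0 := by rw [h1, Matrix.mul_zero, Matrix.zero_mul]

theorem XX_Eig (Z : Matrix (K n) (K n) ℂ) : (XX n).map (av Z) = Z := by
  ext a b
  exact av_X Z (a, b)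

theorem pr_map_Eig (Z : Matrix (K n) (K n) ℂ) : (pr (XX n)).map (av Z) = pr Z := by
  rw [pr, pr, Matrix.map_smul _ _ (map_smul _ _), Matrix.map_add _ (map_add _),
    Matrix.map_mul, Matrix.map_mul, transpose_map, map_J, XX_Eig]

theorem pr_tr_Eig {Z : Matrix (K n) (K n) ℂ} (hZ : IsSp Z) : pr Zᵀ = Zᵀ := by
  rw [pr, transpose_transpose, Matrix.mul_assoc, eq_neg_of_add_eq_zero_left hZ, Matrix.mul_neg,
    ← Matrix.mul_assoc, J_squared, Matrix.neg_mul, Matrix.one_mul, neg_neg, ← two_smul ℂ, smul_smul]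
  norm_num

theorem tr_conj_Eig {U : Matrix (K n) (K n) ℂ} (h : Uᴴ * U = 1) (Y : Matrix (K n) (K n) ℂ)
    (k : ℕ) : ((U * Y * Uᴴ) ^ k).trace = (Y ^ k).trace := by
  have : (U * Y * Uᴴ) ^ k = U * Y ^ k * Uᴴ := by
    induction k with
    | zero => simp [mul_eq_one_comm.1 h]
    | succ k ih =>
      rw [pow_succ, ih, pow_succ Y k]
      simp only [Matrix.mul_assoc]
      rw [← Matrix.mul_assoc Uᴴ, h, Matrix.one_mul]
  rw [this, trace_mul_comm, ← Matrix.mul_assoc, h, Matrix.one_mul]

theorem tr_dg_Eig (y : Fin n → ℝ) (k : ℕ) :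
    (dg y ^ (2 * k)).trace = 2 * (-1) ^ k * ∑ i, (y i : ℂ) ^ (2 * k) := by
  rw [dg, diagonal_pow, trace_diagonal, Fintype.sum_sum_type]
  simp only [Pi.pow_apply, Sum.elim_inl, Sum.elim_inr, pow_mul, neg_sq, mul_pow, I_sq,
    ← Finset.mul_sum]
  ring

theorem av_pw_Eig (ξ : Fin n → ℝ) {U : Matrix (K n) (K n) ℂ} (h : Grp U) (m : ℕ) :
    av (U * dg ξ * Uᴴ) (rename Prod.swap (pw n m)) = 2 * (-1) ^ m * ∑ i, (ξ i : ℂ) ^ (2 * m) := by
  have e1 : av (U * dg ξ * Uᴴ) (rename Prod.swap (pw n m)) = av (U * dg ξ * Uᴴ)ᵀ (pw n m) :=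
    aeval_rename _ _ _
  have e2 : ∀ Z : Matrix (K n) (K n) ℂ, av Z (pw n m) = (pr Z ^ (2 * m)).trace := fun Z => by
    rw [pw, AddMonoidHom.map_trace (av Z), ← pr_map_Eig Z]
    congr 1
    exact map_pow (av Z).mapMatrix _ _
  rw [e1, e2, pr_tr_Eig (orb_Eig ξ h), ← transpose_pow, trace_transpose, tr_conj_Eig h.1,
    tr_dg_Eig]

theorem s_eig {n : ℕ} (h1 : SInf n) (h2 : SInt n) : SEig n := by
  intro ξ E hp hg m q
  have hA : Adm E := by
    refine ⟨fun a b P => hp.eq_zero fun U hU => ?_, h1 E hg⟩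
    have e : av (U * dg ξ * Uᴴ) ((XX n * JJ n (A n) + JJ n (A n) * (XX n)ᵀ) a b) =
        ((XX n * JJ n (A n) + JJ n (A n) * (XX n)ᵀ).map (av (U * dg ξ * Uᴴ))) a b := rfl
    rw [map_mul, e, Matrix.map_add _ (map_add _), Matrix.map_mul, Matrix.map_mul, transpose_map,
      map_J, XX_Eig, orb_Eig ξ hU, Matrix.zero_apply, zero_mul]
  have e1 : ∀ P, E (rename Prod.swap (pw n m) * P) =
      (2 * (-1) ^ m * ∑ i, (ξ i : ℂ) ^ (2 * m)) * E P := fun P => by
    rw [← smul_eq_mul _ (E P), ← map_smul, ← sub_eq_zero, ← map_sub]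
    refine hp.eq_zero fun U hU => ?_
    rw [map_sub, map_mul, map_smul, av_pw_Eig ξ hU, smul_eq_mul, sub_self]
  have e2 := h2 E hA m q
  have e3 : RR (E ∘ₗ Mul (rename Prod.swap (pw n m))) q =
      E (rename Prod.swap (pw n m) * io (Dop (del X) q)) := rfl
  have e4 : E (io (Dop (del X) q)) = RR E q := rfl
  rw [e3, e1, e4, mul_assoc] at e2
  exact (mul_left_cancel₀ (mul_ne_zero two_ne_zero (pow_ne_zero _ (by norm_num))) e2).symm

end Pool.Agent.MP_12a176_ag.HC

end

section
set_option autoImplicit false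

namespace Pool.Agent.MP_12a176_ag.HC

open Complex Matrix MvPolynomial
open scoped ComplexOrder ComplexConjugate

theorem mono_Weyl {R ι : Type} [CommRing R] [Fintype ι] [DecidableEq ι] (π : ι → ι)
    (e f : ι → R) (U V M : Matrix ι ι R) (hU : ∀ c d, U c d = if d = π c then e c else 0)
    (hV : ∀ c d, V c d = if c = π d then f d else 0) (c d : ι) :
    (U * M * V) c d = e c * M (π c) (π d) * f d := by
  simp [Matrix.mul_apply, hU, hV]

/-- the signed permutation on the index set -/
def pi_Weyl {n : ℕ} (s : Equiv.Perm (Fin n)) (ε : Fin n → ℤˣ) : K n → K n :=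
  Sum.elim (fun k => if ε k = 1 then Sum.inl (s k) else Sum.inr (s k))
    (fun k => if ε k = 1 then Sum.inr (s k) else Sum.inl (s k))

/-- the signs -/
def e_Weyl {n : ℕ} (ε : Fin n → ℤˣ) : K n → ℂ :=
  Sum.elim (fun k => if ε k = 1 then 1 else -1) (fun _ => 1)

theorem e_sq_Weyl {n : ℕ} (ε : Fin n → ℤˣ) (c : K n) : e_Weyl ε c * e_Weyl ε c = 1 := by
  rcases c with k | k
  · by_cases h : ε k = 1 <;> simp [e_Weyl, h]
  · simp [e_Weyl]

theorem e_star_Weyl {n : ℕ} (ε : Fin n → ℤˣ) (c : K n) : star (e_Weyl ε c) = e_Weyl ε c := by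
  rcases c with k | k
  · by_cases h : ε k = 1 <;> simp [e_Weyl, h]
  · simp [e_Weyl]

theorem pi_inj_Weyl {n : ℕ} (s : Equiv.Perm (Fin n)) (ε : Fin n → ℤˣ) :
    Function.Injective (pi_Weyl s ε) := by
  rintro (k | k) (l | l) h <;> by_cases h1 : ε k = 1 <;> by_cases h2 : ε l = 1 <;>
    simp [pi_Weyl, h1, h2] at h ⊢ <;> first | exact h | (subst h; contradiction)

theorem exists_U_Weyl {n : ℕ} (s : Equiv.Perm (Fin n)) (ε : Fin n → ℤˣ) :
    ∃ U : Matrix (K n) (K n) ℂ, Grp U ∧ ∀ c,
      (U.map C * XX n * Uᴴ.map C : Matrix (K n) (K n) (A n)) c c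
        = X (pi_Weyl s ε c, pi_Weyl s ε c) := by
  let U : Matrix (K n) (K n) ℂ := Matrix.of fun c d => if d = pi_Weyl s ε c then e_Weyl ε c else 0
  have hU : ∀ c d, U c d = if d = pi_Weyl s ε c then e_Weyl ε c else 0 := fun _ _ => rfl
  have hT : ∀ c d, Uᵀ c d = if c = pi_Weyl s ε d then e_Weyl ε d else 0 := fun _ _ => rfl
  have hH : ∀ c d, Uᴴ c d = if c = pi_Weyl s ε d then e_Weyl ε d else 0 := by
    intro c d
    rw [conjTranspose_apply, hU]
    split_ifs
    · exact e_star_Weyl ε d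
    · exact star_zero _
  refine ⟨U, ⟨?_, ?_⟩, fun c => ?_⟩
  · rw [mul_eq_one_comm]
    suffices h : U * 1 * Uᴴ = 1 by rwa [Matrix.mul_one] at h
    ext c d
    rw [mono_Weyl _ _ _ _ _ _ hU hH, Matrix.one_apply, Matrix.one_apply]
    simp only [(pi_inj_Weyl s ε).eq_iff]
    split_ifs with h
    · rw [h, mul_one, e_sq_Weyl]
    · simp
  · ext c d
    rw [mono_Weyl _ _ _ _ _ _ hU hT]
    rcases c with k | k <;> rcases d with l | l <;> by_cases h1 : ε k = 1 <;>
      by_cases h2 : ε l = 1 <;>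
      simp [pi_Weyl, e_Weyl, h1, h2, Matrix.J, Matrix.one_apply] <;>
      first | (rintro rfl; contradiction) | (split_ifs <;> simp)
  · rw [mono_Weyl (pi_Weyl s ε) (fun c => C (e_Weyl ε c)) (fun c => C (e_Weyl ε c))]
    · rw [mul_right_comm, ← map_mul, e_sq_Weyl, map_one, one_mul]
      rfl
    · intro c d
      rw [map_apply, hU]
      split_ifs <;> simp
    · intro c d
      rw [map_apply, hH]
      split_ifs <;> simp

theorem wa_X_Weyl {n : ℕ} (s : Equiv.Perm (Fin n)) (ε : Fin n → ℤˣ) (k : Fin n) :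
    wa s ε (X k) = ((ε k : ℤ) : ℂ) • X (s k) := aeval_X _ _

theorem first_Weyl {n : ℕ} (E : A n →ₗ[ℂ] ℂ) (hE : GInv E) (s : Equiv.Perm (Fin n))
    (ε : Fin n → ℤˣ) (q : B n) : E (io (wa s ε q)) = E (io q) := by
  obtain ⟨U, hU, hc⟩ := exists_U_Weyl s ε
  rw [← hE U hU (io q)]
  congr 1
  have : io.comp (wa s ε) = (av (U.map C * XX n * Uᴴ.map C)).comp io := by
    refine algHom_ext fun k => ?_
    have hio : ∀ k : Fin n, io (X k : B n)
        = (-I / 2) • (X (Sum.inl k, Sum.inl k) - X (Sum.inr k, Sum.inr k)) :=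
      fun k => aeval_X _ _
    rw [AlgHom.comp_apply, AlgHom.comp_apply, wa_X_Weyl, map_smul, hio, hio, map_smul, map_sub,
      av_X, av_X, hc, hc]
    rcases Int.units_eq_one_or (ε k) with h | h
    · simp [pi_Weyl, h]
    · have h' : ε k ≠ 1 := by rw [h]; decide
      simp only [pi_Weyl, Sum.elim_inl, Sum.elim_inr, if_neg h']
      rw [h, smul_comm]
      simp
  exact DFunLike.congr_fun this q

theorem eps_sq_Weyl (u : ℤˣ) : ((u : ℤ) : ℂ) * ((u : ℤ) : ℂ) = 1 := by
  rw [← Int.cast_mul, ← Units.val_mul, Int.units_mul_self, Units.val_one, Int.cast_one]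

theorem pderiv_wa_Weyl {n : ℕ} (s : Equiv.Perm (Fin n)) (ε : Fin n → ℤˣ) (k : Fin n) (q : B n) :
    pderiv (s k) (wa s ε q) = ((ε k : ℤ) : ℂ) • wa s ε (pderiv k q) := by
  induction q using MvPolynomial.induction_on with
  | C a => simp
  | add p q h h' => simp only [map_add, h, h', smul_add]
  | mul_X p l h =>
    simp only [map_mul, wa_X_Weyl, Derivation.leibniz, smul_eq_mul, map_add, h, pderiv_X,
      Pi.single_apply, Derivation.map_smul, s.injective.eq_iff]
    by_cases e : l = k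
    · subst e
      simp
    · simp [e]

theorem Dop_wa_Weyl {n : ℕ} (s : Equiv.Perm (Fin n)) (ε : Fin n → ℤˣ) (p q : B n) :
    Dop (wa s ε p) (wa s ε q) = wa s ε (Dop p q) := by
  induction p using MvPolynomial.induction_on generalizing q with
  | C a => rw [algHom_C, algebraMap_eq, Dop_C, Dop_C, map_smul]
  | add p p' h h' => simp only [map_add, LinearMap.add_apply, h, h']
  | mul_X p k h =>
    rw [map_mul, Dop_mul, Dop_mul, wa_X_Weyl, map_smul, LinearMap.smul_apply, Dop_X, Dop_X,
      pderiv_wa_Weyl, smul_smul, eps_sq_Weyl, one_smul, h]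

theorem s_weyl {n : ℕ} (h : SDel n) : SWeyl n := by
  intro E hE s ε q
  refine ⟨first_Weyl E hE s ε q, ?_⟩
  have h1 := Dop_wa_Weyl s ε (del X) q
  rw [h.2.2.1 s ε, map_smul, LinearMap.smul_apply] at h1
  have h2 : (sg s ε : ℂ) * (sg s ε : ℂ) = 1 := eps_sq_Weyl _
  have h3 : Dop (del X : B n) (wa s ε q) = (sg s ε : ℂ) • wa s ε (Dop (del X) q) := by
    rw [← h1, smul_smul, h2, one_smul]
  change E (io (Dop (del X) (wa s ε q))) = _ * E (io (Dop (del X) q))
  rw [h3, map_smul, map_smul, first_Weyl E hE, smul_eq_mul]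

end Pool.Agent.MP_12a176_ag.HC

end

section
/- Joint eigenfunctionals of the even power sums live on one Weyl orbit. -/

set_option autoImplicit false

namespace Pool.Agent.MP_12a176_ag.HC

open Complex Matrix MvPolynomial
open scoped ComplexOrder ComplexConjugate

theorem newton_Supp {R : Type} [CommRing R] [Algebra ℂ R] {n : ℕ} (u w : Fin n → R)
    (h : ∀ m, ∑ k, u k ^ m = ∑ k, w k ^ m) (x : R) : ∏ j, (x - u j) = ∏ j, (x - w j) := by
  have he : ∀ k, aeval u (esymm (Fin n) ℂ k) = aeval w (esymm (Fin n) ℂ k) := by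
    intro k
    induction k using Nat.strong_induction_on with
    | _ k ih =>
      rcases Nat.eq_zero_or_pos k with rfl | hk
      · simp
      have h2 : aeval u ((k : B n) * esymm _ ℂ k) = aeval w ((k : B n) * esymm _ ℂ k) := by
        rw [mul_esymm_eq_sum (Fin n) ℂ k]
        simp only [map_mul, map_sum, map_pow, map_neg, map_one]
        congr 1
        refine Finset.sum_congr rfl fun a ha => ?_
        rw [ih a.1 (Finset.mem_filter.1 ha).2]
        simp only [psum, map_sum, map_pow, aeval_X, h]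
      simp only [map_mul, map_natCast] at h2
      have hu : IsUnit (k : R) := by
        rw [← map_natCast (algebraMap ℂ R)]
        exact (IsUnit.mk0 _ (Nat.cast_ne_zero.2 hk.ne')).map _
      exact hu.mul_left_cancel h2
  have hp : ((Finset.univ.val.map u).map fun t => Polynomial.X - Polynomial.C t).prod =
      ((Finset.univ.val.map w).map fun t => Polynomial.X - Polynomial.C t).prod := by
    rw [Multiset.prod_X_sub_X_eq_sum_esymm, Multiset.prod_X_sub_X_eq_sum_esymm]
    simp only [Multiset.card_map, ← aeval_esymm_eq_multiset_esymm (Fin n) ℂ, he]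
  have := congrArg (Polynomial.eval x) hp
  simpa only [Polynomial.eval_multiset_prod, Finset.prod_eq_multiset_prod, Function.comp_def,
    Multiset.map_map, Polynomial.eval_sub, Polynomial.eval_X, Polynomial.eval_C] using this

theorem del_ne_Supp {n : ℕ} {ξ : Fin n → ℝ} (h : del ξ ≠ 0) :
    (∀ i, (ξ i : ℂ) ≠ 0) ∧ Function.Injective fun i => (ξ i : ℂ) ^ 2 := by
  have e : del ξ = (∏ i, ξ i) * (vandermonde fun i => ξ i ^ 2).det := by
    rw [← det_mul_column, del]
    congr 1
    ext i j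
    simp only [of_apply, vandermonde_apply]
    ring
  rw [e] at h
  refine ⟨fun i => ofReal_ne_zero.2 (Finset.prod_ne_zero_iff.1 (left_ne_zero_of_mul h) i
    (Finset.mem_univ i)), fun i j hij => ?_⟩
  refine det_vandermonde_ne_zero_iff.1 (right_ne_zero_of_mul h) ?_
  have h2 : (ξ i : ℂ) ^ 2 = (ξ j : ℂ) ^ 2 := hij
  exact_mod_cast h2

/-- The annihilator of a functional. -/
def ann_Supp {n : ℕ} (Λ : B n →ₗ[ℂ] ℂ) : Ideal (B n) where
  carrier := {r | ∀ q, Λ (r * q) = 0}
  add_mem' := fun {a b} ha hb q => by rw [add_mul, map_add, ha q, hb q, add_zero]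
  zero_mem' := fun q => by rw [zero_mul, map_zero]
  smul_mem' := fun c r hr q => by rw [smul_eq_mul, mul_comm c, mul_assoc, hr]

theorem split_Supp {n : ℕ} {ι : Type} [Fintype ι] [DecidableEq ι] (hι : Fin n → ι) (v : ι → ℂ)
    (hv : Function.Injective v) (Λ : B n →ₗ[ℂ] ℂ)
    (h : ∀ i, ∏ a, (X i - C (v a)) ∈ ann_Supp Λ) :
    ∃ b : (Fin n → ι) → B n, ∑ t, b t = 1 ∧
      ∀ t q, Λ (q * b t) = eval (fun k => v (t k)) q * Λ (b t) := by
  let β : Fin n → ι → B n := fun i a => Polynomial.aeval (X i) (Lagrange.basis Finset.univ v a)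
  refine ⟨fun t => ∏ i, β i (t i), ?_, fun t q => ?_⟩
  · rw [← Fintype.piFinset_univ, ← Finset.prod_univ_sum]
    refine Finset.prod_eq_one fun i _ => ?_
    simp only [β]
    rw [← map_sum, Lagrange.sum_basis hv.injOn ⟨hι i, Finset.mem_univ _⟩, map_one]
  · have h1 : ∀ i, (X i - C (v (t i))) * ∏ j, β j (t j) ∈ ann_Supp Λ := by
      intro i
      rw [← Finset.mul_prod_erase _ _ (Finset.mem_univ i), ← mul_assoc]
      refine Ideal.mul_mem_right _ _ ?_
      have e : (X i - C (v (t i))) * β i (t i) =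
          C (∏ a ∈ Finset.univ.erase (t i), (v (t i) - v a)⁻¹) * ∏ a, (X i - C (v a)) := by
        rw [← Finset.mul_prod_erase _ _ (Finset.mem_univ (t i))]
        simp only [β, Lagrange.basis, Lagrange.basisDivisor, map_prod, map_mul, map_sub,
          Polynomial.aeval_C, Polynomial.aeval_X, algebraMap_eq, Finset.prod_mul_distrib]
        ring
      rw [e]
      exact Ideal.mul_mem_left _ _ (h i)
    have h2 : (q - C (eval (fun k => v (t k)) q)) * ∏ j, β j (t j) ∈ ann_Supp Λ := by
      induction q using MvPolynomial.induction_on with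
      | C a => rw [eval_C, sub_self, zero_mul]; exact zero_mem _
      | add p q hp hq =>
        have := add_mem hp hq
        rw [map_add, map_add]
        rwa [← add_mul, ← add_sub_add_comm] at this
      | mul_X p i hp =>
        have := add_mem (Ideal.mul_mem_left _ p (h1 i)) (Ideal.mul_mem_left _ (C (v (t i))) hp)
        rw [map_mul, eval_X, map_mul]
        refine (congrArg (· ∈ ann_Supp Λ) ?_).mp this
        ring
    have h3 := h2 1
    rwa [mul_one, sub_mul, map_sub, sub_eq_zero, C_mul', map_smul, smul_eq_mul] at h3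

theorem s_supp (n : ℕ) : SSupp n := by
  classical
  intro ξ Λ hξ hΛ
  obtain ⟨h0, hinj⟩ := del_ne_Supp hξ
  let z : Fin n → ℂ := fun k => ξ k
  let σ : K n → Fin n := Sum.elim id id
  let e : K n → ℤˣ := Sum.elim (fun _ => 1) fun _ => -1
  let v : K n → ℂ := fun a => ((e a : ℤ) : ℂ) * z (σ a)
  have vl : ∀ k, v (Sum.inl k) = z k := fun k => by simp [v, e, σ]
  have vr : ∀ k, v (Sum.inr k) = -z k := fun k => by simp [v, e, σ]
  have v2 : ∀ a, v a ^ 2 = z (σ a) ^ 2 := by
    rintro (k | k)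
    · rw [vl]; rfl
    · rw [vr, neg_sq]; rfl
  have hv : Function.Injective v := by
    intro a b hab
    have h1 : σ a = σ b := hinj (by simp only; rw [← v2, ← v2, hab])
    rcases a with a | a <;> rcases b with b | b <;> obtain rfl : a = b := h1
    · rfl
    · rw [vl, vr] at hab
      exact absurd (self_eq_neg.1 hab) (h0 a)
    · rw [vl, vr] at hab
      exact absurd (neg_eq_self.1 hab) (h0 a)
    · rfl
  have hF : ∀ i, ∏ a, (X i - C (v a)) ∈ ann_Supp Λ := by
    intro i
    let π := Ideal.Quotient.mk (ann_Supp Λ)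
    have h1 := newton_Supp (fun k => π (X k ^ 2)) (fun k => π (C (z k ^ 2))) (fun m => by
      simp only [← map_pow, ← map_sum]
      refine Ideal.Quotient.eq.2 fun q => ?_
      simp only [← pow_mul]
      rw [sub_mul, map_sub, C_mul', map_smul, smul_eq_mul]
      exact sub_eq_zero.2 (hΛ m q)) (π (X i ^ 2))
    rw [Finset.prod_eq_zero (Finset.mem_univ i) (sub_self _)] at h1
    simp only [← map_sub, ← map_prod] at h1
    refine (congrArg (· ∈ ann_Supp Λ) ?_).mp (Ideal.Quotient.eq_zero_iff_mem.1 h1.symm)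
    rw [Fintype.prod_sum_type, ← Finset.prod_mul_distrib]
    refine Finset.prod_congr rfl fun j _ => ?_
    rw [vl, vr, map_neg, map_pow]
    ring
  obtain ⟨b, hb1, hb⟩ := split_Supp Sum.inl v hv Λ hF
  have hW : ∀ t, ∃ w : Equiv.Perm (Fin n) × (Fin n → ℤˣ), ∀ q,
      Λ (q * b t) = Λ (b t) * eval z (wa w.1 w.2 q) := by
    intro t
    by_cases ht : Λ (b t) = 0
    · exact ⟨(1, 1), fun q => by rw [hb, ht, mul_zero, zero_mul]⟩
    have h1 : ∀ m, ∑ k, (z (σ (t k)) ^ 2) ^ m = ∑ k, (z k ^ 2) ^ m := by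
      intro m
      have h2 := mul_right_cancel₀ ht ((hb t (ps n m)).symm.trans (hΛ m (b t)))
      simpa only [ps, map_sum, map_pow, eval_X, pow_mul, v2] using h2
    have hs : Function.Surjective fun k => σ (t k) := by
      intro j
      obtain ⟨k, -, hk⟩ := Finset.prod_eq_zero_iff.1 ((newton_Supp _ _ h1 (z j ^ 2)).trans
        (Finset.prod_eq_zero (Finset.mem_univ j) (sub_self _)))
      exact ⟨k, (hinj (sub_eq_zero.1 hk)).symm⟩
    refine ⟨(Equiv.ofBijective _ (Finite.surjective_iff_bijective.1 hs), fun k => e (t k)),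
      fun q => ?_⟩
    rw [hb, mul_comm]
    congr 1
    induction q using MvPolynomial.induction_on with
    | C a => simp [wa]
    | add p q hp hq => simp only [map_add, hp, hq]
    | mul_X p i hp =>
      simp only [map_mul, hp]
      simp [wa, v]
  choose W hW using hW
  refine ⟨fun w => ∑ t, if W t = w then Λ (b t) else 0, fun q => ?_⟩
  simp only [Finset.sum_mul, ite_mul, zero_mul]
  rw [Finset.sum_comm]
  simp only [Finset.sum_ite_eq, Finset.mem_univ, if_true]
  rw [← mul_one q, ← hb1, Finset.mul_sum, map_sum]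
  refine Finset.sum_congr rfl fun t _ => ?_
  rw [← Finset.mul_sum, hb1, mul_one]
  exact hW t q

end Pool.Agent.MP_12a176_ag.HC

end
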