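import Pool.Agent.MP_12a176_ag.HC.St

/- The pointwise inequality and its integration. -/

set_option autoImplicit false

namespace Pool.Agent.MP_12a176_ag.HC

open Complex Matrix MvPolynomial
open scoped ComplexOrder ComplexConjugate
open scoped Manifold ContDiff
open MeasureTheory

theorem sp_PG {n : ℕ} {R : Type} [CommRing R] [Algebra ℂ R] (x : Fin (2 * n) → Fin (2 * n) → R)
    (A : Fin (2 * n) → Fin (2 * n) → Matrix (Fin (2 * n)) (Fin (2 * n)) ℂ)
    (h : ∀ k l, IsSp ((A k l).submatrix (eK n) (eK n))) :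
    IsSp ((mform x A).submatrix (eK n) (eK n)) := by
  have hJ : JJ n R = (JJ n ℂ).map (algebraMap ℂ R) := (Matrix.map_J _ _).symm
  unfold IsSp
  rw [hJ]
  ext a b
  simp only [mform, Matrix.add_apply, Matrix.mul_apply, of_apply, map_apply, submatrix_apply,
    transpose_apply, mul_comm _ (algebraMap ℂ R _), ← Algebra.smul_def, ← map_smul, ← map_sum,
    ← map_add, Matrix.zero_apply]
  rw [← map_zero (formL x)]
  congr 1
  ext k l
  have := congrFun (congrFun (h k l) a) b
  simp only [Matrix.add_apply, Matrix.mul_apply, submatrix_apply, transpose_apply,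
    Matrix.zero_apply] at this
  simpa only [Matrix.add_apply, Matrix.sum_apply, Matrix.smul_apply, of_apply, smul_eq_mul,
    Matrix.zero_apply, mul_comm] using this

theorem tr_PG {n : ℕ} {R : Type} [CommRing R] [Algebra ℂ R] (x : Fin (2 * n) → Fin (2 * n) → R)
    (A : Fin (2 * n) → Fin (2 * n) → Matrix (Fin (2 * n)) (Fin (2 * n)) ℂ)
    (η : Matrix (K n) (K n) ℂ) :
    (η.map (algebraMap ℂ R) * (mform x A).submatrix (eK n) (eK n)).trace =
      form x (Matrix.of fun k l => (η.submatrix (eK n).symm (eK n).symm * A k l).trace) := by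
  change _ = formL x _
  simp only [mform, Matrix.trace, Matrix.diag, Matrix.mul_apply, of_apply, map_apply,
    submatrix_apply, ← Algebra.smul_def, ← map_smul, ← map_sum]
  refine congrArg _ ?_
  ext k l
  simp only [Matrix.sum_apply, Matrix.smul_apply, of_apply, smul_eq_mul]
  refine Fintype.sum_equiv (eK n) _ _ fun a => Fintype.sum_equiv (eK n) _ _ fun b => ?_
  rw [Equiv.symm_apply_apply, Equiv.symm_apply_apply]

theorem s_point {n : ℕ} (h : SFrame n) : SPoint n := by
  intro P hP h1 R _ _ x hx H S Θ hc hS T hT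
  obtain ⟨g, hg, hsp⟩ := h H S Θ hc hS
  have hu : IsUnit g.det := by
    have := hc.pos.det_pos.ne'
    rw [hg, det_mul] at this
    exact (left_ne_zero_of_mul this).isUnit
  have e1 : ∀ k l, g⁻¹ * Θ k l * g = g⁻¹ * (Θ k l * H) * g⁻¹ᴴ := fun k l => by
    rw [hg, Matrix.mul_assoc _ (_ * _), Matrix.mul_assoc (Θ k l),
      Matrix.mul_assoc g, ← conjTranspose_mul, nonsing_inv_mul _ hu, conjTranspose_one,
      Matrix.mul_one, Matrix.mul_assoc]
  have e3 : (mform x fun k l => g⁻¹ * Θ k l * g) =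
      g⁻¹.map (algebraMap ℂ R) * mform x Θ * g.map (algebraMap ℂ R) := by
    ext a b
    simp only [mform, Matrix.mul_apply, of_apply, map_apply, mul_comm _ (algebraMap ℂ R _),
      ← Algebra.smul_def, ← map_smul, ← map_sum]
    congr 1
    ext k l
    simp [Matrix.sum_apply, mul_comm]
  have key := h1 R ((mform x fun k l => g⁻¹ * Θ k l * g).submatrix (eK n) (eK n)) T
    (sp_PG x _ hsp) fun η hη => by
      obtain ⟨N, hN0, hN⟩ := form_pow_vol n
      have e6 : (η.submatrix (eK n).symm (eK n).symm)ᴴ = -η.submatrix (eK n).symm (eK n).symm := by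
        rw [conjTranspose_submatrix, hη]
        rfl
      have e5 : (Matrix.of fun k l =>
          (η.submatrix (eK n).symm (eK n).symm * (g⁻¹ * Θ k l * g)).trace) =
          Matrix.of fun k l =>
            (g⁻¹ᴴ * η.submatrix (eK n).symm (eK n).symm * g⁻¹ * (Θ k l * H)).trace := by
        ext k l
        rw [of_apply, of_apply, e1, ← Matrix.mul_assoc, trace_mul_comm]
        simp only [Matrix.mul_assoc]
      have a1 := hc.det_nonneg (ζ := g⁻¹ᴴ * η.submatrix (eK n).symm (eK n).symm * g⁻¹)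
        (by simp only [conjTranspose_mul, e6, conjTranspose_conjTranspose, Matrix.mul_assoc,
          Matrix.neg_mul, Matrix.mul_neg])
      rw [tr_PG, e5]
      generalize (Matrix.of fun k l =>
        (g⁻¹ᴴ * η.submatrix (eK n).symm (eK n).symm * g⁻¹ * (Θ k l * H)).trace) = ρ at a1
      have a2 : form x ρ ^ (2 * n) = ((-1) ^ n * N * ρ.det) • vol x := hN (x := x) hx ρ
      have a3 : (-1 : ℂ) ^ n * ((-1) ^ n * N * ρ.det) = N * ρ.det := by
        rw [← mul_assoc, ← mul_assoc, ← mul_pow]
        simp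
      rw [a2, map_smul, hT, smul_eq_mul, mul_one, a3]
      exact mul_nonneg (by exact_mod_cast hN0.le) a1
  rwa [submatrix_submatrix, Equiv.self_comp_symm, submatrix_id_id, e3,
    hP.conj (mul_nonsing_inv _ hu)] at key

theorem dens_PG {m : ℕ} {W : Type} [AddCommGroup W] [Module ℂ W] {a b : Fin m → W}
    (hx : Good (xw a b)) {T : Subalgebra.center ℂ (ExteriorAlgebra ℂ W) →ₗ[ℂ] ℂ}
    (hT : T (vol (xw a b)) = 1) (H : (Fin m → ℂ) → Matrix (Fin m) (Fin m) ℂ)
    {P : MvPolynomial (Fin m × Fin m) ℂ} (hP : P.IsHomogeneous m) (z : Fin m → ℂ) :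
    extDens a b H P z = T (ev (mform (xw a b) fun k l => -mw I l (conn H k) z) P) := by
  have e : extDens a b H P = cwDens (xw a b) H P := rfl
  rw [e, cwDens_eq]
  exact eps_eq hx (aeval_top hx
    (fun c : Fin m × Fin m => Matrix.of fun k l => (-mw I l (conn H k) z) c.1 c.2) hP hT)

theorem cont_PG {m : ℕ} {W : Type} [AddCommGroup W] [Module ℂ W] {a b : Fin m → W}
    (hx : Good (xw a b)) {Q : MvPolynomial (Fin m × Fin m) ℂ} (hQ : Q.IsHomogeneous m)
    {U : Set (Fin m → ℂ)} {H S : (Fin m → ℂ) → Matrix (Fin m) (Fin m) ℂ} (h : LocalHK U H S)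
    (hU : IsOpen U) (hH : ∀ w ∈ U, (H w).PosDef) : ContinuousOn (extDens a b H Q) U := by
  have e : extDens a b H Q = cwDens (xw a b) H Q := rfl
  rw [e, cwDens_eq]
  exact dens_cont hx (fun k l a b => (wirt_smooth hU (conn_smooth hU h.smooth
    (fun w hw => (hH w hw).det_pos.ne') k a b)).continuousOn.neg) hQ

section

variable {m : ℕ} {M : Type*} [TopologicalSpace M] [ChartedSpace (Fin m → ℂ) M]
  [IsManifold 𝓘(ℂ, Fin m → ℂ) ω M] [T2Space M] [CompactSpace M]
  {h σ : M → Matrix (Fin m) (Fin m) ℂ}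

theorem int_PG {Q : MvPolynomial (Fin m × Fin m) ℂ} (hQ : Q.IsHomogeneous m)
    (g : IsHKMetric h σ) (ρ : PartitionOfUnity M M Set.univ)
    (hρ : ρ.IsSubordinate fun p => (chartAt (Fin m → ℂ) p).source) (p : M) :
    IntegrableOn (fun z => ρ p ((chartAt (Fin m → ℂ) p).symm z) *
      (extDens dz dzb (metricIn h p) Q z).re) (chartAt (Fin m → ℂ) p).target := by
  set φ := chartAt (Fin m → ℂ) p
  have h2 := cont_PG good_dz hQ (g.charts p) φ.open_target fun w hw => (g.curv p hw).1
  have h3 : IsCompact (φ '' tsupport (ρ p)) :=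
    (isClosed_tsupport _).isCompact.image_of_continuousOn (φ.continuousOn.mono (hρ p))
  have h4 : φ '' tsupport (ρ p) ⊆ φ.target := by
    rintro _ ⟨y, hy, rfl⟩; exact φ.map_source (hρ p hy)
  refine IntegrableOn.of_forall_sdiff_eq_zero (ContinuousOn.integrableOn_compact h3
    (ContinuousOn.mono ?_ h4)) φ.open_target.measurableSet fun z hz => ?_
  · exact ((ρ p).continuous.comp_continuousOn φ.continuousOn_symm).mul
      (continuous_re.comp_continuousOn h2)
  · rw [image_eq_zero_of_notMem_tsupport fun h => hz.2 ⟨_, h, φ.right_inv hz.1⟩, zero_mul]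

theorem glob_PG {ι : Type} [Fintype ι] {P : ι → MvPolynomial (Fin m × Fin m) ℂ}
    (hP : ∀ i, (P i).IsHomogeneous m) (a : ι → ℝ)
    (g : IsHKMetric h σ) (ρ : PartitionOfUnity M M Set.univ)
    (hρ : ρ.IsSubordinate fun p => (chartAt (Fin m → ℂ) p).source)
    (hp : ∀ p, ∀ z ∈ (chartAt (Fin m → ℂ) p).target,
      0 ≤ ∑ i, a i * (extDens dz dzb (metricIn h p) (P i) z).re) :
    0 ≤ ∑ i, a i * charNumber h ρ (P i) := by
  have hs := ρ.locallyFinite.finite_nonempty_of_compact
  have e : ∀ P, charNumber h ρ P = ∑ p ∈ hs.toFinset, ∫ z in (chartAt (Fin m → ℂ) p).target,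
      ρ p ((chartAt (Fin m → ℂ) p).symm z) * (extDens dz dzb (metricIn h p) P z).re := fun P => by
    refine finsum_eq_sum_of_support_subset_of_finite _ (fun p hp => ?_) hs
    by_contra h0
    simp only [Set.mem_ofPred_eq, Set.not_nonempty_iff_eq_empty,
      Function.support_eq_empty_iff] at h0
    simp [h0] at hp
  simp only [e, Finset.mul_sum]
  rw [Finset.sum_comm]
  refine Finset.sum_nonneg fun p _ => ?_
  simp only [← integral_const_mul]
  rw [← integral_finsetSum _ fun i _ => (int_PG (hP i) g ρ hρ p).const_mul (a i)]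
  refine setIntegral_nonneg (chartAt (Fin m → ℂ) p).open_target.measurableSet fun z hz => ?_
  have := mul_nonneg (ρ.nonneg p ((chartAt (Fin m → ℂ) p).symm z)) (hp p z hz)
  rw [Finset.mul_sum] at this
  exact this.trans_eq (Finset.sum_congr rfl fun i _ => by ring)

end

theorem cm_homog_PG {n : ℕ} (μ : n.Partition) : (cm μ).IsHomogeneous (2 * n) := by
  have h := prod_homog (m := 2 * n) (μ.parts.map fun k => 2 * k)
  rw [Multiset.map_map, Multiset.sum_map_mul_left, Multiset.map_id', μ.parts_sum] at h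
  exact h

theorem s_glob.{u} (n : ℕ) : SGlob.{u} n := by
  intro a h M _ _ _ _ _ H σ g ρ hρ
  refine glob_PG cm_homog_PG a g ρ hρ fun p z hz => ?_
  obtain ⟨T, hT⟩ := Module.Projective.exists_dual_eq_one ℂ (vol_ne (good_dz (m := 2 * n)))
  have hc := (g.charts p).curv (chartAt (Fin (2 * n) → ℂ) p).open_target
    (fun w hw => (g.curv p hw).1) hz (g.curv p hz).2
  have hs : (formIn σ p z)ᵀ = -formIn σ p z := by
    rw [formIn, transpose_mul, transpose_mul, transpose_transpose, g.skew, Matrix.neg_mul,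
      Matrix.mul_neg, Matrix.mul_assoc]
  have h1 := h _ _ good_dz _ _ _ hc hs T hT
  simp only [map_sum, map_smul, smul_eq_mul] at h1
  have h2 := (Complex.nonneg_iff.1 h1).1
  rw [re_sum] at h2
  refine h2.trans_eq (Finset.sum_congr rfl fun μ _ => ?_)
  rw [dens_PG good_dz hT _ (cm_homog_PG μ), re_ofReal_mul]

end Pool.Agent.MP_12a176_ag.HC
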