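import Pool.Agent.MP_12a176_ag.HC.St

set_option autoImplicit false

namespace Pool.Agent.MP_12a176_ag.HC

open Complex Matrix MvPolynomial
open scoped ComplexOrder ComplexConjugate

variable {n : ℕ}

theorem lam_lin_Rad (a : K n) : ∃ c : Fin n → ℂ,
    (∀ k, pderiv k (lam a : B n) = C (c k)) ∧ (lam a : B n) = ∑ k, c k • X k := by
  rcases a with i | i
  · refine ⟨Pi.single i 1, fun k => ?_, ?_⟩
    · by_cases e : k = i
      · subst e; simp [lam]
      · simp [lam, pderiv_X, e, Ne.symm e]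
    · simp [lam, Pi.single_apply, ite_smul]
  · refine ⟨-Pi.single i 1, fun k => ?_, ?_⟩
    · by_cases e : k = i
      · subst e; simp [lam]
      · simp [lam, pderiv_X, e, Ne.symm e]
    · simp [lam, Pi.single_apply, ite_smul]

theorem root_mul_Rad (a b : K n) (g q : B n) : (lam a - lam b) * Dop g q =
    ∑ k, X k * Dop (pderiv k (lam a - lam b) * g) q := by
  obtain ⟨c, h1, h2⟩ := lam_lin_Rad a
  obtain ⟨d, h3, h4⟩ := lam_lin_Rad b
  have e : ∀ k, pderiv k (lam a - lam b : B n) = C (c k - d k) := fun k => by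
    rw [map_sub, h1, h3, C_sub]
  simp only [e, Dop_mul, Dop_C]
  rw [h2, h4, ← Finset.sum_sub_distrib, Finset.sum_mul]
  refine Finset.sum_congr rfl fun k _ => ?_
  rw [← sub_smul, smul_mul_assoc, mul_smul_comm]

theorem ps_mul_Rad (p q : B n) (h : ∑ k, pderiv k (pderiv k p) = 0) :
    Dop p (ps n 1 * q) = ps n 1 * Dop p q + (2 : ℂ) • ∑ k, X k * Dop (pderiv k p) q := by
  have e : ∀ k, Dop p (X k ^ (2 * 1) * q) = X k ^ (2 * 1) * Dop p q +
      (2 : ℂ) • (X k * Dop (pderiv k p) q) + Dop (pderiv k (pderiv k p)) q := fun k => by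
    rw [mul_one, sq, mul_assoc, Dop_mul_X, Dop_mul_X, Dop_mul_X, two_smul]; ring
  have h0 : ∑ k, Dop (pderiv k (pderiv k p)) q = 0 := by
    rw [← LinearMap.sum_apply, ← map_sum, h, map_zero, LinearMap.zero_apply]
  simp only [ps, Finset.sum_mul, map_sum, e, Finset.sum_add_distrib, h0, add_zero,
    Finset.smul_sum]

theorem supp_Rad {ν : A n →ₗ[ℂ] ℂ} (h : Adm ν) (k : Fin n) (P : A n) :
    ν ((X (Sum.inr k, Sum.inr k) + X (Sum.inl k, Sum.inl k)) * P) = 0 := by
  have := h.supp (Sum.inr k) (Sum.inl k) P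
  convert this using 3
  simp [Matrix.add_apply, Matrix.mul_apply, Matrix.J, Fintype.sum_sum_type, Matrix.one_apply]

theorem diag_Rad {ν : A n →ₗ[ℂ] ℂ} (h : Adm ν) (P : A n) :
    ∑ a : K n, ν (X (a, a) * X (a, a) * P) = -2 * ν (io (ps n 1) * P) := by
  simp only [Fintype.sum_sum_type, ps, map_sum, Finset.sum_mul, Finset.mul_sum,
    ← Finset.sum_add_distrib]
  refine Finset.sum_congr rfl fun k _ => ?_
  have h1 := supp_Rad h k ((X (Sum.inr k, Sum.inr k) + X (Sum.inl k, Sum.inl k)) * P)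
  have h2 : io (X k ^ (2 * 1) : B n) * P = (-1 / 4 : ℂ) •
      ((X (Sum.inl k, Sum.inl k) - X (Sum.inr k, Sum.inr k)) ^ 2 * P) := by
    rw [map_pow, io, aeval_X, mul_one, _root_.smul_pow, smul_mul_assoc]
    congr 1
    rw [div_pow, neg_sq, I_sq]; norm_num
  have h3 : (X (Sum.inl k, Sum.inl k) - X (Sum.inr k, Sum.inr k)) ^ 2 * P =
      (2 : ℂ) • (X (Sum.inl k, Sum.inl k) * X (Sum.inl k, Sum.inl k) * P) +
      (2 : ℂ) • (X (Sum.inr k, Sum.inr k) * X (Sum.inr k, Sum.inr k) * P) -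
      (X (Sum.inr k, Sum.inr k) + X (Sum.inl k, Sum.inl k)) *
        ((X (Sum.inr k, Sum.inr k) + X (Sum.inl k, Sum.inl k)) * P) := by
    simp only [two_smul]; ring
  rw [h2, h3, map_smul, map_sub, h1, map_add, map_smul, map_smul]
  simp only [smul_eq_mul]; ring

theorem s_rad {n : ℕ} (h1 : SRoot n) (h2 : SCof n) (h3 : SDel n) : SRad n := by
  intro ν hν
  obtain ⟨γ, hγ, hs⟩ := h2
  refine LinearMap.ext fun q => ?_
  change ν (QQ n * io (Dop (del X) q)) = (-2 : ℂ) * ν (io (Dop (del X) (ps n 1 * q)))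
  have hQ : QQ n = ∑ a : K n, (X (a, a) * X (a, a) +
      ∑ b ∈ Finset.univ.erase a, X (a, b) * X (b, a)) := by
    rw [QQ, Fintype.sum_prod_type]
    refine Finset.sum_congr rfl fun a _ => ?_
    rw [← Finset.add_sum_erase _ _ (Finset.mem_univ a)]; rfl
  have hoff : ∀ a, ∀ b ∈ Finset.univ.erase a, ν (X (a, b) * X (b, a) * io (Dop (del X) q)) =
      -∑ k, ν (io (X k * Dop (mu a b • (pderiv k (lam a - lam b) * γ a b)) q)) := by
    intro a b hb
    have hab : a ≠ b := (Finset.ne_of_mem_erase hb).symm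
    rw [← hγ a b hab, Dop_mul, h1 ν hν a b hab, root_mul_Rad]
    simp only [map_sum, map_smul, LinearMap.smul_apply, mul_smul_comm, smul_eq_mul, neg_mul,
      Finset.mul_sum, Finset.sum_neg_distrib]
  have hsum : ∑ a : K n, ∑ b ∈ Finset.univ.erase a,
      ν (X (a, b) * X (b, a) * io (Dop (del X) q)) =
      -4 * ∑ k, ν (io (X k * Dop (pderiv k (del X)) q)) := by
    rw [Finset.sum_congr rfl fun a _ => Finset.sum_congr rfl (hoff a)]
    simp only [Finset.sum_neg_distrib]
    rw [Finset.sum_congr rfl fun a _ => Finset.sum_comm, Finset.sum_comm, neg_mul, Finset.mul_sum]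
    congr 1
    refine Finset.sum_congr rfl fun k _ => ?_
    have := congrArg (fun p : B n => ν (io (X k * Dop p q))) (hs k)
    simp only [map_sum, LinearMap.sum_apply, Finset.mul_sum] at this
    rw [this]
    simp only [map_smul, LinearMap.smul_apply, mul_smul_comm, smul_eq_mul]
  rw [ps_mul_Rad _ _ h3.1, hQ]
  simp only [Finset.sum_mul, add_mul, map_sum, map_add, Finset.sum_add_distrib]
  rw [hsum, diag_Rad hν, map_mul io, map_smul, map_smul, map_sum, map_sum, smul_eq_mul]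
  ring

end Pool.Agent.MP_12a176_ag.HC
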