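import Pool.Agent.MP_12a176_ag.HC.St

set_option autoImplicit false

namespace Pool.Agent.MP_12a176_ag.HC

open Complex Matrix MvPolynomial
open scoped ComplexOrder ComplexConjugate

noncomputable section

variable {n : ℕ} {R S : Type} [CommRing R] [Algebra ℂ R] [CommRing S] [Algebra ℂ S]

theorem av_av_Ring (φ : R →ₐ[ℂ] S) (Z : Matrix (K n) (K n) R) (P : A n) :
    φ (av Z P) = av (Z.map φ) P := by
  rw [av, ← AlgHom.comp_apply, comp_aeval]; rfl

theorem pow_Ring {ι : Type} [Fintype ι] (m : ℕ) (c : ι → ℂ) (z : ι → R) :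
    (∑ a, c a • z a) ^ m = ∑ j : Fin m → ι, (∏ i, c (j i)) • ∏ i, z (j i) := by
  rw [Fintype.sum_pow]
  exact Finset.sum_congr rfl fun j _ => Finset.prod_smul _ _ _

/-- The polynomial dual to a functional. -/
def dual_Ring (E : A n →ₗ[ℂ] ℂ) : A n :=
  ∑ j : Fin (2 * n) → K n × K n, E (∏ i, X (j i)) • ∏ i, X (j i).swap

/-- The moment. -/
def mom_Ring (Z : Matrix (K n) (K n) R) (T : R →ₗ[ℂ] ℂ) : A n :=
  ∑ j : Fin (2 * n) → K n × K n, T (∏ i, Z (j i).2 (j i).1) • ∏ i, X (j i)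

theorem dual_mom_Ring (E : A n →ₗ[ℂ] ℂ) (Z : Matrix (K n) (K n) R) (T : R →ₗ[ℂ] ℂ) :
    T (av Z (dual_Ring E)) = E (mom_Ring Z T) := by
  rw [dual_Ring, mom_Ring, map_sum, map_sum, map_sum]
  refine Finset.sum_congr rfl fun j _ => ?_
  rw [map_smul, map_smul, map_smul, map_prod (av Z), smul_eq_mul, smul_eq_mul, mul_comm]
  simp only [av_X, Prod.fst_swap, Prod.snd_swap]

theorem av_mom_Ring (η : Matrix (K n) (K n) ℂ) (Z : Matrix (K n) (K n) R) (T : R →ₗ[ℂ] ℂ) :
    av η (mom_Ring Z T) = T ((η.map (algebraMap ℂ R) * Z).trace ^ (2 * n)) := by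
  have h : (η.map (algebraMap ℂ R) * Z).trace = ∑ a : K n × K n, η a.1 a.2 • Z a.2 a.1 := by
    simp only [trace, Matrix.diag, Matrix.mul_apply, Fintype.sum_prod_type, Matrix.map_apply,
      Algebra.smul_def]
  rw [h, pow_Ring, mom_Ring, map_sum, map_sum]
  refine Finset.sum_congr rfl fun j _ => ?_
  rw [map_smul, map_smul, map_prod (av η), smul_eq_mul, smul_eq_mul, mul_comm]
  simp only [av_X]

theorem mom_id_Ring (Y : Matrix (K n) (K n) ℂ) : mom_Ring Y LinearMap.id = ell Y ^ (2 * n) := by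
  rw [ell, pow_Ring, mom_Ring]
  rfl

omit [Algebra ℂ R] in
theorem sp_add_Ring {Y Z : Matrix (K n) (K n) R} (hY : IsSp Y) (hZ : IsSp Z) : IsSp (Y + Z) := by
  rw [IsSp] at *
  rw [transpose_add, Matrix.add_mul, Matrix.mul_add, add_add_add_comm, hY, hZ, add_zero]

theorem sp_smul_Ring (c : ℂ) {Y : Matrix (K n) (K n) R} (hY : IsSp Y) : IsSp (c • Y) := by
  rw [IsSp] at *
  rw [transpose_smul, Matrix.smul_mul, Matrix.mul_smul, ← smul_add, hY, smul_zero]

theorem sp_star_Ring {W : Matrix (K n) (K n) ℂ} (hW : IsSp W) : IsSp Wᴴ := by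
  have hJ : (JJ n ℂ)ᴴ = -JJ n ℂ := by
    rw [← J_transpose]
    exact congrArg transpose (map_J (Fin n) (starRingEnd ℂ))
  have h := congrArg conjTranspose hW
  rw [conjTranspose_add, conjTranspose_mul, conjTranspose_mul, hJ, conjTranspose_zero] at h
  have e : Wᵀᴴ = Wᴴᵀ := rfl
  have h2 := congrArg (fun M => JJ n ℂ * M * JJ n ℂ) h
  simp only [e, Matrix.mul_add, Matrix.add_mul, Matrix.mul_neg, Matrix.neg_mul, Matrix.mul_zero,
    Matrix.zero_mul] at h2
  rw [← Matrix.mul_assoc, J_squared, Matrix.mul_assoc (JJ n ℂ), Matrix.mul_assoc Wᴴᵀ, J_squared] at h2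
  simpa [IsSp] using h2

theorem cx_Ring {D : A n}
    (hD : ∀ Y : Matrix (K n) (K n) ℂ, Yᴴ = -Y → IsSp Y → av Y D = 0) {W : Matrix (K n) (K n) ℂ}
    (hW : IsSp W) : av W D = 0 := by
  obtain ⟨Y, hY⟩ : ∃ Y, Y = (1 / 2 : ℂ) • (W + (-1 : ℂ) • Wᴴ) := ⟨_, rfl⟩
  obtain ⟨V, hV⟩ : ∃ V, V = (-I / 2 : ℂ) • (W + Wᴴ) := ⟨_, rfl⟩
  have h1 : IsSp Y := hY ▸ sp_smul_Ring _ (sp_add_Ring hW (sp_smul_Ring _ (sp_star_Ring hW)))
  have h2 : IsSp V := hV ▸ sp_smul_Ring _ (sp_add_Ring hW (sp_star_Ring hW))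
  have h3 : Yᴴ = -Y := by
    ext a b
    simp [hY]
  have h4 : Vᴴ = -V := by
    ext a b
    simp [hV]
    ring
  have h5 : W = Y + I • V := by
    ext a b
    simp only [hY, hV, Matrix.add_apply, Matrix.smul_apply, smul_eq_mul]
    linear_combination (W a b + Wᴴ a b) / 2 * I_mul_I
  let q : Polynomial ℂ :=
    av (Matrix.of fun a b => Polynomial.C (Y a b) + Polynomial.X * Polynomial.C (V a b)) D
  have hq : ∀ t : ℂ, Polynomial.aeval t q = av (Y + t • V) D := fun t => by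
    rw [av_av_Ring]
    congr 2
    ext a b
    simp only [Matrix.map_apply, Matrix.of_apply, map_add, map_mul, Polynomial.aeval_C,
      Polynomial.aeval_X, Matrix.add_apply, Matrix.smul_apply, smul_eq_mul, Algebra.algebraMap_self,
      RingHom.id_apply]
  have h0 : q = 0 := by
    refine Polynomial.eq_zero_of_infinite_isRoot _
      ((Set.infinite_range_of_injective ofReal_injective).mono ?_)
    rintro _ ⟨s, rfl⟩
    refine Eq.trans (Polynomial.coe_aeval_eq_eval (s : ℂ) ▸ hq s) (hD _ ?_ ?_)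
    · rw [conjTranspose_add, conjTranspose_smul, h3, h4, neg_add, smul_neg]
      simp
    · exact sp_add_Ring h1 (sp_smul_Ring _ h2)
  rw [h5, ← hq, h0, map_zero]

theorem sp_pr_Ring (Z : Matrix (K n) (K n) R) : IsSp (pr Z) := by
  refine sp_smul_Ring _ ?_
  rw [IsSp, transpose_add, transpose_mul, transpose_mul, transpose_transpose, J_transpose,
    Matrix.add_mul, Matrix.mul_add, Matrix.mul_assoc _ (JJ n R), J_squared,
    ← Matrix.mul_assoc (JJ n R), Matrix.mul_neg (JJ n R), J_squared]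
  simp

theorem pr_eq_Ring {Z : Matrix (K n) (K n) R} (hZ : IsSp Z) : pr Z = Z := by
  rw [pr, eq_neg_of_add_eq_zero_right hZ, Matrix.neg_mul, Matrix.mul_assoc, J_squared,
    Matrix.mul_neg, Matrix.mul_one, neg_neg, ← two_smul ℂ, smul_smul]
  norm_num

theorem pr_map_Ring (Z : Matrix (K n) (K n) R) :
    (pr (XX n)).map (av Z) = pr Z := by
  have h : (XX n).map (av Z) = Z := by
    ext a b
    exact av_X Z (a, b)
  rw [pr, pr, Matrix.map_smul _ _ (map_smul _ _), Matrix.map_add _ (map_add _),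
    Matrix.map_mul, Matrix.map_mul, transpose_map, map_J, h]

theorem all_Ring {D : A n}
    (hD : ∀ Y : Matrix (K n) (K n) ℂ, Yᴴ = -Y → IsSp Y → av Y D = 0) {Z : Matrix (K n) (K n) R}
    (hZ : IsSp Z) : av Z D = 0 := by
  have h : av (pr (XX n)) D = 0 := by
    refine MvPolynomial.funext fun x => ?_
    have := av_av_Ring (av (Matrix.of fun a b => x (a, b))) (pr (XX n)) D
    rw [pr_map_Ring, cx_Ring hD (sp_pr_Ring _)] at this
    rw [map_zero, ← this, ← coe_aeval_eq_eval]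
    rfl
  rw [← pr_eq_Ring hZ, ← pr_map_Ring, ← av_av_Ring, h, map_zero]

theorem s_ring (n : ℕ) : SRing n := by
  intro ξ E P hE h R _ _ Z T hZ hT
  have key : ∀ (S : Type) [CommRing S] [Algebra ℂ S] (Y : Matrix (K n) (K n) S),
      av Y (dual_Ring E - ((-1) ^ n : ℂ) • ev ((XX n).submatrix (eK n).symm (eK n).symm) P) =
      av Y (dual_Ring E) - ((-1) ^ n : ℂ) • ev (Y.submatrix (eK n).symm (eK n).symm) P := by
    intro S _ _ Y
    rw [map_sub, map_smul, ev_ev]
    have e : ((XX n).submatrix (eK n).symm (eK n).symm).map (av Y) =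
        Y.submatrix (eK n).symm (eK n).symm := by
      ext a b
      exact av_X Y ((eK n).symm a, (eK n).symm b)
    rw [e]
  have h1 := all_Ring (D := dual_Ring E -
      ((-1) ^ n : ℂ) • ev ((XX n).submatrix (eK n).symm (eK n).symm) P) (fun Y h1 h2 => by
    have := dual_mom_Ring E Y LinearMap.id
    rw [mom_id_Ring, h Y h1 h2, LinearMap.id_apply] at this
    rw [key, this, smul_eq_mul, sub_self]) hZ
  have h2 := congrArg T h1
  rw [key, map_sub, map_smul, map_zero, dual_mom_Ring, smul_eq_mul, sub_eq_zero] at h2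
  have hd : (dg ξ)ᴴ = -dg ξ := by
    rw [dg, diagonal_conjTranspose, diagonal_neg]
    congr 1
    ext (k | k) <;> simp
  have h3 := hE (((-1) ^ n : ℂ) • mom_Ring Z T) fun U _ => by
    rw [map_smul, av_mom_Ring, smul_eq_mul]
    refine hT _ ?_
    simp only [conjTranspose_mul, conjTranspose_conjTranspose, hd, Matrix.mul_assoc,
      Matrix.neg_mul, Matrix.mul_neg]
  rwa [map_smul, h2, smul_eq_mul, ← mul_assoc, ← mul_pow, neg_mul_neg, one_mul, one_pow,
    one_mul] at h3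

end

end Pool.Agent.MP_12a176_ag.HC
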