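import Pool.Agent.MP_12a176_ag.HC.St

set_option autoImplicit false

namespace Pool.Agent.MP_12a176_ag.HC

open Complex Matrix MvPolynomial
open scoped ComplexOrder ComplexConjugate

noncomputable section

variable {n : ℕ}

/-- The side of an index. -/
def s_Root : K n → ℂ := Sum.elim (fun _ => 1) fun _ => -1

theorem ent_Root {R : Type} [CommRing R] [Algebra ℂ R] (Y : Matrix (K n) (K n) R) (a b : K n) :
    (Y * JJ n R + JJ n R * Yᵀ) a b = s_Root b • Y a b.swap - s_Root a • Y b a.swap := by
  rcases a with a | a <;> rcases b with b | b <;>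
    simp [s_Root, Matrix.J, Matrix.mul_apply, Fintype.sum_sum_type, Matrix.one_apply,
      sub_eq_add_neg]

/-- The root vector. -/
def Z_Root (a b : K n) : Matrix (K n) (K n) ℂ :=
  single a b 1 - (s_Root a * s_Root b) • single b.swap a.swap 1

theorem sp_Root (a b : K n) : IsSp (Z_Root a b) := by
  ext c d
  rw [ent_Root]
  rcases a with a | a <;> rcases b with b | b <;> rcases c with c | c <;> rcases d with d | d <;>
    simp [s_Root, Z_Root, Matrix.single_apply, and_comm] <;> split_ifs <;> simp

theorem LZ_Root (a b c d : K n) : LZ (Z_Root a b) (X (c, d)) =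
    (if a = c then X (b, d) else 0) - (if b = d then X (c, a) else 0) - (s_Root a * s_Root b) •
      ((if b.swap = c then X (a.swap, d) else 0) - if a.swap = d then X (c, b.swap) else 0) := by
  rw [LZ, mkDerivation_X]
  simp only [Z_Root, Matrix.sub_apply, Matrix.mul_apply, Matrix.map_apply, Matrix.smul_apply,
    Matrix.single_apply, mvPolynomialX_apply, map_sub, smul_eq_mul, map_mul, sub_mul, mul_sub,
    Finset.sum_sub_distrib, smul_eq_C_mul, ite_and, apply_ite C, map_one, map_zero, mul_ite,
    ite_mul, mul_one, one_mul, mul_zero, zero_mul, Finset.sum_ite_eq, Finset.mem_univ, if_true,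
    Finset.sum_ite_irrel, Finset.sum_const_zero]
  split_ifs <;> ring

theorem LZ_ab_Root (a b : K n) : LZ (Z_Root a b) (X (a, b)) = mu a b • (X (b, b) - X (a, a)) := by
  rw [LZ_Root, mu, if_pos rfl, if_pos rfl]
  by_cases h : b = a.swap
  · subst h
    have : s_Root a * s_Root a.swap = -1 := by rcases a with a | a <;> simp [s_Root]
    rw [this]
    simp [two_smul]
    ring
  · rw [if_neg h, if_neg (Ne.symm h), if_neg fun e => h (by rw [← e, Sum.swap_swap])]
    simp

/-- The derivation along a weight. -/
def d_Root : K n → Derivation ℂ (B n) (B n) := Sum.elim pderiv fun k => -pderiv k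

theorem Dop_Root (a : K n) (u : B n) : Dop (lam a) u = d_Root a u := by
  rcases a with a | a <;> simp [lam, d_Root, Dop_X]

theorem d_X_Root (a : K n) (k : Fin n) : d_Root a (X k) =
    C ((if a = .inl k then 1 else 0) - if a = .inr k then 1 else 0) := by
  rcases a with a | a <;> by_cases h : a = k <;> simp [d_Root, h, eq_comm (a := k)]

section
variable {R : Type} [CommRing R] [Algebra ℂ R] (π : A n →ₐ[ℂ] R)
  (h : ∀ a b : K n, π (X (a, b)) = -(s_Root a * s_Root b) • π (X (b.swap, a.swap)))
include h

theorem diag_Root (c : K n) : π (X (c, c)) = I • π (io (lam c)) := by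
  rcases c with k | k <;>
  · have := h (.inr k) (.inr k)
    simp only [s_Root, Sum.elim_inr, Sum.swap_inr] at this
    simp only [lam, Sum.elim_inl, Sum.elim_inr, map_neg, io, aeval_X, map_smul, map_sub, this]
    match_scalars
    ring_nf
    simp

theorem LZ_cc_Root (a b c : K n) : π (LZ (Z_Root a b) (X (c, c))) =
    (((if a = c then 1 else 0) - if a = c.swap then 1 else 0) -
      ((if b = c then 1 else 0) - if b = c.swap then (1 : ℂ) else 0)) • π (X (b, a)) := by
  have e : ∀ x : K n, x.swap = c ↔ x = c.swap := fun x =>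
    ⟨fun e => by rw [← e, Sum.swap_swap], fun e => by rw [e, Sum.swap_swap]⟩
  have e1 : (if a = c then X (b, c) else 0 : A n) =
      (if a = c then (1 : ℂ) else 0) • X (b, a) := by split_ifs with q <;> simp [q]
  have e2 : (if b = c then X (c, a) else 0 : A n) =
      (if b = c then (1 : ℂ) else 0) • X (b, a) := by split_ifs with q <;> simp [q]
  have e3 : (if b.swap = c then X (a.swap, c) else 0 : A n) =
      (if b = c.swap then (1 : ℂ) else 0) • X (a.swap, b.swap) := by
    simp only [← e]; split_ifs with q <;> simp [q]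
  have e4 : (if a.swap = c then X (c, b.swap) else 0 : A n) =
      (if a = c.swap then (1 : ℂ) else 0) • X (a.swap, b.swap) := by
    simp only [← e]; split_ifs with q <;> simp [q]
  rw [LZ_Root, e1, e2, e3, e4]
  simp only [map_sub, map_smul, h b a]
  module

theorem chain_Root (a b : K n) (u : B n) : π (LZ (Z_Root a b) (io u)) =
    -I • (π (X (b, a)) * π (io ((d_Root a - d_Root b) u))) := by
  induction u using MvPolynomial.induction_on with
  | C r => simp [← algebraMap_eq]
  | add p q hp hq => simp only [map_add, hp, hq, mul_add, smul_add]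
  | mul_X p k hp =>
    have e : π (LZ (Z_Root a b) (io (X k))) =
        -I • (π (X (b, a)) * π (io ((d_Root a - d_Root b) (X k)))) := by
      rw [Derivation.sub_apply, d_X_Root, d_X_Root, ← map_sub, ← algebraMap_eq, AlgHom.commutes,
        AlgHom.commutes, mul_comm, ← Algebra.smul_def, io, aeval_X]
      simp only [map_sub, Derivation.map_smul, map_smul, LZ_cc_Root π h, Sum.swap_inl, Sum.swap_inr]
      match_scalars
      split_ifs <;> ring
    simp only [map_mul, Derivation.leibniz, smul_eq_mul, map_add, hp, e, Algebra.smul_def]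
    ring

theorem main_Root (a b : K n) (u : B n) : π (LZ (Z_Root a b) (X (a, b) * io u)) =
    π (-I • (X (a, b) * X (b, a) * io (Dop (lam a - lam b) u) +
      mu a b • io ((lam a - lam b) * u))) := by
  rw [map_sub Dop, LinearMap.sub_apply, Dop_Root, Dop_Root, ← Derivation.sub_apply]
  simp only [Derivation.leibniz, smul_eq_mul, map_add, map_mul, chain_Root π h, LZ_ab_Root,
    map_smul, map_sub, diag_Root π h]
  simp only [Algebra.smul_def, map_neg]
  ring

end

/-- The polynomials that vanish on the support. -/
def N_Root (ν : A n →ₗ[ℂ] ℂ) : Ideal (A n) where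
  carrier := {P | ∀ Q, ν (P * Q) = 0}
  add_mem' := fun {P P'} h h' Q => by rw [add_mul, map_add, h Q, h' Q, add_zero]
  zero_mem' := fun Q => by rw [zero_mul, map_zero]
  smul_mem' := fun c P h Q => by rw [smul_eq_mul, mul_comm c, mul_assoc]; exact h _

theorem s_root (n : ℕ) : SRoot n := by
  intro ν hν a b _ u
  let π := Ideal.Quotient.mkₐ ℂ (N_Root ν)
  have hπ : ∀ P Q, π P = π Q → ν P = ν Q := fun P Q e => by
    have := (Ideal.Quotient.eq.1 e) 1
    rwa [mul_one, map_sub, sub_eq_zero] at this
  have h : ∀ c d : K n, π (X (c, d)) = -(s_Root c * s_Root d) • π (X (d.swap, c.swap)) := by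
    intro c d
    have h1 : π _ = 0 := Ideal.Quotient.eq_zero_iff_mem.2 (hν.supp c d.swap)
    rw [ent_Root, Sum.swap_swap, map_sub, map_smul, map_smul, sub_eq_zero] at h1
    change _ • π (X (c, d)) = _ • π (X (d.swap, c.swap)) at h1
    have h2 : -s_Root d * s_Root d.swap = 1 := by rcases d with d | d <;> simp [s_Root]
    rw [← one_smul ℂ (π (X (c, d))), ← h2, mul_smul, h1, smul_smul]
    congr 1
    ring
  have h0 := hν.inv _ (sp_Root a b) (X (a, b) * io u)
  rw [hπ _ _ (main_Root π h a b u), map_smul, map_add, map_smul, smul_eq_mul, smul_eq_mul] at h0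
  linear_combination I * h0 + (ν (X (a, b) * X (b, a) * io (Dop (lam a - lam b) u)) +
    mu a b * ν (io ((lam a - lam b) * u))) * I_mul_I

end

end Pool.Agent.MP_12a176_ag.HC
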