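import Pool.Agent.MP_12a176_ag.HC.St

set_option autoImplicit false

namespace Pool.Agent.MP_12a176_ag.HC

open Complex Matrix MvPolynomial
open scoped ComplexOrder ComplexConjugate

theorem coeff_wa_Span {n : ℕ} (ε : Fin n → ℤˣ) (g : B n) (m : Fin n →₀ ℕ) :
    coeff m (wa 1 ε g) = (∏ k, ((ε k : ℤ) : ℂ) ^ m k) * coeff m g := by
  induction g using MvPolynomial.induction_on' with
  | add p q hp hq => rw [map_add, coeff_add, coeff_add, hp, hq, mul_add]
  | monomial d c =>
    have h : wa 1 ε (monomial d c) = monomial d ((∏ k, ((ε k : ℤ) : ℂ) ^ d k) * c) := by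
      rw [wa, aeval_monomial, Finsupp.prod_fintype _ _ (by simp), monomial_eq,
        Finsupp.prod_fintype _ _ (by simp), map_mul, map_prod]
      simp only [smul_eq_C_mul, mul_pow, Finset.prod_mul_distrib, map_pow, algebraMap_eq,
        Equiv.Perm.coe_one, id]
      ring
    rw [h, coeff_monomial, coeff_monomial]
    split_ifs with e
    · rw [e]
    · rw [mul_zero]

theorem even_Span {n : ℕ} (g : B n) (hg : ∀ ε, wa 1 ε g = g) (m : Fin n →₀ ℕ)
    (hm : m ∈ g.support) (k : Fin n) : Even (m k) := by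
  have h := coeff_wa_Span (Pi.mulSingle k (-1)) g m
  rw [hg, Finset.prod_eq_single k (fun j _ hj => by simp [Pi.mulSingle_eq_of_ne hj])
    (by simp)] at h
  have h1 : ((-1 : ℂ)) ^ m k = 1 := by
    have h2 := mem_support_iff.1 hm
    apply mul_right_cancel₀ h2
    rw [one_mul]
    simpa using h.symm
  exact (neg_one_pow_eq_one_iff_even (by norm_num)).1 h1

theorem half_Span {n : ℕ} (g : B n) (hg : ∀ s ε, wa s ε g = g) :
    ∃ g1 : B n, g1.IsSymmetric ∧ expand 2 g1 = g := by
  have h : ∃ g1 : B n, expand 2 g1 = g := by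
    refine ⟨∑ m ∈ g.support, monomial (m.mapRange (· / 2) (by simp)) (coeff m g), ?_⟩
    rw [map_sum]
    conv_rhs => rw [g.as_sum]
    refine Finset.sum_congr rfl fun m hm => ?_
    rw [expand_monomial]
    have e : 2 • m.mapRange (· / 2) (by simp) = m := by
      ext k
      simp only [Finsupp.smul_apply, Finsupp.mapRange_apply, smul_eq_mul]
      exact Nat.mul_div_cancel' (even_Span g (hg 1) m hm k).two_dvd
    rw [e]
  obtain ⟨g1, h1⟩ := h
  refine ⟨g1, fun e => expand_injective (n := 2) (by norm_num) ?_, h1⟩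
  have hw : wa e 1 = rename e := MvPolynomial.algHom_ext fun k => by simp [wa]
  rw [← rename_expand, h1, ← hw, hg]

/-- Elementary symmetric functions of the squares. -/
noncomputable def E_Span (n k : ℕ) : B n := expand 2 (esymm (Fin n) ℂ k)

theorem E_eq_Span (n k : ℕ) :
    E_Span n k = (Finset.univ.val.map fun i : Fin n => (X i : B n) ^ 2).esymm k := by
  rw [← aeval_esymm_eq_multiset_esymm (Fin n) ℂ]
  rfl

theorem E_hom_Span (n k : ℕ) : (E_Span n k).IsHomogeneous (2 * k) := by
  rw [E_Span, esymm, map_sum]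
  refine IsHomogeneous.sum _ _ _ fun t ht => ?_
  rw [map_prod, ← (Finset.mem_powersetCard.1 ht).2, mul_comm, ← smul_eq_mul, ← Finset.sum_const]
  refine IsHomogeneous.prod _ _ _ fun i _ => ?_
  rw [expand_X]
  exact isHomogeneous_X_pow i 2

theorem parts_Span {ι M : Type} [CommMonoid M] (s : Finset ι) (a b : ι → ℕ) (f : ℕ → M) :
    ((∑ i ∈ s, a i • ({b i} : Multiset ℕ)).map f).prod = ∏ i ∈ s, f (b i) ^ a i := by
  classical
  induction s using Finset.induction_on with
  | empty => simp
  | insert i s hi h =>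
    rw [Finset.sum_insert hi, Finset.prod_insert hi, Multiset.map_add, Multiset.prod_add, h,
      Multiset.map_nsmul, Multiset.prod_nsmul, Multiset.map_singleton, Multiset.prod_singleton]

theorem parts_sum_Span {ι : Type} (s : Finset ι) (a b : ι → ℕ) :
    (∑ i ∈ s, a i • ({b i} : Multiset ℕ)).sum = ∑ i ∈ s, b i * a i := by
  classical
  induction s using Finset.induction_on with
  | empty => simp
  | insert i s hi h =>
    rw [Finset.sum_insert hi, Finset.sum_insert hi, Multiset.sum_add, h, Multiset.sum_nsmul,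
      Multiset.sum_singleton, smul_eq_mul, mul_comm]

theorem mem_Span {n : ℕ} (g : B n) (hh : g.IsHomogeneous (2 * n)) (hg : ∀ s ε, wa s ε g = g) :
    g ∈ Submodule.span ℂ (Set.range fun μ : n.Partition => (em μ X : B n)) := by
  obtain ⟨g1, hs, h1⟩ := half_Span g hg
  obtain ⟨Q, hQ⟩ := esymmAlgHom_fin_surjective ℂ (le_refl n) ⟨g1, hs⟩
  have hQ1 : g1 = aeval (fun i : Fin n => esymm (Fin n) ℂ (i + 1)) Q := by
    rw [← esymmAlgHom_apply, hQ]
  have hsum : g = ∑ m ∈ Q.support, coeff m Q • ∏ i : Fin n, E_Span n (i + 1) ^ m i := by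
    rw [← h1, hQ1]
    conv_lhs => rw [Q.as_sum]
    rw [map_sum, map_sum]
    refine Finset.sum_congr rfl fun m _ => ?_
    rw [aeval_monomial, Finsupp.prod_fintype _ _ (by simp), map_mul, map_prod, algebraMap_eq,
      expand_C, smul_eq_C_mul]
    simp only [map_pow, E_Span]
  have hc : g = homogeneousComponent (2 * n) g := by
    rw [homogeneousComponent_of_mem hh, if_pos rfl]
  rw [hc, hsum, map_sum]
  refine Submodule.sum_mem _ fun m _ => ?_
  rw [map_smul]
  refine Submodule.smul_mem _ _ ?_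
  have hp : (∏ i : Fin n, E_Span n (i + 1) ^ m i).IsHomogeneous
      (∑ i : Fin n, 2 * (i.1 + 1) * m i) :=
    IsHomogeneous.prod _ _ _ fun i _ => (E_hom_Span n (i + 1)).pow _
  rw [homogeneousComponent_of_mem hp]
  split_ifs with e
  · have e' : ∑ i : Fin n, (i.1 + 1) * m i = n := by
      simp only [mul_assoc, ← Finset.mul_sum] at e
      omega
    refine Submodule.subset_span ⟨⟨∑ i : Fin n, m i • {i.1 + 1}, ?_, ?_⟩, ?_⟩
    · intro k hk
      obtain ⟨i, -, hi⟩ := Multiset.mem_sum.1 hk
      have := Multiset.mem_singleton.1 (Multiset.mem_of_mem_nsmul hi)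
      omega
    · rw [parts_sum_Span, e']
    · simp only [em, ← E_eq_Span]
      exact parts_Span _ _ _ _
  · exact Submodule.zero_mem _

theorem s_span (n : ℕ) : SSpan n := by
  let f := Fintype.linearCombination ℂ fun μ : n.Partition => (em μ X : B n)
  obtain ⟨r, hr⟩ := f.rangeRestrict.exists_rightInverse_of_surjective f.range_rangeRestrict
  obtain ⟨R, hR⟩ := r.exists_extend
  refine ⟨fun μ => (LinearMap.proj μ).comp R, fun g hh hg => ?_⟩
  have hm : g ∈ LinearMap.range f := by
    rw [Fintype.range_linearCombination]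
    exact mem_Span g hh hg
  have h1 : R g = r ⟨g, hm⟩ := by
    rw [← hR]
    rfl
  have h2 : f (r ⟨g, hm⟩) = g := congrArg Subtype.val (LinearMap.congr_fun hr ⟨g, hm⟩)
  rw [← h1, Fintype.linearCombination_apply] at h2
  exact h2.symm

end Pool.Agent.MP_12a176_ag.HC
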