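import Pool.Agent.Mg.F12a176.Ge2ae14

/- Statements of the steps for the Harish-Chandra inequalities. -/

set_option autoImplicit false

namespace Pool.Agent.MP_12a176_ag.HC

open Complex Matrix MvPolynomial
open scoped ComplexOrder ComplexConjugate Manifold ContDiff

noncomputable section

universe u

section dop

variable {σ : Type}

theorem pd_comm (i j : σ) (p : MvPolynomial σ ℂ) :
    pderiv i (pderiv j p) = pderiv j (pderiv i p) := by
  classical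
  induction p using MvPolynomial.induction_on with
  | C a => simp
  | add p q h h' => simp only [map_add, h, h']
  | mul_X p k h =>
    simp only [Derivation.leibniz, smul_eq_mul, map_add, h, pderiv_X, Pi.single_apply]
    split_ifs <;> simp <;> ring

theorem exists_Dop (σ : Type) : ∃ D : MvPolynomial σ ℂ →ₐ[ℂ] Module.End ℂ (MvPolynomial σ ℂ),
    ∀ k q, D (X k) q = pderiv k q := by
  let s : Set (Module.End ℂ (MvPolynomial σ ℂ)) := Set.range fun k => (pderiv k).toLinearMap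
  have := Algebra.isMulCommutative_adjoin ℂ (s := s) (by
    rintro _ ⟨i, rfl⟩ _ ⟨j, rfl⟩
    exact LinearMap.ext fun p => pd_comm i j p)
  open scoped IsMulCommutative in
  exact ⟨(Algebra.adjoin ℂ s).val.comp (aeval fun k => ⟨_, Algebra.subset_adjoin ⟨k, rfl⟩⟩),
    fun k q => by rw [AlgHom.comp_apply, aeval_X]; rfl⟩

/-- The differential operator with constant coefficients attached to a polynomial. -/
def Dop : MvPolynomial σ ℂ →ₐ[ℂ] Module.End ℂ (MvPolynomial σ ℂ) := (exists_Dop σ).choose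

theorem Dop_X (k : σ) (q : MvPolynomial σ ℂ) : Dop (X k) q = pderiv k q :=
  (exists_Dop σ).choose_spec k q

theorem Dop_C (a : ℂ) (q : MvPolynomial σ ℂ) : Dop (C a) q = a • q := by
  rw [← algebraMap_eq, AlgHom.commutes]; rfl

theorem Dop_mul (p p' q : MvPolynomial σ ℂ) : Dop (p * p') q = Dop p (Dop p' q) := by
  rw [map_mul]; rfl

theorem Dop_mul_X (p q : MvPolynomial σ ℂ) (k : σ) :
    Dop p (X k * q) = X k * Dop p q + Dop (pderiv k p) q := by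
  classical
  induction p using MvPolynomial.induction_on generalizing q with
  | C a => simp
  | add p p' h h' => simp only [map_add, LinearMap.add_apply, h, h']; ring
  | mul_X p i h =>
    simp only [Dop_mul, Dop_X, Derivation.leibniz, smul_eq_mul, map_add, h, LinearMap.add_apply,
      mul_comm (X i), pderiv_X, Pi.single_apply]
    by_cases e : i = k
    · subst e; simp; ring
    · simp [e, Ne.symm e]

/-- Multiplication operators. -/
def Mul (p : MvPolynomial σ ℂ) : Module.End ℂ (MvPolynomial σ ℂ) := LinearMap.mulLeft ℂ p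

/-- The commutator with a multiplication operator. -/
def adM (Q : MvPolynomial σ ℂ) (S : Module.End ℂ (MvPolynomial σ ℂ)) :
    Module.End ℂ (MvPolynomial σ ℂ) := S * Mul Q - Mul Q * S

end dop

/-- The index set. -/
abbrev K (n : ℕ) : Type := Fin n ⊕ Fin n

/-- Polynomials in the matrix entries. -/
abbrev A (n : ℕ) : Type := MvPolynomial (K n × K n) ℂ

/-- Polynomials on the Cartan subalgebra. -/
abbrev B (n : ℕ) : Type := MvPolynomial (Fin n) ℂ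

/-- The standard skew matrix. -/
abbrev JJ (n : ℕ) (R : Type) [CommRing R] : Matrix (K n) (K n) R := Matrix.J (Fin n) R

/-- The universal matrix. -/
abbrev XX (n : ℕ) : Matrix (K n) (K n) (A n) := mvPolynomialX (K n) (K n) ℂ

variable {n : ℕ}

/-- The symplectic Lie algebra. -/
def IsSp {R : Type} [CommRing R] (Y : Matrix (K n) (K n) R) : Prop := Y * JJ n R + JJ n R * Yᵀ = 0

/-- The compact symplectic group. -/
def Grp (U : Matrix (K n) (K n) ℂ) : Prop := Uᴴ * U = 1 ∧ U * JJ n ℂ * Uᵀ = JJ n ℂ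

/-- The Cartan subalgebra. -/
def dg (y : Fin n → ℝ) : Matrix (K n) (K n) ℂ :=
  diagonal (Sum.elim (fun k => I * y k) fun k => -(I * y k))

/-- The linear form `X ↦ tr (X Y)`. -/
def ell (Y : Matrix (K n) (K n) ℂ) : A n := ∑ a : K n × K n, Y a.2 a.1 • X a

/-- Evaluation at the entries of a matrix. -/
def av {R : Type} [CommRing R] [Algebra ℂ R] (Z : Matrix (K n) (K n) R) : A n →ₐ[ℂ] R :=
  aeval fun a => Z a.1 a.2

/-- Positive on an adjoint orbit. -/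
def Pos (ξ : Fin n → ℝ) (E : A n →ₗ[ℂ] ℂ) : Prop :=
  ∀ P, (∀ U, Grp U → 0 ≤ av (U * dg ξ * Uᴴ) P) → 0 ≤ E P

/-- Invariant under the group. -/
def GInv (E : A n →ₗ[ℂ] ℂ) : Prop :=
  ∀ U, Grp U → ∀ P, E (av (U.map C * XX n * Uᴴ.map C) P) = E P

/-- The vector field `X ↦ [Z, X]`. -/
def LZ (Z : Matrix (K n) (K n) ℂ) : Derivation ℂ (A n) (A n) :=
  mkDerivation ℂ fun a =>
    (Z.map C * XX n - XX n * Z.map C : Matrix (K n) (K n) (A n)) a.1 a.2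

/-- Invariant functionals supported on the symplectic Lie algebra. -/
structure Adm (ν : A n →ₗ[ℂ] ℂ) : Prop where
  supp : ∀ a b P, ν ((XX n * JJ n (A n) + JJ n (A n) * (XX n)ᵀ) a b * P) = 0
  inv : ∀ Z, IsSp Z → ∀ P, ν (LZ Z P) = 0

/-- Functions of the diagonal entries. -/
def io : B n →ₐ[ℂ] A n :=
  aeval fun k => (-I / 2) • (X (Sum.inl k, Sum.inl k) - X (Sum.inr k, Sum.inr k))

/-- The product of the positive roots, as a determinant. -/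
def del {R : Type} [CommRing R] (y : Fin n → R) : R :=
  (Matrix.of fun i j : Fin n => y i ^ (2 * j.1 + 1)).det

/-- The weights. -/
def lam : K n → B n := Sum.elim X fun k => -X k

/-- The multiplicities. -/
def mu (a b : K n) : ℂ := if b = a.swap then 2 else 1

/-- The projection to the symplectic Lie algebra. -/
def pr {R : Type} [CommRing R] [Algebra ℂ R] (Z : Matrix (K n) (K n) R) : Matrix (K n) (K n) R :=
  (1 / 2 : ℂ) • (Z + JJ n R * Zᵀ * JJ n R)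

/-- Invariant polynomials. -/
def pw (n m : ℕ) : A n := (pr (XX n) ^ (2 * m)).trace

/-- The quadratic invariant. -/
def QQ (n : ℕ) : A n := ∑ a : K n × K n, X a * X a.swap

/-- Even power sums. -/
def ps (n m : ℕ) : B n := ∑ k, X k ^ (2 * m)

/-- The functional on the Cartan subalgebra attached to an invariant functional. -/
def RR (ν : A n →ₗ[ℂ] ℂ) : B n →ₗ[ℂ] ℂ := ν ∘ₗ io.toLinearMap ∘ₗ Dop (del X)

/-- The Weyl group action. -/
def wa (s : Equiv.Perm (Fin n)) (ε : Fin n → ℤˣ) : B n →ₐ[ℂ] B n :=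
  aeval fun k => ((ε k : ℤ) : ℂ) • X (s k)

/-- The sign character. -/
def sg (s : Equiv.Perm (Fin n)) (ε : Fin n → ℤˣ) : ℤ := (Equiv.Perm.sign s * ∏ k, ε k : ℤˣ)

/-- The alternating sum of powers. -/
def alt (ξ y : Fin n → ℝ) : ℝ := ∑ s : Equiv.Perm (Fin n), ∑ ε : Fin n → ℤˣ,
  (sg s ε : ℝ) * (∑ k, ((ε k : ℤ) : ℝ) * ξ (s k) * y k) ^ (n ^ 2 + 2 * n)

/-- Products of elementary symmetric functions of the squares. -/
def em {R : Type} [CommRing R] (μ : n.Partition) (y : Fin n → R) : R :=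
  (μ.parts.map fun k => (Finset.univ.val.map fun i => y i ^ 2).esymm k).prod

/-- Chern monomials. -/
def cm (μ : n.Partition) : MvPolynomial (Fin (2 * n) × Fin (2 * n)) ℂ :=
  (μ.parts.map fun k => chernPoly (2 * n) (2 * k)).prod

/-- The reindexing. -/
def eK (n : ℕ) : K n ≃ Fin (2 * n) := finSumFinEquiv.trans (finCongr (two_mul n).symm)

/-- Quaternionic spectral theorem. -/
def SSpec (n : ℕ) : Prop := ∀ (α : Type) [Fintype α] [DecidableEq α], Fintype.card α = 2 * n →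
  ∀ (S T : Matrix α α ℂ) (ε : ℝ), Sᵀ = -S → S.det ≠ 0 → Tᴴ = T →
    T * S = (ε : ℂ) • (S * T.map conj) →
    (∀ (v : α → ℂ) (μ : ℂ), T *ᵥ v = μ • v → ∃ ν : ℂ, (S * S.map conj) *ᵥ v = ν • v) →
    ∃ (U : Matrix α (K n) ℂ) (d μ : Fin n → ℝ), (∀ i, 0 < d i) ∧ Uᴴ * U = 1 ∧
      T * U = U * diagonal (Sum.elim (fun i => (μ i : ℂ)) fun i => (ε : ℂ) * μ i) ∧
      S * U.map conj =
        U * fromBlocks 0 (-diagonal fun i => (d i : ℂ)) (diagonal fun i => (d i : ℂ)) 0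

/-- Conjugation to the Cartan subalgebra. -/
def SDiag (n : ℕ) : Prop :=
  ∀ Y : Matrix (K n) (K n) ℂ, Yᴴ = -Y → IsSp Y → ∃ U y, Grp U ∧ Y = U * dg y * Uᴴ

/-- A unitary symplectic frame. -/
def SFrame (n : ℕ) : Prop := ∀ (H S : Matrix (Fin (2 * n)) (Fin (2 * n)) ℂ)
  (Θ : Fin (2 * n) → Fin (2 * n) → Matrix (Fin (2 * n)) (Fin (2 * n)) ℂ), Curv H S Θ → Sᵀ = -S →
    ∃ g : Matrix (Fin (2 * n)) (Fin (2 * n)) ℂ, H = g * gᴴ ∧
      ∀ k l, IsSp ((g⁻¹ * Θ k l * g).submatrix (eK n) (eK n))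

/-- The orbital averages. -/
def SHaar (n : ℕ) : Prop := ∃ E : (Fin n → ℝ) → A n →ₗ[ℂ] ℂ, (∀ ξ, Pos ξ (E ξ)) ∧
  (∀ ξ, GInv (E ξ)) ∧ (∀ ξ, E ξ 1 = 1) ∧ ∀ P, Continuous fun ξ => E ξ P

/-- Infinitesimal invariance. -/
def SInf (n : ℕ) : Prop := ∀ E : A n →ₗ[ℂ] ℂ, GInv E → ∀ Z, IsSp Z → ∀ P, E (LZ Z P) = 0

/-- The iterated commutator. -/
def SAd : Prop := ∀ (σ : Type) [Fintype σ] (s : σ → σ), Function.Involutive s →
  ∀ (m : ℕ) (p : MvPolynomial σ ℂ), p.IsHomogeneous m →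
    (adM (∑ a, X a * X (s a)))^[m] (Dop p) = (2 ^ m * m.factorial : ℂ) • Mul (rename s p)

/-- Closure properties. -/
def SAdm (n : ℕ) : Prop := ∀ ν : A n →ₗ[ℂ] ℂ, Adm ν →
  Adm (ν ∘ₗ Mul (QQ n)) ∧ ∀ m, Adm (ν ∘ₗ Dop (pw n m))

/-- Invariant operators on functions of the diagonal. -/
def SIo (n : ℕ) : Prop := ∀ (m : ℕ) (q : B n),
  Dop (pw n m) (io q) = (2 * (-1 / 4) ^ m : ℂ) • io (Dop (ps n m) q)

/-- One root. -/
def SRoot (n : ℕ) : Prop := ∀ ν : A n →ₗ[ℂ] ℂ, Adm ν → ∀ a b : K n, a ≠ b → ∀ u : B n,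
  ν (X (a, b) * X (b, a) * io (Dop (lam a - lam b) u)) = -mu a b * ν (io ((lam a - lam b) * u))

/-- Cofactors of the roots. -/
def SCof (n : ℕ) : Prop := ∃ γ : K n → K n → B n,
  (∀ a b, a ≠ b → (lam a - lam b) * γ a b = del X) ∧ ∀ k, ∑ a, ∑ b ∈ Finset.univ.erase a,
    mu a b • (pderiv k (lam a - lam b) * γ a b) = (4 : ℂ) • pderiv k (del X : B n)

/-- The product of the roots is harmonic, homogeneous, alternating, of positive norm. -/
def SDel (n : ℕ) : Prop := ∑ k, pderiv k (pderiv k (del X : B n)) = 0 ∧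
  (del X : B n).IsHomogeneous (n ^ 2) ∧ (∀ s ε, wa s ε (del X : B n) = (sg s ε : ℂ) • del X) ∧
  ∃ r : ℝ, 0 < r ∧ Dop (del X : B n) (del X) = C (r : ℂ)

/-- The radial part of the Laplacian. -/
def SRad (n : ℕ) : Prop := ∀ ν : A n →ₗ[ℂ] ℂ, Adm ν →
  RR (ν ∘ₗ Mul (QQ n)) = (-2 : ℂ) • (RR ν ∘ₗ Mul (ps n 1))

/-- All invariant polynomials. -/
def SInt (n : ℕ) : Prop := ∀ ν : A n →ₗ[ℂ] ℂ, Adm ν → ∀ (m : ℕ) (q : B n),
  RR (ν ∘ₗ Mul (rename Prod.swap (pw n m))) q = 2 * (-1) ^ m * RR ν (ps n m * q)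

/-- The eigenvalue equations. -/
def SEig (n : ℕ) : Prop := ∀ (ξ : Fin n → ℝ) (E : A n →ₗ[ℂ] ℂ), Pos ξ E → GInv E →
  ∀ (m : ℕ) (q : B n), RR E (ps n m * q) = (∑ k, (ξ k : ℂ) ^ (2 * m)) * RR E q

/-- The Weyl group acts on the averages. -/
def SWeyl (n : ℕ) : Prop := ∀ E : A n →ₗ[ℂ] ℂ, GInv E → ∀ s ε (q : B n),
  E (io (wa s ε q)) = E (io q) ∧ RR E (wa s ε q) = (sg s ε : ℂ) * RR E q

/-- Joint eigenfunctionals are supported on the Weyl orbit. -/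
def SSupp (n : ℕ) : Prop := ∀ (ξ : Fin n → ℝ) (Λ : B n →ₗ[ℂ] ℂ), del ξ ≠ 0 →
  (∀ (m : ℕ) (q : B n), Λ (ps n m * q) = (∑ k, (ξ k : ℂ) ^ (2 * m)) * Λ q) →
  ∃ c : Equiv.Perm (Fin n) × (Fin n → ℤˣ) → ℂ, ∀ q,
    Λ q = ∑ w, c w * eval (fun k => (ξ k : ℂ)) (wa w.1 w.2 q)

/-- Alternating functionals on the Weyl orbit. -/
def SAlt (n : ℕ) : Prop := ∀ (z : Fin n → ℂ) (Λ : B n →ₗ[ℂ] ℂ),
  (∀ s ε q, Λ (wa s ε q) = (sg s ε : ℂ) * Λ q) →
  (∃ c : Equiv.Perm (Fin n) × (Fin n → ℤˣ) → ℂ, ∀ q, Λ q = ∑ w, c w * eval z (wa w.1 w.2 q)) →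
  ∃ c : ℂ, ∀ q, Λ q = c * ∑ s, ∑ ε, (sg s ε : ℂ) * eval z (wa s ε q)

/-- Operators on powers of linear forms. -/
def SLin (n : ℕ) : Prop := ∀ (d M : ℕ) (p : B n) (y : Fin n → ℂ), p.IsHomogeneous d →
  Dop p ((∑ k, y k • X k) ^ (d + M)) =
    (((d + M).descFactorial d : ℂ) * eval y p) • (∑ k, y k • X k) ^ M

/-- The alternating sum vanishes at singular points. -/
def SSing (n : ℕ) : Prop := ∀ ξ y : Fin n → ℝ, del ξ = 0 → alt ξ y = 0

/-- The formula of Harish-Chandra. -/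
def SHC (n : ℕ) : Prop := ∃ κ : ℝ, 0 < κ ∧ ∀ (ξ : Fin n → ℝ) (E : A n →ₗ[ℂ] ℂ), Pos ξ E → GInv E →
  E 1 = 1 → ∀ y : Fin n → ℝ, (κ * del ξ * del y : ℝ) * E (ell (dg y) ^ (2 * n)) = (alt ξ y : ℝ)

/-- Coordinates of Weyl invariants. -/
def SSpan (n : ℕ) : Prop := ∃ L : n.Partition → B n →ₗ[ℂ] ℂ, ∀ g : B n, g.IsHomogeneous (2 * n) →
  (∀ s ε, wa s ε g = g) → g = ∑ μ, L μ g • em μ X

/-- Continuous coefficients. -/
def SCoef (n : ℕ) : Prop := ∀ E : (Fin n → ℝ) → A n →ₗ[ℂ] ℂ, (∀ ξ, Pos ξ (E ξ)) →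
  (∀ ξ, GInv (E ξ)) → (∀ P, Continuous fun ξ => E ξ P) →
  ∃ a : n.Partition → (Fin n → ℝ) → ℝ, (∀ μ, Continuous (a μ)) ∧
    ∀ ξ y, E ξ (ell (dg y) ^ (2 * n)) = (∑ μ, a μ ξ * em μ y : ℝ)

/-- Chern polynomials on the Cartan subalgebra. -/
def SChern (n : ℕ) : Prop := ∀ (U : Matrix (K n) (K n) ℂ) (y : Fin n → ℝ) (μ : n.Partition),
  Uᴴ * U = 1 → (-(2 * Real.pi) ^ 2 : ℂ) ^ n *
    ev ((U * dg y * Uᴴ).submatrix (eK n).symm (eK n).symm) (cm μ) = (em μ y : ℝ)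

/-- Passage to a ring of coefficients. -/
def SRing (n : ℕ) : Prop := ∀ (ξ : Fin n → ℝ) (E : A n →ₗ[ℂ] ℂ)
  (P : MvPolynomial (Fin (2 * n) × Fin (2 * n)) ℂ), Pos ξ E →
  (∀ Y : Matrix (K n) (K n) ℂ, Yᴴ = -Y → IsSp Y →
    E (ell Y ^ (2 * n)) = (-1) ^ n * ev (Y.submatrix (eK n).symm (eK n).symm) P) →
  ∀ (R : Type) [CommRing R] [Algebra ℂ R] (Z : Matrix (K n) (K n) R) (T : R →ₗ[ℂ] ℂ), IsSp Z →
    (∀ η : Matrix (K n) (K n) ℂ, ηᴴ = -η →
      0 ≤ (-1) ^ n * T ((η.map (algebraMap ℂ R) * Z).trace ^ (2 * n))) →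
    0 ≤ T (ev (Z.submatrix (eK n).symm (eK n).symm) P)

/-- The pointwise inequality. -/
def SPoint (n : ℕ) : Prop := ∀ P : MvPolynomial (Fin (2 * n) × Fin (2 * n)) ℂ, Inv P →
  (∀ (R : Type) [CommRing R] [Algebra ℂ R] (Z : Matrix (K n) (K n) R) (T : R →ₗ[ℂ] ℂ), IsSp Z →
    (∀ η : Matrix (K n) (K n) ℂ, ηᴴ = -η →
      0 ≤ (-1) ^ n * T ((η.map (algebraMap ℂ R) * Z).trace ^ (2 * n))) →
    0 ≤ T (ev (Z.submatrix (eK n).symm (eK n).symm) P)) →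
  ∀ (R : Type) [CommRing R] [Algebra ℂ R] (x : Fin (2 * n) → Fin (2 * n) → R), Good x →
    ∀ H S Θ, Curv H S Θ → Sᵀ = -S → ∀ T : R →ₗ[ℂ] ℂ, T (vol x) = 1 → 0 ≤ T (ev (mform x Θ) P)

/-- Integration. -/
def SGlob (n : ℕ) : Prop := ∀ a : n.Partition → ℝ,
  (∀ (R : Type) [CommRing R] [Algebra ℂ R] (x : Fin (2 * n) → Fin (2 * n) → R), Good x →
    ∀ H S Θ, Curv H S Θ → Sᵀ = -S → ∀ T : R →ₗ[ℂ] ℂ, T (vol x) = 1 →
      0 ≤ T (ev (mform x Θ) (∑ μ, (a μ : ℂ) • cm μ))) →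
  ∀ (M : Type u) [TopologicalSpace M] [T2Space M] [CompactSpace M]
    [ChartedSpace (Fin (2 * n) → ℂ) M] [IsManifold 𝓘(ℂ, Fin (2 * n) → ℂ) ω M]
    (h σ : M → Matrix (Fin (2 * n)) (Fin (2 * n)) ℂ), IsHKMetric h σ →
    ∀ ρ : PartitionOfUnity M M Set.univ,
      ρ.IsSubordinate (fun p => (chartAt (Fin (2 * n) → ℂ) p).source) →
      0 ≤ ∑ μ, a μ * charNumber h ρ (cm μ)

theorem av_X {R : Type} [CommRing R] [Algebra ℂ R] (Z : Matrix (K n) (K n) R) (a : K n × K n) :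
    av Z (X a) = Z a.1 a.2 := aeval_X _ _

theorem av_ell (X Y : Matrix (K n) (K n) ℂ) : av X (ell Y) = (X * Y).trace := by
  simp only [ell, map_sum, map_smul, av_X, smul_eq_mul, trace, Matrix.diag, Matrix.mul_apply,
    Fintype.sum_prod_type, mul_comm]

theorem Pos.eq_zero {ξ : Fin n → ℝ} {E : A n →ₗ[ℂ] ℂ} (h : Pos ξ E) {P : A n}
    (hP : ∀ U, Grp U → av (U * dg ξ * Uᴴ) P = 0) : E P = 0 := by
  have h1 := h P fun X hX => (hP X hX).ge
  have h2 := h (-P) fun X hX => by rw [map_neg, hP X hX, neg_zero]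
  rw [map_neg] at h2
  exact le_antisymm (neg_nonneg.1 h2) h1

end

end Pool.Agent.MP_12a176_ag.HC
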