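import Pool.Agent.MP_12a176_ag.HC.St

/- Joint eigenfunctionals of the even power sums live on one Weyl orbit. -/

set_option autoImplicit false

namespace Pool.Agent.MP_12a176_ag.HC

open Complex Matrix MvPolynomial
open scoped ComplexOrder ComplexConjugate

theorem newton_Supp {R : Type} [CommRing R] [Algebra ℂ R] {n : ℕ} (u w : Fin n → R)
    (h : ∀ m, ∑ k, u k ^ m = ∑ k, w k ^ m) (x : R) : ∏ j, (x - u j) = ∏ j, (x - w j) := by
  have he : ∀ k, aeval u (esymm (Fin n) ℂ k) = aeval w (esymm (Fin n) ℂ k) := by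
    intro k
    induction k using Nat.strong_induction_on with
    | _ k ih =>
      rcases Nat.eq_zero_or_pos k with rfl | hk
      · simp
      have h2 : aeval u ((k : B n) * esymm _ ℂ k) = aeval w ((k : B n) * esymm _ ℂ k) := by
        rw [mul_esymm_eq_sum (Fin n) ℂ k]
        simp only [map_mul, map_sum, map_pow, map_neg, map_one]
        congr 1
        refine Finset.sum_congr rfl fun a ha => ?_
        rw [ih a.1 (Finset.mem_filter.1 ha).2]
        simp only [psum, map_sum, map_pow, aeval_X, h]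
      simp only [map_mul, map_natCast] at h2
      have hu : IsUnit (k : R) := by
        rw [← map_natCast (algebraMap ℂ R)]
        exact (IsUnit.mk0 _ (Nat.cast_ne_zero.2 hk.ne')).map _
      exact hu.mul_left_cancel h2
  have hp : ((Finset.univ.val.map u).map fun t => Polynomial.X - Polynomial.C t).prod =
      ((Finset.univ.val.map w).map fun t => Polynomial.X - Polynomial.C t).prod := by
    rw [Multiset.prod_X_sub_X_eq_sum_esymm, Multiset.prod_X_sub_X_eq_sum_esymm]
    simp only [Multiset.card_map, ← aeval_esymm_eq_multiset_esymm (Fin n) ℂ, he]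
  have := congrArg (Polynomial.eval x) hp
  simpa only [Polynomial.eval_multiset_prod, Finset.prod_eq_multiset_prod, Function.comp_def,
    Multiset.map_map, Polynomial.eval_sub, Polynomial.eval_X, Polynomial.eval_C] using this

theorem del_ne_Supp {n : ℕ} {ξ : Fin n → ℝ} (h : del ξ ≠ 0) :
    (∀ i, (ξ i : ℂ) ≠ 0) ∧ Function.Injective fun i => (ξ i : ℂ) ^ 2 := by
  have e : del ξ = (∏ i, ξ i) * (vandermonde fun i => ξ i ^ 2).det := by
    rw [← det_mul_column, del]
    congr 1
    ext i j
    simp only [of_apply, vandermonde_apply]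
    ring
  rw [e] at h
  refine ⟨fun i => ofReal_ne_zero.2 (Finset.prod_ne_zero_iff.1 (left_ne_zero_of_mul h) i
    (Finset.mem_univ i)), fun i j hij => ?_⟩
  refine det_vandermonde_ne_zero_iff.1 (right_ne_zero_of_mul h) ?_
  have h2 : (ξ i : ℂ) ^ 2 = (ξ j : ℂ) ^ 2 := hij
  exact_mod_cast h2

/-- The annihilator of a functional. -/
def ann_Supp {n : ℕ} (Λ : B n →ₗ[ℂ] ℂ) : Ideal (B n) where
  carrier := {r | ∀ q, Λ (r * q) = 0}
  add_mem' := fun {a b} ha hb q => by rw [add_mul, map_add, ha q, hb q, add_zero]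
  zero_mem' := fun q => by rw [zero_mul, map_zero]
  smul_mem' := fun c r hr q => by rw [smul_eq_mul, mul_comm c, mul_assoc, hr]

theorem split_Supp {n : ℕ} {ι : Type} [Fintype ι] [DecidableEq ι] (hι : Fin n → ι) (v : ι → ℂ)
    (hv : Function.Injective v) (Λ : B n →ₗ[ℂ] ℂ)
    (h : ∀ i, ∏ a, (X i - C (v a)) ∈ ann_Supp Λ) :
    ∃ b : (Fin n → ι) → B n, ∑ t, b t = 1 ∧
      ∀ t q, Λ (q * b t) = eval (fun k => v (t k)) q * Λ (b t) := by
  let β : Fin n → ι → B n := fun i a => Polynomial.aeval (X i) (Lagrange.basis Finset.univ v a)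
  refine ⟨fun t => ∏ i, β i (t i), ?_, fun t q => ?_⟩
  · rw [← Fintype.piFinset_univ, ← Finset.prod_univ_sum]
    refine Finset.prod_eq_one fun i _ => ?_
    simp only [β]
    rw [← map_sum, Lagrange.sum_basis hv.injOn ⟨hι i, Finset.mem_univ _⟩, map_one]
  · have h1 : ∀ i, (X i - C (v (t i))) * ∏ j, β j (t j) ∈ ann_Supp Λ := by
      intro i
      rw [← Finset.mul_prod_erase _ _ (Finset.mem_univ i), ← mul_assoc]
      refine Ideal.mul_mem_right _ _ ?_
      have e : (X i - C (v (t i))) * β i (t i) =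
          C (∏ a ∈ Finset.univ.erase (t i), (v (t i) - v a)⁻¹) * ∏ a, (X i - C (v a)) := by
        rw [← Finset.mul_prod_erase _ _ (Finset.mem_univ (t i))]
        simp only [β, Lagrange.basis, Lagrange.basisDivisor, map_prod, map_mul, map_sub,
          Polynomial.aeval_C, Polynomial.aeval_X, algebraMap_eq, Finset.prod_mul_distrib]
        ring
      rw [e]
      exact Ideal.mul_mem_left _ _ (h i)
    have h2 : (q - C (eval (fun k => v (t k)) q)) * ∏ j, β j (t j) ∈ ann_Supp Λ := by
      induction q using MvPolynomial.induction_on with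
      | C a => rw [eval_C, sub_self, zero_mul]; exact zero_mem _
      | add p q hp hq =>
        have := add_mem hp hq
        rw [map_add, map_add]
        rwa [← add_mul, ← add_sub_add_comm] at this
      | mul_X p i hp =>
        have := add_mem (Ideal.mul_mem_left _ p (h1 i)) (Ideal.mul_mem_left _ (C (v (t i))) hp)
        rw [map_mul, eval_X, map_mul]
        refine (congrArg (· ∈ ann_Supp Λ) ?_).mp this
        ring
    have h3 := h2 1
    rwa [mul_one, sub_mul, map_sub, sub_eq_zero, C_mul', map_smul, smul_eq_mul] at h3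

theorem s_supp (n : ℕ) : SSupp n := by
  classical
  intro ξ Λ hξ hΛ
  obtain ⟨h0, hinj⟩ := del_ne_Supp hξ
  let z : Fin n → ℂ := fun k => ξ k
  let σ : K n → Fin n := Sum.elim id id
  let e : K n → ℤˣ := Sum.elim (fun _ => 1) fun _ => -1
  let v : K n → ℂ := fun a => ((e a : ℤ) : ℂ) * z (σ a)
  have vl : ∀ k, v (Sum.inl k) = z k := fun k => by simp [v, e, σ]
  have vr : ∀ k, v (Sum.inr k) = -z k := fun k => by simp [v, e, σ]
  have v2 : ∀ a, v a ^ 2 = z (σ a) ^ 2 := by
    rintro (k | k)
    · rw [vl]; rfl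
    · rw [vr, neg_sq]; rfl
  have hv : Function.Injective v := by
    intro a b hab
    have h1 : σ a = σ b := hinj (by simp only; rw [← v2, ← v2, hab])
    rcases a with a | a <;> rcases b with b | b <;> obtain rfl : a = b := h1
    · rfl
    · rw [vl, vr] at hab
      exact absurd (self_eq_neg.1 hab) (h0 a)
    · rw [vl, vr] at hab
      exact absurd (neg_eq_self.1 hab) (h0 a)
    · rfl
  have hF : ∀ i, ∏ a, (X i - C (v a)) ∈ ann_Supp Λ := by
    intro i
    let π := Ideal.Quotient.mk (ann_Supp Λ)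
    have h1 := newton_Supp (fun k => π (X k ^ 2)) (fun k => π (C (z k ^ 2))) (fun m => by
      simp only [← map_pow, ← map_sum]
      refine Ideal.Quotient.eq.2 fun q => ?_
      simp only [← pow_mul]
      rw [sub_mul, map_sub, C_mul', map_smul, smul_eq_mul]
      exact sub_eq_zero.2 (hΛ m q)) (π (X i ^ 2))
    rw [Finset.prod_eq_zero (Finset.mem_univ i) (sub_self _)] at h1
    simp only [← map_sub, ← map_prod] at h1
    refine (congrArg (· ∈ ann_Supp Λ) ?_).mp (Ideal.Quotient.eq_zero_iff_mem.1 h1.symm)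
    rw [Fintype.prod_sum_type, ← Finset.prod_mul_distrib]
    refine Finset.prod_congr rfl fun j _ => ?_
    rw [vl, vr, map_neg, map_pow]
    ring
  obtain ⟨b, hb1, hb⟩ := split_Supp Sum.inl v hv Λ hF
  have hW : ∀ t, ∃ w : Equiv.Perm (Fin n) × (Fin n → ℤˣ), ∀ q,
      Λ (q * b t) = Λ (b t) * eval z (wa w.1 w.2 q) := by
    intro t
    by_cases ht : Λ (b t) = 0
    · exact ⟨(1, 1), fun q => by rw [hb, ht, mul_zero, zero_mul]⟩
    have h1 : ∀ m, ∑ k, (z (σ (t k)) ^ 2) ^ m = ∑ k, (z k ^ 2) ^ m := by
      intro m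
      have h2 := mul_right_cancel₀ ht ((hb t (ps n m)).symm.trans (hΛ m (b t)))
      simpa only [ps, map_sum, map_pow, eval_X, pow_mul, v2] using h2
    have hs : Function.Surjective fun k => σ (t k) := by
      intro j
      obtain ⟨k, -, hk⟩ := Finset.prod_eq_zero_iff.1 ((newton_Supp _ _ h1 (z j ^ 2)).trans
        (Finset.prod_eq_zero (Finset.mem_univ j) (sub_self _)))
      exact ⟨k, (hinj (sub_eq_zero.1 hk)).symm⟩
    refine ⟨(Equiv.ofBijective _ (Finite.surjective_iff_bijective.1 hs), fun k => e (t k)),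
      fun q => ?_⟩
    rw [hb, mul_comm]
    congr 1
    induction q using MvPolynomial.induction_on with
    | C a => simp [wa]
    | add p q hp hq => simp only [map_add, hp, hq]
    | mul_X p i hp =>
      simp only [map_mul, hp]
      simp [wa, v]
  choose W hW using hW
  refine ⟨fun w => ∑ t, if W t = w then Λ (b t) else 0, fun q => ?_⟩
  simp only [Finset.sum_mul, ite_mul, zero_mul]
  rw [Finset.sum_comm]
  simp only [Finset.sum_ite_eq, Finset.mem_univ, if_true]
  rw [← mul_one q, ← hb1, Finset.mul_sum, map_sum]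
  refine Finset.sum_congr rfl fun t _ => ?_
  rw [← Finset.mul_sum, hb1, mul_one]
  exact hW t q

end Pool.Agent.MP_12a176_ag.HC
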