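import Pool.Agent.MP_12a176_ag.HC.St

set_option autoImplicit false

namespace Pool.Agent.MP_12a176_ag.HC

open Complex Matrix MvPolynomial
open scoped ComplexOrder ComplexConjugate

theorem mono_Weyl {R ι : Type} [CommRing R] [Fintype ι] [DecidableEq ι] (π : ι → ι)
    (e f : ι → R) (U V M : Matrix ι ι R) (hU : ∀ c d, U c d = if d = π c then e c else 0)
    (hV : ∀ c d, V c d = if c = π d then f d else 0) (c d : ι) :
    (U * M * V) c d = e c * M (π c) (π d) * f d := by
  simp [Matrix.mul_apply, hU, hV]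

/-- the signed permutation on the index set -/
def pi_Weyl {n : ℕ} (s : Equiv.Perm (Fin n)) (ε : Fin n → ℤˣ) : K n → K n :=
  Sum.elim (fun k => if ε k = 1 then Sum.inl (s k) else Sum.inr (s k))
    (fun k => if ε k = 1 then Sum.inr (s k) else Sum.inl (s k))

/-- the signs -/
def e_Weyl {n : ℕ} (ε : Fin n → ℤˣ) : K n → ℂ :=
  Sum.elim (fun k => if ε k = 1 then 1 else -1) (fun _ => 1)

theorem e_sq_Weyl {n : ℕ} (ε : Fin n → ℤˣ) (c : K n) : e_Weyl ε c * e_Weyl ε c = 1 := by
  rcases c with k | k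
  · by_cases h : ε k = 1 <;> simp [e_Weyl, h]
  · simp [e_Weyl]

theorem e_star_Weyl {n : ℕ} (ε : Fin n → ℤˣ) (c : K n) : star (e_Weyl ε c) = e_Weyl ε c := by
  rcases c with k | k
  · by_cases h : ε k = 1 <;> simp [e_Weyl, h]
  · simp [e_Weyl]

theorem pi_inj_Weyl {n : ℕ} (s : Equiv.Perm (Fin n)) (ε : Fin n → ℤˣ) :
    Function.Injective (pi_Weyl s ε) := by
  rintro (k | k) (l | l) h <;> by_cases h1 : ε k = 1 <;> by_cases h2 : ε l = 1 <;>
    simp [pi_Weyl, h1, h2] at h ⊢ <;> first | exact h | (subst h; contradiction)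

theorem exists_U_Weyl {n : ℕ} (s : Equiv.Perm (Fin n)) (ε : Fin n → ℤˣ) :
    ∃ U : Matrix (K n) (K n) ℂ, Grp U ∧ ∀ c,
      (U.map C * XX n * Uᴴ.map C : Matrix (K n) (K n) (A n)) c c
        = X (pi_Weyl s ε c, pi_Weyl s ε c) := by
  let U : Matrix (K n) (K n) ℂ := Matrix.of fun c d => if d = pi_Weyl s ε c then e_Weyl ε c else 0
  have hU : ∀ c d, U c d = if d = pi_Weyl s ε c then e_Weyl ε c else 0 := fun _ _ => rfl
  have hT : ∀ c d, Uᵀ c d = if c = pi_Weyl s ε d then e_Weyl ε d else 0 := fun _ _ => rfl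
  have hH : ∀ c d, Uᴴ c d = if c = pi_Weyl s ε d then e_Weyl ε d else 0 := by
    intro c d
    rw [conjTranspose_apply, hU]
    split_ifs
    · exact e_star_Weyl ε d
    · exact star_zero _
  refine ⟨U, ⟨?_, ?_⟩, fun c => ?_⟩
  · rw [mul_eq_one_comm]
    suffices h : U * 1 * Uᴴ = 1 by rwa [Matrix.mul_one] at h
    ext c d
    rw [mono_Weyl _ _ _ _ _ _ hU hH, Matrix.one_apply, Matrix.one_apply]
    simp only [(pi_inj_Weyl s ε).eq_iff]
    split_ifs with h
    · rw [h, mul_one, e_sq_Weyl]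
    · simp
  · ext c d
    rw [mono_Weyl _ _ _ _ _ _ hU hT]
    rcases c with k | k <;> rcases d with l | l <;> by_cases h1 : ε k = 1 <;>
      by_cases h2 : ε l = 1 <;>
      simp [pi_Weyl, e_Weyl, h1, h2, Matrix.J, Matrix.one_apply] <;>
      first | (rintro rfl; contradiction) | (split_ifs <;> simp)
  · rw [mono_Weyl (pi_Weyl s ε) (fun c => C (e_Weyl ε c)) (fun c => C (e_Weyl ε c))]
    · rw [mul_right_comm, ← map_mul, e_sq_Weyl, map_one, one_mul]
      rfl
    · intro c d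
      rw [map_apply, hU]
      split_ifs <;> simp
    · intro c d
      rw [map_apply, hH]
      split_ifs <;> simp

theorem wa_X_Weyl {n : ℕ} (s : Equiv.Perm (Fin n)) (ε : Fin n → ℤˣ) (k : Fin n) :
    wa s ε (X k) = ((ε k : ℤ) : ℂ) • X (s k) := aeval_X _ _

theorem first_Weyl {n : ℕ} (E : A n →ₗ[ℂ] ℂ) (hE : GInv E) (s : Equiv.Perm (Fin n))
    (ε : Fin n → ℤˣ) (q : B n) : E (io (wa s ε q)) = E (io q) := by
  obtain ⟨U, hU, hc⟩ := exists_U_Weyl s ε
  rw [← hE U hU (io q)]
  congr 1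
  have : io.comp (wa s ε) = (av (U.map C * XX n * Uᴴ.map C)).comp io := by
    refine algHom_ext fun k => ?_
    have hio : ∀ k : Fin n, io (X k : B n)
        = (-I / 2) • (X (Sum.inl k, Sum.inl k) - X (Sum.inr k, Sum.inr k)) :=
      fun k => aeval_X _ _
    rw [AlgHom.comp_apply, AlgHom.comp_apply, wa_X_Weyl, map_smul, hio, hio, map_smul, map_sub,
      av_X, av_X, hc, hc]
    rcases Int.units_eq_one_or (ε k) with h | h
    · simp [pi_Weyl, h]
    · have h' : ε k ≠ 1 := by rw [h]; decide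
      simp only [pi_Weyl, Sum.elim_inl, Sum.elim_inr, if_neg h']
      rw [h, smul_comm]
      simp
  exact DFunLike.congr_fun this q

theorem eps_sq_Weyl (u : ℤˣ) : ((u : ℤ) : ℂ) * ((u : ℤ) : ℂ) = 1 := by
  rw [← Int.cast_mul, ← Units.val_mul, Int.units_mul_self, Units.val_one, Int.cast_one]

theorem pderiv_wa_Weyl {n : ℕ} (s : Equiv.Perm (Fin n)) (ε : Fin n → ℤˣ) (k : Fin n) (q : B n) :
    pderiv (s k) (wa s ε q) = ((ε k : ℤ) : ℂ) • wa s ε (pderiv k q) := by
  induction q using MvPolynomial.induction_on with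
  | C a => simp
  | add p q h h' => simp only [map_add, h, h', smul_add]
  | mul_X p l h =>
    simp only [map_mul, wa_X_Weyl, Derivation.leibniz, smul_eq_mul, map_add, h, pderiv_X,
      Pi.single_apply, Derivation.map_smul, s.injective.eq_iff]
    by_cases e : l = k
    · subst e
      simp
    · simp [e]

theorem Dop_wa_Weyl {n : ℕ} (s : Equiv.Perm (Fin n)) (ε : Fin n → ℤˣ) (p q : B n) :
    Dop (wa s ε p) (wa s ε q) = wa s ε (Dop p q) := by
  induction p using MvPolynomial.induction_on generalizing q with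
  | C a => rw [algHom_C, algebraMap_eq, Dop_C, Dop_C, map_smul]
  | add p p' h h' => simp only [map_add, LinearMap.add_apply, h, h']
  | mul_X p k h =>
    rw [map_mul, Dop_mul, Dop_mul, wa_X_Weyl, map_smul, LinearMap.smul_apply, Dop_X, Dop_X,
      pderiv_wa_Weyl, smul_smul, eps_sq_Weyl, one_smul, h]

theorem s_weyl {n : ℕ} (h : SDel n) : SWeyl n := by
  intro E hE s ε q
  refine ⟨first_Weyl E hE s ε q, ?_⟩
  have h1 := Dop_wa_Weyl s ε (del X) q
  rw [h.2.2.1 s ε, map_smul, LinearMap.smul_apply] at h1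
  have h2 : (sg s ε : ℂ) * (sg s ε : ℂ) = 1 := eps_sq_Weyl _
  have h3 : Dop (del X : B n) (wa s ε q) = (sg s ε : ℂ) • wa s ε (Dop (del X) q) := by
    rw [← h1, smul_smul, h2, one_smul]
  change E (io (Dop (del X) (wa s ε q))) = _ * E (io (Dop (del X) q))
  rw [h3, map_smul, map_smul, first_Weyl E hE, smul_eq_mul]

end Pool.Agent.MP_12a176_ag.HC
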